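import Pool.Agent.helper42.L9.Eph6

/-!
# E-phase: certificate blocks
-/

set_option linter.unusedSimpArgs false

namespace Helper42.L9

open Finset Helper33.L9

variable {V : Type*} {own : V → V → Prop} {c : V → ℕ} {M N : Multiset (Sym2 V)}

/-- number of edges at `i` -/
def cnt {n : ℕ} (E : List (Fin n × Fin n)) (i : Fin n) : ℕ :=
  E.countP fun p => decide (i = p.1 ∨ i = p.2)

/-- the edges as a multiset in `V` -/
def emb {n : ℕ} (f : Fin n → V) (E : List (Fin n × Fin n)) : Multiset (Sym2 V) :=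
  (E.map fun p => s(f p.1, f p.2) : List (Sym2 V))

theorem emb_append {n : ℕ} (f : Fin n → V) (E C : List (Fin n × Fin n)) :
    emb f (E ++ C) = emb f E + emb f C := by
  unfold emb
  rw [List.map_append, Multiset.coe_add]

theorem mem_emb {n : ℕ} {f : Fin n → V} {E : List (Fin n × Fin n)} {e : Sym2 V} :
    e ∈ emb f E ↔ ∃ p ∈ E, s(f p.1, f p.2) = e := by
  unfold emb
  rw [Multiset.mem_coe, List.mem_map]

theorem dg_emb {n : ℕ} {f : Fin n → V} (hf : Function.Injective f) (E : List (Fin n × Fin n))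
    (i : Fin n) : dg (emb f E) (f i) = cnt E i := by
  classical
  unfold dg emb cnt
  rw [Multiset.coe_countP, List.countP_map]
  refine List.countP_congr fun p _ => ?_
  simp only [Function.comp_apply, Sym2.mem_iff, decide_eq_true_eq]
  rw [hf.eq_iff, hf.eq_iff]

theorem inn_add (A : Finset V) (M N : Multiset (Sym2 V)) : inn A (M + N) = inn A M + inn A N := by
  classical
  unfold inn
  exact Multiset.filter_add _ _ _

/-- a certificate for the edges inside of a block -/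
theorem AT.certBlock {n : ℕ} (f : Fin n → V) (hf : Function.Injective f)
    (hl : ∀ e ∈ M, ¬ e.IsDiag) (I : Finset (Fin n)) (E C : List (Fin n × Fin n))
    (τ : Fin n → ℕ) (i₀ : Fin n)
    (hnd : ((E ++ C).map fun p => s(p.1, p.2)).Nodup)
    (hmem : ∀ p ∈ E ++ C, s(f p.1, f p.2) ∈ M)
    (hI : ∀ p ∈ E, p.1 ∈ I ∧ p.2 ∈ I) (hC : ∀ p ∈ C, p.2 ∉ I)
    (hsat : ∀ i ∈ I, i ≠ i₀ → dg M (f i) ≤ cnt (E ++ C) i)
    (hco : co E τ ≠ 0)
    (hc : ∀ i ∈ I, τ i + dg M (f i) ≤ c (f i) + cnt E i)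
    (h2 : AT (outt (I.map ⟨f, hf⟩) M) c) : AT M c := by
  classical
  have hnd' : (emb f (E ++ C)).Nodup := by
    unfold emb
    rw [Multiset.coe_nodup]
    have h1 : ((E ++ C).map fun p => s(f p.1, f p.2)) =
        ((E ++ C).map fun p => s(p.1, p.2)).map (Sym2.map f) := by
      rw [List.map_map]
      rfl
    rw [h1]
    exact hnd.map (Sym2.map.injective hf)
  have hle : emb f (E ++ C) ≤ M := by
    rw [Multiset.le_iff_subset hnd']
    intro e he
    obtain ⟨p, hp, rfl⟩ := mem_emb.mp he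
    exact hmem p hp
  set A := I.map ⟨f, hf⟩ with hA
  have memA : ∀ x, x ∈ A ↔ ∃ i ∈ I, f i = x := by
    intro x
    rw [hA, Finset.mem_map]
    rfl
  have hfA : ∀ i, f i ∈ A ↔ i ∈ I := by
    intro i
    rw [memA]
    exact ⟨fun ⟨j, hj, h⟩ => hf h ▸ hj, fun h => ⟨i, h, rfl⟩⟩
  obtain ⟨K, hK⟩ := Multiset.le_iff_exists_add.mp hle
  have hinn : inn A M = emb f E := by
    rw [hK, inn_add, emb_append, inn_add]
    have h1 : inn A (emb f E) = emb f E := by
      unfold inn
      rw [Multiset.filter_eq_self]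
      intro e he v hv
      obtain ⟨p, hp, rfl⟩ := mem_emb.mp he
      rw [Sym2.mem_iff] at hv
      rcases hv with rfl | rfl
      · rw [hfA]; exact (hI p hp).1
      · rw [hfA]; exact (hI p hp).2
    have h2 : inn A (emb f C) = 0 := by
      unfold inn
      rw [Multiset.filter_eq_nil]
      intro e he h
      obtain ⟨p, hp, rfl⟩ := mem_emb.mp he
      exact hC p hp ((hfA _).mp (h _ (Sym2.mem_mk_right _ _)))
    have h3 : inn A K = 0 := by
      unfold inn
      rw [Multiset.filter_eq_nil]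
      intro e he h
      have key : ∀ i ∈ I, i ≠ i₀ → f i ∉ e := by
        intro i hi hne hie
        have h4 := hsat i hi hne
        rw [hK, dg_add, dg_emb hf] at h4
        have h5 : dg K (f i) ≠ 0 := by
          unfold dg
          exact (Multiset.countP_pos (p := fun e => f i ∈ e)).mpr ⟨e, he, hie⟩ |>.ne'
        omega
      induction e with
      | _ x y =>
        obtain ⟨i, hi, rfl⟩ := (memA _).mp (h x (Sym2.mem_mk_left _ _))
        obtain ⟨j, hj, rfl⟩ := (memA _).mp (h y (Sym2.mem_mk_right _ _))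
        have hne : i ≠ j := by
          rintro rfl
          refine hl s(f i, f i) ?_ rfl
          rw [hK]
          exact Multiset.mem_add.mpr (Or.inr he)
        by_cases h6 : i = i₀
        · exact key j hj (fun h => hne (h6.trans h.symm)) (Sym2.mem_mk_right _ _)
        · exact key i hi h6 (Sym2.mem_mk_left _ _)
    rw [h1, h2, h3, add_zero, add_zero]
  refine AT.block' A M (fun v => fs f τ v) c ?_ h2 ?_
  · rw [hinn]
    exact AT.cert f hf E τ hco _ fun i => (fs_apply hf τ i).ge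
  · intro v hv
    obtain ⟨i, hi, rfl⟩ := (memA _).mp hv
    have h1 : dg (inn A M) (f i) + dg (crs A M) (f i) + dg (outt A M) (f i) = dg M (f i) := by
      rw [← dg_add, ← dg_add, split3]
    have h3 : dg (inn A M) (f i) = cnt E i := by rw [hinn, dg_emb hf]
    have h4 := hc i hi
    show fs f τ (f i) + _ ≤ _
    rw [fs_apply hf]
    omega

/-- `K_4` on `0 1 2 3` with the wire `0 - 4 - 5 - 1`; the wire sees `6` and `7` -/
def e6 : List (Fin 8 × Fin 8) := [(0,2),(0,3),(1,2),(1,3),(2,3),(0,4),(4,5),(5,1)]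

def c6 : List (Fin 8 × Fin 8) := [(4,6),(4,7),(5,6),(5,7)]

theorem co_e6 : co e6 ![2,2,1,2,1,0,0,0] ≠ 0 := by decide +kernel

theorem AT.b6 {a b p q u v s t : V} (hn : [a, b, p, q, u, v, s, t].Nodup)
    (hl : ∀ e ∈ M, ¬ e.IsDiag)
    (m1 : s(a, p) ∈ M) (m2 : s(a, q) ∈ M) (m3 : s(b, p) ∈ M) (m4 : s(b, q) ∈ M)
    (m5 : s(p, q) ∈ M) (m6 : s(a, u) ∈ M) (m7 : s(u, v) ∈ M) (m8 : s(v, b) ∈ M)
    (m9 : s(u, s) ∈ M) (m10 : s(u, t) ∈ M) (m11 : s(v, s) ∈ M) (m12 : s(v, t) ∈ M)
    (da : dg M a ≤ 3) (db : dg M b ≤ 3) (dp : dg M p ≤ 3) (dq : dg M q ≤ 3) (du : dg M u ≤ 4)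
    (dv : dg M v ≤ 4) (ca : 2 ≤ c a) (cb : 2 ≤ c b) (cp : 2 ≤ c p) (cq : 2 ≤ c q)
    (cu : 3 ≤ c u) (cv : 3 ≤ c v)
    (h2 : ∀ A : Finset V, A.Nonempty → u ∈ A → AT (outt A M) c) : AT M c := by
  have hinj := List.nodup_iff_injective_get.mp hn
  refine AT.certBlock (n := 8) ([a, b, p, q, u, v, s, t].get) hinj hl {0, 1, 2, 3, 4, 5} e6 c6
    ![2,2,1,2,1,0,0,0] 0 (by decide) ?_ (by decide) (by decide) ?_ co_e6 ?_
    (h2 _ ?_ ?_)
  · intro x hx
    simp only [e6, c6, List.cons_append, List.nil_append, List.mem_cons, List.not_mem_nil,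
      or_false] at hx
    rcases hx with rfl | rfl | rfl | rfl | rfl | rfl | rfl | rfl | rfl | rfl | rfl | rfl
    exacts [m1, m2, m3, m4, m5, m6, m7, m8, m9, m10, m11, m12]
  · intro i hi _
    fin_cases i
    exacts [da, db, dp, dq, du, dv, absurd hi (by decide), absurd hi (by decide)]
  · intro i hi
    have k : ∀ (x : V) (i : Fin 8) (d : ℕ), dg M x ≤ d →
        ![2,2,1,2,1,0,0,0] i + d ≤ c x + cnt e6 i →
        ![2,2,1,2,1,0,0,0] i + dg M x ≤ c x + cnt e6 i := by
      intro x i d h1 h2; omega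
    have e0 : ∀ i : Fin 8, cnt e6 i = ![3,3,3,3,2,2,0,0] i := by decide
    fin_cases i
    · refine k a 0 3 da ?_; rw [e0]; show 2 + 3 ≤ c a + 3; omega
    · refine k b 1 3 db ?_; rw [e0]; show 2 + 3 ≤ c b + 3; omega
    · refine k p 2 3 dp ?_; rw [e0]; show 1 + 3 ≤ c p + 3; omega
    · refine k q 3 3 dq ?_; rw [e0]; show 2 + 3 ≤ c q + 3; omega
    · refine k u 4 4 du ?_; rw [e0]; show 1 + 4 ≤ c u + 2; omega
    · refine k v 5 4 dv ?_; rw [e0]; show 0 + 4 ≤ c v + 2; omega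
    · exact absurd hi (by decide)
    · exact absurd hi (by decide)
  · exact ⟨_, Finset.mem_map_of_mem _ (by decide : (0 : Fin 8) ∈ _)⟩
  · rw [Finset.mem_map]
    exact ⟨4, by decide, rfl⟩

end Helper42.L9
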