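import Pool.Agent.helper42.L9.Cubic2

/-!
# Multigraphs of maximum degree 3 without `K_4` are Alon-Tarsi with cap 2
-/

set_option linter.unusedSimpArgs false

namespace Helper42.L9

open MvPolynomial Finset

variable {V : Type*} {M : Multiset (Sym2 V)}

theorem both_left {p q r s : V} {l₁ l₂ : List V} (h : MinCyc M p (l₁ ++ q :: l₂))
    (hpq : s(p, q) ∈ M) (hc : s(p, q) ∉ pathM p (l₁ ++ q :: l₂) p) (hr : r ∈ l₁) (hs : s ∈ l₁)
    (hne : r ≠ s) (hrs : s(r, s) ∈ M) (hc' : s(r, s) ∉ pathM p (l₁ ++ q :: l₂) p) : False := by
  obtain ⟨m₁, m₂, rfl⟩ := List.append_of_mem hr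
  rw [List.mem_append, List.mem_cons] at hs
  rcases hs with hs | hs | hs
  · obtain ⟨x, y, rfl⟩ := List.append_of_mem hs
    have e1 : (x ++ s :: y) ++ r :: m₂ = x ++ s :: (y ++ r :: m₂) := by simp
    rw [e1] at h hc hc'
    rw [Sym2.eq_swap] at hrs hc'
    exact no_parallel_chord h hpq hc hrs hc'
  · exact hne hs.symm
  · obtain ⟨x, y, rfl⟩ := List.append_of_mem hs
    exact no_parallel_chord h hpq hc hrs hc'

/-- no `K_4` -/
def NoK4 (M : Multiset (Sym2 V)) : Prop :=
  ∀ a b c d : V, [a, b, c, d].Nodup → s(a, b) ∈ M → s(a, c) ∈ M → s(a, d) ∈ M → s(b, c) ∈ M →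
    s(b, d) ∈ M → s(c, d) ∈ M → False

theorem crossing_false (hK : NoK4 M) {p q r s : V} {l₁ l₂ : List V}
    (h : MinCyc M p (l₁ ++ q :: l₂)) (hpq : s(p, q) ∈ M)
    (hc : s(p, q) ∉ pathM p (l₁ ++ q :: l₂) p) (hr : r ∈ l₁) (hs : s ∈ l₂)
    (hrs : s(r, s) ∈ M) : False := by
  obtain ⟨m₁, m₂, rfl⟩ := List.append_of_mem hr
  obtain ⟨k₁, k₂, rfl⟩ := List.append_of_mem hs
  obtain ⟨h1, h2, h3, h4⟩ := crossing_chord h hpq hc hrs
  have hn := h.nodup
  have hsub : List.Sublist [p, r, q, s] (p :: ((m₁ ++ r :: m₂) ++ q :: (k₁ ++ s :: k₂))) := by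
    simp only [List.append_assoc, List.cons_append]
    apply List.Sublist.cons_cons
    refine List.Sublist.trans ?_ (List.sublist_append_right _ _)
    apply List.Sublist.cons_cons
    refine List.Sublist.trans ?_ (List.sublist_append_right _ _)
    apply List.Sublist.cons_cons
    refine List.Sublist.trans ?_ (List.sublist_append_right _ _)
    simp
  rw [Sym2.eq_swap] at h4
  exact hK p r q s (hsub.nodup hn) h1 hpq h4 h2 hrs h3

/-- every vertex of the cycle can be made the first one -/
theorem MinCyc.head {a p : V} {l : List V} (h : MinCyc M a l) (hp : p ∈ a :: l) :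
    ∃ l', MinCyc M p l' ∧ pathM p l' p = pathM a l a ∧ ∀ v, v ∈ p :: l' ↔ v ∈ a :: l := by
  rw [List.mem_cons] at hp
  rcases hp with rfl | hp
  · exact ⟨l, h, rfl, fun v => Iff.rfl⟩
  · obtain ⟨l₁, l₂, rfl⟩ := List.append_of_mem hp
    refine ⟨l₂ ++ a :: l₁, h.rotate, rotate_pathM, fun v => ?_⟩
    simp only [List.mem_cons, List.mem_append]
    tauto

/-- two chords are impossible -/
theorem no_two_chords (hl : ∀ e ∈ M, ¬ e.IsDiag) (hdeg : ∀ v, dg M v ≤ 3)
    (hK : NoK4 M) {p q : V} {l₁ l₂ : List V} (h : MinCyc M p (l₁ ++ q :: l₂))
    (hpq : s(p, q) ∈ M) (hc : s(p, q) ∉ pathM p (l₁ ++ q :: l₂) p) {e : Sym2 V} (he : e ∈ M)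
    (hec : e ∉ pathM p (l₁ ++ q :: l₂) p) (hepq : e ≠ s(p, q))
    (hin : ∀ v ∈ e, v ∈ p :: (l₁ ++ q :: l₂)) : False := by
  classical
  have hle : s(p, q) ::ₘ e ::ₘ pathM p (l₁ ++ q :: l₂) p ≤ M := by
    apply nodup_le
    · rw [Multiset.nodup_cons, Multiset.nodup_cons]
      refine ⟨?_, hec, cyc_nodup p _ h.nodup h.len⟩
      rw [Multiset.mem_cons, not_or]
      exact ⟨fun hh => hepq hh.symm, hc⟩
    · intro e' he'
      rw [Multiset.mem_cons, Multiset.mem_cons] at he'
      rcases he' with rfl | rfl | he'
      · exact hpq
      · exact he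
      · exact h.sub e' he'
  have hnot : ∀ v, v = p ∨ v = q → v ∉ e := by
    intro v hv hve
    have h1 := dg_le_of_le hle v
    have h2 := hdeg v
    have hvc : v ∈ s(p, q) := by rw [Sym2.mem_iff]; exact hv
    rw [dg_cons_pos hvc, dg_cons_pos hve, dg_cyc p _ h.nodup (by have := h.len; omega),
      if_pos (by rcases hv with rfl | rfl <;> simp)] at h1
    omega
  induction e with
  | _ r s =>
    have hrs : r ≠ s := by
      have := hl _ he
      rw [Sym2.mk_isDiag_iff] at this
      exact this
    have hrp : r ≠ p := fun hh => hnot r (Or.inl hh) (Sym2.mem_mk_left _ _)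
    have hrq : r ≠ q := fun hh => hnot r (Or.inr hh) (Sym2.mem_mk_left _ _)
    have hsp : s ≠ p := fun hh => hnot s (Or.inl hh) (Sym2.mem_mk_right _ _)
    have hsq : s ≠ q := fun hh => hnot s (Or.inr hh) (Sym2.mem_mk_right _ _)
    have hr := hin r (Sym2.mem_mk_left _ _)
    have hs := hin s (Sym2.mem_mk_right _ _)
    simp only [List.mem_cons, List.mem_append, hrp, hrq, hsp, hsq, false_or] at hr hs
    have hrot := h.rotate
    have hqp : s(q, p) ∈ M := by rw [Sym2.eq_swap]; exact hpq
    have hcr : s(q, p) ∉ pathM q (l₂ ++ p :: l₁) q := by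
      rw [rotate_pathM, Sym2.eq_swap]; exact hc
    rcases hr with hr | hr <;> rcases hs with hs | hs
    · exact both_left h hpq hc hr hs hrs he hec
    · exact crossing_false hK h hpq hc hr hs he
    · rw [Sym2.eq_swap] at he
      exact crossing_false hK h hpq hc hs hr he
    · refine both_left hrot hqp hcr hr hs hrs he ?_
      rw [rotate_pathM]; exact hec

theorem exists_minCyc (hM : M.Nodup) (hl : ∀ e ∈ M, ¬ e.IsDiag)
    (h3 : ∀ v, dg M v = 0 ∨ dg M v = 3) (hne : M ≠ 0) : ∃ a l, MinCyc M a l := by
  classical
  have hP : ∃ n, ∃ a l, IsCyc M a l ∧ Odd l.length ∧ l.length = n := by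
    obtain ⟨a, l, h1, h2⟩ := exists_even_cycle hM hl h3 hne
    exact ⟨_, a, l, h1, h2, rfl⟩
  obtain ⟨a, l, h1, h2, h3'⟩ := Nat.find_spec hP
  refine ⟨a, l, h1, h2, fun a' l' h1' h2' => ?_⟩
  rw [h3']
  exact Nat.find_min' hP ⟨a', l', h1', h2', rfl⟩

open Classical in
theorem dg_split (A : Finset V) (M : Multiset (Sym2 V)) (v : V) :
    dg (inn A M) v + dg (crs A M) v ≤ dg M v := by
  conv_rhs => rw [← split3 A M]
  rw [dg_add, dg_add]
  omega

/-- the start block -/
theorem start_block (hM : M.Nodup) (hl : ∀ e ∈ M, ¬ e.IsDiag)
    (h3 : ∀ v, dg M v = 0 ∨ dg M v = 3) (hne : M ≠ 0) (hK : NoK4 M) :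
    ∃ (A : Finset V) (c₁ : V → ℕ), inn A M ≠ 0 ∧ AT (inn A M) c₁ ∧
      ∀ v ∈ A, c₁ v + dg (crs A M) v ≤ 2 := by
  classical
  have hdeg : ∀ v, dg M v ≤ 3 := fun v => by rcases h3 v with h | h <;> omega
  obtain ⟨a, l, h⟩ := exists_minCyc hM hl h3 hne
  set A : Finset V := (a :: l).toFinset with hA
  have hinn : (inn A M).Nodup := Multiset.nodup_of_le (Multiset.filter_le _ _) hM
  have hcle : pathM a l a ≤ inn A M := by
    apply nodup_le (cyc_nodup a l h.nodup h.len)
    intro e he
    unfold inn
    rw [Multiset.mem_filter]
    refine ⟨h.sub e he, fun v hv => ?_⟩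
    rw [hA, List.mem_toFinset]
    exact mem_cyc he hv
  obtain ⟨R, hR⟩ := Multiset.le_iff_exists_add.mp hcle
  have hinn0 : inn A M ≠ 0 := by
    rw [hR]
    intro h0
    have := congrArg Multiset.card h0
    rw [Multiset.card_add, card_pathM] at this
    simp at this
  have hnd := hinn
  rw [hR, Multiset.nodup_add] at hnd
  have hRmem : ∀ e ∈ R, e ∈ M ∧ (∀ v ∈ e, v ∈ a :: l) ∧ e ∉ pathM a l a := by
    intro e he
    have h1 : e ∈ inn A M := by rw [hR]; exact Multiset.mem_add.mpr (Or.inr he)
    unfold inn at h1
    rw [Multiset.mem_filter] at h1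
    refine ⟨h1.1, fun v hv => ?_, fun hh => ?_⟩
    · have := h1.2 v hv
      rwa [hA, List.mem_toFinset] at this
    · exact (Multiset.disjoint_left.mp hnd.2.2 hh) he
  rcases Multiset.empty_or_exists_mem R with hR0 | ⟨e, he⟩
  · -- no chord
    refine ⟨A, fun _ => 1, hinn0, ?_, ?_⟩
    · rw [hR, hR0, add_zero]
      have hlen := h.len
      obtain ⟨l', d, rfl⟩ : ∃ l' d, l = l' ++ [d] :=
        ⟨l.dropLast, l.getLast (by rintro rfl; simp at hlen),
          (List.dropLast_append_getLast _).symm⟩
      rw [pathM_append, pathM_nil, Sym2.eq_swap]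
      refine at_evenCycle h.nodup ?_ (fun _ _ => le_rfl)
      have := h.odd
      simp only [List.length_append, List.length_cons, List.length_nil] at this
      rw [Nat.odd_iff] at this
      rw [Nat.even_iff]; omega
    · intro v hv
      have h1 := dg_split A M v
      have h2 := hdeg v
      rw [hR, hR0, add_zero, dg_cyc a l h.nodup (by have := h.len; omega),
        if_pos (by rwa [hA, List.mem_toFinset] at hv)] at h1
      show 1 + dg (crs A M) v ≤ 2
      omega
  · -- one chord
    obtain ⟨R', rfl⟩ := Multiset.exists_cons_of_mem he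
    induction e with
    | _ p q =>
      obtain ⟨hpqM, hpqA, hpqc⟩ := hRmem _ he
      obtain ⟨l', h', hpath, hmem⟩ := h.head (hpqA p (Sym2.mem_mk_left _ _))
      have hpq : q ≠ p := by
        have := hl _ hpqM
        rw [Sym2.mk_isDiag_iff] at this
        exact fun hh => this hh.symm
      have hq : q ∈ l' := by
        have := (hmem q).mpr (hpqA q (Sym2.mem_mk_right _ _))
        rw [List.mem_cons] at this
        exact this.resolve_left hpq
      obtain ⟨l₁, l₂, rfl⟩ := List.append_of_mem hq
      have hR' : R' = 0 := by
        rcases Multiset.empty_or_exists_mem R' with h0 | ⟨e', he'⟩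
        · exact h0
        · exfalso
          obtain ⟨h1, h2, h3⟩ := hRmem e' (Multiset.mem_cons_of_mem he')
          refine no_two_chords hl hdeg hK h' hpqM (by rw [hpath]; exact hpqc) h1
            (by rw [hpath]; exact h3) ?_ (fun v hv => (hmem v).mpr (h2 v hv))
          rintro rfl
          exact (Multiset.nodup_cons.mp hnd.2.1).1 he'
      subst hR'
      obtain ⟨o1, o2⟩ := h'.chord_odd hpqM (by rw [hpath]; exact hpqc)
      have hin : inn A M = pathM p l₁ q + (pathM q l₂ p + {s(p, q)}) := by
        rw [hR, ← hpath, pathM_append, add_assoc, Multiset.cons_zero]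
      have hn := h'.nodup
      refine ⟨A, fun v => if v = p then 2 else 1, hinn0, ?_, ?_⟩
      · match l₁, o1, hn, hin with
        | [], o1, _, _ => simp at o1
        | b :: l₁, o1, hn, hin =>
          match l₂, o2, hn, hin with
          | [], o2, _, _ => simp at o2
          | d :: l₂, o2, hn, hin =>
            rw [hin]
            have ev1 : Even l₁.length := by
              simp only [List.length_cons] at o1
              rw [Nat.odd_iff] at o1; rw [Nat.even_iff]; omega
            have ev2 : Even l₂.length := by
              simp only [List.length_cons] at o2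
              rw [Nat.odd_iff] at o2; rw [Nat.even_iff]; omega
            have hn1 := hn
            simp only [List.nodup_cons, List.mem_cons, List.mem_append, List.cons_append,
              not_or, List.nodup_append] at hn1
            obtain ⟨⟨hpb, hpl1, hpq', hpd, hpl2⟩, ⟨hbl1, hbq, hbd, hbl2⟩, hl1, ⟨⟨hqd, hql2⟩,
              hdl2, hl2⟩, hcross⟩ := hn1
            have hl1q : q ∉ l₁ := fun hh => hcross q hh q (Or.inl rfl) rfl
            have hl1d : d ∉ l₁ := fun hh => hcross d hh d (Or.inr (Or.inl rfl)) rfl
            have hl12 : ∀ v ∈ l₁, v ∉ l₂ := fun v hv hv2 =>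
              hcross v hv v (Or.inr (Or.inr hv2)) rfl
            have cge : ∀ v : V, 1 ≤ (if v = p then 2 else 1) := by
              intro v; split_ifs <;> omega
            refine AT.path_odd ev1 ?_ ?_ (fun v _ => cge v) ?_
            · simp only [List.nodup_cons, List.mem_cons, List.mem_append, List.not_mem_nil,
                or_false, not_or, List.nodup_append, List.nodup_nil, not_false_eq_true,
                and_true]
              refine ⟨⟨hpb, hpl1, hpq'⟩, ⟨hbl1, hbq⟩, hl1, trivial, ?_⟩
              rintro x hx y rfl rfl
              exact hl1q hx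
            · intro v hv e he hve
              rcases Multiset.mem_add.mp he with he | he
              · rcases mem_pathM he hve with h1 | h1 | h1
                · exact hl1q (h1 ▸ hv)
                · rw [List.mem_cons] at h1
                  rcases h1 with h1 | h1
                  · exact hl1d (h1 ▸ hv)
                  · exact hl12 v hv h1
                · exact hpl1 (h1 ▸ hv)
              · rw [Multiset.mem_singleton] at he
                subst he
                rw [Sym2.mem_iff] at hve
                rcases hve with h1 | h1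
                · exact hpl1 (h1 ▸ hv)
                · exact hl1q (h1 ▸ hv)
            · have key : AT (pathM q (d :: l₂) p + (s(p, b) ::ₘ s(b, q) ::ₘ s(p, q) ::ₘ 0))
                  (fun v => if v = p then 2 else 1) := by
                refine AT.path_odd ev2 ?_ ?_ (fun v _ => cge v) ?_
                · simp only [List.nodup_cons, List.mem_cons, List.mem_append, List.not_mem_nil,
                    or_false, not_or, List.nodup_append, List.nodup_nil, not_false_eq_true,
                    and_true]
                  refine ⟨⟨hqd, hql2, Ne.symm hpq'⟩, ⟨hdl2, Ne.symm hpd⟩, hl2, trivial, ?_⟩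
                  rintro x hx y rfl rfl
                  exact hpl2 hx
                · intro v hv e he hve
                  simp only [Multiset.mem_cons, Multiset.notMem_zero, or_false] at he
                  rcases he with rfl | rfl | rfl
                  · rw [Sym2.mem_iff] at hve
                    rcases hve with h1 | h1
                    · exact hpl2 (h1 ▸ hv)
                    · exact hbl2 (h1 ▸ hv)
                  · rw [Sym2.mem_iff] at hve
                    rcases hve with h1 | h1
                    · exact hbl2 (h1 ▸ hv)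
                    · exact hql2 (h1 ▸ hv)
                  · rw [Sym2.mem_iff] at hve
                    rcases hve with h1 | h1
                    · exact hpl2 (h1 ▸ hv)
                    · exact hql2 (h1 ▸ hv)
                · have := at_diamond (p := p) (b := b) (q := q) (d := d)
                    (c := fun v => if v = p then 2 else 1)
                    (by
                      simp only [List.nodup_cons, List.mem_cons, List.not_mem_nil, or_false,
                        not_or, not_false_eq_true, List.nodup_nil, and_true]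
                      exact ⟨⟨hpb, hpq', hpd⟩, ⟨hbq, hbd⟩, hqd⟩)
                    (by simp) (cge b) (cge q) (cge d)
                  have e1 : s(q, d) ::ₘ s(d, p) ::ₘ s(p, b) ::ₘ s(b, q) ::ₘ s(p, q) ::ₘ
                      (0 : Multiset (Sym2 V)) =
                      s(p, b) ::ₘ s(b, q) ::ₘ s(q, d) ::ₘ s(d, p) ::ₘ s(p, q) ::ₘ 0 := by
                    rw [Multiset.cons_swap s(d, p) s(p, b), Multiset.cons_swap s(q, d) s(p, b),
                      Multiset.cons_swap s(d, p) s(b, q), Multiset.cons_swap s(q, d) s(b, q)]
                  rw [e1]; exact this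
              have e2 : s(p, b) ::ₘ s(b, q) ::ₘ (pathM q (d :: l₂) p + {s(p, q)}) =
                  pathM q (d :: l₂) p + (s(p, b) ::ₘ s(b, q) ::ₘ s(p, q) ::ₘ 0) := by
                rw [Multiset.add_cons, Multiset.add_cons, Multiset.cons_zero]
              rw [e2]; exact key
      · intro v hv
        have hvA : v ∈ p :: (l₁ ++ q :: l₂) := by
          rw [hmem]; rwa [hA, List.mem_toFinset] at hv
        have h1 := dg_split A M v
        have h2 := hdeg v
        have h4 : inn A M = s(p, q) ::ₘ pathM p (l₁ ++ q :: l₂) p := by
          rw [hin, pathM_append, ← Multiset.singleton_add, ← add_assoc, add_comm]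
        by_cases hvp : v = p
        · rw [h4, dg_cons_pos (by rw [hvp]; exact Sym2.mem_mk_left _ _),
            dg_cyc p _ h'.nodup (by have := h'.len; omega), if_pos hvA] at h1
          simp only [hvp, if_true] at h1 h2 ⊢
          omega
        · have h5 : dg (pathM p (l₁ ++ q :: l₂) p) v ≤ dg (inn A M) v := by
            rw [h4]
            exact dg_le_of_le (Multiset.le_cons_self _ _) v
          rw [dg_cyc p _ h'.nodup (by have := h'.len; omega), if_pos hvA] at h5
          simp only [hvp, if_false]
          omega

theorem outt_le (A : Finset V) (M : Multiset (Sym2 V)) : outt A M ≤ M := by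
  classical
  unfold outt
  exact Multiset.filter_le _ _

theorem NoK4.of_le {M N : Multiset (Sym2 V)} (h : NoK4 M) (hN : N ≤ M) : NoK4 N := by
  intro a b c d hn h1 h2 h3 h4 h5 h6
  exact h a b c d hn (Multiset.mem_of_le hN h1) (Multiset.mem_of_le hN h2)
    (Multiset.mem_of_le hN h3) (Multiset.mem_of_le hN h4) (Multiset.mem_of_le hN h5)
    (Multiset.mem_of_le hN h6)

/-- **Brooks/Alon-Tarsi for maximum degree three.** -/
theorem at_cubic : ∀ (n : ℕ) (M : Multiset (Sym2 V)), Multiset.card M ≤ n →
    (∀ e ∈ M, ¬ e.IsDiag) → (∀ v, dg M v ≤ 3) → NoK4 M → AT M (fun _ => 2) := by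
  classical
  intro n
  induction n with
  | zero =>
    intro M hn _ _ _
    have : M = 0 := Multiset.card_eq_zero.mp (by omega)
    subst this
    exact at_zero _
  | succ n ih =>
    intro M hn hl hdeg hK
    by_cases h0 : M = 0
    · subst h0; exact at_zero _
    -- recursion on the outer part
    have rec_ : ∀ A : Finset V, Multiset.card (outt A M) < Multiset.card M →
        AT (outt A M) (fun _ => 2) := by
      intro A hA
      have hle := outt_le A M
      exact ih (outt A M) (by omega) (fun e he => hl e (Multiset.mem_of_le hle he))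
        (fun v => (dg_le_of_le hle v).trans (hdeg v)) (hK.of_le hle)
    have hlt : ∀ (A : Finset V) (e : Sym2 V), e ∈ M → (∃ v ∈ e, v ∈ A) →
        Multiset.card (outt A M) < Multiset.card M := by
      intro A e he ⟨v, hve, hvA⟩
      refine lt_of_le_of_ne (Multiset.card_le_card (outt_le A M)) fun hh => ?_
      have := Multiset.eq_of_le_of_card_le (outt_le A M) hh.ge
      have h1 : e ∈ outt A M := by rw [this]; exact he
      unfold outt at h1
      exact (Multiset.mem_filter.mp h1).2 v hve hvA
    by_cases hlow : ∃ v, dg M v ≠ 0 ∧ dg M v ≤ 2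
    · obtain ⟨v, hv0, hv2⟩ := hlow
      have hex : ∃ e ∈ M, v ∈ e := by
        by_contra hcon
        push Not at hcon
        apply hv0
        unfold dg
        rw [Multiset.countP_eq_zero]
        exact hcon
      obtain ⟨e, he, hve⟩ := hex
      exact AT.peel v M _ hl hv2 (rec_ {v} (hlt {v} e he ⟨v, hve, Finset.mem_singleton_self v⟩))
    · have h3 : ∀ v, dg M v = 0 ∨ dg M v = 3 := by
        intro v
        by_contra hcon
        push Not at hcon
        exact hlow ⟨v, hcon.1, by have := hdeg v; omega⟩
      by_cases hM : M.Nodup
      · obtain ⟨A, c₁, hne, hAT, hc⟩ := start_block hM hl h3 h0 hK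
        obtain ⟨e, he⟩ := Multiset.exists_mem_of_ne_zero hne
        unfold inn at he
        rw [Multiset.mem_filter] at he
        exact AT.block' A M c₁ _ hAT
          (rec_ A (hlt A e he.1 ⟨_, (out_mem e).1, he.2 _ (out_mem e).1⟩)) hc
      · -- a double edge
        rw [Multiset.nodup_iff_count_le_one] at hM
        push Not at hM
        obtain ⟨e, he⟩ := hM
        induction e with
        | _ a b =>
          have hab' : s(a, b) ∈ M := Multiset.count_pos.mp (by omega)
          have hab : a ≠ b := by
            have := hl _ hab'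
            rw [Sym2.mk_isDiag_iff] at this
            exact this
          have hall : ∀ e ∈ inn {a, b} M, e = s(a, b) := by
            intro e he
            unfold inn at he
            rw [Multiset.mem_filter] at he
            have h1 := he.2 _ (out_mem e).1
            have h2 := he.2 _ (out_mem e).2
            have h3 : s(e.out.1, e.out.2) = e := Quot.out_eq e
            have h4 : e.out.1 ≠ e.out.2 := by
              intro hh
              apply hl e he.1
              rw [← h3, Sym2.mk_isDiag_iff]; exact hh
            rw [Finset.mem_insert, Finset.mem_singleton] at h1 h2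
            rw [← h3, Sym2.eq_iff]
            rcases h1 with h1 | h1 <;> rcases h2 with h2 | h2
            · exact absurd (h1.trans h2.symm) h4
            · exact Or.inl ⟨h1, h2⟩
            · exact Or.inr ⟨h1, h2⟩
            · exact absurd (h1.trans h2.symm) h4
          have hrep := Multiset.eq_replicate_of_mem hall
          set k := Multiset.card (inn {a, b} M) with hk
          have hkc : k = Multiset.count s(a, b) M := by
            have h1 : Multiset.count s(a, b) (inn {a, b} M) = Multiset.count s(a, b) M := by
              unfold inn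
              rw [Multiset.count_filter_of_pos]
              intro v hv
              rw [Sym2.mem_iff] at hv
              rw [Finset.mem_insert, Finset.mem_singleton]
              exact hv
            rw [← h1]
            conv_rhs => rw [hrep]
            rw [Multiset.count_replicate_self]
          have hdgk : ∀ v, v = a ∨ v = b → dg (inn {a, b} M) v = k := by
            intro v hv
            unfold dg
            rw [Multiset.countP_eq_card.mpr]
            intro e he
            rw [hall e he, Sym2.mem_iff]
            exact hv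
          have hk3 : k ≤ 3 := by
            rw [← hdgk a (Or.inl rfl)]
            refine le_trans (dg_le_of_le ?_ a) (hdeg a)
            unfold inn
            exact Multiset.filter_le _ _
          have hrecA := rec_ {a, b} (hlt {a, b} s(a, b) hab'
            ⟨a, Sym2.mem_mk_left _ _, Finset.mem_insert_self _ _⟩)
          have hcr : ∀ v ∈ ({a, b} : Finset V), dg (crs {a, b} M) v + k ≤ 3 := by
            intro v hv
            rw [Finset.mem_insert, Finset.mem_singleton] at hv
            have h1 := dg_split {a, b} M v
            have h2 := hdeg v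
            rw [hdgk v hv] at h1
            omega
          have hk23 : k = 2 ∨ k = 3 := by omega
          rcases hk23 with hk2 | hk3'
          · refine AT.block' {a, b} M (fun _ => 1) _ ?_ hrecA ?_
            · rw [hrep, hk2]
              exact at_double hab le_rfl le_rfl
            · intro v hv
              have := hcr v hv
              show 1 + dg (crs {a, b} M) v ≤ 2
              omega
          · refine AT.block' {a, b} M (fun _ => 2) _ ?_ hrecA ?_
            · rw [hrep, hk3']
              exact at_triple hab le_rfl (by norm_num)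
            · intro v hv
              have := hcr v hv
              show 2 + dg (crs {a, b} M) v ≤ 2
              omega

end Helper42.L9
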