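import Pool.Agent.helper19.L9.PPath
import Pool.Agent.helper97.L9.Legs

/-!
# The own component of the roots: long tails and own triangles peel
-/

set_option linter.unusedSimpArgs false
set_option linter.unusedSectionVars false
set_option linter.unusedVariables false

namespace Helper42.PP

open Finset Classical Helper42.L9 Helper33.Off Helper97.L9 Helper19.P
open Helper33.L9 (cc ownR ownR_ne ownR_symm Dq QE StarAt qadj_ne cc_cap pt_subset mem_crs)

variable {V : Type*} [Fintype V] {G : SimpleGraph V} {X D : V → Prop} {S' : Finset V}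

/-! ### tools -/

/-- few conflicts -/
theorem notin {c : V → ℕ} (hmin : MinN G X c S') {v : V} (T : Finset V)
    (hT : ∀ z ∈ S', qadj G X z v → z ∈ T) (hc : T.card ≤ c v) : v ∉ S' := by
  intro hv
  have h1 := hmin.core hv
  have h2 : Dq G X S' v ≤ T.card := by
    unfold Dq
    refine Finset.card_le_card fun z hz => ?_
    rw [Finset.mem_filter] at hz
    exact hT z hz.1 hz.2
  omega

/-- degrees in the rest: all further conflicts in `T` -/
theorem dg_LK_le2 {K : Multiset (Sym2 V)} {v : V} (T : Finset V)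
    (hT : ∀ z ∈ S', qadj G X z v → s(v, z) ∉ K → z ∈ T) : dg (LK G X S' K) v ≤ T.card := by
  unfold LK
  rw [Helper33.L9.dg_val]
  have h1 : (((QE G X S').filter fun e => e ∉ K).filter fun e => v ∈ e) ⊆
      T.image fun z => s(v, z) := by
    intro e he
    rw [Finset.mem_filter, Finset.mem_filter] at he
    obtain ⟨⟨he1, he2⟩, hve⟩ := he
    obtain ⟨z, rfl⟩ := Sym2.mem_iff_exists.mp hve
    have h2 := Helper33.L9.mem_QE.mp he1
    rw [Finset.mem_image]
    exact ⟨z, hT z h2.2.1 (Helper33.L9.qadj_symm h2.2.2) he2, rfl⟩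
  exact (Finset.card_le_card h1).trans Finset.card_image_le

/-- the conflicts of a vertex -/
theorem conf_cases {v z : V} (hq : qadj G X z v) :
    ownR G X v z ∨ (∃ w, ownR G X v w ∧ ownR G X w z ∧ z ≠ v) ∨
      ∃ y, y ∈ cr G X v ∧ y ∈ cr G X z ∧ z ≠ v := by
  obtain ⟨hs, hne, hadj | ⟨w, hw1, hw2⟩⟩ := hq
  · exact Or.inl ⟨hadj.symm, hs.symm⟩
  · by_cases hw : X w ↔ X v
    · exact Or.inr (Or.inl ⟨w, ⟨hw2.symm, hw.symm⟩, ⟨hw1.symm, hw.trans hs.symm⟩, hne⟩)
    · exact Or.inr (Or.inr ⟨w, mem_cr.mpr ⟨hw2.symm, hw⟩,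
        mem_cr.mpr ⟨hw1, fun hh => hw (hh.trans hs)⟩, hne⟩)

/-- a cross neighbour gives at most one conflict -/
theorem cross_one {v y z : V} (hy : NM G X y) (h1 : y ∈ cr G X v) (h2 : y ∈ cr G X z)
    (hne : z ≠ v) : z = partner G X y v := by
  have a1 := mem_cr.mp h1
  have a2 := mem_cr.mp h2
  have hs : X z ↔ X v := by
    have := a1.2
    have := a2.2
    tauto
  exact (Helper33.Off.partner_unique hy a1.1 hne a2.1.symm hs).2.symm

section

variable (hcub : ∀ v, (univ.filter fun b => G.Adj v b).card = 3)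

include hcub in
/-- two own neighbours: an inner vertex -/
theorem cc3_of {v a b : V} (hn : NM G X v) (ha : ownR G X v a) (hb : ownR G X v b)
    (hab : a ≠ b) : cc G X v = 3 := by
  rcases cc_cap (G := G) (X := X) v with h | h
  · exact absurd (own_one hcub h ha hb) hab
  · exact h

include hcub in
/-- both own neighbours go on: the cross neighbour gives no conflict -/
theorem no_cross {v a b a' b' y z : V} (hn : NM G X v) (hst : StarAt G X v)
    (ha : ownR G X v a) (hb : ownR G X v b) (hab : a ≠ b) (ha' : ownR G X a a') (hav : a' ≠ v)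
    (hb' : ownR G X b b') (hbv : b' ≠ v) (hy : y ∈ cr G X v) (hz : y ∈ cr G X z) : z = v := by
  by_contra hne
  have h3 := cc3_of hcub hn ha hb hab
  have a1 := mem_cr.mp hy
  have a2 := mem_cr.mp hz
  have hs : X z ↔ X v := by
    have := a1.2
    have := a2.2
    tauto
  have hya : a ≠ y := fun e => a1.2 (e ▸ ha.2.symm)
  have hyb : b ≠ y := fun e => a1.2 (e ▸ hb.2.symm)
  have hall : ∀ w, G.Adj v w → w ∈ pt G X v := by
    intro w hw
    rcases row3 hcub ha.1 hb.1 a1.1 hab hya hyb hw with rfl | rfl | rfl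
    · exact mem_pt.mpr ⟨hw, a', hav, ha'.1, (ha.2.trans ha'.2).symm⟩
    · exact mem_pt.mpr ⟨hw, b', hbv, hb'.1, (hb.2.trans hb'.2).symm⟩
    · exact mem_pt.mpr ⟨hw, z, hne, a2.1.symm, hs⟩
  have h4 := hst hall
  have h5 := (cc_three hcub hn).mp h3
  have h6 := Helper33.L9.cr_ow (X := X) hcub v
  omega

include hcub in
/-- a far vertex with two missing vertices on one own branch -/
theorem far_out (h : StA G X D) (hmin : MinN G X (c3 G X D) S') {w v u : V} (hF : Far G D w)
    (hwv : ownR G X w v) (hv : v ∉ S') (hvu : ownR G X v u) (huw : u ≠ w) (hu : u ∉ S') :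
    w ∉ S' := by
  intro hw
  have h1 := hmin.core hw
  have hFr := h.fr_of_far hF
  have h2 := count_bound (fun v => (hcub v).le) S' hFr
  have h3 : (pt G X w).card ≤ 3 := by
    rw [← hcub w]; exact Finset.card_le_card pt_subset
  have h4 : 1 ≤ ((ow G X w).filter fun u => u ∉ S').card := by
    rw [Nat.one_le_iff_ne_zero, ← Nat.pos_iff_ne_zero, Finset.card_pos]
    exact ⟨v, Finset.mem_filter.mpr ⟨mem_ow.mpr ⟨hwv.1, hwv.2.symm⟩, hv⟩⟩
  obtain ⟨p1, p2⟩ := Helper33.Off.partner_unique (hFr.nb v hwv.1) hwv.1 huw hvu.1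
    (hwv.2.trans hvu.2).symm
  have h5 : 1 ≤ ((pt G X w).filter fun y => partner G X y w ∉ S').card := by
    rw [Nat.one_le_iff_ne_zero, ← Nat.pos_iff_ne_zero, Finset.card_pos]
    refine ⟨v, Finset.mem_filter.mpr ⟨p1, ?_⟩⟩
    rw [p2]
    exact hu
  have h6 := cr_bounds hcub w hFr.self
  have h7 : c3 G X D w = cc G X w := by
    unfold c3
    rw [if_neg hF.1]
  have h8 : cc G X w + (cr G X w).card = 4 := by
    unfold cc
    split_ifs with h9 <;> omega
  unfold Dq at h1
  omega

include hcub in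
/-- a short leg has at most one cross conflict -/
theorem short_cross (h : StA G X D) {d g : V} (hd : D d) (hg : ¬ D g) (hdg : G.Adj d g)
    (h2 : cc G X g = 2) : ∃ q, ∀ y ∈ cr G X g, ∀ z, z ≠ g → y ∈ cr G X z → z = q := by
  obtain ⟨w, hDw, hgw, hwp⟩ := h.noflip d g hd hg hdg
  have hog : ownR G X g d := ⟨hdg.symm, h.k0 d g hd hdg⟩
  have hcw : w ∈ cr G X g := by
    refine mem_cr.mpr ⟨hgw, fun hs => hDw ?_⟩
    rw [own_one hcub h2 ⟨hgw, hs.symm⟩ hog]
    exact hd
  have hc := cc_two.mp h2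
  obtain ⟨y2, hy2, hne⟩ := Finset.exists_mem_ne (s := cr G X g) (by omega) w
  have hcr := end_cr h2 hcw hy2 hne.symm
  refine ⟨partner G X y2 g, fun y hy z hz hyz => ?_⟩
  rw [hcr, Finset.mem_insert, Finset.mem_singleton] at hy
  rcases hy with rfl | rfl
  · exfalso
    have a1 := mem_cr.mp hcw
    have a2 := mem_cr.mp hyz
    refine hwp (mem_pt.mpr ⟨hgw, z, hz, a2.1.symm, ?_⟩)
    have := a1.2
    have := a2.2
    tauto
  · have hDy : ¬ D y := h.not_root (mem_crs.mp hy2)
    exact cross_one (h.nm y hDy) hy2 hyz hz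

/-- the further conflicts of a leg -/
theorem leg_set (hcub : ∀ v, (univ.filter fun b => G.Adj v b).card = 3) (h : StA G X D) {d g : V}
    (hd : D d) (hg : ¬ D g) (hdg : G.Adj d g) :
    ∃ T : Finset V, T.card + 1 ≤ cc G X g ∧ ∀ z, qadj G X z g → z = d ∨
      (ownR G X d z ∧ z ≠ g) ∨ z ∈ T := by
  have hog : ownR G X g d := ⟨hdg.symm, h.k0 d g hd hdg⟩
  rcases step hcub (h.nm g hg) hog with ⟨h2, hw⟩ | ⟨n, hnd, h3, hw⟩
  · obtain ⟨q, hq⟩ := short_cross hcub h hd hg hdg h2
    refine ⟨{q}, by simp [h2], fun z hz => ?_⟩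
    rcases conf_cases hz with h4 | ⟨w, h4, h5, h6⟩ | ⟨y, h4, h5, h6⟩
    · exact Or.inl ((hw z).mp h4)
    · rw [(hw w).mp h4] at h5
      exact Or.inr (Or.inl ⟨h5, h6⟩)
    · exact Or.inr (Or.inr (by rw [Finset.mem_singleton]; exact hq y h4 z h6 h5))
  · have hgn : ownR G X g n := (hw n).mpr (Or.inr rfl)
    have hDn : ¬ D n := fun hn => hnd (h.disj n d g hn hd hg hgn.1.symm hdg)
    rcases step hcub (h.nm n hDn) (ownR_symm hgn) with ⟨k2, kw⟩ | ⟨m, hm, k3, kw⟩
    · -- the next vertex is an end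
      obtain ⟨y, hy⟩ := Finset.card_eq_one.mp ((cc_three hcub (h.nm g hg)).mp h3)
      refine ⟨{n, partner G X y g}, ?_, fun z hz => ?_⟩
      · rw [h3]
        have := Finset.card_insert_le n {partner G X y g}
        rw [Finset.card_singleton] at this
        omega
      · rcases conf_cases hz with h4 | ⟨w, h4, h5, h6⟩ | ⟨y', h4, h5, h6⟩
        · rcases (hw z).mp h4 with rfl | rfl
          · exact Or.inl rfl
          · exact Or.inr (Or.inr (by simp))
        · rcases (hw w).mp h4 with rfl | rfl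
          · exact Or.inr (Or.inl ⟨h5, h6⟩)
          · exact absurd ((kw z).mp h5) h6
        · have e : y' = y := by
            rw [hy, Finset.mem_singleton] at h4
            exact h4
          subst e
          have hDy : ¬ D y' := h.not_root (mem_crs.mp h4)
          exact Or.inr (Or.inr (by rw [cross_one (h.nm y' hDy) h4 h5 h6]; simp))
    · -- a tail
      have hnm : ownR G X n m := (kw m).mpr (Or.inr rfl)
      refine ⟨{n, m}, ?_, fun z hz => ?_⟩
      · rw [h3]
        have := Finset.card_insert_le n {m}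
        rw [Finset.card_singleton] at this
        omega
      · rcases conf_cases hz with h4 | ⟨w, h4, h5, h6⟩ | ⟨y, h4, h5, h6⟩
        · rcases (hw z).mp h4 with rfl | rfl
          · exact Or.inl rfl
          · exact Or.inr (Or.inr (by simp))
        · rcases (hw w).mp h4 with rfl | rfl
          · exact Or.inr (Or.inl ⟨h5, h6⟩)
          · rcases (kw z).mp h5 with rfl | rfl
            · exact absurd rfl h6
            · exact Or.inr (Or.inr (by simp))
        · exfalso
          have h7 := mem_cr.mp h4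
          have h8 := h.tail1 d g n m y hd hg hDn hdg hgn.1 hgn.2.symm hnm.1 hnm.2.symm hm h7.1 h7.2
          have h9 := mem_crs.mp h5
          rw [h8, Finset.mem_singleton] at h9
          exact h6 h9

/-- the further conflicts of a leg with a tail -/
theorem tail_set (hcub : ∀ v, (univ.filter fun b => G.Adj v b).card = 3) (h : StA G X D)
    {d g n m : V} (hd : D d) (hg : ¬ D g) (hdg : G.Adj d g) (hgn : ownR G X g n) (hnd : n ≠ d)
    (hnm : ownR G X n m) (hmg : m ≠ g) :
    cc G X g = 3 ∧ ∀ z, qadj G X z g → z = d ∨ (ownR G X d z ∧ z ≠ g) ∨ z = n ∨ z = m := by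
  have hog : ownR G X g d := ⟨hdg.symm, h.k0 d g hd hdg⟩
  have hDn : ¬ D n := fun hn => hnd (h.disj n d g hn hd hg hgn.1.symm hdg)
  refine ⟨cc3_of hcub (h.nm g hg) hgn hog hnd, fun z hz => ?_⟩
  rcases conf_cases hz with h4 | ⟨w, h4, h5, h6⟩ | ⟨y, h4, h5, h6⟩
  · rcases own_two (h.nm g hg) hog hgn h4 with e | e | e
    · exact absurd e.symm hnd
    · exact Or.inl e.symm
    · exact Or.inr (Or.inr (Or.inl e.symm))
  · rcases own_two (h.nm g hg) hog hgn h4 with e | e | e
    · exact absurd e.symm hnd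
    · rw [← e] at h5
      exact Or.inr (Or.inl ⟨h5, h6⟩)
    · rw [← e] at h5
      rcases own_two (h.nm n hDn) (ownR_symm hgn) hnm h5 with e' | e' | e'
      · exact absurd e'.symm hmg
      · exact absurd e'.symm h6
      · exact Or.inr (Or.inr (Or.inr e'.symm))
  · exfalso
    have h7 := mem_cr.mp h4
    have h8 := h.tail1 d g n m y hd hg hDn hdg hgn.1 hgn.2.symm hnm.1 hnm.2.symm hmg h7.1 h7.2
    have h9 := mem_crs.mp h5
    rw [h8, Finset.mem_singleton] at h9
    exact h6 h9

end

/-! ### two roots -/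

/-- two roots and their legs -/
structure Two (G : SimpleGraph V) (X D : V → Prop) (x z a b c d : V) : Prop where
  hx : D x
  hz : D z
  xz : G.Adj x z
  D2 : ∀ e, D e → e = x ∨ e = z
  xa : G.Adj x a
  xb : G.Adj x b
  zc : G.Adj z c
  zd : G.Adj z d
  ab : a ≠ b
  cd : c ≠ d
  na : ¬ D a
  nb : ¬ D b
  nc : ¬ D c
  nd : ¬ D d
  nx : ∀ w, G.Adj x w → w = z ∨ w = a ∨ w = b
  nz : ∀ w, G.Adj z w → w = x ∨ w = c ∨ w = d

variable {x z a b c d : V}

theorem Two.symm (h : Two G X D x z a b c d) : Two G X D z x c d a b :=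
  ⟨h.hz, h.hx, h.xz.symm, fun e he => (h.D2 e he).symm, h.zc, h.zd, h.xa, h.xb, h.cd, h.ab, h.nc,
    h.nd, h.na, h.nb, h.nz, h.nx⟩

theorem Two.swap (h : Two G X D x z a b c d) : Two G X D x z b a c d :=
  ⟨h.hx, h.hz, h.xz, h.D2, h.xb, h.xa, h.zc, h.zd, h.ab.symm, h.cd, h.nb, h.na, h.nc, h.nd,
    fun w hw => by have := h.nx w hw; tauto, h.nz⟩

/-- the legs of two roots -/
theorem exists_two (hcub : ∀ v, (univ.filter fun b => G.Adj v b).card = 3) (h : StA G X D)
    (hx : D x) (hz : D z) (hne : x ≠ z) (hxa : G.Adj x a) (na : ¬ D a) :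
    ∃ b c d, Two G X D x z a b c d := by
  have hxz := h.adj x z hx hz hne
  have hza : z ≠ a := fun e => na (e ▸ hz)
  obtain ⟨b, hb, hzb, hab⟩ := row_third hcub hxz hxa hza
  obtain ⟨c, d, hc, hd, hxc, hxd, hcd⟩ := row_split hcub hxz.symm
  have D2 : ∀ e, D e → e = x ∨ e = z := fun e he => h.two' hx hz hne he
  have nr : ∀ w, w ≠ x → w ≠ z → ¬ D w := fun w h1 h2 h3 => (D2 w h3).elim h1 h2
  exact ⟨b, c, d, hx, hz, hxz, D2, hxa, hb, hc, hd, hab, hcd, na, nr b hb.ne' hzb.symm,
    nr c hxc.symm hc.ne', nr d hxd.symm hd.ne',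
    fun w hw => row3 hcub hxz hxa hb hza hzb hab hw,
    fun w hw => row3 hcub hxz.symm hc hd hxc hxd hcd hw⟩

/-- own neighbours of a root are all neighbours -/
theorem Two.own (h : Two G X D x z a b c d) {w : V} (hw : ownR G X x w) :
    w = z ∨ w = a ∨ w = b := h.nx w hw.1

/-- the conflicts of a root -/
theorem Two.root_conf (h : StA G X D) (hT : Two G X D x z a b c d) {w : V} (hw : qadj G X w x) :
    w = z ∨ w = a ∨ w = b ∨ w = c ∨ w = d ∨ (ownR G X a w ∧ w ≠ x) ∨ (ownR G X b w ∧ w ≠ x) := by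
  rcases conf_cases hw with h4 | ⟨u, h4, h5, h6⟩ | ⟨y, h4, _, _⟩
  · have := hT.own h4
    tauto
  · rcases hT.own h4 with rfl | rfl | rfl
    · have := hT.symm.own h5
      tauto
    · tauto
    · tauto
  · exfalso
    rw [h.cr_root hT.hx] at h4
    simp at h4

section

variable (hcub : ∀ v, (univ.filter fun b => G.Adj v b).card = 3)

theorem c3_root (hd : D x) : c3 G X D x = 4 := if_pos hd

theorem c3_non (hd : ¬ D x) : c3 G X D x = cc G X x := if_neg hd

include hcub in
/-- a leg with the root, and the other root or the other leg missing -/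
theorem Two.leg_out (h : StA G X D) (hmin : MinN G X (c3 G X D) S')
    (hT : Two G X D x z a b c d) (hx : x ∉ S') (hzb : z ∉ S' ∨ b ∉ S') : a ∉ S' := by
  obtain ⟨T, hTc, hTs⟩ := leg_set hcub h hT.hx hT.na hT.xa
  obtain ⟨q, hq⟩ : ∃ q, ∀ w ∈ S', ownR G X x w ∧ w ≠ a → w = q := by
    rcases hzb with h1 | h1
    · refine ⟨b, fun w hw ⟨h2, h3⟩ => ?_⟩
      rcases hT.own h2 with rfl | rfl | rfl
      · exact absurd hw h1
      · exact absurd rfl h3
      · rfl
    · refine ⟨z, fun w hw ⟨h2, h3⟩ => ?_⟩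
      rcases hT.own h2 with rfl | rfl | rfl
      · rfl
      · exact absurd rfl h3
      · exact absurd hw h1
  refine notin hmin (insert q T) (fun w hw hwq => ?_) ?_
  · rw [Finset.mem_insert]
    rcases hTs w hwq with h1 | h1 | h1
    · exact absurd (h1 ▸ hw) hx
    · exact Or.inl (hq w hw h1)
    · exact Or.inr h1
  · rw [c3_non hT.na]
    have := Finset.card_insert_le q T
    omega

include hcub in
/-- a leg with a tail which is missing -/
theorem Two.tail_out (h : StA G X D) (hmin : MinN G X (c3 G X D) S')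
    (hT : Two G X D x z a b c d) {n m : V} (hgn : ownR G X a n) (hnd : n ≠ x)
    (hnm : ownR G X n m) (hmg : m ≠ a) (hn : n ∈ S' → n = z ∨ n = b ∨ n = x)
    (hm : m ∈ S' → m = z ∨ m = b ∨ m = x) : a ∉ S' := by
  obtain ⟨h3, hs⟩ := tail_set hcub h hT.hx hT.na hT.xa hgn hnd hnm hmg
  refine notin hmin {x, z, b} (fun w hw hwq => ?_) ?_
  · simp only [Finset.mem_insert, Finset.mem_singleton]
    rcases hs w hwq with h1 | ⟨h1, h2⟩ | h1 | h1
    · exact Or.inl h1
    · rcases hT.own h1 with e | e | e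
      · exact Or.inr (Or.inl e)
      · exact absurd e h2
      · exact Or.inr (Or.inr e)
    · subst h1
      have := hn hw
      tauto
    · subst h1
      have := hm hw
      tauto
  · rw [c3_non hT.na, h3]
    exact Finset.card_le_three

include hcub in
/-- the next vertex of a leg is unique -/
theorem leg_next (h : StA G X D) {d g : V} (hd : D d) (hg : ¬ D g) (hdg : G.Adj d g) :
    ∃ q, ∀ w, ownR G X g w → w ≠ d → w = q := by
  have hog : ownR G X g d := ⟨hdg.symm, h.k0 d g hd hdg⟩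
  rcases step hcub (h.nm g hg) hog with ⟨h2, hw⟩ | ⟨n, hnd, h3, hw⟩
  · exact ⟨d, fun w h1 h4 => absurd ((hw w).mp h1) h4⟩
  · refine ⟨n, fun w h1 h4 => ?_⟩
    rcases (hw w).mp h1 with e | e
    · exact absurd e h4
    · exact e

include hcub in
/-- a root with both legs and the other root missing -/
theorem Two.root_out (h : StA G X D) (hmin : MinN G X (c3 G X D) S')
    (hT : Two G X D x z a b c d) (hx : x ∉ S') (ha : a ∉ S') (hb : b ∉ S') : z ∉ S' := by
  obtain ⟨p, hp⟩ := leg_next hcub h hT.hz hT.nc hT.zc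
  obtain ⟨q, hq⟩ := leg_next hcub h hT.hz hT.nd hT.zd
  refine notin hmin {c, d, p, q} (fun w hw hwq => ?_) ?_
  · simp only [Finset.mem_insert, Finset.mem_singleton]
    rcases hT.symm.root_conf h hwq with e | e | e | e | e | ⟨e1, e2⟩ | ⟨e1, e2⟩
    · exact absurd (e ▸ hw) hx
    · exact Or.inl e
    · exact Or.inr (Or.inl e)
    · exact absurd (e ▸ hw) ha
    · exact absurd (e ▸ hw) hb
    · exact Or.inr (Or.inr (Or.inl (hp w e1 e2)))
    · exact Or.inr (Or.inr (Or.inr (hq w e1 e2)))
  · rw [c3_root hT.hz]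
    exact Finset.card_le_four

include hcub in
/-- **both roots missing: the whole component is missing** -/
theorem peel_roots (h : StA G X D) (hmin : MinN G X (c3 G X D) S') (hx : D x) (hz : D z)
    (hne : x ≠ z) (hout : ∀ e, D e → e ∉ S') : ∀ v, CR G X D v → v ∉ S' := by
  have hlegs : ∀ e g, D e → ¬ D g → G.Adj e g → g ∉ S' := by
    intro e g he hg heg
    obtain ⟨f, hf, hef⟩ : ∃ f, D f ∧ e ≠ f := by
      by_cases h1 : e = x
      · exact ⟨z, hz, by rw [h1]; exact hne⟩
      · exact ⟨x, hx, h1⟩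
    obtain ⟨b, c, d, hT⟩ := exists_two hcub h he hf hef heg hg
    exact hT.leg_out hcub h hmin (hout e he) (Or.inl (hout f hf))
  have key : ∀ v, CR G X D v → v ∉ S' ∧ ∃ u, ownR G X v u ∧ u ∉ S' := by
    intro v hv
    refine CR.sub (P := fun v => v ∉ S' ∧ ∃ u, ownR G X v u ∧ u ∉ S') ?_ ?_ hv
    · intro e he
      refine ⟨hout e he, ?_⟩
      by_cases h1 : e = x
      · exact ⟨z, ⟨h.adj e z he hz (by rw [h1]; exact hne),
          (h.k0 e z he (h.adj e z he hz (by rw [h1]; exact hne))).symm⟩, hout z hz⟩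
      · exact ⟨x, ⟨h.adj e x he hx h1, (h.k0 e x he (h.adj e x he hx h1)).symm⟩, hout x hx⟩
    · rintro v w hvw ⟨hv1, u, hvu, hu⟩
      refine ⟨?_, v, ownR_symm hvw, hv1⟩
      by_cases hDw : D w
      · exact hout w hDw
      by_cases hleg : ∃ e, D e ∧ G.Adj e w
      · obtain ⟨e, he, hew⟩ := hleg
        exact hlegs e w he hDw hew
      · push Not at hleg
        by_cases huw : u = w
        · rw [← huw]; exact hu
        · exact far_out hcub h hmin ⟨hDw, hleg⟩ (ownR_symm hvw) hv1 hvu huw hu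
  exact fun v hv => (key v hv).1

include hcub in
/-- **(B)** an own triangle at a root -/
theorem peel_tri (h : StA G X D) (hmin : MinN G X (c3 G X D) S') (hx : D x) (ha : ¬ D a)
    (hb : ¬ D b) (hab : a ≠ b) (hxa : G.Adj x a) (hxb : G.Adj x b) (hoab : ownR G X a b) :
    ∀ v, CR G X D v → v ∉ S' := by
  have hbx : ownR G X b x := ⟨hxb.symm, h.k0 x b hx hxb⟩
  have hax : ownR G X a x := ⟨hxa.symm, h.k0 x a hx hxa⟩
  have hxa' : x ≠ a := hxa.ne
  have hxb' : x ≠ b := hxb.ne
  -- two roots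
  obtain ⟨z, hz, hne⟩ : ∃ z, D z ∧ x ≠ z := by
    by_contra hcon
    push Not at hcon
    have h1 := h.leg_end1 (fun d e hd he => by rw [← hcon d hd, ← hcon e he]) x a b x hx ha hb hxa
      hoab.1 hoab.2.symm hxb.symm hbx.2.symm
    exact hxa' h1
  obtain ⟨b', c, d, hT⟩ := exists_two hcub h hx hz hne hxa ha
  have hb' : b' = b := by
    rcases hT.nx b hxb with e | e | e
    · exact absurd (e ▸ hz) hb
    · exact absurd e.symm hab
    · exact e.symm
  subst hb'
  have hna : a ∉ S' := hT.tail_out hcub h hmin hoab hxb'.symm hbx hxa' (fun _ => Or.inr (Or.inl rfl))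
    (fun _ => Or.inr (Or.inr rfl))
  have hnb : b' ∉ S' := hT.swap.tail_out hcub h hmin (ownR_symm hoab) hxa'.symm hax hxb'
    (fun _ => Or.inr (Or.inl rfl)) (fun _ => Or.inr (Or.inr rfl))
  have hnx : x ∉ S' := by
    refine notin hmin {z, c, d} (fun w hw hwq => ?_) ?_
    · simp only [Finset.mem_insert, Finset.mem_singleton]
      rcases hT.root_conf h hwq with e | e | e | e | e | ⟨e1, e2⟩ | ⟨e1, e2⟩
      · exact Or.inl e
      · exact absurd (e ▸ hw) hna
      · exact absurd (e ▸ hw) hnb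
      · exact Or.inr (Or.inl e)
      · exact Or.inr (Or.inr e)
      · rcases own_two (h.nm a ha) hax hoab e1 with e | e | e
        · exact absurd e hxb'
        · exact absurd e.symm e2
        · exact absurd (e ▸ hw) hnb
      · rcases own_two (h.nm b' hb) hbx (ownR_symm hoab) e1 with e | e | e
        · exact absurd e hxa'
        · exact absurd e.symm e2
        · exact absurd (e ▸ hw) hna
    · rw [c3_root hx]
      exact Finset.card_le_three.trans (by norm_num)
  have hnz := hT.root_out hcub h hmin hnx hna hnb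
  refine peel_roots hcub h hmin hx hz hne fun e he => ?_
  rcases hT.D2 e he with rfl | rfl
  · exact hnx
  · exact hnz

/-! ### long tails -/

variable {r : V} {p : ℕ → V} {l : ℕ} {E : V → Prop}

theorem pth_next (hp : Pth G X D r p l E) {t : ℕ} (ht : t + 1 < l) :
    ownR G X (p t) (p (t + 1)) :=
  (hp.nb t (by omega) _).mpr (Or.inr (Or.inl ⟨ht, rfl⟩))

theorem pth_prev (hp : Pth G X D r p l E) {t : ℕ} (ht : t < l) :
    ownR G X (p t) (prd r p t) := (hp.nb t ht _).mpr (Or.inl rfl)

include hcub in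
/-- the conflicts of an inner vertex of the path -/
theorem pth_conf (h : StA G X D) (hp : Pth G X D r p l E) {t : ℕ} (ht0 : 0 < t)
    (ht : t + 1 < l) {z : V} (hz : qadj G X z (p t)) :
    z = p (t - 1) ∨ z = p (t + 1) ∨ z = prd r p (t - 1) ∨ (t + 2 < l ∧ z = p (t + 2)) ∨
      (t + 2 = l ∧ E z) ∨ ((∀ w, ownR G X (p (t + 1)) w → w = p t) ∧
        ∃ y, y ∈ cr G X (p t) ∧ y ∈ cr G X z ∧ z ≠ p t) := by
  obtain ⟨t, rfl⟩ : ∃ u, t = u + 1 := ⟨t - 1, by omega⟩
  have e1 : t + 1 - 1 = t := by omega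
  rw [e1]
  rcases conf_cases hz with h4 | ⟨w, h4, h5, h6⟩ | ⟨y, h4, h5, h6⟩
  · rcases (hp.nb (t + 1) (by omega) _).mp h4 with e | ⟨_, e⟩ | ⟨e, _⟩
    · exact Or.inl e
    · exact Or.inr (Or.inl e)
    · omega
  · rcases (hp.nb (t + 1) (by omega) _).mp h4 with e | ⟨_, e⟩ | ⟨e, _⟩
    · have e' : w = p t := e
      subst e'
      rcases (hp.nb t (by omega) _).mp h5 with e | ⟨_, e⟩ | ⟨e, _⟩
      · exact Or.inr (Or.inr (Or.inl e))
      · exact absurd e h6
      · omega
    · subst e
      rcases (hp.nb (t + 1 + 1) ht _).mp h5 with e | ⟨e0, e⟩ | ⟨e0, e⟩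
      · exact absurd e h6
      · exact Or.inr (Or.inr (Or.inr (Or.inl ⟨e0, e⟩)))
      · exact Or.inr (Or.inr (Or.inr (Or.inr (Or.inl ⟨e0, e⟩))))
    · omega
  · right; right; right; right; right
    refine ⟨fun w hw => ?_, y, h4, h5, h6⟩
    by_contra hne
    have hnD := hp.nD (t + 1) (by omega)
    have o1 : ownR G X (p (t + 1)) (p t) := pth_prev hp (t := t + 1) (by omega)
    have o2 : ownR G X (p (t + 1)) (p (t + 1 + 1)) := pth_next hp ht
    have o3 : ownR G X (p t) (prd r p t) := pth_prev hp (by omega)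
    have n1 : p (t + 1 + 1) ≠ p t := hp.ne (t + 1) ht
    have n2 : prd r p t ≠ p (t + 1) := (hp.ne t (by omega)).symm
    exact h6 (no_cross hcub (h.nm _ hnD) (h.star _ hnD) o1 o2 n1.symm o3 n2 hw hne h4 h5)

theorem chk_dia : Helper19.Kill.chkKp 4 [3, 3, 3, 3] [(0, 1), (1, 2), (2, 3), (0, 2), (1, 3)]
    [2, 1, 1, 2] [] = true := by decide +kernel

include hcub in
/-- the diamond on a long path -/
theorem diamond (h : StA G X D) (hmin : MinN G X (c3 G X D) S') (hr : D r)
    (hp : Pth G X D r p l E) (hE : (∀ w, ¬ E w) ∨ ∃ d, D d ∧ ∀ w, E w ↔ w = d) (h6 : 6 ≤ l) :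
    ∀ i : Fin 4, p (i + 1) ∉ S' := by
  have hinj : ∀ {s t : ℕ}, s < l → t < l → p s = p t → s = t := fun h1 h2 h3 =>
    hp.inj' hr h1 h2 h3
  have hg : Function.Injective (fun i : Fin 4 => p (i + 1)) := by
    intro i j hij
    have := hinj (by omega) (by omega) hij
    exact Fin.ext (by omega)
  have hc3 : ∀ i : Fin 4, 3 ≤ c3 G X D (p (i + 1)) := by
    intro i
    have hnD := hp.nD (i + 1) (by omega)
    rw [c3_non hnD]
    have o1 := pth_prev hp (t := i + 1) (by omega)
    have o2 := pth_next hp (t := i + 1) (by omega)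
    exact (cc3_of hcub (h.nm _ hnD) o1 o2 (hp.ne (i + 1) (by omega)).symm).ge
  set K : Multiset (Sym2 V) := emb (fun i : Fin 4 => p (i + 1))
    [(0, 1), (1, 2), (2, 3), (0, 2), (1, 3)] with hK
  have k12 : s(p 1, p 2) ∈ K := mem_emb.mpr ⟨(0, 1), by decide, rfl⟩
  have k23 : s(p 2, p 3) ∈ K := mem_emb.mpr ⟨(1, 2), by decide, rfl⟩
  have k34 : s(p 3, p 4) ∈ K := mem_emb.mpr ⟨(2, 3), by decide, rfl⟩
  have k13 : s(p 1, p 3) ∈ K := mem_emb.mpr ⟨(0, 2), by decide, rfl⟩
  have k24 : s(p 2, p 4) ∈ K := mem_emb.mpr ⟨(1, 3), by decide, rfl⟩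
  have sw : ∀ {a b : V}, s(a, b) ∈ K → s(b, a) ∈ K := fun hh => by rw [Sym2.eq_swap]; exact hh
  -- the conflicts
  have c1 : ∀ z, qadj G X z (p 1) → z = p 0 ∨ z = p 2 ∨ z = r ∨ z = p 3 := by
    intro z hz
    rcases pth_conf hcub h hp (t := 1) (by omega) (by omega) hz with e | e | e | ⟨_, e⟩ | ⟨e, _⟩ |
      ⟨e, _⟩
    · exact Or.inl e
    · exact Or.inr (Or.inl e)
    · exact Or.inr (Or.inr (Or.inl e))
    · exact Or.inr (Or.inr (Or.inr e))
    · omega
    · exact absurd (e _ (pth_next hp (t := 2) (by omega))) fun hh => by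
        have := hinj (by omega) (by omega) hh; omega
  have c2 : ∀ z, qadj G X z (p 2) → z = p 1 ∨ z = p 3 ∨ z = p 0 ∨ z = p 4 := by
    intro z hz
    rcases pth_conf hcub h hp (t := 2) (by omega) (by omega) hz with e | e | e | ⟨_, e⟩ | ⟨e, _⟩ |
      ⟨e, _⟩
    · exact Or.inl e
    · exact Or.inr (Or.inl e)
    · exact Or.inr (Or.inr (Or.inl e))
    · exact Or.inr (Or.inr (Or.inr e))
    · omega
    · exact absurd (e _ (pth_next hp (t := 3) (by omega))) fun hh => by
        have := hinj (by omega) (by omega) hh; omega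
  have c3' : ∀ z, qadj G X z (p 3) → z = p 2 ∨ z = p 4 ∨ z = p 1 ∨ z = p 5 := by
    intro z hz
    rcases pth_conf hcub h hp (t := 3) (by omega) (by omega) hz with e | e | e | ⟨_, e⟩ | ⟨e, _⟩ |
      ⟨e, _⟩
    · exact Or.inl e
    · exact Or.inr (Or.inl e)
    · exact Or.inr (Or.inr (Or.inl e))
    · exact Or.inr (Or.inr (Or.inr e))
    · omega
    · exact absurd (e _ (pth_next hp (t := 4) (by omega))) fun hh => by
        have := hinj (by omega) (by omega) hh; omega
  have c4 : ∃ q, ∀ z, qadj G X z (p 4) → z = p 3 ∨ z = p 5 ∨ z = p 2 ∨ z = q := by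
    have hnD := hp.nD 4 (by omega)
    by_cases h7 : 6 < l
    · refine ⟨p 6, fun z hz => ?_⟩
      rcases pth_conf hcub h hp (t := 4) (by omega) (by omega) hz with e | e | e | ⟨_, e⟩ | ⟨e, _⟩ |
        ⟨e, _⟩
      · exact Or.inl e
      · exact Or.inr (Or.inl e)
      · exact Or.inr (Or.inr (Or.inl e))
      · exact Or.inr (Or.inr (Or.inr e))
      · omega
      · exact absurd (e _ (pth_next hp (t := 5) (by omega))) fun hh => by
          have := hinj (by omega) (by omega) hh; omega
    · rcases hE with hE | ⟨d, hd, hE⟩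
      · have h3 : cc G X (p 4) = 3 := by
          have := hc3 3
          rw [c3_non (hp.nD _ (by simp; omega))] at this
          rcases cc_cap (G := G) (X := X) (p 4) with h8 | h8
          · have e4 : ((3 : Fin 4) : ℕ) + 1 = 4 := rfl
            rw [e4] at this
            omega
          · exact h8
        obtain ⟨y, hy⟩ := Finset.card_eq_one.mp ((cc_three hcub (h.nm _ hnD)).mp h3)
        refine ⟨partner G X y (p 4), fun z hz => ?_⟩
        rcases pth_conf hcub h hp (t := 4) (by omega) (by omega) hz with e | e | e | ⟨e, _⟩ |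
          ⟨_, e⟩ | ⟨_, y', e1, e2, e3⟩
        · exact Or.inl e
        · exact Or.inr (Or.inl e)
        · exact Or.inr (Or.inr (Or.inl e))
        · omega
        · exact absurd e (hE z)
        · have e : y' = y := by
            rw [hy, Finset.mem_singleton] at e1
            exact e1
          subst e
          have hDy : ¬ D y' := h.not_root (mem_crs.mp e1)
          exact Or.inr (Or.inr (Or.inr (cross_one (h.nm y' hDy) e1 e2 e3)))
      · refine ⟨d, fun z hz => ?_⟩
        rcases pth_conf hcub h hp (t := 4) (by omega) (by omega) hz with e | e | e | ⟨e, _⟩ |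
          ⟨_, e⟩ | ⟨e, _⟩
        · exact Or.inl e
        · exact Or.inr (Or.inl e)
        · exact Or.inr (Or.inr (Or.inl e))
        · omega
        · exact Or.inr (Or.inr (Or.inr ((hE z).mp e)))
        · have h8 : ownR G X (p 5) d := (hp.nb 5 (by omega) d).mpr
            (Or.inr (Or.inr ⟨by omega, (hE d).mpr rfl⟩))
          have h9 := e d h8
          exact absurd (h9 ▸ hd) hnD
  refine hmin.killp (fun i : Fin 4 => p (i + 1)) hg [3, 3, 3, 3] (by decide) ?_ [2, 1, 1, 2]
    [(0, 1), (1, 2), (2, 3), (0, 2), (1, 3)] [(0, 1), (1, 2), (2, 3), (0, 2), (1, 3)] (by decide)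
    ?_ [] ?_ chk_dia
  · intro i
    have h8 : Helper19.Gadget.cp [3, 3, 3, 3] i = 3 := by fin_cases i <;> rfl
    rw [h8]
    exact hc3 i
  · intro i
    rw [← hK]
    fin_cases i
    · refine (dg_LK_le2 {p 0, r} fun z _ hz hn => ?_).trans Finset.card_le_two
      rw [Finset.mem_insert, Finset.mem_singleton]
      rcases c1 z hz with e | e | e | e
      · exact Or.inl e
      · exact absurd (e ▸ k12) hn
      · exact Or.inr e
      · exact absurd (e ▸ k13) hn
    · refine (dg_LK_le2 {p 0} fun z _ hz hn => ?_).trans (by simp)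
      rw [Finset.mem_singleton]
      rcases c2 z hz with e | e | e | e
      · exact absurd (e ▸ sw k12) hn
      · exact absurd (e ▸ k23) hn
      · exact e
      · exact absurd (e ▸ k24) hn
    · refine (dg_LK_le2 {p 5} fun z _ hz hn => ?_).trans (by simp)
      rw [Finset.mem_singleton]
      rcases c3' z hz with e | e | e | e
      · exact absurd (e ▸ sw k23) hn
      · exact absurd (e ▸ k34) hn
      · exact absurd (e ▸ sw k13) hn
      · exact e
    · obtain ⟨q, c4⟩ := c4
      refine (dg_LK_le2 {p 5, q} fun z _ hz hn => ?_).trans Finset.card_le_two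
      rw [Finset.mem_insert, Finset.mem_singleton]
      rcases c4 z hz with e | e | e | e
      · exact absurd (e ▸ sw k34) hn
      · exact Or.inl e
      · exact absurd (e ▸ sw k24) hn
      · exact Or.inr e
  · intro i j hij hm
    rw [← hK] at hm
    exfalso
    obtain ⟨h8, h9⟩ := mem_LK.mp hm
    have h10 := (Helper33.L9.mem_QE.mp h8).2.2
    have key : ∀ i j : Fin 4, i < j → (i = 0 ∧ j = 3) ∨
        (i, j) ∈ [((0 : Fin 4), (1 : Fin 4)), (1, 2), (2, 3), (0, 2), (1, 3)] := by decide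
    rcases key i j hij with ⟨rfl, rfl⟩ | h11
    · have h12 : qadj G X (p 4) (p 1) := Helper33.L9.qadj_symm h10
      rcases c1 _ h12 with e | e | e | e
      · have := hinj (by omega) (by omega) e; omega
      · have := hinj (by omega) (by omega) e; omega
      · exact hp.nD 4 (by omega) (e ▸ hr)
      · have := hinj (by omega) (by omega) e; omega
    · exact h9 (mem_emb.mpr ⟨(i, j), h11, rfl⟩)

include hcub in
/-- **(A)** a long path peels -/
theorem peel_long (h : StA G X D) (hmin : MinN G X (c3 G X D) S') (hr : D r)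
    (hp : Pth G X D r p l E) (hE : (∀ w, ¬ E w) ∨ ∃ d, D d ∧ ∀ w, E w ↔ w = d) (h6 : 6 ≤ l) :
    ∀ v, CR G X D v → v ∉ S' := by
  have hdm := diamond hcub h hmin hr hp hE h6
  have n1 : p 1 ∉ S' := hdm 0
  have n2 : p 2 ∉ S' := hdm 1
  have hra : G.Adj r (p 0) := (pth_prev hp (t := 0) (by omega)).1.symm
  have o01 := pth_next hp (t := 0) (by omega)
  have o12 := pth_next hp (t := 1) (by omega)
  have hD0 := hp.nD 0 (by omega)
  have hD1 := hp.nD 1 (by omega)
  have e20 : p 2 ≠ p 0 := hp.ne 1 (by omega)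
  have e1r : p 1 ≠ r := hp.ne 0 (by omega)
  obtain ⟨z, hz, hne⟩ : ∃ z, D z ∧ r ≠ z := by
    by_contra hcon
    push Not at hcon
    exact e20 (h.leg_end1 (fun d e hd he => by rw [← hcon d hd, ← hcon e he]) r (p 0) (p 1) (p 2)
      hr hD0 hD1 hra o01.1 o01.2.symm o12.1 o12.2.symm)
  obtain ⟨b, c, d, hT⟩ := exists_two hcub h hr hz hne hra hD0
  have hna : p 0 ∉ S' := hT.tail_out hcub h hmin o01 e1r o12 e20 (fun hh => absurd hh n1)
    (fun hh => absurd hh n2)
  have hb1 : b ≠ p 1 := by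
    rintro rfl
    exact (hp.far 1 (by omega) (by omega) (Or.inl (by omega))).2 r hr hT.xb
  have hcb : cc G X b = 2 := h.tail2 r (p 0) (p 1) (p 2) b hr hD0 hD1 hra o01.1 o01.2.symm o12.1
    o12.2.symm e20 hT.xb hT.nb hT.ab.symm hb1
  have hbr : ownR G X b r := ⟨hT.xb.symm, h.k0 r b hr hT.xb⟩
  have hnr : r ∉ S' := by
    refine notin hmin {z, b, c, d} (fun w hw hwq => ?_) ?_
    · simp only [Finset.mem_insert, Finset.mem_singleton]
      rcases hT.root_conf h hwq with e | e | e | e | e | ⟨e1, e2⟩ | ⟨e1, e2⟩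
      · exact Or.inl e
      · exact absurd (e ▸ hw) hna
      · exact Or.inr (Or.inl e)
      · exact Or.inr (Or.inr (Or.inl e))
      · exact Or.inr (Or.inr (Or.inr e))
      · rcases (hp.nb 0 (by omega) w).mp e1 with e | ⟨_, e⟩ | ⟨e, _⟩
        · exact absurd e e2
        · exact absurd (e ▸ hw) n1
        · omega
      · exact absurd (own_one hcub hcb e1 hbr) e2
    · rw [c3_root hr]
      exact Finset.card_le_four
  have hnb : b ∉ S' := hT.swap.leg_out hcub h hmin hnr (Or.inr hna)
  have hnz := hT.root_out hcub h hmin hnr hna hnb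
  refine peel_roots hcub h hmin hr hz hne fun e he => ?_
  rcases hT.D2 e he with rfl | rfl
  · exact hnr
  · exact hnz

end

end Helper42.PP
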