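import Pool.Agent.helper42.L9.Eph2

/-!
# E-phase: the new edge keeps the local structure
-/

set_option linter.unusedSimpArgs false

namespace Helper42.L9

open Finset

variable {V : Type*} {own : V → V → Prop} {c : V → ℕ} {M N : Multiset (Sym2 V)}

/-- `x` sees the removed set `R` through the link `x u` -/
structure Link (own : V → V → Prop) (c : V → ℕ) (M : Multiset (Sym2 V)) (R : Finset V)
    (x u : V) : Prop where
  mem : u ∈ R
  edge : s(x, u) ∈ M
  nown : ¬ own x u
  beh : ∀ X, own X u → c X = 3 → X ∈ R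

theorem fl_cons_mem {a b x : V} (h : x = a ∨ x = b) :
    fl (s(a, b) ::ₘ M) x = s(a, b) ::ₘ fl M x := by
  classical
  unfold fl
  rw [Multiset.filter_cons_of_pos]
  rwa [Sym2.mem_iff]

theorem fl_cons_notMem {a b x : V} (h1 : x ≠ a) (h2 : x ≠ b) :
    fl (s(a, b) ::ₘ M) x = fl M x := by
  classical
  unfold fl
  rw [Multiset.filter_cons_of_neg]
  rw [Sym2.mem_iff]
  tauto

theorem dg_outt_mem {R : Finset V} {x : V} (h : x ∈ R) : dg (outt R M) x = 0 := by
  classical
  unfold dg
  rw [Multiset.countP_eq_zero]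
  intro e he hx
  exact (mem_outt.mp he).2 x hx h

/-- if `x` keeps degree 4, its only edge into `R` is the link -/
theorem link_fl {R : Finset V} {x u : V} (h : Link own c M R x u) (h4 : dg M x ≤ 4)
    (h3 : 3 ≤ dg (outt R M) x) : fl M x = s(x, u) ::ₘ fl (outt R M) x := by
  classical
  have h1 := dg_outt_one h.mem h.edge
  have h5 : s(x, u) ::ₘ fl (outt R M) x ≤ fl M x := by
    rw [Multiset.le_iff_count]
    intro e
    have h6 : (fl (outt R M) x).count e ≤ (fl M x).count e :=
      Multiset.le_iff_count.mp (fl_mono (outt_le R M) x) e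
    by_cases he : e = s(x, u)
    · subst he
      have h7 : (fl (outt R M) x).count s(x, u) = 0 := by
        rw [Multiset.count_eq_zero]
        intro hcon
        exact (mem_outt.mp (mem_fl.mp hcon).1).2 u (Sym2.mem_mk_right _ _) h.mem
      rw [Multiset.count_cons_self, h7, zero_add]
      exact Multiset.one_le_count_iff_mem.mpr (mem_fl.mpr ⟨h.edge, Sym2.mem_mk_left _ _⟩)
    · rw [Multiset.count_cons_of_ne he]
      exact h6
  refine (Multiset.eq_of_le_of_card_le h5 ?_).symm
  rw [Multiset.card_cons, card_fl, card_fl]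
  omega

theorem link_loc {R : Finset V} {x u b X Y X' Y' : V} (h : Link own c M R x u)
    (hL : LocAt own c M x X Y X' Y') (hxu : x ≠ u) (h3 : 3 ≤ dg (outt R M) x)
    (hN : fl N x = s(x, b) ::ₘ fl (outt R M) x) :
    (c X ≠ 3 ∧ X' = u ∧ LocAt own c N x X Y b Y') ∨
      (c Y ≠ 3 ∧ Y' = u ∧ LocAt own c N x X Y X' b) := by
  classical
  have h4 := hL.dg_eq
  have hfl := link_fl h h4.le h3
  have hmem : s(x, u) ∈ fl M x := mem_fl.mpr ⟨h.edge, Sym2.mem_mk_left _ _⟩
  rw [hL.edges] at hmem
  simp only [Multiset.insert_eq_cons, Multiset.mem_cons, Multiset.mem_singleton, Sym2.eq_iff]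
    at hmem
  have hu : u = X ∨ u = Y ∨ u = X' ∨ u = Y' := by tauto
  have noR : ∀ W, s(x, W) ∈ M → W ≠ u → W ∉ R := by
    intro W hW hne hWR
    have := dg_outt_two hWR h.mem hne hW h.edge
    omega
  have hXu : u ≠ X := by rintro rfl; exact h.nown hL.ox
  have hYu : u ≠ Y := by rintro rfl; exact h.nown hL.oy
  have swap3 : ∀ (p q r w : Sym2 V) (K : Multiset (Sym2 V)),
      ({p, q, r, w} : Multiset (Sym2 V)) = r ::ₘ K → K = {p, q, w} := by
    intro p q r w K hK
    have e1 : ({p, q, r, w} : Multiset (Sym2 V)) = r ::ₘ {p, q, w} := by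
      simp only [Multiset.insert_eq_cons, ← Multiset.singleton_add]
      abel
    rw [e1] at hK
    exact ((Multiset.cons_inj_right _).mp hK).symm
  have swap4 : ∀ (p q r w : Sym2 V) (K : Multiset (Sym2 V)),
      ({p, q, r, w} : Multiset (Sym2 V)) = w ::ₘ K → K = {p, q, r} := by
    intro p q r w K hK
    have e1 : ({p, q, r, w} : Multiset (Sym2 V)) = w ::ₘ {p, q, r} := by
      simp only [Multiset.insert_eq_cons, ← Multiset.singleton_add]
      abel
    rw [e1] at hK
    exact ((Multiset.cons_inj_right _).mp hK).symm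
  by_cases hX' : u = X' ∧ c X ≠ 3
  · left
    obtain ⟨rfl, hc⟩ := hX'
    refine ⟨hc, rfl, ?_⟩
    have e1 := swap3 _ _ _ _ _ (hL.edges.symm.trans hfl)
    exact
      { ne := hL.ne
        ox := hL.ox
        oy := hL.oy
        bx := fun h => absurd h hc
        hy := hL.hy
        one := hL.one
        nd := fun h => absurd h hc
        edges := by
          rw [hN, e1]
          simp only [Multiset.insert_eq_cons, ← Multiset.singleton_add]
          abel }
  · by_cases hY' : u = Y' ∧ c Y ≠ 3
    · right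
      obtain ⟨rfl, hc⟩ := hY'
      refine ⟨hc, rfl, ?_⟩
      have e1 := swap4 _ _ _ _ _ (hL.edges.symm.trans hfl)
      exact
        { ne := hL.ne
          ox := hL.ox
          oy := hL.oy
          bx := hL.bx
          hy := fun h => absurd h hc
          one := hL.one
          nd := fun _ h => absurd h hc
          edges := by
            rw [hN, e1]
            simp only [Multiset.insert_eq_cons, ← Multiset.singleton_add]
            abel }
    · exfalso
      rcases hu with h1 | h1 | h1 | h1
      · exact hXu h1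
      · exact hYu h1
      · have hc : c X = 3 := by
          by_contra hc
          exact hX' ⟨h1, hc⟩
        have h5 := h.beh X (h1 ▸ (hL.bx hc).1) hc
        exact noR X hL.mem1 hXu.symm h5
      · have hc : c Y = 3 := by
          by_contra hc
          exact hY' ⟨h1, hc⟩
        have h5 := h.beh Y (h1 ▸ (hL.hy hc).1) hc
        exact noR Y hL.mem2 hYu.symm h5

/-- the new multigraph -/
noncomputable def nw (M : Multiset (Sym2 V)) (R : Finset V) (a b : V) : Multiset (Sym2 V) :=
  s(a, b) ::ₘ outt R M

open Classical in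
theorem dg_nw (R : Finset V) (a b x : V) :
    dg (nw M R a b) x = dg (outt R M) x + if x = a ∨ x = b then 1 else 0 := dg_cons_ite _ _ _ _

/-- a vertex of full degree in the new multigraph, not an end of the new edge -/
theorem nw_same {R : Finset V} {a b x : V} (hxa : x ≠ a) (hxb : x ≠ b) (h4 : dg M x ≤ 4)
    (h : 4 ≤ dg (nw M R a b) x) : fl (nw M R a b) x = fl M x := by
  classical
  rw [dg_nw, if_neg (by tauto), add_zero] at h
  unfold nw
  rw [fl_cons_notMem hxa hxb]
  exact fl_eq_of_le (outt_le R M) (by omega)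

theorem nw_fl_left {R : Finset V} {a b : V} :
    fl (nw M R a b) a = s(a, b) ::ₘ fl (outt R M) a := by
  unfold nw
  exact fl_cons_mem (Or.inl rfl)

theorem nw_fl_right {R : Finset V} {a b : V} :
    fl (nw M R a b) b = s(b, a) ::ₘ fl (outt R M) b := by
  unfold nw
  rw [fl_cons_mem (Or.inr rfl), Sym2.eq_swap]

theorem nw_comm {R : Finset V} {a b : V} : nw M R a b = nw M R b a := by
  unfold nw
  rw [Sym2.eq_swap]

theorem nw_full_left {R : Finset V} {a b : V} (h : 4 ≤ dg (nw M R a b) a) :
    3 ≤ dg (outt R M) a := by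
  classical
  rw [dg_nw, if_pos (Or.inl rfl)] at h
  omega

/-- ports in the new multigraph, at the end `a` of the new edge -/
theorem nw_port_left (hM : ENet own c M) {R : Finset V} {a b u p : V} (haR : a ∉ R)
    (h : Link own c M R a u) (hp : Port own c (nw M R a b) a p) : p = b ∧ Port own c M a u := by
  classical
  obtain ⟨h3, x, y, y', hx, hL⟩ := hp
  have h4 : 4 ≤ dg (nw M R a b) a := by rw [hL.dg_eq]
  have h5 := nw_full_left h4
  have h6 := dg_outt_one h.mem h.edge
  obtain ⟨X', Y', hLM⟩ := hM.locAt h3 (by omega) hL.ox hL.oy hL.ne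
  have hau : a ≠ u := by rintro rfl; exact haR h.mem
  have hcx : c x ≠ 3 := by omega
  have hcy : c y = 3 := by
    rcases hL.one with h | h
    · exact absurd h hcx
    · exact h
  rcases link_loc h hLM hau h5 nw_fl_left with ⟨h7, h8, h9⟩ | ⟨h7, h8, h9⟩
  · refine ⟨?_, h3, x, y, Y', hx, h8 ▸ hLM⟩
    -- compare the edges
    have e1 := hL.edges.symm.trans h9.edges
    have e2 : y' = Y' := by
      have h10 := hL.hy hcy
      have h11 := h9.hy hcy
      exact hM.other (hM.symm _ _ hL.oy) h10.1 h11.1 h10.2 h11.2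
    subst e2
    have e3 : ({s(a, x), s(a, y), s(a, p), s(a, y')} : Multiset (Sym2 V)) =
        s(a, p) ::ₘ {s(a, x), s(a, y), s(a, y')} := by
      simp only [Multiset.insert_eq_cons, ← Multiset.singleton_add]; abel
    have e4 : ({s(a, x), s(a, y), s(a, b), s(a, y')} : Multiset (Sym2 V)) =
        s(a, b) ::ₘ {s(a, x), s(a, y), s(a, y')} := by
      simp only [Multiset.insert_eq_cons, ← Multiset.singleton_add]; abel
    rw [e3, e4, Multiset.cons_inj_left, Sym2.eq_iff] at e1
    rcases e1 with ⟨_, h⟩ | ⟨h, h'⟩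
    · exact h
    · rw [h', h]
  · exact absurd hcy h7

theorem nw_port_other (hM : ENet own c M) {R : Finset V} {a b x p : V} (hxa : x ≠ a)
    (hxb : x ≠ b) (hp : Port own c (nw M R a b) x p) : Port own c M x p := by
  refine hp.congr (nw_same hxa hxb (hM.dg_le hp.1) ?_).symm
  rw [hp.dg_eq]

end Helper42.L9
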