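import Pool.Agent.helper42.L9.LemmaE

/-!
# Paths of vertices of degree two with exponent one; even cycles, even cycle with a chord
-/

set_option linter.unusedSimpArgs false

namespace Helper42.L9

open MvPolynomial Finset

variable {V : Type*}

/-- Two adjacent vertices of degree two with exponents one are replaced by an edge. -/
theorem AT.elim2 {u v a d : V} {N : Multiset (Sym2 V)} {c : V → ℕ}
    (huv : u ≠ v) (hau : a ≠ u) (hav : a ≠ v) (hdu : d ≠ u) (hdv : d ≠ v)
    (hNu : ∀ e ∈ N, u ∉ e) (hNv : ∀ e ∈ N, v ∉ e)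
    (h : AT (s(a, d) ::ₘ N) c) (hu : 1 ≤ c u) (hv : 1 ≤ c v) :
    AT (s(a, u) ::ₘ s(u, v) ::ₘ s(v, d) ::ₘ N) c := by
  unfold AT at h ⊢
  have fu := fr_gp hNu
  have fv := fr_gp hNv
  set R := (X v - X d) * gp N with hR
  have fR : Fr u R := ((fr_X huv.symm).sub (fr_X hdu)).mul fu
  have key : gp (s(a, u) ::ₘ s(u, v) ::ₘ s(v, d) ::ₘ N) = (X u - X a) * ((X u - X v) * R) ∨
      gp (s(a, u) ::ₘ s(u, v) ::ₘ s(v, d) ::ₘ N) = -((X u - X a) * ((X u - X v) * R)) := by
    have h1 := gp_pairs [(u, a), (u, v), (v, d)] N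
    have h2 : (([(u, a), (u, v), (v, d)].map
        fun p => (X p.1 - X p.2 : MvPolynomial V ℤ)).prod * gp N) =
        (X u - X a) * ((X u - X v) * R) := by
      simp only [List.map_cons, List.map_nil, List.prod_cons, List.prod_nil, hR]
      ring
    rw [h2] at h1
    simp only [List.map_cons, List.map_nil, ← Multiset.cons_coe, Multiset.coe_nil,
      Multiset.cons_add, zero_add] at h1
    rw [Sym2.eq_swap (a := a) (b := u)]
    exact h1
  refine sup_congr_sign key ?_
  refine Sup.of_cf' (k := 1) (v := u) ?_ hu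
  rw [cf2_1 (fr_X hau) (fr_X huv.symm) fR]
  refine Sup.of_cf' (k := 1) (v := v) ?_ hv
  have e1 : -(X a + X v) * R = -(X v * R + X a * R) := by ring
  rw [e1, map_neg, map_add, cf_X_mul_succ v 0, cf_mul _ (fr_X hav), hR,
    cf1_0 (fr_X hdv) fv, cf1_1 (fr_X hdv) fv]
  have e2 : -(-X d * gp N + X a * gp N) = -((X a - X d) * gp N) := by ring
  rw [e2]
  rcases gp_cons_mk a d N with h1 | h1
  · rw [h1] at h; exact h.neg
  · rw [h1] at h; exact h

/-- edges of the path `a, l, d` -/
def pathM (a : V) : List V → V → Multiset (Sym2 V)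
  | [], d => {s(a, d)}
  | b :: l, d => s(a, b) ::ₘ pathM b l d

@[simp] theorem pathM_nil (a d : V) : pathM a [] d = {s(a, d)} := rfl

@[simp] theorem pathM_cons (a b d : V) (l : List V) :
    pathM a (b :: l) d = s(a, b) ::ₘ pathM b l d := rfl

theorem pathM_append (a b d : V) (l l' : List V) :
    pathM a (l ++ b :: l') d = pathM a l b + pathM b l' d := by
  induction l generalizing a with
  | nil => simp [Multiset.singleton_add]
  | cons c l ih => simp [ih]

theorem mem_pathM {a d : V} {l : List V} {e : Sym2 V} (h : e ∈ pathM a l d) {v : V}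
    (hv : v ∈ e) : v = a ∨ v ∈ l ∨ v = d := by
  induction l generalizing a with
  | nil =>
    rw [pathM_nil, Multiset.mem_singleton] at h
    subst h
    rw [Sym2.mem_iff] at hv
    tauto
  | cons b l ih =>
    rw [pathM_cons, Multiset.mem_cons] at h
    rcases h with h | h
    · subst h
      rw [Sym2.mem_iff] at hv
      rcases hv with rfl | rfl
      · exact Or.inl rfl
      · exact Or.inr (Or.inl List.mem_cons_self)
    · rcases ih h with h1 | h1 | h1
      · exact Or.inr (Or.inl (h1 ▸ List.mem_cons_self))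
      · exact Or.inr (Or.inl (List.mem_cons_of_mem _ h1))
      · exact Or.inr (Or.inr h1)

theorem card_pathM (a d : V) (l : List V) : Multiset.card (pathM a l d) = l.length + 1 := by
  induction l generalizing a with
  | nil => simp
  | cons b l ih => simp [ih]

open Classical in
/-- degree of an inner vertex of a path -/
theorem dg_pathM (a d : V) (l : List V) (hn : (a :: (l ++ [d])).Nodup) (v : V) :
    dg (pathM a l d) v = (if v = a then 1 else 0) + (if v = d then 1 else 0) +
      (if v ∈ l then 2 else 0) := by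
  induction l generalizing a with
  | nil =>
    simp only [List.nil_append, List.nodup_cons, List.mem_singleton, List.not_mem_nil,
      not_false_eq_true, List.nodup_nil, and_true] at hn
    rw [pathM_nil, ← Multiset.cons_zero]
    by_cases h1 : v = a
    · subst h1
      rw [dg_cons_pos (Sym2.mem_mk_left _ _)]
      simp [dg, hn]
    · by_cases h2 : v = d
      · subst h2
        rw [dg_cons_pos (Sym2.mem_mk_right _ _)]
        simp [dg, h1]
      · rw [dg_cons_neg (by rw [Sym2.mem_iff]; tauto)]
        simp [dg, h1, h2]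
  | cons b l ih =>
    have hn' : (b :: (l ++ [d])).Nodup := by
      have := (List.nodup_cons.mp hn).2
      simpa using this
    have ha : a ∉ b :: l ++ [d] := (List.nodup_cons.mp hn).1
    have hb : b ∉ l ++ [d] := (List.nodup_cons.mp hn').1
    simp only [List.mem_cons, List.mem_append, List.cons_append, List.not_mem_nil, or_false,
      not_or] at ha hb
    have ih' := ih b hn'
    rw [pathM_cons]
    by_cases h1 : v = a
    · subst h1
      rw [dg_cons_pos (Sym2.mem_mk_left _ _), ih']
      simp [ha.1, ha.2.1, ha.2.2]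
    · by_cases h2 : v = b
      · subst h2
        rw [dg_cons_pos (Sym2.mem_mk_right _ _), ih']
        simp [h1, hb.1, hb.2]
      · rw [dg_cons_neg (by rw [Sym2.mem_iff]; tauto), ih']
        simp [h1, h2]

/-- even number of inner vertices: the path is replaced by an edge -/
theorem AT.path_even {c : V → ℕ} {d : V} {N : Multiset (Sym2 V)} :
    ∀ (n : ℕ) (l : List V) (a : V), l.length = 2 * n → (a :: (l ++ [d])).Nodup ∨ a = d ∧
      (l ++ [d]).Nodup →
      (∀ v ∈ l, ∀ e ∈ N, v ∉ e) → (∀ v ∈ l, 1 ≤ c v) →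
      AT (s(a, d) ::ₘ N) c → AT (pathM a l d + N) c := by
  intro n
  induction n with
  | zero =>
    intro l a hl _ _ _ h
    have : l = [] := List.length_eq_zero_iff.mp (by omega)
    subst this
    rw [pathM_nil, Multiset.singleton_add]
    exact h
  | succ n ih =>
    intro l a hl hn hN hc h
    match l, hl with
    | [], hl => simp at hl
    | [x], hl => simp at hl; omega
    | x :: y :: l, hl =>
      have hlen : l.length = 2 * n := by simp at hl; omega
      have hn1 : (x :: y :: (l ++ [d])).Nodup := by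
        rcases hn with hn | ⟨_, hn⟩
        · simpa using (List.nodup_cons.mp hn).2
        · simpa using hn
      have hxa : a ≠ x ∧ a ≠ y := by
        rcases hn with hn | ⟨rfl, hn⟩
        · have := (List.nodup_cons.mp hn).1
          simp at this; tauto
        · simp at hn1
          refine ⟨?_, ?_⟩
          · rintro rfl; tauto
          · rintro rfl; tauto
      have hxy : x ≠ y := by
        simp at hn1; tauto
      have hn2 : (a :: (l ++ [d])).Nodup ∨ a = d ∧ (l ++ [d]).Nodup := by
        rcases hn with hn | ⟨h1, hn⟩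
        · left
          rw [List.nodup_cons] at hn ⊢
          refine ⟨?_, ?_⟩
          · intro hmem; apply hn.1; simp only [List.cons_append, List.mem_cons]; tauto
          · have := hn.2
            simp only [List.cons_append, List.nodup_cons] at this
            exact this.2.2
        · right
          simp only [List.cons_append, List.nodup_cons] at hn
          exact ⟨h1, hn.2.2⟩
      have h1 := ih l a hlen hn2 (fun v hv => hN v (by simp [hv]))
        (fun v hv => hc v (by simp [hv])) h
      -- eliminate x, y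
      have hfree : ∀ z : V, z ≠ d → z ∉ l → (∀ e ∈ N, z ∉ e) → ∀ w : V, z ≠ w →
          ∀ l' : List V, l' <:+ l → ∀ e ∈ pathM w l' d + N, z ∉ e := by
        intro z hzd hzl hzN w hzw l' hl' e he hze
        rcases Multiset.mem_add.mp he with he | he
        · rcases mem_pathM he hze with h2 | h2 | h2
          · exact hzw h2
          · exact hzl (hl'.subset h2)
          · exact hzd h2
        · exact hzN e he hze
      simp only [List.nodup_cons, List.mem_cons, List.mem_append, List.not_mem_nil,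
        or_false, not_or] at hn1
      obtain ⟨⟨_, hxl, hxd⟩, ⟨hyl, hyd⟩, hld⟩ := hn1
      have hNx := hN x (by simp)
      have hNy := hN y (by simp)
      have hcx := hc x (by simp)
      have hcy := hc y (by simp)
      match l, h1, hfree, hxl, hyl, hld with
      | [], h1, _, _, _, _ =>
        rw [pathM_nil, Multiset.singleton_add] at h1
        simp only [pathM_cons, pathM_nil, Multiset.cons_add, Multiset.singleton_add]
        exact AT.elim2 hxy hxa.1 hxa.2 (Ne.symm hxd) (Ne.symm hyd) hNx hNy h1 hcx hcy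
      | z :: l, h1, hfree, hxl, hyl, hld =>
        rw [pathM_cons, Multiset.cons_add] at h1
        simp only [pathM_cons, Multiset.cons_add]
        have hxz : x ≠ z := fun hh => hxl (hh ▸ List.mem_cons_self)
        have hyz : y ≠ z := fun hh => hyl (hh ▸ List.mem_cons_self)
        exact AT.elim2 hxy hxa.1 hxa.2 hxz.symm hyz.symm
          (hfree x hxd hxl hNx z hxz l (List.suffix_cons _ _))
          (hfree y hyd hyl hNy z hyz l (List.suffix_cons _ _)) h1 hcx hcy

theorem at_double {a b : V} (hab : a ≠ b) {c : V → ℕ} (ha : 1 ≤ c a) (hb : 1 ≤ c b) :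
    AT (s(a, b) ::ₘ s(a, b) ::ₘ 0) c := by
  classical
  unfold AT
  have h1 := gp_pairs [(a, b), (a, b)] (0 : Multiset (Sym2 V))
  have h2 : (([(a, b), (a, b)].map fun p => (X p.1 - X p.2 : MvPolynomial V ℤ)).prod *
      gp (0 : Multiset (Sym2 V))) = (X a - X b) * ((X a - X b) * 1) := by
    simp
  rw [h2] at h1
  simp only [List.map_cons, List.map_nil, ← Multiset.cons_coe, Multiset.coe_nil,
      Multiset.cons_add, zero_add] at h1
  refine sup_congr_sign h1 ?_
  refine Sup.of_cf' (k := 1) (v := a) ?_ ha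
  rw [cf2_1 (fr_X hab.symm) (fr_X hab.symm) (fr_one a)]
  refine Sup.of_cf' (k := 1) (v := b) ?_ hb
  have e1 : -(X b + X b) * (1 : MvPolynomial V ℤ) = X b * (-2) := by ring
  have hf : Fr b (-2 : MvPolynomial V ℤ) := (fr_ofNat b 2).neg
  rw [e1, cf_X_mul_succ b 0, cf_free_zero hf]
  refine ⟨0, fun v => Nat.zero_le _, ?_⟩
  have : (-2 : MvPolynomial V ℤ) = C (-2) := by simp
  rw [this, coeff_C]
  simp

theorem at_triple {a b : V} (hab : a ≠ b) {c : V → ℕ} (ha : 2 ≤ c a) (hb : 1 ≤ c b) :
    AT (s(a, b) ::ₘ s(a, b) ::ₘ s(a, b) ::ₘ 0) c := by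
  classical
  unfold AT
  have h1 := gp_pairs [(a, b), (a, b), (a, b)] (0 : Multiset (Sym2 V))
  have h2 : (([(a, b), (a, b), (a, b)].map fun p => (X p.1 - X p.2 : MvPolynomial V ℤ)).prod *
      gp (0 : Multiset (Sym2 V))) = (X a - X b) * ((X a - X b) * ((X a - X b) * 1)) := by
    simp
  rw [h2] at h1
  simp only [List.map_cons, List.map_nil, ← Multiset.cons_coe, Multiset.coe_nil,
      Multiset.cons_add, zero_add] at h1
  refine sup_congr_sign h1 ?_
  refine Sup.of_cf' (k := 2) (v := a) ?_ ha
  rw [cf3_2 (fr_X hab.symm) (fr_X hab.symm) (fr_X hab.symm) (fr_one a)]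
  refine Sup.of_cf' (k := 1) (v := b) ?_ hb
  have e1 : -(X b + X b + X b) * (1 : MvPolynomial V ℤ) = X b * (-3) := by ring
  have hf : Fr b (-3 : MvPolynomial V ℤ) := (fr_ofNat b 3).neg
  rw [e1, cf_X_mul_succ b 0, cf_free_zero hf]
  refine ⟨0, fun v => Nat.zero_le _, ?_⟩
  have : (-3 : MvPolynomial V ℤ) = C (-3) := by simp
  rw [this, coeff_C]
  simp

/-- **Even cycle** `a, l, d` with `l.length` even. -/
theorem at_evenCycle {a d : V} {l : List V} {c : V → ℕ} (hn : (a :: (l ++ [d])).Nodup)
    (hl : Even l.length) (hc : ∀ v ∈ a :: (l ++ [d]), 1 ≤ c v) :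
    AT (pathM a l d + {s(a, d)}) c := by
  obtain ⟨n, hn2⟩ := hl
  refine AT.path_even n l a (by omega) (Or.inl hn) ?_ ?_ ?_
  · intro v hv e he hve
    rw [Multiset.mem_singleton] at he
    subst he
    have h1 : a ∉ l := fun h => (List.nodup_cons.mp hn).1 (by simp [h])
    have h2 : d ∉ l := by
      have := (List.nodup_cons.mp hn).2
      rw [List.nodup_append] at this
      intro h
      exact this.2.2 d h d (by simp) rfl
    rw [Sym2.mem_iff] at hve
    rcases hve with rfl | rfl
    · exact h1 hv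
    · exact h2 hv
  · intro v hv
    exact hc v (by simp [hv])
  · have had : a ≠ d := by
      rintro rfl
      exact (List.nodup_cons.mp hn).1 (by simp)
    exact at_double had (hc a (by simp)) (hc d (by simp))

/-- four-cycle `p b q d` with the chord `pq` -/
theorem at_diamond {p b q d : V} (hn : [p, b, q, d].Nodup) {c : V → ℕ} (hp : 2 ≤ c p)
    (hb : 1 ≤ c b) (hq : 1 ≤ c q) (hd : 1 ≤ c d) :
    AT (s(p, b) ::ₘ s(b, q) ::ₘ s(q, d) ::ₘ s(d, p) ::ₘ s(p, q) ::ₘ 0) c := by
  simp only [List.nodup_cons, List.mem_cons, List.not_mem_nil, or_false, not_or,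
    not_false_eq_true, List.nodup_nil, and_true] at hn
  obtain ⟨⟨hpb, hpq, hpd⟩, ⟨hbq, hbd⟩, hqd⟩ := hn
  unfold AT
  have h1 := gp_pairs [(b, p), (b, q), (d, q), (d, p), (p, q)] (0 : Multiset (Sym2 V))
  set R : MvPolynomial V ℤ := (X d - X q) * ((X d - X p) * (X p - X q)) with hR
  have h2 : (([(b, p), (b, q), (d, q), (d, p), (p, q)].map
      fun p => (X p.1 - X p.2 : MvPolynomial V ℤ)).prod *
      gp (0 : Multiset (Sym2 V))) = (X b - X p) * ((X b - X q) * R) := by
    simp [hR]
  rw [h2] at h1
  simp only [List.map_cons, List.map_nil, ← Multiset.cons_coe, Multiset.coe_nil,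
      Multiset.cons_add, zero_add] at h1
  rw [Sym2.eq_swap (a := b) (b := p), Sym2.eq_swap (a := d) (b := q)] at h1
  refine sup_congr_sign h1 ?_
  refine Sup.of_cf' (k := 1) (v := b) ?_ hb
  have fR : Fr b R := ((fr_X (Ne.symm hbd)).sub (fr_X (Ne.symm hbq))).mul
    (((fr_X (Ne.symm hbd)).sub (fr_X hpb)).mul ((fr_X hpb).sub (fr_X (Ne.symm hbq))))
  rw [cf2_1 (fr_X hpb) (fr_X (Ne.symm hbq)) fR]
  refine Sup.of_cf' (k := 1) (v := d) ?_ hd
  have f1 : Fr d (-(X p + X q) : MvPolynomial V ℤ) := ((fr_X hpd).add (fr_X hqd)).neg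
  have f2 : Fr d (X p - X q : MvPolynomial V ℤ) := (fr_X hpd).sub (fr_X hqd)
  rw [cf_mul _ f1, hR, cf2_1 (fr_X hqd) (fr_X hpd) f2]
  -- (p+q)^2 (p-q)
  refine Sup.of_cf' (k := 2) (v := p) ?_ hp
  have e1 : (-(X p + X q) * (-(X q + X p) * (X p - X q)) : MvPolynomial V ℤ) =
      X p * (X p * (X p * 1)) + X q * (X p * (X p * 1)) - (X q * X q) * (X p * 1)
        - X q * X q * X q := by
    ring
  have fq : Fr p (X q : MvPolynomial V ℤ) := fr_X (Ne.symm hpq)
  rw [e1, map_sub, map_sub, map_add, cf_X_mul_succ p 1, cf_X_mul_succ p 0, cf_X_mul_zero,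
    cf_mul _ fq, cf_X_mul_succ p 1, cf_X_mul_succ p 0, cf_free_zero (fr_one p),
    cf_mul _ (fq.mul fq), cf_X_mul_succ p 1, cf_free_succ (fr_one p) 0,
    cf_free_succ ((fq.mul fq).mul fq) 1]
  have e2 : (0 : MvPolynomial V ℤ) + X q * 1 - X q * X q * 0 - 0 = X q * 1 := by ring
  rw [e2]
  refine Sup.of_cf' (k := 1) (v := q) ?_ hq
  rw [cf_X_mul_succ q 0, cf_free_zero (fr_one q)]
  refine ⟨0, fun v => Nat.zero_le _, ?_⟩
  simp

/-- **Odd number of inner vertices** -/
theorem AT.path_odd {c : V → ℕ} {a b d : V} {N : Multiset (Sym2 V)} {l : List V}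
    (hl : Even l.length) (hn : (a :: b :: (l ++ [d])).Nodup)
    (hN : ∀ v ∈ l, ∀ e ∈ N, v ∉ e) (hc : ∀ v ∈ l, 1 ≤ c v)
    (h : AT (s(a, b) ::ₘ s(b, d) ::ₘ N) c) : AT (pathM a (b :: l) d + N) c := by
  obtain ⟨n, hn2⟩ := hl
  rw [pathM_cons, Multiset.cons_add]
  have hnb : (b :: (l ++ [d])).Nodup := (List.nodup_cons.mp hn).2
  have := AT.path_even (c := c) (d := d) (N := s(a, b) ::ₘ N) n l b (by omega) (Or.inl hnb)
    ?_ hc ?_
  · rwa [Multiset.add_cons] at this
  · intro v hv e he hve
    rw [Multiset.mem_cons] at he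
    rcases he with rfl | he
    · rw [Sym2.mem_iff] at hve
      rcases hve with rfl | rfl
      · exact (List.nodup_cons.mp hn).1 (by simp [hv])
      · exact (List.nodup_cons.mp hnb).1 (by simp [hv])
    · exact hN v hv e he hve
  · rw [Multiset.cons_swap]; exact h

end Helper42.L9
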