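import Pool.Agent.helper42.L9.Cf
import Mathlib.Data.Sym.Sym2
import Mathlib.Data.Multiset.Count

/-!
# Graph polynomial of a multigraph and Alon-Tarsi property

A loopless multigraph is a multiset `M` of unordered pairs `Sym2 V`.
`gp M` is the product of the differences of the two ends (the sign is arbitrary),
`AT M c` : some monomial `t ≤ c` has a non-zero coefficient in `gp M`.
-/

namespace Helper42.L9

open MvPolynomial Finset

variable {V : Type*}

/-- difference of the ends -/
noncomputable def ed (e : Sym2 V) : MvPolynomial V ℤ := X e.out.1 - X e.out.2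

theorem ed_mk (a b : V) : ed s(a, b) = X a - X b ∨ ed s(a, b) = -(X a - X b) := by
  unfold ed
  have h : s((s(a, b) : Sym2 V).out.1, (s(a, b) : Sym2 V).out.2) = s(a, b) := Quot.out_eq _
  rw [Sym2.eq_iff] at h
  rcases h with ⟨h1, h2⟩ | ⟨h1, h2⟩
  · left; rw [h1, h2]
  · right; rw [h1, h2]; ring

theorem out_mem (e : Sym2 V) : e.out.1 ∈ e ∧ e.out.2 ∈ e :=
  ⟨Sym2.out_fst_mem e, Sym2.out_snd_mem e⟩

/-- graph polynomial -/
noncomputable def gp (M : Multiset (Sym2 V)) : MvPolynomial V ℤ := (M.map ed).prod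

@[simp] theorem gp_zero : gp (0 : Multiset (Sym2 V)) = 1 := by simp [gp]

theorem gp_cons (e : Sym2 V) (M : Multiset (Sym2 V)) : gp (e ::ₘ M) = ed e * gp M := by
  simp [gp]

theorem gp_add (M N : Multiset (Sym2 V)) : gp (M + N) = gp M * gp N := by
  simp [gp]

theorem gp_cons_mk (a b : V) (M : Multiset (Sym2 V)) :
    gp (s(a, b) ::ₘ M) = (X a - X b) * gp M ∨ gp (s(a, b) ::ₘ M) = -((X a - X b) * gp M) := by
  rw [gp_cons]
  rcases ed_mk a b with h | h
  · left; rw [h]
  · right; rw [h]; ring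

theorem fr_ed {v : V} {e : Sym2 V} (h : v ∉ e) : Fr v (ed e) := by
  obtain ⟨h1, h2⟩ := out_mem e
  unfold ed
  refine (fr_X ?_).sub (fr_X ?_)
  · rintro h3; exact h (h3 ▸ h1)
  · rintro h3; exact h (h3 ▸ h2)

theorem fr_gp {v : V} {M : Multiset (Sym2 V)} (h : ∀ e ∈ M, v ∉ e) : Fr v (gp M) :=
  fr_multiset_prod _ _ fun e he => fr_ed (h e he)

/-- Alon-Tarsi property with caps `c` -/
def AT (M : Multiset (Sym2 V)) (c : V → ℕ) : Prop := Sup (gp M) c

theorem AT.mono {M : Multiset (Sym2 V)} {c c' : V → ℕ} (h : AT M c) (hc : ∀ v, c v ≤ c' v) :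
    AT M c' := Sup.mono h hc

theorem AT.of_le {M N : Multiset (Sym2 V)} {c : V → ℕ} (h : AT M c) (hN : N ≤ M) : AT N c := by
  obtain ⟨K, rfl⟩ := Multiset.le_iff_exists_add.mp hN
  unfold AT at h ⊢
  rw [gp_add] at h
  exact Sup.of_mul h

theorem at_zero (c : V → ℕ) : AT (0 : Multiset (Sym2 V)) c := by
  refine ⟨0, fun v => Nat.zero_le _, ?_⟩
  simp

/-- link with helper19's `linPoly` -/
theorem gp_val (E : Finset (Sym2 V)) :
    gp E.val = Helper19.L9.linPoly (fun e : Sym2 V => e.out.1) (fun e => e.out.2) E := rfl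

/-- the number of edges which touch `A` -/
noncomputable def touch (A : Finset V) (M : Multiset (Sym2 V)) : ℕ := by
  classical
  exact M.countP (fun e => ∃ a ∈ A, a ∈ e)

theorem touch_cons_pos {A : Finset V} {e : Sym2 V} (h : ∃ a ∈ A, a ∈ e)
    (M : Multiset (Sym2 V)) : touch A (e ::ₘ M) = touch A M + 1 := by
  classical
  unfold touch
  rw [Multiset.countP_cons_of_pos (p := fun e => ∃ a ∈ A, a ∈ e) _ h]

theorem touch_cons_neg {A : Finset V} {e : Sym2 V} (h : ¬ ∃ a ∈ A, a ∈ e)
    (M : Multiset (Sym2 V)) : touch A (e ::ₘ M) = touch A M := by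
  classical
  unfold touch
  rw [Multiset.countP_cons_of_neg (p := fun e => ∃ a ∈ A, a ∈ e) _ h]

theorem touch_add (A : Finset V) (M N : Multiset (Sym2 V)) :
    touch A (M + N) = touch A M + touch A N := by
  classical
  unfold touch
  rw [Multiset.countP_add]

theorem coeff_X_mul_ne {a : V} {P : MvPolynomial V ℤ} {t : V →₀ ℕ}
    (h : coeff t (X a * P) ≠ 0) : ∃ t', t = Finsupp.single a 1 + t' ∧ coeff t' P ≠ 0 := by
  classical
  rw [coeff_X_mul'] at h
  split_ifs at h with ha
  · refine ⟨t - Finsupp.single a 1, ?_, h⟩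
    rw [add_comm, tsub_add_cancel_of_le]
    rw [Finsupp.single_le_iff]
    exact Nat.one_le_iff_ne_zero.mpr (Finsupp.mem_support_iff.mp ha)
  · exact absurd rfl h

theorem coeff_ed_mul_ne {e : Sym2 V} {P : MvPolynomial V ℤ} {t : V →₀ ℕ}
    (h : coeff t (ed e * P) ≠ 0) :
    ∃ a ∈ e, ∃ t', t = Finsupp.single a 1 + t' ∧ coeff t' P ≠ 0 := by
  obtain ⟨h1, h2⟩ := out_mem e
  unfold ed at h
  rw [sub_mul, coeff_sub] at h
  by_cases h3 : coeff t (X e.out.1 * P) = 0
  · have h4 : coeff t (X e.out.2 * P) ≠ 0 := by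
      intro h4; rw [h3, h4] at h; simp at h
    exact ⟨_, h2, coeff_X_mul_ne h4⟩
  · exact ⟨_, h1, coeff_X_mul_ne h3⟩

theorem adeg_le (A : Finset V) (M : Multiset (Sym2 V)) :
    ∀ t, coeff t (gp M) ≠ 0 → ∑ v ∈ A, t v ≤ touch A M := by
  classical
  induction M using Multiset.induction_on with
  | empty =>
    intro t ht
    have : t = 0 := by
      by_contra h
      apply ht
      rw [gp_zero, coeff_one, if_neg (Ne.symm h)]
    subst this
    simp
  | cons e M ih =>
    intro t ht
    rw [gp_cons] at ht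
    obtain ⟨a, hae, t', rfl, ht'⟩ := coeff_ed_mul_ne ht
    have h1 := ih t' ht'
    have h2 : ∑ v ∈ A, (Finsupp.single a 1 + t' : V →₀ ℕ) v =
        (if a ∈ A then 1 else 0) + ∑ v ∈ A, t' v := by
      simp [Finset.sum_add_distrib, Finsupp.single_apply]
    rw [h2]
    by_cases ha : a ∈ A
    · rw [if_pos ha, touch_cons_pos ⟨a, ha, hae⟩]; omega
    · rw [if_neg ha]
      by_cases hA : ∃ a ∈ A, a ∈ e
      · rw [touch_cons_pos hA]; omega
      · rw [touch_cons_neg hA]; omega

/-- variables of a monomial of `gp M` -/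
theorem coeff_gp_support {M : Multiset (Sym2 V)} {t : V →₀ ℕ} (h : coeff t (gp M) ≠ 0) (v : V)
    (hv : ∀ e ∈ M, v ∉ e) : t v = 0 := fr_gp hv t h

/-- total degree -/
theorem coeff_gp_degree (M : Multiset (Sym2 V)) :
    ∀ t, coeff t (gp M) ≠ 0 → t.degree = Multiset.card M := by
  classical
  induction M using Multiset.induction_on with
  | empty =>
    intro t ht
    have : t = 0 := by
      by_contra h
      apply ht
      rw [gp_zero, coeff_one, if_neg (Ne.symm h)]
    subst this
    simp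
  | cons e M ih =>
    intro t ht
    rw [gp_cons] at ht
    obtain ⟨a, hae, t', rfl, ht'⟩ := coeff_ed_mul_ne ht
    rw [map_add, Finsupp.degree_single, ih t' ht', Multiset.card_cons, add_comm]

/-- inner edges, outer edges, crossing edges (inner end listed) -/
theorem coeff_cross (A : Finset V) (N : Multiset (Sym2 V)) (K : Multiset (V × V))
    (hK : ∀ p ∈ K, p.1 ∈ A ∧ p.2 ∉ A) (t : V →₀ ℕ) (ht : coeff t (gp N) ≠ 0)
    (hdeg : ∑ v ∈ A, t v = touch A N) :
    coeff (t + (K.map fun p => Finsupp.single p.1 1).sum) (gp (K.map (fun p => s(p.1, p.2)) + N))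
      ≠ 0 ∧
    ∑ v ∈ A, (t + (K.map fun p => (Finsupp.single p.1 1 : V →₀ ℕ)).sum) v =
      touch A (K.map (fun p => s(p.1, p.2)) + N) := by
  classical
  induction K using Multiset.induction_on with
  | empty => simpa using ⟨ht, hdeg⟩
  | cons p K ih =>
    obtain ⟨ih1, ih2⟩ := ih fun q hq => hK q (Multiset.mem_cons_of_mem hq)
    obtain ⟨hp1, hp2⟩ := hK p (Multiset.mem_cons_self _ _)
    simp only [Multiset.map_cons, Multiset.sum_cons, Multiset.cons_add]
    set T := t + (K.map fun p => (Finsupp.single p.1 1 : V →₀ ℕ)).sum with hT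
    set R := K.map (fun p => s(p.1, p.2)) + N with hR
    have e1 : t + (Finsupp.single p.1 1 + (K.map fun p => (Finsupp.single p.1 1 : V →₀ ℕ)).sum) =
        Finsupp.single p.1 1 + T := by
      rw [hT]; abel
    rw [e1]
    constructor
    · have h1 : coeff (Finsupp.single p.1 1 + T) (X p.1 * gp R) ≠ 0 := by
        rw [coeff_X_mul]; exact ih1
      have h2 : coeff (Finsupp.single p.1 1 + T) (X p.2 * gp R) = 0 := by
        by_contra hne
        obtain ⟨t', ht', hc⟩ := coeff_X_mul_ne hne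
        have h3 := adeg_le A R t' hc
        have h4 : ∑ v ∈ A, (Finsupp.single p.1 1 + T : V →₀ ℕ) v = 1 + ∑ v ∈ A, T v := by
          simp [Finset.sum_add_distrib, Finsupp.single_apply, hp1]
        have h5 : ∑ v ∈ A, (Finsupp.single p.2 1 + t' : V →₀ ℕ) v = ∑ v ∈ A, t' v := by
          simp [Finset.sum_add_distrib, Finsupp.single_apply, hp2]
        rw [ht', h5] at h4
        omega
      rcases gp_cons_mk p.1 p.2 R with h | h
      · rw [h, sub_mul, coeff_sub, h2, sub_zero]; exact h1
      · rw [h, coeff_neg, sub_mul, coeff_sub, h2, sub_zero]; simpa using h1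
    · rw [touch_cons_pos ⟨p.1, hp1, Sym2.mem_mk_left _ _⟩, ← ih2]
      simp [Finset.sum_add_distrib, Finsupp.single_apply, hp1]
      ring

theorem coeff_mul_disjoint {A : Finset V} {P Q : MvPolynomial V ℤ}
    (hP : ∀ t, coeff t P ≠ 0 → ∀ v ∉ A, t v = 0) (hQ : ∀ v ∈ A, Fr v Q)
    {s t : V →₀ ℕ} (hs : coeff s P ≠ 0) (ht : coeff t Q ≠ 0) : coeff (s + t) (P * Q) ≠ 0 := by
  classical
  rw [coeff_mul, Finset.sum_eq_single (s, t)]
  · exact mul_ne_zero hs ht
  · rintro ⟨x, y⟩ hxy hne
    rw [Finset.mem_antidiagonal] at hxy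
    simp only at hxy ⊢
    by_contra hcon
    have hx := hP x (left_ne_zero_of_mul hcon)
    have hy : ∀ v ∈ A, y v = 0 := fun v hv => hQ v hv y (right_ne_zero_of_mul hcon)
    have hs' := hP s hs
    have ht' : ∀ v ∈ A, t v = 0 := fun v hv => hQ v hv t ht
    apply hne
    have key : ∀ v, x v = s v ∧ y v = t v := by
      intro v
      have := DFunLike.congr_fun hxy v
      simp only [Finsupp.add_apply] at this
      by_cases hv : v ∈ A
      · have := hy v hv; have := ht' v hv; omega
      · have := hx v hv; have := hs' v hv; omega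
    rw [Prod.mk.injEq]
    exact ⟨Finsupp.ext fun v => (key v).1, Finsupp.ext fun v => (key v).2⟩
  · intro h
    exact (h (Finset.mem_antidiagonal.mpr rfl)).elim

theorem sum_single_notMem {A : Finset V} (K : Multiset (V × V)) (hK : ∀ p ∈ K, p.1 ∈ A)
    {v : V} (hv : v ∉ A) : (K.map fun p => (Finsupp.single p.1 1 : V →₀ ℕ)).sum v = 0 := by
  classical
  induction K using Multiset.induction_on with
  | empty => simp
  | cons p K ih =>
    rw [Multiset.map_cons, Multiset.sum_cons, Finsupp.add_apply,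
      ih fun q hq => hK q (Multiset.mem_cons_of_mem hq), add_zero, Finsupp.single_apply,
      if_neg]
    rintro rfl
    exact hv (hK p (Multiset.mem_cons_self _ _))

/-- **Block lemma.** `A` pays all the edges which leave `A`. -/
theorem AT.block (A : Finset V) (Mi Mo : Multiset (Sym2 V)) (K : Multiset (V × V))
    (c₁ c : V → ℕ) (hMi : ∀ e ∈ Mi, ∀ v ∈ e, v ∈ A) (hMo : ∀ e ∈ Mo, ∀ v ∈ e, v ∉ A)
    (hK : ∀ p ∈ K, p.1 ∈ A ∧ p.2 ∉ A) (h1 : AT Mi c₁) (h2 : AT Mo c)
    (hc : ∀ v ∈ A, c₁ v + (K.map fun p => (Finsupp.single p.1 1 : V →₀ ℕ)).sum v ≤ c v) :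
    AT (Mi + K.map (fun p => s(p.1, p.2)) + Mo) c := by
  classical
  obtain ⟨s, hs, hs'⟩ := h1
  obtain ⟨t, ht, ht'⟩ := h2
  have hMo' : ∀ v ∈ A, Fr v (gp Mo) := fun v hv => fr_gp fun e he hve => hMo e he v hve hv
  have hsA : ∀ t, coeff t (gp Mi) ≠ 0 → ∀ v ∉ A, t v = 0 := by
    intro t ht v hv
    exact coeff_gp_support ht v fun e he hve => hv (hMi e he v hve)
  have hst : coeff (s + t) (gp (Mi + Mo)) ≠ 0 := by
    rw [gp_add]
    exact coeff_mul_disjoint hsA hMo' hs' ht'
  have hdeg : ∑ v ∈ A, (s + t) v = touch A (Mi + Mo) := by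
    have e1 : ∑ v ∈ A, (s + t) v = ∑ v ∈ A, s v := by
      refine Finset.sum_congr rfl fun v hv => ?_
      rw [Finsupp.add_apply, hMo' v hv t ht', add_zero]
    have e2 : touch A Mo = 0 := by
      unfold touch
      rw [Multiset.countP_eq_zero]
      rintro e he ⟨a, ha, hae⟩
      exact hMo e he a hae ha
    have e3 : touch A Mi = Multiset.card Mi := by
      unfold touch
      rw [Multiset.countP_eq_card]
      intro e he
      exact ⟨e.out.1, hMi e he _ (out_mem e).1, (out_mem e).1⟩
    rw [e1, touch_add, e2, e3, ← coeff_gp_degree Mi s hs', add_zero, Finsupp.degree_apply]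
    symm
    refine Finset.sum_subset ?_ ?_
    · intro v hv
      by_contra hvA
      exact (Finsupp.mem_support_iff.mp hv) (hsA s hs' v hvA)
    · intro v _ hv
      simpa using hv
  obtain ⟨h3, _⟩ := coeff_cross A (Mi + Mo) K hK (s + t) hst hdeg
  have e4 : Mi + K.map (fun p => s(p.1, p.2)) + Mo = K.map (fun p => s(p.1, p.2)) + (Mi + Mo) := by
    rw [add_comm Mi, add_assoc]
  refine ⟨_, fun v => ?_, e4 ▸ h3⟩
  simp only [Finsupp.add_apply]
  by_cases hv : v ∈ A
  · have h5 := hc v hv
    have h6 := hs v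
    have h7 := hMo' v hv t ht'
    omega
  · have h5 := hsA s hs' v hv
    have h6 := ht v
    have h7 : (K.map fun p => (Finsupp.single p.1 1 : V →₀ ℕ)).sum v = 0 :=
      sum_single_notMem K (fun p hp => (hK p hp).1) hv
    omega

/-- degree of `v` in a loopless multigraph -/
noncomputable def dg (M : Multiset (Sym2 V)) (v : V) : ℕ := by
  classical
  exact M.countP (fun e => v ∈ e)

theorem dg_cons_pos {v : V} {e : Sym2 V} (h : v ∈ e)
    (M : Multiset (Sym2 V)) : dg (e ::ₘ M) v = dg M v + 1 := by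
  classical
  unfold dg
  rw [Multiset.countP_cons_of_pos (p := fun e => v ∈ e) _ h]

theorem dg_cons_neg {v : V} {e : Sym2 V} (h : v ∉ e)
    (M : Multiset (Sym2 V)) : dg (e ::ₘ M) v = dg M v := by
  classical
  unfold dg
  rw [Multiset.countP_cons_of_neg (p := fun e => v ∈ e) _ h]

theorem dg_add (M N : Multiset (Sym2 V)) (v : V) : dg (M + N) v = dg M v + dg N v := by
  classical
  unfold dg
  rw [Multiset.countP_add]

theorem dg_le_of_le {M N : Multiset (Sym2 V)} (h : M ≤ N) (v : V) : dg M v ≤ dg N v := by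
  classical
  unfold dg
  exact Multiset.countP_le_of_le _ h

open Classical in
/-- edges with both ends in `A`, edges with one end in `A`, the others -/
noncomputable def inn (A : Finset V) (M : Multiset (Sym2 V)) : Multiset (Sym2 V) :=
  M.filter fun e => ∀ v ∈ e, v ∈ A

open Classical in
noncomputable def outt (A : Finset V) (M : Multiset (Sym2 V)) : Multiset (Sym2 V) :=
  M.filter fun e => ∀ v ∈ e, v ∉ A

open Classical in
noncomputable def crs (A : Finset V) (M : Multiset (Sym2 V)) : Multiset (Sym2 V) :=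
  M.filter fun e => (∃ v ∈ e, v ∈ A) ∧ ∃ v ∈ e, v ∉ A

theorem split3 (A : Finset V) (M : Multiset (Sym2 V)) : inn A M + crs A M + outt A M = M := by
  classical
  induction M using Multiset.induction_on with
  | empty => simp [inn, crs, outt]
  | cons e M ih =>
    have hex : ∃ v, v ∈ e := ⟨_, (out_mem e).1⟩
    unfold inn crs outt at ih ⊢
    by_cases h1 : ∀ v ∈ e, v ∈ A
    · rw [Multiset.filter_cons_of_pos _ h1, Multiset.filter_cons_of_neg, Multiset.filter_cons_of_neg]
      · conv_rhs => rw [← ih]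
        simp [Multiset.cons_add]
      · intro h2
        obtain ⟨v, hv⟩ := hex
        exact h2 v hv (h1 v hv)
      · rintro ⟨_, v, hv, hvA⟩
        exact hvA (h1 v hv)
    · by_cases h2 : ∀ v ∈ e, v ∉ A
      · rw [Multiset.filter_cons_of_neg _ h1, Multiset.filter_cons_of_neg,
          Multiset.filter_cons_of_pos _ h2]
        · conv_rhs => rw [← ih]
          simp [Multiset.add_cons]
        · rintro ⟨⟨v, hv, hvA⟩, _⟩
          exact h2 v hv hvA
      · have h3 : (∃ v ∈ e, v ∈ A) ∧ ∃ v ∈ e, v ∉ A := by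
          push Not at h1 h2
          exact ⟨h2, h1⟩
        rw [Multiset.filter_cons_of_neg _ h1, Multiset.filter_cons_of_pos
          (p := fun e => (∃ v ∈ e, v ∈ A) ∧ ∃ v ∈ e, v ∉ A) _ h3,
          Multiset.filter_cons_of_neg _ h2]
        conv_rhs => rw [← ih]
        simp [Multiset.add_cons, Multiset.cons_add]

/-- **Block lemma, second form.** -/
theorem AT.block' (A : Finset V) (M : Multiset (Sym2 V)) (c₁ c : V → ℕ)
    (h1 : AT (inn A M) c₁) (h2 : AT (outt A M) c)
    (hc : ∀ v ∈ A, c₁ v + dg (crs A M) v ≤ c v) : AT M c := by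
  classical
  have hcr : ∀ e ∈ crs A M, ∃ p : V × V, (p.1 ∈ A ∧ p.2 ∉ A) ∧ s(p.1, p.2) = e := by
    intro e he
    unfold crs at he
    obtain ⟨_, ⟨v, hv, hvA⟩, w, hw, hwA⟩ := Multiset.mem_filter.mp he
    refine ⟨(v, w), ⟨hvA, hwA⟩, ?_⟩
    have hne : v ≠ w := by rintro rfl; exact hwA hvA
    exact ((Sym2.mem_and_mem_iff hne).mp ⟨hv, hw⟩).symm
  have hK : ∃ K : Multiset (V × V), (∀ p ∈ K, p.1 ∈ A ∧ p.2 ∉ A) ∧
      K.map (fun p => s(p.1, p.2)) = crs A M := by
    generalize crs A M = C at hcr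
    induction C using Multiset.induction_on with
    | empty => exact ⟨0, by simp, by simp⟩
    | cons e C ih =>
      obtain ⟨K, hK1, hK2⟩ := ih fun e he => hcr e (Multiset.mem_cons_of_mem he)
      obtain ⟨p, hp, hpe⟩ := hcr e (Multiset.mem_cons_self _ _)
      refine ⟨p ::ₘ K, ?_, ?_⟩
      · intro q hq
        rcases Multiset.mem_cons.mp hq with rfl | hq
        · exact hp
        · exact hK1 q hq
      · rw [Multiset.map_cons, hK2, hpe]
  obtain ⟨K, hK1, hK2⟩ := hK
  have hsum : ∀ v ∈ A, (K.map fun p => (Finsupp.single p.1 1 : V →₀ ℕ)).sum v =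
      dg (crs A M) v := by
    intro v hv
    rw [← hK2]
    clear hK2
    induction K using Multiset.induction_on with
    | empty => simp [dg]
    | cons p K ih =>
      obtain ⟨hp1, hp2⟩ := hK1 p (Multiset.mem_cons_self _ _)
      rw [Multiset.map_cons, Multiset.sum_cons, Finsupp.add_apply,
        ih (fun q hq => hK1 q (Multiset.mem_cons_of_mem hq)), Multiset.map_cons,
        Finsupp.single_apply]
      by_cases h : p.1 = v
      · rw [if_pos h, dg_cons_pos (by rw [Sym2.mem_iff]; exact Or.inl h.symm)]; ring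
      · rw [if_neg h, dg_cons_neg, zero_add]
        rw [Sym2.mem_iff]
        rintro (h3 | h3)
        · exact h h3.symm
        · exact hp2 (h3 ▸ hv)
  have := AT.block A (inn A M) (outt A M) K c₁ c
    (fun e he => (Multiset.mem_filter.mp he).2) (fun e he => (Multiset.mem_filter.mp he).2)
    hK1 h1 h2 (fun v hv => by rw [hsum v hv]; exact hc v hv)
  rw [hK2, split3] at this
  exact this

/-- **Peel.** A vertex which can pay all its edges. -/
theorem AT.peel (v : V) (M : Multiset (Sym2 V)) (c : V → ℕ) (hl : ∀ e ∈ M, ¬ e.IsDiag)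
    (hv : dg M v ≤ c v) (h : AT (outt {v} M) c) : AT M c := by
  classical
  refine AT.block' {v} M (fun _ => 0) c ?_ h ?_
  · have : inn {v} M = 0 := by
      unfold inn
      rw [Multiset.filter_eq_nil]
      intro e he h2
      apply hl e he
      have h3 : s(e.out.1, e.out.2) = e := Quot.out_eq e
      have h4 := h2 _ (out_mem e).1
      have h5 := h2 _ (out_mem e).2
      rw [Finset.mem_singleton] at h4 h5
      rw [← h3, Sym2.mk_isDiag_iff, h4, h5]
    rw [this]
    exact at_zero _
  · intro w hw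
    rw [Finset.mem_singleton] at hw
    subst hw
    rw [zero_add]
    refine le_trans (dg_le_of_le ?_ _) hv
    unfold crs
    exact Multiset.filter_le _ _

end Helper42.L9
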