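import Pool.Agent.helper42.L9.EX14

/-!
# E-phase with exempt vertices: the theorem with cells
-/

set_option linter.unusedSimpArgs false
set_option linter.unusedVariables false

namespace Helper42.L9

open Finset Helper33.L9
open Helper19.DN (EZ TE slZ cZ tZ img mem_img)

variable {V : Type*} {own : V → V → Prop} {c c' : V → ℕ} {M N L O : Multiset (Sym2 V)} {n k : ℕ}
  {EB : Multiset (Sym2 V)} {z : Fin k → Fin 4 → V} {slot : V → ℕ} {J : Finset (Fin k)}

/-- a middle vertex of a cell has only one link -/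
theorem Inv0.one (h : Inv0 own c EB z slot J L O N) (hC : Cells c c' EB z slot) {j : Fin k}
    {i : Fin 4} (hi : i = 1 ∨ i = 2) {x y : V} (hx : Nf c x) (hy : Nf c y)
    (h1 : s(x, z j i) ∈ N) (h2 : s(y, z j i) ∈ N) : x = y := by
  classical
  by_contra hne
  have m1 := mem_swap' (h.memL hC hx (hC.ex j i) h1)
  have m2 := mem_swap' (h.memL hC hy (hC.ex j i) h2)
  have := card_le_dg (M := L) (x := z j i) {x, y} (by
    intro w hw
    simp only [Finset.mem_insert, Finset.mem_singleton] at hw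
    rcases hw with rfl | rfl <;> assumption)
  rw [Finset.card_insert_of_notMem (by simp [hne]), Finset.card_singleton] at this
  have h3 := h.slots _ (hC.ex j i)
  have h4 := hC.slz j i
  have h5 : slZ i = 1 := by rcases hi with rfl | rfl <;> rfl
  omega

theorem mid_of {j : Fin k} {f : Fin 4 → V} (hf : f = z j ∨ f = z j ∘ sw12) :
    (∃ i, (i = 1 ∨ i = 2) ∧ f 1 = z j i) ∧ ∃ i, (i = 1 ∨ i = 2) ∧ f 2 = z j i := by
  rcases hf with rfl | rfl
  · exact ⟨⟨1, Or.inl rfl, rfl⟩, ⟨2, Or.inr rfl, rfl⟩⟩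
  · exact ⟨⟨2, Or.inr rfl, rfl⟩, ⟨1, Or.inl rfl, rfl⟩⟩

theorem iv5_LO (hC : Cells c c' EB z slot) :
    Iv5 own c c' (InvLO own c EB z slot) (BadT z) where
  step := by
    rintro M R s u w v t a hM ⟨J, L, O, h⟩ hNM hP hBad haR htR memR
    exact ⟨J, _, _, h.p5 hC hM hNM hP hBad haR htR memR⟩
  kill := by
    classical
    rintro M s u w v t a b hM hS hNM ⟨J, L, O, h⟩ rec_ hP hLv hBad hor
    have hl := hM.loopless
    have hF := hP.facts hM hLv
    have hG := hF.mirror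
    have key : ∀ {j : Fin k} {f : Fin 4 → V}, (f = z j ∨ f = z j ∘ sw12) → ∀ x,
        (∃ i, f i = x) → ∃ i, z j i = x := by
      rintro j f (rfl | rfl) x hx
      · exact hx
      · exact (range_sw _ _).mp hx
    have key2 : ∀ {j : Fin k} {f : Fin 4 → V}, (f = z j ∨ f = z j ∘ sw12) → ∀ i,
        ∃ i', f i' = z j i := by
      rintro j f (rfl | rfl) i
      · exact ⟨i, rfl⟩
      · exact (range_sw _ _).mpr ⟨i, rfl⟩
    have fin1 : ∀ {j : Fin k} {f : Fin 4 → V}, (f = z j ∨ f = z j ∘ sw12) → ∀ {y y' : V},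
        s(y', y) ∈ M →
        ∀ B : Finset V, (∀ x ∈ B, Nf c x ∨ ∃ i, f i = x) → (∀ i, f i ∈ B) → y ∈ B →
        AT (outt B M) c' := by
      intro j f hf y y' hy B h1 h2 h3
      refine rec_ _ (hM.mono (outt_le _ _)) ⟨_, _, _, h.rem hC (K := {j}) ?_ ?_⟩
        (card_outt_lt h3 hy)
      · intro x hx
        refine (h1 x hx).imp id fun h4 => ⟨j, Finset.mem_singleton_self _, key hf x h4⟩
      · intro j' hj' i
        rw [Finset.mem_singleton] at hj'
        subst hj'
        obtain ⟨i', hi'⟩ := key2 hf i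
        rw [← hi']
        exact h2 i'
    have finq : ∀ {j : Fin k} {f : Fin 4 → V}, (f = z j ∨ f = z j ∘ sw12) →
        ∀ {s u w v t : V}, Nf c s → Nf c u → Nf c w → Nf c v → Nf c t → s(v, t) ∈ M →
        ∀ A : Finset V, (∀ x, x ∈ A ↔ x ∈ [s, u, w, v, t, f 0, f 1, f 2, f 3]) →
        AT (outt A M) c' := by
      intro j f hf s u w v t w1 w2 w3 w4 w5 hvt A hA
      refine fin1 hf hvt A ?_ ?_ ((hA t).mpr (by simp))
      · intro x hx
        have hx := (hA x).mp hx
        simp only [List.mem_cons, List.not_mem_nil, or_false] at hx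
        rcases hx with rfl | rfl | rfl | rfl | rfl | rfl | rfl | rfl | rfl
        exacts [Or.inl w1, Or.inl w2, Or.inl w3, Or.inl w4, Or.inl w5, Or.inr ⟨_, rfl⟩,
          Or.inr ⟨_, rfl⟩, Or.inr ⟨_, rfl⟩, Or.inr ⟨_, rfl⟩]
      · intro i
        refine (hA _).mpr ?_
        fin_cases i <;> simp
    obtain ⟨j, hj, f, hf, hcell, htc⟩ := h.cases hC hP.ht hBad
    -- the other side
    have other : (∃ j' ∈ J, ∃ g : Fin 4 → V, (g = z j' ∨ g = z j' ∘ sw12) ∧ Cell c c' M g ∧
        TCase M s b g) ∨ b = s ∨ ∃ x y, K4At c M t v w u s b x y := by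
      rcases hor with h1 | h1 | ⟨h1, h2⟩
      · exact Or.inr (Or.inl h1)
      · exact Or.inr (Or.inr h1)
      · obtain ⟨j', hj', g, hg, hcg, htg⟩ := h.cases hC h1.ht h2
        exact Or.inl ⟨j', hj', g, hg, hcg, htg⟩
    have hjj : ∀ {j' : Fin k} {g : Fin 4 → V}, (g = z j' ∨ g = z j' ∘ sw12) →
        s(s, g 1) ∈ M → (∀ i, (i = 1 ∨ i = 2) → ∃ y, Nf c y ∧ y ≠ s ∧ s(y, f i) ∈ M) →
        ∀ i i', f i ≠ g i' := by
      intro j' g hg h1 h2 i i' hii
      have hj' : j = j' := by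
        obtain ⟨i1, e1⟩ := key hf _ ⟨i, rfl⟩
        obtain ⟨i2, e2⟩ := key hg _ ⟨i', rfl⟩
        exact (hC.inj _ _ _ _ (e1.trans (hii.trans e2.symm))).1
      subst hj'
      obtain ⟨⟨i1, hi1, e1⟩, _⟩ := mid_of hg
      obtain ⟨⟨i2, hi2, e2⟩, ⟨i3, hi3, e3⟩⟩ := mid_of hf
      rw [e1] at h1
      have : ∃ l, (l = 1 ∨ l = 2) ∧ f l = z j i1 := by
        rcases hf with rfl | rfl
        · exact ⟨i1, hi1, rfl⟩
        · rcases hi1 with rfl | rfl
          · exact ⟨2, Or.inr rfl, rfl⟩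
          · exact ⟨1, Or.inl rfl, rfl⟩
      obtain ⟨l, hl1, hl2⟩ := this
      obtain ⟨y, hy1, hy2, hy3⟩ := h2 l hl1
      rw [hl2] at hy3
      exact hy2 (h.one hC hi1 hy1 hF.hs hy3 h1)
    have fin2 : ∀ {j' : Fin k} {g : Fin 4 → V}, (g = z j' ∨ g = z j' ∘ sw12) →
        ∀ B : Finset V, (∀ x ∈ B, Nf c x ∨ (∃ i, f i = x) ∨ ∃ i, g i = x) →
        (∀ i, f i ∈ B) → (∀ i, g i ∈ B) → t ∈ B → AT (outt B M) c' := by
      intro j' g hg B h1 h2 h2' h3
      refine rec_ _ (hM.mono (outt_le _ _)) ⟨_, _, _, h.rem hC (K := {j, j'}) ?_ ?_⟩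
        (card_outt_lt h3 hF.vt)
      · intro x hx
        rcases h1 x hx with h4 | h4 | h4
        · exact Or.inl h4
        · exact Or.inr ⟨j, by simp, key hf x h4⟩
        · exact Or.inr ⟨j', by simp, key hg x h4⟩
      · intro l hl i
        rw [Finset.mem_insert, Finset.mem_singleton] at hl
        rcases hl with rfl | rfl
        · obtain ⟨i', hi'⟩ := key2 hf i
          rw [← hi']
          exact h2 i'
        · obtain ⟨i', hi'⟩ := key2 hg i
          rw [← hi']
          exact h2' i'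
    obtain ⟨n1, n2, n3, n4, n5, n6, n7, n8, n9, n10⟩ := hF.nes
    cases htc with
    | Q1 h1 h2 h3 =>
      subst h3
      exact kill_q1 hl hF hcell h1 h2 (finq hf hF.hs hF.hu hF.hw hF.hv hF.ht hF.vt)
    | Q2 h1 h2 h3 =>
      subst h3
      exact kill_q2 hl hF hcell h1 h2 (finq hf hF.hs hF.hu hF.hw hF.hv hF.ht hF.vt)
    | A1 h1 h2 h3 =>
      subst h3
      rcases other with ⟨j', hj', g, hg, hcg, htg⟩ | h4 | ⟨x, y, hk⟩
      · have two : ∀ i, (i = 1 ∨ i = 2) → ∃ y, Nf c y ∧ y ≠ s ∧ s(y, f i) ∈ M := by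
          rintro i (rfl | rfl)
          · exact ⟨t, hF.ht, n4.symm, h1⟩
          · exact ⟨t, hF.ht, n4.symm, h2⟩
        cases htg with
        | Q1 g1 g2 g3 =>
          subst g3
          exact kill_q1 hl hG hcg g1 g2 (finq hg hF.ht hF.hv hF.hw hF.hu hF.hs hG.vt)
        | Q2 g1 g2 g3 =>
          subst g3
          exact kill_q2 hl hG hcg g1 g2 (finq hg hF.ht hF.hv hF.hw hF.hu hF.hs hG.vt)
        | A1 g1 g2 g3 =>
          subst g3
          exact kill_dA1A1 hl hF hcell hcg (hjj hg g1 two) h1 h2 g1 g2 (fin2 hg)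
        | A2 g1 g2 g3 =>
          subst g3
          exact kill_dA1A2 hl hF hcell hcg (hjj hg g1 two) h1 h2 g1 g2 (fin2 hg)
      · subst h4
        exact kill_cA1 hl hG hcell h1 h2 (fin1 hf hF.vt)
      · exact kill_kA1 hM hF hcell h1 h2 hk (fin1 hf hF.vt)
    | A2 h1 h2 h3 =>
      subst h3
      rcases other with ⟨j', hj', g, hg, hcg, htg⟩ | h4 | ⟨x, y, hk⟩
      · have two : ∀ i, (i = 1 ∨ i = 2) → ∃ y, Nf c y ∧ y ≠ s ∧ s(y, f i) ∈ M := by
          rintro i (rfl | rfl)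
          · exact ⟨t, hF.ht, n4.symm, h1⟩
          · exact ⟨u, hF.hu, n1.symm, hF.ua⟩
        cases htg with
        | Q1 g1 g2 g3 =>
          subst g3
          exact kill_q1 hl hG hcg g1 g2 (finq hg hF.ht hF.hv hF.hw hF.hu hF.hs hG.vt)
        | Q2 g1 g2 g3 =>
          subst g3
          exact kill_q2 hl hG hcg g1 g2 (finq hg hF.ht hF.hv hF.hw hF.hu hF.hs hG.vt)
        | A1 g1 g2 g3 =>
          subst g3
          exact kill_dA2A1 hl hF hcell hcg (hjj hg g1 two) h1 h2 g1 g2 (fin2 hg)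
        | A2 g1 g2 g3 =>
          subst g3
          exact kill_dA2A2 hl hF hcell hcg (hjj hg g1 two) h1 h2 g1 g2 (fin2 hg)
      · subst h4
        exact kill_cA2 hl hG hcell h1 h2 (fin1 hf hF.vt)
      · exact kill_kA2 hM hF hcell h1 h2 hk (fin1 hf hF.vt)

/-- **E-phase with exempt vertices and cells.** It remains to treat networks of block edges and
links `R` with at most three edges at the ordinary vertices, without `K_4` and without triples. -/
theorem ENetX.at_cells (hC : Cells c c' EB z slot) (hM : ENetX own c c' M)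
    (h0 : Inv0 own c EB z slot J L O M)
    (hfin : ∀ R : Multiset (Sym2 V), (∀ e ∈ R, ¬ e.IsDiag) → (∀ v, ¬ Nf c v → dg R v ≤ slot v) →
      (∀ v, c v = 2 → dg R v ≤ 3) → (∀ v, c v = 3 → dg R v = 0) →
      (∀ a b d e, c a = 2 → c b = 2 → c d = 2 → c e = 2 → [a, b, d, e].Nodup → s(a, b) ∈ R →
        s(a, d) ∈ R → s(a, e) ∈ R → s(b, d) ∈ R → s(b, e) ∈ R → s(d, e) ∈ R → False) →
      NoTri c z R → AT (EB + (TE EZ z + R)) c') : AT M c' := by
  classical
  refine ENetX.at (ivC_LO hC) (iv5_LO hC) ?_ hM ⟨J, L, O, h0⟩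
  rintro N hN ⟨J, L, O, h⟩ h3 h2
  have hle : L + O ≤ N := by
    rw [h.eq]
    exact (Multiset.le_add_left _ _).trans (Multiset.le_add_left _ _)
  have hNle : N ≤ EB + (TE EZ z + (L + O)) := by
    rw [h.eq]
    refine add_le_add le_rfl (add_le_add ?_ le_rfl)
    unfold TE
    exact Finset.sum_le_sum_of_subset (Finset.subset_univ J)
  refine AT.of_le (hfin (L + O) ?_ ?_ ?_ ?_ ?_ ?_) hNle
  · exact fun e he => hN.loopless e (Multiset.mem_of_le hle he)
  · intro v hv
    rw [dg_add]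
    have : dg O v = 0 := Helper19.DN.dg_zero fun e he hve => hv (h.exO e he v hve)
    rw [this, add_zero]
    exact h.slots v hv
  · exact fun v hv => (dg_le_of_le hle v).trans (h2 v hv)
  · exact fun v hv => Nat.le_zero.mp ((dg_le_of_le hle v).trans (h3 v hv).le)
  · intro a b d e ca cb cd ce hn m1 m2 m3 m4 m5 m6
    exact hN.noK4 a b d e ca cb cd ce hn (Or.inl (Multiset.mem_of_le hle m1))
      (Or.inl (Multiset.mem_of_le hle m2)) (Or.inl (Multiset.mem_of_le hle m3))
      (Or.inl (Multiset.mem_of_le hle m4)) (Or.inl (Multiset.mem_of_le hle m5))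
      (Or.inl (Multiset.mem_of_le hle m6))
  · intro o j ho m1 m2 m3
    have key : ∀ i, s(o, z j i) ∈ L + O → s(o, z j i) ∈ L := fun i hi =>
      h.memL hC (Or.inl ho) (hC.ex j i) (Multiset.mem_of_le hle hi)
    exact h.tri o j ho (key 1 m1) (key 2 m2) (m3.imp (key 0) (key 3))

end Helper42.L9
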