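import Pool.Agent.helper42.L9.Eph10

/-!
# E-phase: the main theorem
-/

set_option linter.unusedSimpArgs false

namespace Helper42.L9

open Finset Helper33.L9

variable {V : Type*} {own : V → V → Prop} {c : V → ℕ} {M N : Multiset (Sym2 V)}

theorem exists_edge {u : V} (h : dg M u ≠ 0) : ∃ v, s(v, u) ∈ M := by
  classical
  unfold dg at h
  obtain ⟨e, he, hu⟩ := (Multiset.countP_pos (p := fun e => u ∈ e)).mp (Nat.pos_of_ne_zero h)
  obtain ⟨v, rfl⟩ := Sym2.mem_iff_exists.mp hu
  exact ⟨v, mem_swap he⟩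

/-- an inner vertex of positive degree lies in a `P_4` or `P_5`, or in a long unit -/
theorem ENet.unit (hM : ENet own c M) (hS : Stk c M) (hK : NoLong own c M)
    (hC : ∀ s' s u v t, c s' = 3 → c s = 3 → c u = 3 → c v = 3 → c t = 3 → own s' s → own s u →
      own u v → own v t → s' ≠ u → s ≠ v → u ≠ t → dg M u = 0)
    (hNM : NoMid own c M) {u : V} (hu : c u = 3) (hd : dg M u ≠ 0) :
    ∃ s u w v t, c s = 2 ∧ c u = 3 ∧ c w = 3 ∧ c v = 3 ∧ c t = 2 ∧ own s u ∧ own u w ∧
      own w v ∧ own v t ∧ u ≠ v ∧ dg M u ≠ 0 := by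
  have full : ∀ {x : V}, dg M x ≠ 0 → c x = 3 → 4 ≤ dg M x := by
    intro x h1 h2
    have := hS x h1
    omega
  have side : ∀ {u x y x' y' : V}, dg M u ≠ 0 → c u = 3 → LocAt own c M u x y x' y' →
      c x = 3 → ∃ s u w v t, c s = 2 ∧ c u = 3 ∧ c w = 3 ∧ c v = 3 ∧ c t = 2 ∧ own s u ∧
      own u w ∧ own w v ∧ own v t ∧ u ≠ v ∧ dg M u ≠ 0 := by
    intro u x y x' y' hd hu hL hcx
    obtain ⟨k1, k2⟩ := hL.bx hcx
    have hdx := (dg_pos hL.mem1).2
    rcases hM.cap y with hcy | hcy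
    · -- `y, u, x, x'`
      rcases hM.cap x' with hcx' | hcx'
      · exfalso
        exact hd (hNM u x ⟨hu, hcx, hL.ox, ⟨y, hL.oy, hcy⟩, x', k1, hcx'⟩)
      · obtain ⟨z1, z2, hLx⟩ := hM.locAt hcx (full hdx hcx) (hM.symm _ _ hL.ox) k1 k2.symm
        obtain ⟨k3, k4⟩ := hLx.hy hcx'
        rcases hM.cap z2 with hz | hz
        · exact ⟨y, u, x, x', z2, hcy, hu, hcx, hcx', hz, hM.symm _ _ hL.oy, hL.ox, k1, k3,
            k2.symm, hd⟩
        · exfalso
          exact hd (hK y u x x' z2 hcy hu hcx hcx' hz (hM.symm _ _ hL.oy) hL.ox k1 k3 k2.symm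
            k4.symm)
    · obtain ⟨k3, k4⟩ := hL.hy hcy
      have hdy := (dg_pos hL.mem2).2
      rcases hM.cap x' with hcx' | hcx'
      · rcases hM.cap y' with hcy' | hcy'
        · exact ⟨x', x, u, y, y', hcx', hcx, hu, hcy, hcy', hM.symm _ _ k1,
            hM.symm _ _ hL.ox, hL.oy, k3, hL.ne, hdx⟩
        · exfalso
          exact hdx (hK x' x u y y' hcx' hcx hu hcy hcy' (hM.symm _ _ k1) (hM.symm _ _ hL.ox)
            hL.oy k3 hL.ne k4.symm)
      · rcases hM.cap y' with hcy' | hcy'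
        · exfalso
          exact hdy (hK y' y u x x' hcy' hcy hu hcx hcx' (hM.symm _ _ k3) (hM.symm _ _ hL.oy)
            hL.ox k1 hL.ne.symm k2.symm)
        · exfalso
          exact hd (hC x' x u y y' hcx' hcx hu hcy hcy' (hM.symm _ _ k1) (hM.symm _ _ hL.ox)
            hL.oy k3 k2 hL.ne k4.symm)
  obtain ⟨x, y, x', y', hL⟩ := hM.loc u hu (full hd hu)
  rcases hL.one with h | h
  · exact side hd hu hL h
  · exact side hd hu hL.swap h

/-- **E-phase.** -/
theorem ENet.at_aux : ∀ (n : ℕ) (M : Multiset (Sym2 V)), Multiset.card M ≤ n →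
    ENet own c M → AT M c := by
  classical
  intro n
  induction n with
  | zero =>
    intro M hn _
    have : M = 0 := Multiset.card_eq_zero.mp (by omega)
    subst this
    exact at_zero _
  | succ n ih =>
    intro M hn hM
    have rec_ : ∀ N, ENet own c N → Multiset.card N < Multiset.card M → AT N c :=
      fun N hN h => ih N (by omega) hN
    have rec' : ∀ N, N ≤ M → Multiset.card N < Multiset.card M → AT N c :=
      fun N hN h => rec_ N (hM.mono hN) h
    by_cases hS : Stk c M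
    swap
    · unfold Stk at hS
      push Not at hS
      obtain ⟨v, hv, hv'⟩ := hS
      obtain ⟨w, hw⟩ := exists_edge hv
      exact AT.peel v M c hM.loopless hv'
        (rec' _ (outt_le _ _) (card_outt_lt (w := w) (x := v) (by simp) hw))
    by_cases hK : NoLong own c M
    swap
    · unfold NoLong at hK
      push Not at hK
      obtain ⟨s, u, v, t, t', h1, h2, h3, h4, h5, h6, h7, h8, h9, h10, h11, h12⟩ := hK
      by_cases hp : Port own c M u t'
      · exact hM.rung hS rec_ h1 h2 h3 h4 h5 h6 h7 h8 h9 h10 h11 hp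
      · exact hM.kill1 hS rec' h1 h2 h3 h4 h5 h6 h7 h8 h9 h10 h11 h12 hp
    by_cases hC : ∀ s' s u v t, c s' = 3 → c s = 3 → c u = 3 → c v = 3 → c t = 3 → own s' s →
        own s u → own u v → own v t → s' ≠ u → s ≠ v → u ≠ t → dg M u = 0
    swap
    · push Not at hC
      obtain ⟨s', s, u, v, t, h1, h2, h3, h4, h5, h6, h7, h8, h9, h10, h11, h12, h13⟩ := hC
      exact hM.kill2 hS rec' h1 h2 h3 h4 h5 h6 h7 h8 h9 h10 h11 h12 h13
    by_cases hNM : NoMid own c M
    swap
    · unfold NoMid at hNM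
      push Not at hNM
      obtain ⟨u, v, ⟨h1, h2, h3, ⟨s, h4, h5⟩, t, h6, h7⟩, hd⟩ := hNM
      exact hM.p4 hS hK rec_ h5 h1 h2 h7 (hM.symm _ _ h4) h3 h6 hd
    by_cases h3 : ∃ u, c u = 3 ∧ dg M u ≠ 0
    · obtain ⟨u, hu, hd⟩ := h3
      obtain ⟨s, u, w, v, t, h1, h2, h3, h4, h5, h6, h7, h8, h9, h10, h11⟩ :=
        hM.unit hS hK hC hNM hu hd
      exact hM.p5 hS hK hNM rec_ h1 h2 h3 h4 h5 h6 h7 h8 h9 h10 h11
    · push Not at h3
      have hc2 : ∀ {x y : V}, s(x, y) ∈ M → c x = 2 := by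
        intro x y h
        rcases hM.cap x with h1 | h1
        · exact h1
        · exact absurd (h3 x h1) (dg_pos h).1
      have hdeg : ∀ v, dg M v ≤ 3 := by
        intro v
        rcases hM.cap v with h1 | h1
        · by_contra hcon
          obtain ⟨u, u', e1, e2, e3, e4, e5, e6⟩ := hM.heavy v h1 (by omega)
          exact (dg_pos e5).2 (h3 u e1)
        · rw [h3 v h1]; omega
      refine (at_cubic _ M le_rfl hM.loopless hdeg ?_).mono ?_
      · intro a b d e hn h1 h2 h3 h4 h5 h6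
        exact hM.noK4 a b d e (hc2 h1) (hc2 h4) (hc2 h6) (hc2 (mem_swap h6)) hn (Or.inl h1)
          (Or.inl h2) (Or.inl h3) (Or.inl h4) (Or.inl h5) (Or.inl h6)
      · intro v
        rcases hM.cap v with h | h <;> omega

/-- **E-phase.** Every `ENet` has the Alon-Tarsi property for its caps. -/
theorem ENet.at (hM : ENet own c M) : AT M c := ENet.at_aux _ M le_rfl hM

end Helper42.L9
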