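import Pool.Agent.helper42.L9.EX15

/-!
# E-phase with exempt vertices: the form used by the recognition

Only the edges at vertices which are not exempt matter; block edges may be added.
-/

set_option linter.unusedSimpArgs false
set_option linter.unusedVariables false

namespace Helper42.L9

open Finset Helper33.L9
open Helper19.DN (EZ TE slZ cZ tZ img mem_img)

variable {V : Type*} {own : V → V → Prop} {c c' : V → ℕ} {M M' N L O : Multiset (Sym2 V)}
  {n k : ℕ} {EB : Multiset (Sym2 V)} {z : Fin k → Fin 4 → V} {slot : V → ℕ}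

theorem Port.congrX (h : ∀ u, Nf c u → fl M' u = fl M u) {u p : V} :
    Port own c M' u p ↔ Port own c M u p := by
  constructor
  · intro hp
    exact hp.congr (h u (Or.inr hp.1)).symm
  · intro hp
    exact hp.congr (h u (Or.inr hp.1))

theorem Lp.congrX (h : ∀ u, Nf c u → fl M' u = fl M u) {t x : V} (hL : Lp own c M' t x) :
    Lp own c M t x := by
  induction hL with
  | start h1 h2 h3 => exact Lp.start h1 ((Port.congrX h).mp h2) ((Port.congrX h).mp h3)
  | cons _ h2 h3 ih => exact Lp.cons ih h2 ((Port.congrX h).mp h3)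

theorem dg_of_fl (h : ∀ u, Nf c u → fl M' u = fl M u) {u : V} (hu : Nf c u) :
    dg M' u = dg M u := by
  rw [← card_fl, ← card_fl, h u hu]

theorem mem_of_fl (h : ∀ u, Nf c u → fl M' u = fl M u) {u v : V} (hu : Nf c u) :
    s(u, v) ∈ M' ↔ s(u, v) ∈ M := by
  constructor
  · intro hm
    have : s(u, v) ∈ fl M u := by
      rw [← h u hu]; exact mem_fl.mpr ⟨hm, Sym2.mem_mk_left _ _⟩
    exact (mem_fl.mp this).1
  · intro hm
    have : s(u, v) ∈ fl M' u := by
      rw [h u hu]; exact mem_fl.mpr ⟨hm, Sym2.mem_mk_left _ _⟩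
    exact (mem_fl.mp this).1

theorem Rg.congrX (h : ∀ u, Nf c u → fl M' u = fl M u) {a b : V} (ha : Nf c a)
    (hR : Rg own c M' a b) : Rg own c M a b := by
  have key : ∀ {a b : V}, VR own c M' a b → VR own c M a b := by
    rintro a b ⟨u, v, t, t', h1, h2, h3, h4, h5, h6, h7, h8, h9, h10, h11, h12⟩
    exact ⟨u, v, t, t', h1, h2, h3, h4, h5, h6, h7, h8, h9, h10, h11, (Port.congrX h).mp h12⟩
  rcases hR with hR | hR | hR
  · exact Or.inl ((mem_of_fl h ha).mp hR)
  · exact Or.inr (Or.inl (key hR))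
  · exact Or.inr (Or.inr (key hR))

/-- only the edges at the vertices which are not exempt matter -/
theorem ENetX.congr (hM : ENetX own c c' M) (h : ∀ u, Nf c u → fl M' u = fl M u)
    (hl : ∀ e ∈ M', ¬ e.IsDiag) : ENetX own c c' M' where
  loopless := hl
  symm := hM.symm
  irr := hM.irr
  two := hM.two
  oneE := hM.oneE
  own2 := hM.own2
  hcc := hM.hcc
  loc := fun u h3 h4 => by
    rw [dg_of_fl h (Or.inr h3)] at h4
    obtain ⟨x, y, x', y', hL⟩ := hM.loc u h3 h4
    exact ⟨x, y, x', y', hL.congr (h u (Or.inr h3))⟩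
  le4 := fun q hq => by
    rw [dg_of_fl h (Or.inl hq)]
    exact hM.le4 q hq
  heavy := fun q hq h4 => by
    rw [dg_of_fl h (Or.inl hq)] at h4
    obtain ⟨u, u', h1, h2, h3, h6, h7, h8⟩ := hM.heavy q hq h4
    exact ⟨u, u', h1, h2, h3, h6, (mem_of_fl h (Or.inl hq)).mpr h7,
      (mem_of_fl h (Or.inl hq)).mpr h8⟩
  noLoop := fun t ht hL => hM.noLoop t ht (hL.congrX h)
  noU := fun s u w v t hs hu hw hv ht h1 h2 h3 h4 h5 hd1 hd2 h6 h7 =>
    hM.noU s u w v t hs hu hw hv ht h1 h2 h3 h4 h5 (by rwa [← dg_of_fl h (Or.inl hs)])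
      (by rwa [← dg_of_fl h (Or.inl ht)])
      (h6.imp (Port.congrX h).mp (fun h7 => h7.congrX h))
      (h7.imp (Port.congrX h).mp (fun h7 => h7.congrX h))
  noC := fun a b d e f ha hb hd he hf h1 h2 h3 h4 h5 h6 h7 =>
    hM.noC a b d e f ha hb hd he hf h1 h2 h3 h4 h5 h6 (by rwa [← dg_of_fl h (Or.inr ha)])
  noK4 := fun a b d e ha hb hd he hn h1 h2 h3 h4 h5 h6 =>
    hM.noK4 a b d e ha hb hd he hn (h1.congrX h (Or.inl ha)) (h2.congrX h (Or.inl ha))
      (h3.congrX h (Or.inl ha)) (h4.congrX h (Or.inl hb)) (h5.congrX h (Or.inl hb))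
      (h6.congrX h (Or.inl hd))

open Classical in
/-- **Final form.** `A e` : `e` is an own-type edge or an edge of a block, the other edges are
links. -/
theorem ENetX.at_split (hC : Cells c c' EB z slot) (hEB : ∀ e ∈ EB, ¬ e.IsDiag)
    (hM : ENetX own c c' M) (hnd : M.Nodup) (A : Sym2 V → Prop)
    (hA1 : ∀ x y, s(x, y) ∈ M → A s(x, y) → Nf c x → Nf c y ∧ OT own c x y)
    (hA2 : ∀ e ∈ M, A e → (∀ v ∈ e, ¬ Nf c v) → e ∈ EB ∨ ∃ j, e ∈ emb (z j) EZ)
    (hs : ∀ v, ¬ Nf c v → dg (M.filter fun e => ¬ A e) v ≤ slot v)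
    (h2 : ∀ v, c v = 2 → dg (M.filter fun e => ¬ A e) v ≤ 2)
    (hfin : ∀ R : Multiset (Sym2 V), (∀ e ∈ R, ¬ e.IsDiag) → (∀ v, ¬ Nf c v → dg R v ≤ slot v) →
      (∀ v, c v = 2 → dg R v ≤ 3) → (∀ v, c v = 3 → dg R v = 0) →
      (∀ a b d e, c a = 2 → c b = 2 → c d = 2 → c e = 2 → [a, b, d, e].Nodup → s(a, b) ∈ R →
        s(a, d) ∈ R → s(a, e) ∈ R → s(b, d) ∈ R → s(b, e) ∈ R → s(d, e) ∈ R → False) →
      NoTri c z R → AT (EB + (TE EZ z + R)) c') : AT M c' := by
  set L := M.filter fun e => ¬ A e with hL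
  set O := M.filter fun e => A e ∧ ∀ v ∈ e, Nf c v with hO
  have hsum : (∑ j, emb (z j) EZ) = TE EZ z := rfl
  set M' := EB + ((∑ j, emb (z j) EZ) + (L + O)) with hM'
  have hLle : L ≤ M := Multiset.filter_le _ _
  have hOle : O ≤ M := Multiset.filter_le _ _
  -- edges at a vertex which is not exempt
  have hfl : ∀ u, Nf c u → fl M' u = fl M u := by
    intro u hu
    have e0 : ∀ (P : Multiset (Sym2 V)), (∀ e ∈ P, u ∉ e) → fl P u = 0 := by
      intro P hP
      unfold fl
      rw [Multiset.filter_eq_nil]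
      exact hP
    have eadd : ∀ P Q : Multiset (Sym2 V), fl (P + Q) u = fl P u + fl Q u := by
      intro P Q
      unfold fl
      exact Multiset.filter_add _ _ _
    have e1 : fl EB u = 0 := e0 _ fun e he hv => hC.eb e he u hv hu
    have e2 : fl (∑ j, emb (z j) EZ) u = 0 := e0 _ fun e he hv => by
      obtain ⟨j, _, he⟩ := mem_sumZ.mp he
      obtain ⟨p, _, rfl⟩ := mem_emb.mp he
      rw [Sym2.mem_iff] at hv
      rcases hv with rfl | rfl
      · exact hC.ex _ _ hu
      · exact hC.ex _ _ hu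
    rw [hM', eadd, eadd, eadd, e1, e2, zero_add, zero_add]
    have e3 : fl L u + fl (M.filter fun e => A e) u = fl M u := by
      rw [← eadd, hL, add_comm, Multiset.filter_add_not]
    have e4 : fl O u = fl (M.filter fun e => A e) u := by
      unfold fl
      rw [hO, Multiset.filter_filter, Multiset.filter_filter]
      refine Multiset.filter_congr fun e he => ?_
      constructor
      · rintro ⟨h3, h4, _⟩
        exact ⟨h3, h4⟩
      · rintro ⟨h3, h4⟩
        refine ⟨h3, h4, ?_⟩
        obtain ⟨w, rfl⟩ := Sym2.mem_iff_exists.mp h3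
        intro v hv
        rw [Sym2.mem_iff] at hv
        rcases hv with rfl | rfl
        · exact hu
        · exact (hA1 u v he h4 hu).1
    rw [e4, e3]
  have hloop : ∀ e ∈ M', ¬ e.IsDiag := by
    intro e he
    rcases Multiset.mem_add.mp he with h | h
    · exact hEB e h
    rcases Multiset.mem_add.mp h with h | h
    · obtain ⟨j, _, he⟩ := mem_sumZ.mp h
      exact Helper19.DN.emb_loopless (fun i i' hh => (hC.inj _ _ _ _ hh).2) (by decide) e he
    rcases Multiset.mem_add.mp h with h | h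
    · exact hM.loopless e (Multiset.mem_of_le hLle h)
    · exact hM.loopless e (Multiset.mem_of_le hOle h)
  have hle : M ≤ M' := by
    rw [Multiset.le_iff_subset hnd]
    intro e he
    by_cases hAe : A e
    · by_cases hex : ∀ v ∈ e, ¬ Nf c v
      · rcases hA2 e he hAe hex with h | ⟨j, h⟩
        · exact Multiset.mem_add.mpr (Or.inl h)
        · exact Multiset.mem_add.mpr (Or.inr (Multiset.mem_add.mpr
            (Or.inl (mem_sumZ.mpr ⟨j, Finset.mem_univ _, h⟩))))
      · refine Multiset.mem_add.mpr (Or.inr (Multiset.mem_add.mpr (Or.inr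
          (Multiset.mem_add.mpr (Or.inr (Multiset.mem_filter.mpr ⟨he, hAe, ?_⟩))))))
        push Not at hex
        obtain ⟨u, hu, hnu⟩ := hex
        obtain ⟨w, rfl⟩ := Sym2.mem_iff_exists.mp hu
        intro v hv
        rw [Sym2.mem_iff] at hv
        rcases hv with rfl | rfl
        · exact hnu
        · exact (hA1 u v he hAe hnu).1
    · exact Multiset.mem_add.mpr (Or.inr (Multiset.mem_add.mpr (Or.inr
          (Multiset.mem_add.mpr (Or.inl (Multiset.mem_filter.mpr ⟨he, hAe⟩))))))
  refine AT.of_le (ENetX.at_cells (J := Finset.univ) (L := L) (O := O) hC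
    (hM.congr hfl hloop) ?_ hfin) hle
  exact
    { eq := rfl
      exO := fun e he v hv => (Multiset.mem_filter.mp he).2.2 v hv
      typ := by
        intro x y he
        have h3 := Multiset.mem_filter.mp he
        exact (hA1 x y h3.1 h3.2.1 (h3.2.2 x (Sym2.mem_mk_left _ _))).2
      slots := hs
      dead := fun j hj => absurd (Finset.mem_univ j) hj
      ph := Or.inl h2
      tri := noTri_of_dg hC h2 }

end Helper42.L9
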