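import Pool.Agent.helper42.L9.Eph11

/-!
# E-phase with exempt vertices: definitions

`c v = 2, 3` for the vertices which are not exempt, other values of `c` for exempt vertices;
`c'` = the real caps. Nothing is required at exempt vertices.
-/

set_option linter.unusedSimpArgs false

namespace Helper42.L9

open Finset

variable {V : Type*}

/-- not exempt -/
def Nf (c : V → ℕ) (v : V) : Prop := c v = 2 ∨ c v = 3

/-- the hypotheses of the E-phase with exempt vertices -/
structure ENetX (own : V → V → Prop) (c c' : V → ℕ) (M : Multiset (Sym2 V)) : Prop where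
  loopless : ∀ e ∈ M, ¬ e.IsDiag
  symm : ∀ u v, own u v → own v u
  irr : ∀ u, ¬ own u u
  two : ∀ u a b d, own u a → own u b → own u d → a = b ∨ a = d ∨ b = d
  oneE : ∀ q a b, c q = 2 → own q a → own q b → a = b
  own2 : ∀ u v, own u v → c u = 2 ∨ c u = 3
  hcc : ∀ v, c v = 2 ∨ c v = 3 → c v ≤ c' v
  loc : ∀ u, c u = 3 → 4 ≤ dg M u → ∃ x y x' y', LocAt own c M u x y x' y'
  le4 : ∀ q, c q = 2 → dg M q ≤ 4
  heavy : ∀ q, c q = 2 → 4 ≤ dg M q → ∃ u u', c u = 3 ∧ own q u ∧ own u u' ∧ u' ≠ q ∧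
    s(q, u) ∈ M ∧ s(q, u') ∈ M
  noLoop : ∀ t, c t ≠ 3 → ¬ Lp own c M t t
  noU : ∀ s u w v t, c s = 2 → c u = 3 → c w = 3 → c v = 3 → c t = 2 → own s u → own u w →
    own w v → own v t → u ≠ v → 4 ≤ dg M s → 4 ≤ dg M t →
    (Port own c M u t ∨ Lp own c M u t) → (Port own c M v s ∨ Lp own c M v s) → False
  noC : ∀ a b d e f, c a = 3 → c b = 3 → c d = 3 → c e = 3 → c f = 3 → own a b → own b d →
    own d e → own e f → own f a → [a, b, d, e, f].Nodup → dg M a ≠ 0 → False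
  noK4 : ∀ a b d e, c a = 2 → c b = 2 → c d = 2 → c e = 2 → [a, b, d, e].Nodup →
    Rg own c M a b → Rg own c M a d → Rg own c M a e → Rg own c M b d → Rg own c M b e →
    Rg own c M d e → False

variable {own : V → V → Prop} {c c' : V → ℕ} {M N : Multiset (Sym2 V)}

theorem ENetX.nf1 (h : ENetX own c c' M) {u v : V} (hu : own u v) : Nf c u := h.own2 _ _ hu

theorem ENetX.nf2 (h : ENetX own c c' M) {u v : V} (hu : own u v) : Nf c v :=
  h.own2 _ _ (h.symm _ _ hu)

theorem ENetX.dg_le (h : ENetX own c c' M) {u : V} (h3 : c u = 3) : dg M u ≤ 4 := by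
  by_contra hcon
  obtain ⟨x, y, x', y', h1⟩ := h.loc u h3 (by omega)
  have := h1.dg_eq
  omega

theorem ENetX.le4' (h : ENetX own c c' M) {u : V} (hu : Nf c u) : dg M u ≤ 4 := by
  rcases hu with h1 | h1
  · exact h.le4 u h1
  · exact h.dg_le h1

theorem ENetX.cap2 (h : ENetX own c c' M) {u : V} (hu : c u = 2) : 2 ≤ c' u := by
  have := h.hcc u (Or.inl hu)
  omega

theorem ENetX.cap3 (h : ENetX own c c' M) {u : V} (hu : c u = 3) : 3 ≤ c' u := by
  have := h.hcc u (Or.inr hu)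
  omega

theorem ENetX.capN (h : ENetX own c c' M) {u : V} (hu : Nf c u) : 2 ≤ c' u := by
  have := h.hcc u hu
  rcases hu with h1 | h1 <;> omega

theorem ENetX.port_le (hM : ENetX own c c' M) (hN : N ≤ M) {u p : V} (h : Port own c N u p) :
    Port own c M u p := by
  refine h.congr (fl_eq_of_le hN ?_).symm
  rw [h.dg_eq]
  exact hM.dg_le h.1

theorem ENetX.lp_le (hM : ENetX own c c' M) (hN : N ≤ M) {t x : V} (h : Lp own c N t x) :
    Lp own c M t x := by
  induction h with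
  | start h1 h2 h3 => exact Lp.start h1 (hM.port_le hN h2) (hM.port_le hN h3)
  | cons _ h2 h3 ih => exact Lp.cons ih h2 (hM.port_le hN h3)

theorem ENetX.rg_le (hM : ENetX own c c' M) (hN : N ≤ M) {a b : V} (h : Rg own c N a b) :
    Rg own c M a b := by
  have key : ∀ {a b : V}, VR own c N a b → VR own c M a b := by
    rintro a b ⟨u, v, t, t', h1, h2, h3, h4, h5, h6, h7, h8, h9, h10, h11, h12⟩
    exact ⟨u, v, t, t', h1, h2, h3, h4, h5, h6, h7, h8, h9, h10, h11, hM.port_le hN h12⟩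
  rcases h with h | h | h
  · exact Or.inl (Multiset.mem_of_le hN h)
  · exact Or.inr (Or.inl (key h))
  · exact Or.inr (Or.inr (key h))

theorem ENetX.mono (hM : ENetX own c c' M) (hN : N ≤ M) : ENetX own c c' N where
  loopless := fun e he => hM.loopless e (Multiset.mem_of_le hN he)
  symm := hM.symm
  irr := hM.irr
  two := hM.two
  oneE := hM.oneE
  own2 := hM.own2
  hcc := hM.hcc
  loc := fun u h3 h4 => by
    have h5 := dg_le_of_le hN u
    obtain ⟨x, y, x', y', h⟩ := hM.loc u h3 (by omega)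
    exact ⟨x, y, x', y', h.congr (fl_eq_of_le hN (by rw [h.dg_eq]; exact h4))⟩
  le4 := fun q hq => (dg_le_of_le hN q).trans (hM.le4 q hq)
  heavy := fun q hq h4 => by
    have h5 := dg_le_of_le hN q
    obtain ⟨u, u', h1, h2, h3, h6, h7, h8⟩ := hM.heavy q hq (by omega)
    have h9 : fl N q = fl M q := fl_eq_of_le hN (by have := hM.le4 q hq; omega)
    refine ⟨u, u', h1, h2, h3, h6, ?_, ?_⟩
    · have : s(q, u) ∈ fl N q := by rw [h9]; exact mem_fl.mpr ⟨h7, Sym2.mem_mk_left _ _⟩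
      exact (mem_fl.mp this).1
    · have : s(q, u') ∈ fl N q := by rw [h9]; exact mem_fl.mpr ⟨h8, Sym2.mem_mk_left _ _⟩
      exact (mem_fl.mp this).1
  noLoop := fun t ht h => hM.noLoop t ht (hM.lp_le hN h)
  noU := fun s u w v t hs hu hw hv ht h1 h2 h3 h4 h5 hd1 hd2 h6 h7 =>
    hM.noU s u w v t hs hu hw hv ht h1 h2 h3 h4 h5 (hd1.trans (dg_le_of_le hN s))
      (hd2.trans (dg_le_of_le hN t))
      (h6.imp (hM.port_le hN) (hM.lp_le hN)) (h7.imp (hM.port_le hN) (hM.lp_le hN))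
  noC := fun a b d e f ha hb hd he hf h1 h2 h3 h4 h5 h6 h7 =>
    hM.noC a b d e f ha hb hd he hf h1 h2 h3 h4 h5 h6
      (by have := dg_le_of_le hN a; omega)
  noK4 := fun a b d e ha hb hd he hn h1 h2 h3 h4 h5 h6 =>
    hM.noK4 a b d e ha hb hd he hn (hM.rg_le hN h1) (hM.rg_le hN h2) (hM.rg_le hN h3)
      (hM.rg_le hN h4) (hM.rg_le hN h5) (hM.rg_le hN h6)

theorem ENetX.locAt (hM : ENetX own c c' M) {u s v : V} (hu : c u = 3) (h4 : 4 ≤ dg M u)
    (hs : own u s) (hv : own u v) (hsv : s ≠ v) : ∃ s' v', LocAt own c M u s v s' v' := by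
  obtain ⟨x, y, x', y', h⟩ := hM.loc u hu h4
  have h1 := hM.two u x y s h.ox h.oy hs
  have h2 := hM.two u x y v h.ox h.oy hv
  have hne := h.ne
  rcases h1 with h1 | h1 | h1
  · exact absurd h1 hne
  · rcases h2 with h2 | h2 | h2
    · exact absurd h2 hne
    · exact absurd (h1.symm.trans h2) hsv
    · subst h1; subst h2; exact ⟨_, _, h⟩
  · rcases h2 with h2 | h2 | h2
    · exact absurd h2 hne
    · subst h1; subst h2; exact ⟨_, _, h.swap⟩
    · exact absurd (h1.symm.trans h2) hsv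

theorem ENetX.other (hM : ENetX own c c' M) {u a b d : V} (h1 : own u a) (h2 : own u b)
    (h3 : own u d) (hba : b ≠ a) (hda : d ≠ a) : b = d := by
  rcases hM.two u a b d h1 h2 h3 with h | h | h
  · exact absurd h.symm hba
  · exact absurd h.symm hda
  · exact h

/-- every inner vertex of positive degree has degree at least four -/
def StkX (c : V → ℕ) (M : Multiset (Sym2 V)) : Prop := ∀ v, c v = 3 → dg M v ≠ 0 → 4 ≤ dg M v

/-- data of a `P_5` whose pair `u, w` is eliminated (`R = {u, w, s, v}`), new edge `a t` -/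
structure P5At (own : V → V → Prop) (c : V → ℕ) (M : Multiset (Sym2 V)) (s u w v t a : V) :
    Prop where
  hs : c s = 2
  hu : c u = 3
  hw : c w = 3
  hv : c v = 3
  ht : c t = 2
  h1 : own s u
  h2 : own u w
  h3 : own w v
  h4 : own v t
  huv : u ≠ v
  hLu : LocAt own c M u s w a v
  hLw : LocAt own c M w u v s t
  hLv : ∃ b, LocAt own c M v t w b u
  hat : a ≠ t

/-- the induction invariant: closed under the moves of the E-phase -/
structure IvC (own : V → V → Prop) (c c' : V → ℕ) (Inv : Multiset (Sym2 V) → Prop) : Prop where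
  out : ∀ (M : Multiset (Sym2 V)) (A : Finset V), (∀ x ∈ A, Nf c x) → Inv M → Inv (outt A M)
  wire : ∀ (M : Multiset (Sym2 V)) (R : Finset V) (a b u v : V), ENetX own c c' M → Inv M →
    a ≠ b → a ∉ R → b ∉ R → (∀ x ∈ R, Nf c x) → (∀ x ∈ R, ∀ y, own x y → y ∈ R) →
    Mid own c u v → dg M u ≠ 0 → Link own c M R a u → Link own c M R b v → Inv (nw M R a b)
  rung : ∀ (M : Multiset (Sym2 V)) (R : Finset V) (a b : V), ENetX own c c' M → Inv M →
    a ≠ b → a ∉ R → b ∉ R → (∀ x ∈ R, Nf c x) → c a = 2 → c b = 2 →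
    (∀ x, own a x → x ∈ R) → (∀ x, own b x → x ∈ R) →
    (∃ p q, p ∈ R ∧ q ∈ R ∧ own a p ∧ own p q ∧ q ≠ a ∧ c p = 3 ∧ s(a, p) ∈ M ∧ s(a, q) ∈ M) →
    (∃ p q, p ∈ R ∧ q ∈ R ∧ own b p ∧ own p q ∧ q ≠ b ∧ c p = 3 ∧ s(b, p) ∈ M ∧ s(b, q) ∈ M) →
    Inv (nw M R a b)

end Helper42.L9
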