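import Pool.Agent.helper42.L9.Cubic3

/-!
# E-phase: definitions

`own` = own adjacency, caps `c = 2` (ends) or `3` (inner vertices), `M` = multigraph.
`LocAt M u x y x' y'`: the edges of `M` at `u` are `ux, uy, ux', uy'`, where `x, y` are the own
neighbours of `u` and `x'` is the own neighbour behind `x` if `c x = 3` and arbitrary (the port)
if `c x = 2`.
-/

set_option linter.unusedSimpArgs false

namespace Helper42.L9

open Finset

variable {V : Type*}

open Classical in
/-- the edges of `M` at `u` -/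
noncomputable def fl (M : Multiset (Sym2 V)) (u : V) : Multiset (Sym2 V) :=
  M.filter fun e => u ∈ e

theorem card_fl (M : Multiset (Sym2 V)) (u : V) : Multiset.card (fl M u) = dg M u := by
  classical
  unfold fl dg
  rw [Multiset.countP_eq_card_filter]

theorem fl_mono {M N : Multiset (Sym2 V)} (h : N ≤ M) (u : V) : fl N u ≤ fl M u := by
  classical
  unfold fl
  exact Multiset.filter_le_filter _ h

theorem mem_fl {M : Multiset (Sym2 V)} {u : V} {e : Sym2 V} : e ∈ fl M u ↔ e ∈ M ∧ u ∈ e := by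
  classical
  unfold fl
  rw [Multiset.mem_filter]

/-- local structure at an inner vertex of full degree -/
structure LocAt (own : V → V → Prop) (c : V → ℕ) (M : Multiset (Sym2 V)) (u x y x' y' : V) :
    Prop where
  ne : x ≠ y
  ox : own u x
  oy : own u y
  bx : c x = 3 → own x x' ∧ x' ≠ u
  hy : c y = 3 → own y y' ∧ y' ≠ u
  one : c x = 3 ∨ c y = 3
  nd : c x = 3 → c y = 3 → [x, y, x', y'].Nodup
  edges : fl M u = {s(u, x), s(u, y), s(u, x'), s(u, y')}

/-- middle pair of a `P_4` -/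
def Mid (own : V → V → Prop) (c : V → ℕ) (u v : V) : Prop :=
  c u = 3 ∧ c v = 3 ∧ own u v ∧ (∃ s, own u s ∧ c s = 2) ∧ ∃ t, own v t ∧ c t = 2

/-- `p` is the port neighbour of `u` -/
def Port (own : V → V → Prop) (c : V → ℕ) (M : Multiset (Sym2 V)) (u p : V) : Prop :=
  c u = 3 ∧ ∃ x y y', c x = 2 ∧ LocAt own c M u x y p y'

/-- chain of middle pairs which leaves `t` and arrives at `x` -/
inductive Lp (own : V → V → Prop) (c : V → ℕ) (M : Multiset (Sym2 V)) : V → V → Prop
  | start {t u v x : V} : Mid own c u v → Port own c M u t → Port own c M v x → Lp own c M t x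
  | cons {t u v x : V} : Lp own c M t u → Mid own c u v → Port own c M v x → Lp own c M t x

/-- the ends `a, b` of a `P_6` `a, u, v, t, t', b` with the chord `u t'` -/
def VR (own : V → V → Prop) (c : V → ℕ) (M : Multiset (Sym2 V)) (a b : V) : Prop :=
  ∃ u v t t', c u = 3 ∧ c v = 3 ∧ c t = 3 ∧ c t' = 3 ∧ own a u ∧ own u v ∧ own v t ∧
    own t t' ∧ own t' b ∧ u ≠ t ∧ v ≠ t' ∧ Port own c M u t'

/-- real or virtual rung -/
def Rg (own : V → V → Prop) (c : V → ℕ) (M : Multiset (Sym2 V)) (a b : V) : Prop :=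
  s(a, b) ∈ M ∨ VR own c M a b ∨ VR own c M b a

/-- the hypotheses of the E-phase -/
structure ENet (own : V → V → Prop) (c : V → ℕ) (M : Multiset (Sym2 V)) : Prop where
  loopless : ∀ e ∈ M, ¬ e.IsDiag
  symm : ∀ u v, own u v → own v u
  irr : ∀ u, ¬ own u u
  two : ∀ u a b d, own u a → own u b → own u d → a = b ∨ a = d ∨ b = d
  oneE : ∀ q a b, c q = 2 → own q a → own q b → a = b
  cap : ∀ v, c v = 2 ∨ c v = 3
  loc : ∀ u, c u = 3 → 4 ≤ dg M u → ∃ x y x' y', LocAt own c M u x y x' y'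
  le4 : ∀ q, c q = 2 → dg M q ≤ 4
  heavy : ∀ q, c q = 2 → 4 ≤ dg M q → ∃ u u', c u = 3 ∧ own q u ∧ own u u' ∧ u' ≠ q ∧
    s(q, u) ∈ M ∧ s(q, u') ∈ M
  noLoop : ∀ t, c t = 2 → ¬ Lp own c M t t
  noU : ∀ s u w v t, c s = 2 → c u = 3 → c w = 3 → c v = 3 → c t = 2 → own s u → own u w →
    own w v → own v t → u ≠ v → 4 ≤ dg M s → 4 ≤ dg M t →
    (Port own c M u t ∨ Lp own c M u t) → (Port own c M v s ∨ Lp own c M v s) → False
  noC : ∀ a b d e f, c a = 3 → c b = 3 → c d = 3 → c e = 3 → c f = 3 → own a b → own b d →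
    own d e → own e f → own f a → [a, b, d, e, f].Nodup → dg M a ≠ 0 → False
  noK4 : ∀ a b d e, c a = 2 → c b = 2 → c d = 2 → c e = 2 → [a, b, d, e].Nodup →
    Rg own c M a b → Rg own c M a d → Rg own c M a e → Rg own c M b d → Rg own c M b e →
    Rg own c M d e → False

variable {own : V → V → Prop} {c : V → ℕ} {M N : Multiset (Sym2 V)}

theorem LocAt.dg_eq {u x y x' y' : V} (h : LocAt own c M u x y x' y') : dg M u = 4 := by
  rw [← card_fl, h.edges]
  rfl

theorem LocAt.swap {u x y x' y' : V} (h : LocAt own c M u x y x' y') :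
    LocAt own c M u y x y' x' where
  ne := h.ne.symm
  ox := h.oy
  oy := h.ox
  bx := h.hy
  hy := h.bx
  one := h.one.symm
  nd := fun h1 h2 => by
    have := h.nd h2 h1
    simp only [List.nodup_cons, List.mem_cons, List.not_mem_nil, or_false, not_or,
      List.nodup_nil, and_true, not_false_eq_true] at this ⊢
    tauto
  edges := by
    rw [h.edges]
    simp only [Multiset.insert_eq_cons]
    rw [Multiset.cons_swap, Multiset.cons_inj_right, Multiset.cons_inj_right,
      ← Multiset.cons_zero, ← Multiset.cons_zero, Multiset.cons_swap]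

theorem LocAt.congr {u x y x' y' : V} (h : LocAt own c M u x y x' y') (hf : fl N u = fl M u) :
    LocAt own c N u x y x' y' :=
  { h with edges := by rw [hf, h.edges] }

theorem fl_eq_of_le {u : V} (h : N ≤ M) (h4 : dg M u ≤ dg N u) : fl N u = fl M u :=
  Multiset.eq_of_le_of_card_le (fl_mono h u) (by rw [card_fl, card_fl]; exact h4)

theorem Port.dg_eq {u p : V} (h : Port own c M u p) : dg M u = 4 := by
  obtain ⟨_, x, y, y', _, h⟩ := h
  exact h.dg_eq

theorem Port.congr {u p : V} (h : Port own c M u p) (hf : fl N u = fl M u) :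
    Port own c N u p := by
  obtain ⟨h3, x, y, y', hx, h⟩ := h
  exact ⟨h3, x, y, y', hx, h.congr hf⟩

theorem ENet.dg_le (h : ENet own c M) {u : V} (h3 : c u = 3) : dg M u ≤ 4 := by
  by_contra hcon
  obtain ⟨x, y, x', y', h1⟩ := h.loc u h3 (by omega)
  have := h1.dg_eq
  omega

theorem ENet.le4' (h : ENet own c M) (u : V) : dg M u ≤ 4 := by
  rcases h.cap u with h1 | h1
  · exact h.le4 u h1
  · exact h.dg_le h1

theorem ENet.port_le (hM : ENet own c M) (hN : N ≤ M) {u p : V} (h : Port own c N u p) :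
    Port own c M u p := by
  refine h.congr (fl_eq_of_le hN ?_).symm
  rw [h.dg_eq]
  exact hM.dg_le h.1

theorem ENet.lp_le (hM : ENet own c M) (hN : N ≤ M) {t x : V} (h : Lp own c N t x) :
    Lp own c M t x := by
  induction h with
  | start h1 h2 h3 => exact Lp.start h1 (hM.port_le hN h2) (hM.port_le hN h3)
  | cons _ h2 h3 ih => exact Lp.cons ih h2 (hM.port_le hN h3)

theorem ENet.rg_le (hM : ENet own c M) (hN : N ≤ M) {a b : V} (h : Rg own c N a b) :
    Rg own c M a b := by
  have key : ∀ {a b : V}, VR own c N a b → VR own c M a b := by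
    rintro a b ⟨u, v, t, t', h1, h2, h3, h4, h5, h6, h7, h8, h9, h10, h11, h12⟩
    exact ⟨u, v, t, t', h1, h2, h3, h4, h5, h6, h7, h8, h9, h10, h11, hM.port_le hN h12⟩
  rcases h with h | h | h
  · exact Or.inl (Multiset.mem_of_le hN h)
  · exact Or.inr (Or.inl (key h))
  · exact Or.inr (Or.inr (key h))

theorem ENet.mono (hM : ENet own c M) (hN : N ≤ M) : ENet own c N where
  loopless := fun e he => hM.loopless e (Multiset.mem_of_le hN he)
  symm := hM.symm
  irr := hM.irr
  two := hM.two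
  oneE := hM.oneE
  cap := hM.cap
  loc := fun u h3 h4 => by
    have h5 := dg_le_of_le hN u
    obtain ⟨x, y, x', y', h⟩ := hM.loc u h3 (by omega)
    exact ⟨x, y, x', y', h.congr (fl_eq_of_le hN (by rw [h.dg_eq]; exact h4))⟩
  le4 := fun q hq => (dg_le_of_le hN q).trans (hM.le4 q hq)
  heavy := fun q hq h4 => by
    have h5 := dg_le_of_le hN q
    obtain ⟨u, u', h1, h2, h3, h6, h7, h8⟩ := hM.heavy q hq (by omega)
    have h9 : fl N q = fl M q := fl_eq_of_le hN (by have := hM.le4 q hq; omega)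
    refine ⟨u, u', h1, h2, h3, h6, ?_, ?_⟩
    · have : s(q, u) ∈ fl N q := by rw [h9]; exact mem_fl.mpr ⟨h7, Sym2.mem_mk_left _ _⟩
      exact (mem_fl.mp this).1
    · have : s(q, u') ∈ fl N q := by rw [h9]; exact mem_fl.mpr ⟨h8, Sym2.mem_mk_left _ _⟩
      exact (mem_fl.mp this).1
  noLoop := fun t ht h => hM.noLoop t ht (hM.lp_le hN h)
  noU := fun s u w v t hs hu hw hv ht h1 h2 h3 h4 h5 hd1 hd2 h6 h7 =>
    hM.noU s u w v t hs hu hw hv ht h1 h2 h3 h4 h5 (hd1.trans (dg_le_of_le hN s))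
      (hd2.trans (dg_le_of_le hN t))
      (h6.imp (hM.port_le hN) (hM.lp_le hN)) (h7.imp (hM.port_le hN) (hM.lp_le hN))
  noC := fun a b d e f ha hb hd he hf h1 h2 h3 h4 h5 h6 h7 =>
    hM.noC a b d e f ha hb hd he hf h1 h2 h3 h4 h5 h6
      (by have := dg_le_of_le hN a; omega)
  noK4 := fun a b d e ha hb hd he hn h1 h2 h3 h4 h5 h6 =>
    hM.noK4 a b d e ha hb hd he hn (hM.rg_le hN h1) (hM.rg_le hN h2) (hM.rg_le hN h3)
      (hM.rg_le hN h4) (hM.rg_le hN h5) (hM.rg_le hN h6)

end Helper42.L9
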