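import Pool.Agent.helper42.L9.Greedy

/-!
# The cut side

`NoMono G X`: no vertex has three neighbours on one side.  For a vertex `v`:
`cr v` = neighbours on the other side, `ow v` = neighbours on the own side,
`pt v` = neighbours `w` which have a further neighbour on the side of `v` (`v` is in the pair of
`w`), `partner w v` = this further neighbour (unique under `NoMono`).
-/

set_option linter.unusedSimpArgs false

namespace Helper42.L9

open Finset Classical

variable {V : Type*} [Fintype V]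

/-- no three neighbours of a vertex on one side -/
def NoMono (G : SimpleGraph V) (X : V → Prop) : Prop :=
  ∀ w a b c, G.Adj w a → G.Adj w b → G.Adj w c → a ≠ b → a ≠ c → b ≠ c →
    ¬ ((X a ↔ X b) ∧ (X a ↔ X c))

/-- neighbours on the other side -/
noncomputable def cr (G : SimpleGraph V) (X : V → Prop) (v : V) : Finset V :=
  univ.filter fun b => G.Adj v b ∧ ¬ (X b ↔ X v)

/-- neighbours on the own side -/
noncomputable def ow (G : SimpleGraph V) (X : V → Prop) (v : V) : Finset V :=
  univ.filter fun b => G.Adj v b ∧ (X b ↔ X v)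

/-- neighbours `w` with `v` in the pair of `w` -/
noncomputable def pt (G : SimpleGraph V) (X : V → Prop) (v : V) : Finset V :=
  univ.filter fun w => G.Adj v w ∧ ∃ u, u ≠ v ∧ G.Adj w u ∧ (X u ↔ X v)

/-- the other member of the pair of `w` -/
noncomputable def partner (G : SimpleGraph V) (X : V → Prop) (w v : V) : V :=
  if h : ∃ u, u ≠ v ∧ G.Adj w u ∧ (X u ↔ X v) then h.choose else v

variable {G : SimpleGraph V} {X : V → Prop}

theorem mem_cr {v b : V} : b ∈ cr G X v ↔ G.Adj v b ∧ ¬ (X b ↔ X v) := by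
  simp [cr]

theorem mem_ow {v b : V} : b ∈ ow G X v ↔ G.Adj v b ∧ (X b ↔ X v) := by
  simp [ow]

theorem mem_pt {v w : V} : w ∈ pt G X v ↔ G.Adj v w ∧ ∃ u, u ≠ v ∧ G.Adj w u ∧ (X u ↔ X v) := by
  simp [pt]

theorem partner_spec {v w : V} (h : w ∈ pt G X v) :
    partner G X w v ≠ v ∧ G.Adj w (partner G X w v) ∧ (X (partner G X w v) ↔ X v) := by
  rw [mem_pt] at h
  unfold partner
  rw [dif_pos h.2]
  exact h.2.choose_spec

theorem partner_unique (hX : NoMono G X) {v w u : V} (hvw : G.Adj v w) (huv : u ≠ v)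
    (hwu : G.Adj w u) (hs : X u ↔ X v) : w ∈ pt G X v ∧ partner G X w v = u := by
  have hpt : w ∈ pt G X v := mem_pt.mpr ⟨hvw, u, huv, hwu, hs⟩
  refine ⟨hpt, ?_⟩
  obtain ⟨h1, h2, h3⟩ := partner_spec hpt
  by_contra hne
  exact hX w v u (partner G X w v) hvw.symm hwu h2 huv.symm h1.symm (Ne.symm hne)
    ⟨hs.symm, h3.symm⟩

theorem partner_qadj {v w : V} (h : w ∈ pt G X v) : qadj G X (partner G X w v) v := by
  obtain ⟨h1, h2, h3⟩ := partner_spec h
  exact ⟨h3, h1, Or.inr ⟨w, h2.symm, (mem_pt.mp h).1.symm⟩⟩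

theorem ow_qadj {v u : V} (h : u ∈ ow G X v) : qadj G X u v := by
  rw [mem_ow] at h
  exact ⟨h.2, h.1.ne', Or.inl h.1.symm⟩

/-- `Q`-neighbours are own neighbours or partners -/
theorem qadj_cases (hX : NoMono G X) {u v : V} (h : qadj G X u v) :
    u ∈ ow G X v ∨ ∃ w ∈ pt G X v, partner G X w v = u := by
  obtain ⟨hs, hne, hadj | ⟨w, h1, h2⟩⟩ := h
  · exact Or.inl (mem_ow.mpr ⟨hadj.symm, hs⟩)
  · obtain ⟨h3, h4⟩ := partner_unique hX h2.symm hne h1.symm hs
    exact Or.inr ⟨w, h3, h4⟩

theorem cr_add_ow (v : V) : (cr G X v).card + (ow G X v).card =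
    (univ.filter fun b => G.Adj v b).card := by
  unfold cr ow
  rw [← Finset.card_union_of_disjoint]
  · congr 1
    ext b
    simp only [Finset.mem_union, Finset.mem_filter, Finset.mem_univ, true_and]
    tauto
  · rw [Finset.disjoint_filter]
    rintro x _ ⟨_, h1⟩ ⟨_, h2⟩
    exact h1 h2

/-- **Counting lemma.** -/
theorem count_bound (hX : NoMono G X) (hdeg : ∀ v, (univ.filter fun b => G.Adj v b).card ≤ 3)
    (T : Finset V) (v : V) :
    (cr G X v).card + (T.filter fun u => qadj G X u v).card +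
      ((ow G X v).filter fun u => u ∉ T).card +
      ((pt G X v).filter fun w => partner G X w v ∉ T).card ≤ 3 + (pt G X v).card := by
  have h1 : T.filter (fun u => qadj G X u v) ⊆ (ow G X v).filter (fun u => u ∈ T) ∪
      ((pt G X v).filter fun w => partner G X w v ∈ T).image (fun w => partner G X w v) := by
    intro u hu
    rw [Finset.mem_filter] at hu
    rw [Finset.mem_union, Finset.mem_filter, Finset.mem_image]
    rcases qadj_cases hX hu.2 with h | ⟨w, hw, rfl⟩
    · exact Or.inl ⟨h, hu.1⟩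
    · exact Or.inr ⟨w, Finset.mem_filter.mpr ⟨hw, hu.1⟩, rfl⟩
  have h2 := (Finset.card_le_card h1).trans (Finset.card_union_le _ _)
  have h3 := Finset.card_image_le (s := (pt G X v).filter fun w => partner G X w v ∈ T)
    (f := fun w => partner G X w v)
  have h4 := Finset.card_filter_add_card_filter_not (s := ow G X v) (fun u => u ∈ T)
  have h5 := Finset.card_filter_add_card_filter_not (s := pt G X v)
    (fun w => partner G X w v ∈ T)
  have h6 := cr_add_ow (G := G) (X := X) v
  have h7 := hdeg v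
  omega

/-- change the side of `v` -/
def flip (X : V → Prop) (v : V) : V → Prop := fun u => if u = v then ¬ X u else X u

omit [Fintype V] in
theorem flip_self (v : V) : flip X v v ↔ ¬ X v := by simp [flip]

omit [Fintype V] in
theorem flip_ne {u v : V} (h : u ≠ v) : flip X v u ↔ X u := by simp [flip, h]

theorem no_four (hdeg : ∀ v, (univ.filter fun b => G.Adj v b).card ≤ 3) {w a b c d : V}
    (ha : G.Adj w a) (hb : G.Adj w b) (hc : G.Adj w c) (hd : G.Adj w d)
    (hab : a ≠ b) (hac : a ≠ c) (had : a ≠ d) (hbc : b ≠ c) (hbd : b ≠ d) (hcd : c ≠ d) :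
    False := by
  have h1 : ({a, b, c, d} : Finset V) ⊆ univ.filter fun b => G.Adj w b := by
    intro x hx
    simp only [Finset.mem_insert, Finset.mem_singleton] at hx
    rw [Finset.mem_filter]
    rcases hx with rfl | rfl | rfl | rfl <;> exact ⟨Finset.mem_univ _, by assumption⟩
  have h2 := Finset.card_le_card h1
  have h3 : ({a, b, c, d} : Finset V).card = 4 := by
    rw [Finset.card_insert_of_notMem, Finset.card_insert_of_notMem, Finset.card_insert_of_notMem,
      Finset.card_singleton]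
    · simpa using hcd
    · simp only [Finset.mem_insert, Finset.mem_singleton, not_or]; exact ⟨hbc, hbd⟩
    · simp only [Finset.mem_insert, Finset.mem_singleton, not_or]; exact ⟨hab, hac, had⟩
  have := hdeg w
  omega

theorem flip_noMono (hdeg : ∀ v, (univ.filter fun b => G.Adj v b).card ≤ 3)
    (hX : NoMono G X) {v : V} (hv : ∀ w, G.Adj v w → w ∈ pt G X v) :
    NoMono G (flip X v) := by
  -- if `v` is one of the three neighbours
  have key : ∀ w b c, G.Adj w v → G.Adj w b → G.Adj w c → v ≠ b → v ≠ c → b ≠ c →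
      ¬ ((¬ X v ↔ X b) ∧ (¬ X v ↔ X c)) := by
    rintro w b c h1 h2 h3 hb hc hbc ⟨e1, e2⟩
    obtain ⟨_, u, hu, hwu, hs⟩ := mem_pt.mp (hv w h1.symm)
    have hub : u ≠ b := by rintro rfl; tauto
    have huc : u ≠ c := by rintro rfl; tauto
    exact no_four hdeg h1 hwu h2 h3 hu.symm hb hc hub huc hbc
  intro w a b c ha hb hc hab hac hbc hh
  by_cases e1 : a = v
  · subst e1
    have f1 := flip_self (X := X) a
    have f2 := flip_ne (X := X) (v := a) hab.symm
    have f3 := flip_ne (X := X) (v := a) hac.symm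
    exact key w b c ha hb hc hab hac hbc (by tauto)
  · by_cases e2 : b = v
    · subst e2
      have f1 := flip_self (X := X) b
      have f2 := flip_ne (X := X) (v := b) hab
      have f3 := flip_ne (X := X) (v := b) hbc.symm
      exact key w a c hb ha hc hab.symm hbc hac (by tauto)
    · by_cases e3 : c = v
      · subst e3
        have f1 := flip_self (X := X) c
        have f2 := flip_ne (X := X) (v := c) hac
        have f3 := flip_ne (X := X) (v := c) hbc
        exact key w a b hc ha hb hac.symm hbc.symm hab (by tauto)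
      · have f1 := flip_ne (X := X) (v := v) e1
        have f2 := flip_ne (X := X) (v := v) e2
        have f3 := flip_ne (X := X) (v := v) e3
        exact hX w a b c ha hb hc hab hac hbc (by tauto)

/-- (twice the) size of the cut -/
noncomputable def ksize (G : SimpleGraph V) (X : V → Prop) : ℕ :=
  (univ.filter fun p : V × V => G.Adj p.1 p.2 ∧ ¬ (X p.1 ↔ X p.2)).card

theorem ksize_split (G : SimpleGraph V) (X : V → Prop) (v : V) :
    ksize G X = (univ.filter fun p : V × V => (G.Adj p.1 p.2 ∧ ¬ (X p.1 ↔ X p.2)) ∧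
      p.1 ≠ v ∧ p.2 ≠ v).card + 2 * (cr G X v).card := by
  have h1 : (univ.filter fun p : V × V => (G.Adj p.1 p.2 ∧ ¬ (X p.1 ↔ X p.2)) ∧ p.1 = v).card =
      (cr G X v).card := by
    apply Finset.card_bij (fun p _ => p.2)
    · rintro ⟨a, b⟩ hp
      simp only [Finset.mem_filter, Finset.mem_univ, true_and] at hp
      obtain ⟨⟨h1, h2⟩, rfl⟩ := hp
      exact mem_cr.mpr ⟨h1, fun h => h2 h.symm⟩
    · rintro ⟨a, b⟩ hp ⟨a', b'⟩ hp' h
      simp only [Finset.mem_filter, Finset.mem_univ, true_and] at hp hp' h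
      rw [hp.2, hp'.2, h]
    · intro b hb
      rw [mem_cr] at hb
      refine ⟨(v, b), ?_, rfl⟩
      simp only [Finset.mem_filter, Finset.mem_univ, true_and, and_true]
      exact ⟨hb.1, fun h => hb.2 h.symm⟩
  have h2 : (univ.filter fun p : V × V => (G.Adj p.1 p.2 ∧ ¬ (X p.1 ↔ X p.2)) ∧ p.2 = v).card =
      (cr G X v).card := by
    apply Finset.card_bij (fun p _ => p.1)
    · rintro ⟨a, b⟩ hp
      simp only [Finset.mem_filter, Finset.mem_univ, true_and] at hp
      obtain ⟨⟨h3, h4⟩, rfl⟩ := hp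
      exact mem_cr.mpr ⟨h3.symm, h4⟩
    · rintro ⟨a, b⟩ hp ⟨a', b'⟩ hp' h
      simp only [Finset.mem_filter, Finset.mem_univ, true_and] at hp hp' h
      rw [hp.2, hp'.2, h]
    · intro b hb
      rw [mem_cr] at hb
      refine ⟨(b, v), ?_, rfl⟩
      simp only [Finset.mem_filter, Finset.mem_univ, true_and, and_true]
      exact ⟨hb.1.symm, hb.2⟩
  have h3 : (univ.filter fun p : V × V => G.Adj p.1 p.2 ∧ ¬ (X p.1 ↔ X p.2)) =
      ((univ.filter fun p : V × V => (G.Adj p.1 p.2 ∧ ¬ (X p.1 ↔ X p.2)) ∧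
        p.1 ≠ v ∧ p.2 ≠ v) ∪
      (univ.filter fun p : V × V => (G.Adj p.1 p.2 ∧ ¬ (X p.1 ↔ X p.2)) ∧ p.1 = v)) ∪
      (univ.filter fun p : V × V => (G.Adj p.1 p.2 ∧ ¬ (X p.1 ↔ X p.2)) ∧ p.2 = v) := by
    ext p
    simp only [Finset.mem_union, Finset.mem_filter, Finset.mem_univ, true_and]
    tauto
  unfold ksize
  rw [h3, Finset.card_union_of_disjoint, Finset.card_union_of_disjoint, h1, h2]
  · ring
  · rw [Finset.disjoint_filter]
    rintro p _ ⟨_, h4, _⟩ ⟨_, h5⟩
    exact h4 h5
  · rw [Finset.disjoint_left]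
    intro p hp hp2
    simp only [Finset.mem_union, Finset.mem_filter, Finset.mem_univ, true_and] at hp hp2
    rcases hp with ⟨_, _, h4⟩ | ⟨h4, h5⟩
    · exact h4 hp2.2
    · have := hp2.2
      rw [h5, this] at h4
      exact h4.2 Iff.rfl

theorem cr_flip (v : V) : cr G (flip X v) v = ow G X v := by
  ext b
  rw [mem_cr, mem_ow]
  constructor
  · rintro ⟨h1, h2⟩
    refine ⟨h1, ?_⟩
    have f1 := flip_self (X := X) v
    have f2 := flip_ne (X := X) (v := v) h1.ne'
    tauto
  · rintro ⟨h1, h2⟩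
    refine ⟨h1, ?_⟩
    have f1 := flip_self (X := X) v
    have f2 := flip_ne (X := X) (v := v) h1.ne'
    tauto

theorem ksize_flip (v : V) : ksize G (flip X v) + 2 * (cr G X v).card =
    ksize G X + 2 * (ow G X v).card := by
  rw [ksize_split G X v, ksize_split G (flip X v) v, cr_flip]
  have : (univ.filter fun p : V × V => (G.Adj p.1 p.2 ∧ ¬ (flip X v p.1 ↔ flip X v p.2)) ∧
      p.1 ≠ v ∧ p.2 ≠ v) = (univ.filter fun p : V × V => (G.Adj p.1 p.2 ∧ ¬ (X p.1 ↔ X p.2)) ∧
      p.1 ≠ v ∧ p.2 ≠ v) := by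
    ext p
    simp only [Finset.mem_filter, Finset.mem_univ, true_and]
    constructor
    · rintro ⟨h1, h2, h3⟩
      rw [flip_ne h2, flip_ne h3] at h1
      exact ⟨h1, h2, h3⟩
    · rintro ⟨h1, h2, h3⟩
      refine ⟨?_, h2, h3⟩
      rw [flip_ne h2, flip_ne h3]
      exact h1
  rw [this]
  ring

/-- `NoMono` and (*): a vertex with `v` in the pair of all its neighbours has at most as many own
as cross neighbours -/
structure World (G : SimpleGraph V) (X : V → Prop) : Prop where
  noMono : NoMono G X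
  star : ∀ v, (∀ w, G.Adj v w → w ∈ pt G X v) → (ow G X v).card ≤ (cr G X v).card

theorem exists_world (hdeg : ∀ v, (univ.filter fun b => G.Adj v b).card ≤ 3)
    (h : ∃ X, NoMono G X) : ∃ X, World G X := by
  -- maximise ksize
  have hbd : ∀ X, ksize G X ≤ (univ : Finset (V × V)).card := fun X =>
    Finset.card_le_card (Finset.filter_subset _ _)
  obtain ⟨X0, hX0⟩ := h
  have hmax : ∃ X, NoMono G X ∧ ∀ X', NoMono G X' → ksize G X' ≤ ksize G X := by
    by_contra hcon
    push Not at hcon
    have : ∀ n : ℕ, ∃ X, NoMono G X ∧ n ≤ ksize G X := by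
      intro n
      induction n with
      | zero => exact ⟨X0, hX0, Nat.zero_le _⟩
      | succ n ih =>
        obtain ⟨X, h1, h2⟩ := ih
        obtain ⟨X', h3, h4⟩ := hcon X h1
        exact ⟨X', h3, by omega⟩
    obtain ⟨X, _, h2⟩ := this ((univ : Finset (V × V)).card + 1)
    have := hbd X
    omega
  obtain ⟨X, h1, h2⟩ := hmax
  refine ⟨X, h1, fun v hv => ?_⟩
  have h3 := h2 _ (flip_noMono hdeg h1 hv)
  have h4 := ksize_flip (G := G) (X := X) v
  omega

end Helper42.L9
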