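import Pool.Agent.helper19.L9.CN

/-!
# Coefficient calculus for Alon-Tarsi arguments

`cf v k P` is the coefficient of `(X v) ^ k` in `P`, as a polynomial free of `v`.
`Sup P c` says that some monomial `t ≤ c` has a non-zero coefficient in `P`.
-/

set_option linter.unusedSimpArgs false

namespace Helper42.L9

open MvPolynomial Finset

variable {V : Type*}

/-- `v` does not occur in `P`. -/
def Fr (v : V) (P : MvPolynomial V ℤ) : Prop := ∀ m, coeff m P ≠ 0 → m v = 0

/-- coefficient of `(X v) ^ k` -/
noncomputable def cf (v : V) (k : ℕ) : MvPolynomial V ℤ →ₗ[ℤ] MvPolynomial V ℤ := by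
  classical
  exact (MvPolynomial.basisMonomials V ℤ).constr ℤ
    (fun m => if m v = k then monomial (m.erase v) 1 else 0)

theorem cf_monomial (v : V) (k : ℕ) (m : V →₀ ℕ) (a : ℤ) :
    cf v k (monomial m a) = if m v = k then monomial (m.erase v) a else 0 := by
  classical
  have h : (monomial m a : MvPolynomial V ℤ) = a • (MvPolynomial.basisMonomials V ℤ) m := by
    rw [coe_basisMonomials, smul_monomial]; simp
  rw [h, map_smul, cf, Module.Basis.constr_basis]
  split_ifs
  · rw [smul_monomial]; simp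
  · simp

theorem coeff_cf (v : V) (k : ℕ) (P : MvPolynomial V ℤ) (t : V →₀ ℕ) :
    coeff t (cf v k P) = if t v = 0 then coeff (t + Finsupp.single v k) P else 0 := by
  classical
  induction P using MvPolynomial.induction_on' with
  | monomial m a =>
    rw [cf_monomial]
    by_cases hk : m v = k
    · rw [if_pos hk, coeff_monomial]
      by_cases ht : t v = 0
      · rw [if_pos ht, coeff_monomial]
        congr 1
        apply propext
        constructor
        · rintro rfl
          rw [← hk, Finsupp.erase_add_single]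
        · intro h
          ext w
          by_cases hw : w = v
          · subst hw; simp [ht]
          · rw [Finsupp.erase_ne hw, h]
            simp [Finsupp.single_apply, Ne.symm hw]
      · rw [if_neg ht, if_neg]
        rintro rfl
        exact ht (Finsupp.erase_same)
    · rw [if_neg hk, coeff_zero]
      by_cases ht : t v = 0
      · rw [if_pos ht, coeff_monomial, if_neg]
        intro h
        apply hk
        rw [h]; simp [ht]
      · rw [if_neg ht]
  | add p q hp hq =>
    rw [map_add, coeff_add, hp, hq]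
    split_ifs
    · rw [coeff_add]
    · simp

theorem fr_cf (v : V) (k : ℕ) (P : MvPolynomial V ℤ) : Fr v (cf v k P) := by
  intro m hm
  rw [coeff_cf] at hm
  by_contra h
  exact hm (if_neg h)

theorem Fr.add {v : V} {P Q : MvPolynomial V ℤ} (hP : Fr v P) (hQ : Fr v Q) : Fr v (P + Q) := by
  intro m hm
  rw [coeff_add] at hm
  by_cases h : coeff m P = 0
  · exact hQ m (by simpa [h] using hm)
  · exact hP m h

theorem Fr.neg {v : V} {P : MvPolynomial V ℤ} (hP : Fr v P) : Fr v (-P) := by
  intro m hm
  exact hP m (by simpa using hm)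

theorem Fr.sub {v : V} {P Q : MvPolynomial V ℤ} (hP : Fr v P) (hQ : Fr v Q) : Fr v (P - Q) := by
  rw [sub_eq_add_neg]; exact hP.add hQ.neg

theorem Fr.mul {v : V} {P Q : MvPolynomial V ℤ} (hP : Fr v P) (hQ : Fr v Q) : Fr v (P * Q) := by
  classical
  intro m hm
  rw [coeff_mul] at hm
  obtain ⟨x, hx, hne⟩ := Finset.exists_ne_zero_of_sum_ne_zero hm
  rw [Finset.mem_antidiagonal] at hx
  rw [← hx, Finsupp.add_apply, hP _ (left_ne_zero_of_mul hne), hQ _ (right_ne_zero_of_mul hne)]

theorem fr_X {v w : V} (h : w ≠ v) : Fr v (X w : MvPolynomial V ℤ) := by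
  classical
  intro m hm
  rw [coeff_X] at hm
  have : Finsupp.single w 1 = m := by
    by_contra h2; exact hm (if_neg h2)
  rw [← this]
  simp [Finsupp.single_apply, h]

theorem fr_C (v : V) (a : ℤ) : Fr v (C a : MvPolynomial V ℤ) := by
  classical
  intro m hm
  rw [coeff_C] at hm
  have : 0 = m := by
    by_contra h2; exact hm (if_neg h2)
  rw [← this]; rfl

theorem fr_one (v : V) : Fr v (1 : MvPolynomial V ℤ) := by
  have := fr_C v 1
  simpa using this

theorem fr_natCast (v : V) (n : ℕ) : Fr v (n : MvPolynomial V ℤ) := by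
  have := fr_C v (n : ℤ)
  simpa using this

theorem fr_ofNat (v : V) (n : ℕ) [n.AtLeastTwo] :
    Fr v (OfNat.ofNat n : MvPolynomial V ℤ) := by
  have := fr_natCast v (OfNat.ofNat n)
  simpa using this

theorem fr_zero (v : V) : Fr v (0 : MvPolynomial V ℤ) := by
  intro m hm; simp at hm

theorem Fr.pow {v : V} {P : MvPolynomial V ℤ} (hP : Fr v P) (n : ℕ) : Fr v (P ^ n) := by
  induction n with
  | zero => simpa using fr_one v
  | succ n ih => rw [pow_succ]; exact ih.mul hP

theorem fr_multiset_prod {ι : Type*} {v : V} (f : ι → MvPolynomial V ℤ) (M : Multiset ι)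
    (h : ∀ i ∈ M, Fr v (f i)) : Fr v (M.map f).prod := by
  induction M using Multiset.induction_on with
  | empty => simpa using fr_one v
  | cons a M ih =>
    rw [Multiset.map_cons, Multiset.prod_cons]
    exact (h a (Multiset.mem_cons_self _ _)).mul
      (ih fun i hi => h i (Multiset.mem_cons_of_mem hi))

theorem cf_mul {v : V} (k : ℕ) {Q : MvPolynomial V ℤ} (hQ : Fr v Q) (P : MvPolynomial V ℤ) :
    cf v k (Q * P) = Q * cf v k P := by
  classical
  have key : ∀ (m : V →₀ ℕ) (a : ℤ), m v = 0 →
      cf v k (monomial m a * P) = monomial m a * cf v k P := by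
    intro m a hm
    induction P using MvPolynomial.induction_on' with
    | monomial n b =>
      rw [monomial_mul, cf_monomial, cf_monomial]
      by_cases h : n v = k
      · rw [if_pos h, if_pos (by rw [Finsupp.add_apply, hm, h, zero_add]), monomial_mul]
        have he : (m + n).erase v = m + n.erase v := by
          ext w
          by_cases hw : w = v
          · subst hw; simp [hm]
          · simp [Finsupp.erase_ne hw]
        rw [he]
      · rw [if_neg h, if_neg (by rw [Finsupp.add_apply, hm, zero_add]; exact h), mul_zero]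
    | add p q hp hq => rw [mul_add, map_add, hp, hq, map_add, mul_add]
  conv_lhs => rw [Q.as_sum]
  conv_rhs => rw [Q.as_sum]
  rw [Finset.sum_mul, map_sum, Finset.sum_mul]
  refine Finset.sum_congr rfl fun m hm => key m _ (hQ m (mem_support_iff.mp hm))

theorem cf_mul' {v : V} (k : ℕ) {Q : MvPolynomial V ℤ} (hQ : Fr v Q) (P : MvPolynomial V ℤ) :
    cf v k (P * Q) = cf v k P * Q := by
  rw [mul_comm, cf_mul k hQ, mul_comm]

theorem cf_X_mul_succ (v : V) (k : ℕ) (P : MvPolynomial V ℤ) :
    cf v (k + 1) (X v * P) = cf v k P := by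
  classical
  induction P using MvPolynomial.induction_on' with
  | monomial n b =>
    rw [X, monomial_mul, one_mul, cf_monomial, cf_monomial]
    have h1 : (Finsupp.single v 1 + n : V →₀ ℕ) v = n v + 1 := by
      rw [Finsupp.add_apply, Finsupp.single_eq_same]; ring
    rw [h1]
    by_cases h : n v = k
    · rw [if_pos h, if_pos (by omega)]
      have he : (Finsupp.single v 1 + n : V →₀ ℕ).erase v = n.erase v := by
        ext w
        by_cases hw : w = v
        · subst hw; simp
        · simp [Finsupp.erase_ne hw, Finsupp.single_apply, Ne.symm hw]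
      rw [he]
    · rw [if_neg h, if_neg (by omega)]
  | add p q hp hq => rw [mul_add, map_add, hp, hq, map_add]

theorem cf_X_mul_zero (v : V) (P : MvPolynomial V ℤ) : cf v 0 (X v * P) = 0 := by
  classical
  induction P using MvPolynomial.induction_on' with
  | monomial n b =>
    rw [X, monomial_mul, one_mul, cf_monomial, if_neg]
    rw [Finsupp.add_apply, Finsupp.single_eq_same]; omega
  | add p q hp hq => rw [mul_add, map_add, hp, hq, add_zero]

theorem cf_free_zero {v : V} {P : MvPolynomial V ℤ} (h : Fr v P) : cf v 0 P = P := by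
  ext t
  rw [coeff_cf]
  split_ifs with ht
  · simp
  · by_contra hne
    exact ht (h t (Ne.symm hne))

theorem cf_free_succ {v : V} {P : MvPolynomial V ℤ} (h : Fr v P) (k : ℕ) :
    cf v (k + 1) P = 0 := by
  ext t
  rw [coeff_cf, coeff_zero]
  split_ifs with ht
  · by_contra hne
    have := h _ hne
    simp [ht] at this
  · rfl

/-- factor `X v - Q` with `Q` free of `v` -/
theorem cf_sub_mul_succ {v : V} {Q : MvPolynomial V ℤ} (hQ : Fr v Q) (k : ℕ)
    (P : MvPolynomial V ℤ) :
    cf v (k + 1) ((X v - Q) * P) = cf v k P - Q * cf v (k + 1) P := by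
  rw [sub_mul, map_sub, cf_X_mul_succ, cf_mul _ hQ]

theorem cf_sub_mul_zero {v : V} {Q : MvPolynomial V ℤ} (hQ : Fr v Q)
    (P : MvPolynomial V ℤ) :
    cf v 0 ((X v - Q) * P) = - (Q * cf v 0 P) := by
  rw [sub_mul, map_sub, cf_X_mul_zero, cf_mul _ hQ, zero_sub]

/-- some monomial below `c` has a non-zero coefficient -/
def Sup (P : MvPolynomial V ℤ) (c : V → ℕ) : Prop :=
  ∃ t : V →₀ ℕ, (∀ v, t v ≤ c v) ∧ coeff t P ≠ 0

theorem Sup.mono {P : MvPolynomial V ℤ} {c c' : V → ℕ} (h : Sup P c) (hc : ∀ v, c v ≤ c' v) :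
    Sup P c' := by
  obtain ⟨t, ht, hP⟩ := h
  exact ⟨t, fun v => (ht v).trans (hc v), hP⟩

theorem Sup.neg {P : MvPolynomial V ℤ} {c : V → ℕ} (h : Sup P c) : Sup (-P) c := by
  obtain ⟨t, ht, hP⟩ := h
  exact ⟨t, ht, by simpa using hP⟩

theorem sup_neg_iff {P : MvPolynomial V ℤ} {c : V → ℕ} : Sup (-P) c ↔ Sup P c :=
  ⟨fun h => by simpa using h.neg, fun h => h.neg⟩

/-- a non-zero coefficient of `(X v)^k` -/
theorem Sup.of_cf {P : MvPolynomial V ℤ} {c : V → ℕ} {v : V} {k : ℕ} (h : Sup (cf v k P) c)
    (c' : V → ℕ) (hc : ∀ w, w ≠ v → c w ≤ c' w) (hk : k ≤ c' v) : Sup P c' := by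
  classical
  obtain ⟨t, ht, hP⟩ := h
  have h0 : t v = 0 := fr_cf v k P t hP
  rw [coeff_cf, if_pos h0] at hP
  refine ⟨t + Finsupp.single v k, fun w => ?_, hP⟩
  by_cases hw : w = v
  · subst hw; simp [h0, hk]
  · have := (ht w).trans (hc w hw)
    simpa [Finsupp.single_apply, Ne.symm hw] using this

theorem Sup.of_cf' {P : MvPolynomial V ℤ} {c : V → ℕ} {v : V} {k : ℕ} (h : Sup (cf v k P) c)
    (hk : k ≤ c v) : Sup P c := h.of_cf c (fun _ _ => le_rfl) hk

/-- a factor -/
theorem Sup.of_mul {P Q : MvPolynomial V ℤ} {c : V → ℕ} (h : Sup (P * Q) c) : Sup P c := by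
  classical
  obtain ⟨t, ht, hP⟩ := h
  rw [coeff_mul] at hP
  obtain ⟨x, hx, hne⟩ := Finset.exists_ne_zero_of_sum_ne_zero hP
  rw [Finset.mem_antidiagonal] at hx
  refine ⟨x.1, fun v => ?_, left_ne_zero_of_mul hne⟩
  refine le_trans ?_ (ht v)
  rw [← hx, Finsupp.add_apply]; omega

/-- multiply by a variable -/
theorem Sup.X_mul {P : MvPolynomial V ℤ} {c : V → ℕ} (h : Sup P c) (v : V) (c' : V → ℕ)
    (hc : ∀ w, w ≠ v → c w ≤ c' w) (hv : c v + 1 ≤ c' v) : Sup (X v * P) c' := by
  classical
  obtain ⟨t, ht, hP⟩ := h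
  refine ⟨Finsupp.single v 1 + t, fun w => ?_, ?_⟩
  · by_cases hw : w = v
    · subst hw
      have := ht w
      rw [Finsupp.add_apply, Finsupp.single_eq_same]; omega
    · have := (ht w).trans (hc w hw)
      simpa [Finsupp.single_apply, Ne.symm hw] using this
  · rw [coeff_X_mul]; exact hP

end Helper42.L9
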