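import Pool.Agent.helper42.L9.Path
import Mathlib.Data.List.Perm.Subperm
import Mathlib.Data.Multiset.UnionInter

/-!
# Degree-3 multigraphs are Alon-Tarsi with cap 2, except `K_4`
-/

set_option linter.unusedSimpArgs false

namespace Helper42.L9

open MvPolynomial Finset

variable {V : Type*}

theorem pathM_reverse (a d : V) (l : List V) : pathM d l.reverse a = pathM a l d := by
  induction l generalizing a with
  | nil => simp [Sym2.eq_swap]
  | cons b l ih =>
    rw [List.reverse_cons, pathM_append, ih b, pathM_nil, pathM_cons, Sym2.eq_swap,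
      ← Multiset.singleton_add, add_comm]

theorem pathM_nodup (a d : V) (l : List V) (h : (a :: (l ++ [d])).Nodup) :
    (pathM a l d).Nodup := by
  induction l generalizing a with
  | nil => simp
  | cons b l ih =>
    rw [pathM_cons, Multiset.nodup_cons]
    have h2 : (b :: (l ++ [d])).Nodup := by simpa using (List.nodup_cons.mp h).2
    refine ⟨fun hm => ?_, ih b h2⟩
    have h3 := mem_pathM hm (Sym2.mem_mk_left a b)
    have h4 := (List.nodup_cons.mp h).1
    simp only [List.cons_append, List.mem_cons, List.mem_append, List.not_mem_nil, or_false,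
      not_or] at h4
    tauto

/-- closed path -/
theorem cyc_nodup (a : V) (l : List V) (h : (a :: l).Nodup) (hl : 2 ≤ l.length) :
    (pathM a l a).Nodup := by
  obtain ⟨l', d, rfl⟩ : ∃ l' d, l = l' ++ [d] :=
    ⟨l.dropLast, l.getLast (by rintro rfl; simp at hl), (List.dropLast_append_getLast _).symm⟩
  rw [pathM_append, pathM_nil, Multiset.nodup_add]
  refine ⟨pathM_nodup a d l' h, Multiset.nodup_singleton _, ?_⟩
  rw [Multiset.disjoint_singleton]
  intro hm
  match l', h, hl, hm with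
  | [], h, hl, hm => simp at hl
  | b :: l'', h, hl, hm =>
    rw [pathM_cons, Multiset.mem_cons] at hm
    have h4 : a ∉ b :: (l'' ++ [d]) := (List.nodup_cons.mp h).1
    have h5 : b ∉ l'' ++ [d] := (List.nodup_cons.mp (List.nodup_cons.mp h).2).1
    simp only [List.cons_append, List.mem_cons, List.mem_append, List.not_mem_nil, or_false,
      not_or] at h4 h5
    rcases hm with hm | hm
    · rw [Sym2.eq_iff] at hm
      rcases hm with ⟨h6, _⟩ | ⟨h6, _⟩
      · exact h4.2.2 h6.symm
      · exact h5.2 h6.symm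
    · have h3 := mem_pathM hm (Sym2.mem_mk_right d a)
      tauto

open Classical in
theorem dg_cyc (a : V) (l : List V) (h : (a :: l).Nodup) (hl : 1 ≤ l.length) (v : V) :
    dg (pathM a l a) v = if v ∈ a :: l then 2 else 0 := by
  obtain ⟨l', d, rfl⟩ : ∃ l' d, l = l' ++ [d] :=
    ⟨l.dropLast, l.getLast (by rintro rfl; simp at hl), (List.dropLast_append_getLast _).symm⟩
  have h1 := (List.nodup_cons.mp h).1
  have h2 := (List.nodup_cons.mp h).2
  rw [List.nodup_append] at h2
  simp only [List.mem_append, List.mem_cons, List.not_mem_nil, or_false, not_or] at h1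
  have h3 : d ∉ l' := fun hd => h2.2.2 d hd d (by simp) rfl
  rw [pathM_append, pathM_nil, dg_add, dg_pathM a d l' h]
  have e1 : dg ({s(d, a)} : Multiset (Sym2 V)) v = if v = d ∨ v = a then 1 else 0 := by
    rw [← Multiset.cons_zero]
    split_ifs with hh
    · rw [dg_cons_pos (by rw [Sym2.mem_iff]; exact hh)]; simp [dg]
    · rw [dg_cons_neg (by rw [Sym2.mem_iff]; exact hh)]; simp [dg]
  rw [e1]
  by_cases ha : v = a
  · subst ha
    simp [h1.1, h1.2]
  · by_cases hd : v = d
    · subst hd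
      simp [ha, h3]
    · by_cases hv : v ∈ l'
      · simp [ha, hd, hv]
      · simp [ha, hd, hv]

theorem mem_cyc {a : V} {l : List V} {e : Sym2 V} (h : e ∈ pathM a l a) {v : V}
    (hv : v ∈ e) : v ∈ a :: l := by
  rcases mem_pathM h hv with h | h | h <;> simp [h]

/-- cycle of `M`: closed path with distinct vertices, length `l.length + 1 ≥ 3` -/
structure IsCyc (M : Multiset (Sym2 V)) (a : V) (l : List V) : Prop where
  nodup : (a :: l).Nodup
  len : 2 ≤ l.length
  sub : ∀ e ∈ pathM a l a, e ∈ M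

/-- a list of 3 different elements satisfying `p` inside `l` -/
theorem three_split {p : V → Prop} {l : List V} {b₁ b₂ b₃ : V} (h12 : b₁ ≠ b₂) (h13 : b₁ ≠ b₃)
    (h23 : b₂ ≠ b₃) (h1 : b₁ ∈ l) (h2 : b₂ ∈ l) (h3 : b₃ ∈ l) (p1 : p b₁) (p2 : p b₂)
    (p3 : p b₃) : ∃ t₁ q₁ t₂ q₂ t₃ q₃ t₄, l = t₁ ++ q₁ :: (t₂ ++ q₂ :: (t₃ ++ q₃ :: t₄)) ∧
      p q₁ ∧ p q₂ ∧ p q₃ := by
  classical
  have hsub : [b₁, b₂, b₃] ⊆ l.filter p := by
    intro x hx
    simp only [List.mem_cons, List.not_mem_nil, or_false] at hx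
    rw [List.mem_filter]
    rcases hx with rfl | rfl | rfl <;> simp [*]
  have hnd : [b₁, b₂, b₃].Nodup := by simp [h12, h13, h23]
  have hlen := (hnd.subperm hsub).length_le
  have hF : ∃ q₁ q₂ q₃ r, l.filter p = q₁ :: q₂ :: q₃ :: r := by
    clear hsub
    revert hlen
    generalize l.filter p = F
    intro hlen
    match F, hlen with
    | [], h => simp at h
    | [_], h => simp at h
    | [_, _], h => simp at h
    | a :: b :: c :: r, _ => exact ⟨a, b, c, r, rfl⟩
  obtain ⟨q₁, q₂, q₃, r, hF⟩ := hF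
  have hq : ∀ q, q ∈ l.filter p → p q := by
    intro q hq
    simpa using (List.mem_filter.mp hq).2
  have hs : List.Sublist (q₁ :: q₂ :: q₃ :: r) l := hF ▸ List.filter_sublist
  rw [List.cons_sublist_iff] at hs
  obtain ⟨r₁, r₂, rfl, hq1, hs⟩ := hs
  rw [List.cons_sublist_iff] at hs
  obtain ⟨r₃, r₄, rfl, hq2, hs⟩ := hs
  rw [List.cons_sublist_iff] at hs
  obtain ⟨r₅, r₆, rfl, hq3, hs⟩ := hs
  obtain ⟨x1, y1, rfl⟩ := List.append_of_mem hq1
  obtain ⟨x2, y2, rfl⟩ := List.append_of_mem hq2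
  obtain ⟨x3, y3, rfl⟩ := List.append_of_mem hq3
  refine ⟨x1, q₁, y1 ++ x2, q₂, y2 ++ x3, q₃, y3 ++ r₆, by simp, ?_, ?_, ?_⟩
  · exact hq _ (by rw [hF]; simp)
  · exact hq _ (by rw [hF]; simp)
  · exact hq _ (by rw [hF]; simp)

/-- three neighbours -/
theorem three_nbrs {M : Multiset (Sym2 V)} (hM : M.Nodup) {v : V} (hv : 3 ≤ dg M v) :
    ∃ b₁ b₂ b₃, b₁ ≠ b₂ ∧ b₁ ≠ b₃ ∧ b₂ ≠ b₃ ∧ s(v, b₁) ∈ M ∧ s(v, b₂) ∈ M ∧ s(v, b₃) ∈ M := by
  classical
  unfold dg at hv
  rw [Multiset.countP_eq_card_filter] at hv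
  have hnd : (M.filter (fun e => v ∈ e)).Nodup := hM.filter _
  have h1 : 2 < (⟨M.filter (fun e => v ∈ e), hnd⟩ : Finset (Sym2 V)).card := hv
  rw [Finset.two_lt_card] at h1
  obtain ⟨e1, he1, e2, he2, e3, he3, h12, h13, h23⟩ := h1
  have key : ∀ e ∈ (⟨M.filter (fun e => v ∈ e), hnd⟩ : Finset (Sym2 V)),
      ∃ b, e = s(v, b) ∧ e ∈ M := by
    intro e he
    have he' : e ∈ M.filter (fun e => v ∈ e) := he
    rw [Multiset.mem_filter] at he'
    obtain ⟨b, hb⟩ := he'.2
    exact ⟨b, hb, he'.1⟩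
  obtain ⟨b1, rfl, h1⟩ := key e1 he1
  obtain ⟨b2, rfl, h2⟩ := key e2 he2
  obtain ⟨b3, rfl, h3⟩ := key e3 he3
  refine ⟨b1, b2, b3, ?_, ?_, ?_, h1, h2, h3⟩
  · rintro rfl; exact h12 rfl
  · rintro rfl; exact h13 rfl
  · rintro rfl; exact h23 rfl

theorem nodup_le {M N : Multiset (Sym2 V)} (hN : N.Nodup) (h : ∀ e ∈ N, e ∈ M) : N ≤ M := by
  classical
  rw [Multiset.le_iff_subset hN]
  exact h

/-- an even cycle exists -/
theorem exists_even_cycle {M : Multiset (Sym2 V)} (hM : M.Nodup) (hl : ∀ e ∈ M, ¬ e.IsDiag)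
    (h3 : ∀ v, dg M v = 0 ∨ dg M v = 3) (hne : M ≠ 0) :
    ∃ a l, IsCyc M a l ∧ Odd l.length := by
  classical
  have touched : ∀ v w, s(v, w) ∈ M → dg M v = 3 := by
    intro v w h
    rcases h3 v with h0 | h0
    · exfalso
      unfold dg at h0
      rw [Multiset.countP_eq_zero] at h0
      exact h0 _ h (Sym2.mem_mk_left _ _)
    · exact h0
  -- longest path
  let P : ℕ → Prop := fun n => ∃ (x : V) (l : List V) (d : V), (x :: (l ++ [d])).Nodup ∧
    (∀ e ∈ pathM x l d, e ∈ M) ∧ l.length = n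
  have hP0 : ∃ n, P n := by
    obtain ⟨e, he⟩ := Multiset.exists_mem_of_ne_zero hne
    induction e with
    | _ x y =>
      refine ⟨0, x, [], y, ?_, ?_, rfl⟩
      · have := hl _ he
        rw [Sym2.mk_isDiag_iff] at this
        simp [this]
      · intro e' he'
        rw [pathM_nil, Multiset.mem_singleton] at he'
        exact he' ▸ he
  have hbd : ∀ n, P n → n ≤ Multiset.card M := by
    rintro n ⟨x, l, d, hn, hs, rfl⟩
    have := Multiset.card_le_card (nodup_le (pathM_nodup x d l hn) hs)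
    rw [card_pathM] at this
    omega
  have hmax : ∃ n, P n ∧ ¬ P (n + 1) := by
    by_contra hcon
    push Not at hcon
    obtain ⟨n, hn⟩ := hP0
    have : ∀ k, P (n + k) := by
      intro k
      induction k with
      | zero => exact hn
      | succ k ih => exact hcon _ ih
    have := hbd _ (this (Multiset.card M + 1))
    omega
  obtain ⟨n, ⟨x, l, d, hn, hs, hlen⟩, hnot⟩ := hmax
  -- neighbours of x lie in the path
  have hx3 : 3 ≤ dg M x := by
    have : ∃ w, s(x, w) ∈ M := by
      match l, hs with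
      | [], hs => exact ⟨d, hs _ (by simp)⟩
      | b :: l, hs => exact ⟨b, hs _ (by simp)⟩
    obtain ⟨w, hw⟩ := this
    rw [touched x w hw]
  have hin : ∀ b, s(x, b) ∈ M → b ∈ l ++ [d] := by
    intro b hb
    by_contra hbl
    apply hnot
    refine ⟨b, x :: l, d, ?_, ?_, by simp [hlen]⟩
    · rw [List.nodup_cons]
      refine ⟨?_, hn⟩
      rw [List.cons_append, List.mem_cons, not_or]
      refine ⟨?_, hbl⟩
      rintro rfl
      exact hl _ hb (by simp)
    · intro e he
      rw [pathM_cons, Multiset.mem_cons] at he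
      rcases he with rfl | he
      · rw [Sym2.eq_swap]; exact hb
      · exact hs e he
  obtain ⟨b₁, b₂, b₃, h12, h13, h23, hb1, hb2, hb3⟩ := three_nbrs hM hx3
  obtain ⟨t₁, q₁, t₂, q₂, t₃, q₃, t₄, hsplit, hq1, hq2, hq3⟩ :=
    three_split (p := fun b => s(x, b) ∈ M) h12 h13 h23 (hin _ hb1) (hin _ hb2) (hin _ hb3)
      hb1 hb2 hb3
  -- the path from x through t₁ q₁ t₂ q₂ t₃ to q₃
  have hn' : (x :: (t₁ ++ q₁ :: (t₂ ++ q₂ :: (t₃ ++ q₃ :: t₄)))).Nodup := by
    rw [← hsplit]; exact hn
  have hsub : ∀ e ∈ pathM x (t₁ ++ q₁ :: (t₂ ++ q₂ :: t₃)) q₃, e ∈ M := by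
    intro e he
    apply hs
    -- l is t₁ ++ q₁ :: ... up to the last element
    rcases List.eq_nil_or_concat t₄ with rfl | ⟨t, z, rfl⟩
    · have e1 : l ++ [d] = (t₁ ++ q₁ :: (t₂ ++ q₂ :: t₃)) ++ [q₃] := by rw [hsplit]; simp
      obtain ⟨e2, e3⟩ := List.append_inj' e1 rfl
      rw [List.singleton_inj] at e3
      rw [e2, e3]; exact he
    · have e1 : l ++ [d] = ((t₁ ++ q₁ :: (t₂ ++ q₂ :: t₃)) ++ q₃ :: t) ++ [z] := by
        rw [hsplit]; simp
      obtain ⟨e2, e3⟩ := List.append_inj' e1 rfl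
      rw [e2, pathM_append]
      exact Multiset.mem_add.mpr (Or.inl he)
  -- now forget l, d
  have hA : ∀ e, (e ∈ pathM x t₁ q₁ ∨ e ∈ pathM q₁ t₂ q₂ ∨ e ∈ pathM q₂ t₃ q₃) → e ∈ M := by
    intro e he
    apply hsub
    rw [pathM_append, pathM_append, Multiset.mem_add, Multiset.mem_add]
    exact he
  have hx : x ∉ (t₁ ++ q₁ :: (t₂ ++ q₂ :: (t₃ ++ q₃ :: t₄))) := (List.nodup_cons.mp hn').1
  have hr := (List.nodup_cons.mp hn').2
  by_cases c2 : Odd (t₁ ++ q₁ :: (t₂ ++ [q₂])).length
  · refine ⟨x, t₁ ++ q₁ :: (t₂ ++ [q₂]), ⟨?_, ?_, ?_⟩, c2⟩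
    · refine List.Sublist.nodup ?_ hn'
      apply List.Sublist.cons_cons
      apply List.Sublist.append_left
      apply List.Sublist.cons_cons
      apply List.Sublist.append_left
      simp
    · simp; omega
    · intro e he
      rw [pathM_append, pathM_append, pathM_nil, Multiset.mem_add, Multiset.mem_add,
        Multiset.mem_singleton] at he
      rcases he with he | he | he
      · exact hA e (Or.inl he)
      · exact hA e (Or.inr (Or.inl he))
      · rw [he, Sym2.eq_swap]; exact hq2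
  · by_cases c3 : Odd (t₁ ++ q₁ :: (t₂ ++ q₂ :: (t₃ ++ [q₃]))).length
    · refine ⟨x, t₁ ++ q₁ :: (t₂ ++ q₂ :: (t₃ ++ [q₃])), ⟨?_, ?_, ?_⟩, c3⟩
      · refine List.Sublist.nodup ?_ hn'
        apply List.Sublist.cons_cons
        apply List.Sublist.append_left
        apply List.Sublist.cons_cons
        apply List.Sublist.append_left
        apply List.Sublist.cons_cons
        apply List.Sublist.append_left
        simp
      · simp; omega
      · intro e he
        rw [pathM_append, pathM_append, pathM_append, pathM_nil, Multiset.mem_add,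
          Multiset.mem_add, Multiset.mem_add, Multiset.mem_singleton] at he
        rcases he with he | he | he | he
        · exact hA e (Or.inl he)
        · exact hA e (Or.inr (Or.inl he))
        · exact hA e (Or.inr (Or.inr he))
        · rw [he, Sym2.eq_swap]; exact hq3
    · refine ⟨x, q₂ :: (t₃ ++ [q₃]), ⟨?_, ?_, ?_⟩, ?_⟩
      · refine List.Sublist.nodup ?_ hn'
        apply List.Sublist.cons_cons
        refine List.Sublist.trans ?_ (List.sublist_append_right _ _)
        refine List.Sublist.cons _ ?_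
        refine List.Sublist.trans ?_ (List.sublist_append_right _ _)
        apply List.Sublist.cons_cons
        apply List.Sublist.append_left
        simp
      · simp
      · intro e he
        rw [pathM_cons, pathM_append, pathM_nil, Multiset.mem_cons, Multiset.mem_add,
          Multiset.mem_singleton] at he
        rcases he with he | he | he
        · rw [he]; exact hq2
        · exact hA e (Or.inr (Or.inr he))
        · rw [he, Sym2.eq_swap]; exact hq3
      · simp only [List.length_append, List.length_cons, List.length_nil] at c2 c3 ⊢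
        rw [Nat.not_odd_iff_even] at c2 c3
        obtain ⟨k, hk⟩ := c2
        obtain ⟨m, hm⟩ := c3
        refine ⟨m - k, ?_⟩
        omega

end Helper42.L9
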