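import Pool.Agent.helper42.L9.Cubic

/-!
# Shortest even cycle in a cubic graph: at most one chord
-/

set_option linter.unusedSimpArgs false

namespace Helper42.L9

open MvPolynomial Finset

variable {V : Type*}

/-- rotate a cycle -/
theorem IsCyc.rotate {M : Multiset (Sym2 V)} {a b : V} {l₁ l₂ : List V}
    (h : IsCyc M a (l₁ ++ b :: l₂)) : IsCyc M b (l₂ ++ a :: l₁) := by
  refine ⟨?_, ?_, ?_⟩
  · have h1 := h.nodup
    have h2 : (b :: (l₂ ++ a :: l₁)).Perm (a :: (l₁ ++ b :: l₂)) := by
      have e1 : (b :: (l₂ ++ a :: l₁)) = (b :: l₂) ++ (a :: l₁) := rfl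
      have e2 : (a :: (l₁ ++ b :: l₂)) = (a :: l₁) ++ (b :: l₂) := rfl
      rw [e1, e2]
      exact List.perm_append_comm
    exact h2.nodup_iff.mpr h1
  · have := h.len
    simp only [List.length_append, List.length_cons] at this ⊢
    omega
  · intro e he
    apply h.sub
    rw [pathM_append] at he ⊢
    rw [Multiset.mem_add] at he ⊢
    tauto

theorem rotate_pathM {a b : V} {l₁ l₂ : List V} :
    pathM b (l₂ ++ a :: l₁) b = pathM a (l₁ ++ b :: l₂) a := by
  rw [pathM_append, pathM_append, add_comm]

/-- reflect a cycle -/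
theorem IsCyc.reflect {M : Multiset (Sym2 V)} {a b : V} {l₁ l₂ : List V}
    (h : IsCyc M a (l₁ ++ b :: l₂)) : IsCyc M a (l₂.reverse ++ b :: l₁.reverse) := by
  have e1 : l₂.reverse ++ b :: l₁.reverse = (l₁ ++ b :: l₂).reverse := by simp
  refine ⟨?_, ?_, ?_⟩
  · have := h.nodup
    rw [List.nodup_cons] at this ⊢
    rw [e1, List.mem_reverse, List.nodup_reverse]
    exact this
  · have := h.len
    rw [e1, List.length_reverse]; exact this
  · intro e he
    apply h.sub
    rw [e1, pathM_reverse] at he
    exact he

section chords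

variable {M : Multiset (Sym2 V)}

/-- a chord cuts off a cycle -/
theorem IsCyc.chord {p q : V} {l₁ l₂ : List V} (h : IsCyc M p (l₁ ++ q :: l₂))
    (hpq : s(p, q) ∈ M) (hl : 1 ≤ l₁.length) : IsCyc M p (l₁ ++ [q]) := by
  refine ⟨?_, ?_, ?_⟩
  · refine List.Sublist.nodup ?_ h.nodup
    apply List.Sublist.cons_cons
    apply List.Sublist.append_left
    simp
  · simp; omega
  · intro e he
    rw [pathM_append, pathM_nil, Multiset.mem_add, Multiset.mem_singleton] at he
    rcases he with he | he
    · apply h.sub
      rw [pathM_append, Multiset.mem_add]; exact Or.inl he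
    · rw [he, Sym2.eq_swap]; exact hpq

/-- minimal even cycle -/
structure MinCyc (M : Multiset (Sym2 V)) (a : V) (l : List V) : Prop extends IsCyc M a l where
  odd : Odd l.length
  min : ∀ a' l', IsCyc M a' l' → Odd l'.length → l.length ≤ l'.length

theorem MinCyc.rotate {a b : V} {l₁ l₂ : List V}
    (h : MinCyc M a (l₁ ++ b :: l₂)) : MinCyc M b (l₂ ++ a :: l₁) := by
  have hlen : (l₂ ++ a :: l₁).length = (l₁ ++ b :: l₂).length := by simp; omega
  refine ⟨h.toIsCyc.rotate, ?_, ?_⟩
  · rw [hlen]; exact h.odd
  · intro a' l' h1 h2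
    rw [hlen]; exact h.min a' l' h1 h2

theorem MinCyc.chord_odd {p q : V} {l₁ l₂ : List V} (h : MinCyc M p (l₁ ++ q :: l₂))
    (hpq : s(p, q) ∈ M) (hc : s(p, q) ∉ pathM p (l₁ ++ q :: l₂) p) :
    Odd l₁.length ∧ Odd l₂.length := by
  have h1 : 1 ≤ l₁.length := by
    by_contra hcon
    have : l₁ = [] := List.length_eq_zero_iff.mp (by omega)
    subst this
    apply hc
    simp
  have h2 : 1 ≤ l₂.length := by
    by_contra hcon
    have : l₂ = [] := List.length_eq_zero_iff.mp (by omega)
    subst this
    apply hc
    rw [pathM_append, Multiset.mem_add]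
    right
    simp [Sym2.eq_swap]
  have hodd : Odd l₁.length := by
    by_contra hcon
    rw [Nat.not_odd_iff_even] at hcon
    have := h.min p (l₁ ++ [q]) (h.toIsCyc.chord hpq h1) (by
      simp only [List.length_append, List.length_cons, List.length_nil]
      rw [Nat.even_iff] at hcon
      rw [Nat.odd_iff]; omega)
    simp only [List.length_append, List.length_cons, List.length_nil] at this
    omega
  refine ⟨hodd, ?_⟩
  have := h.odd
  simp only [List.length_append, List.length_cons] at this
  rw [Nat.odd_iff] at this hodd ⊢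
  omega

/-- chord `pq`; no second chord with both ends on the same side, `r` before `s` -/
theorem no_parallel_chord {p q r s : V} {m₁ m₂ m₃ l₂ : List V}
    (h : MinCyc M p ((m₁ ++ r :: (m₂ ++ s :: m₃)) ++ q :: l₂))
    (hpq : s(p, q) ∈ M) (hc : s(p, q) ∉ pathM p ((m₁ ++ r :: (m₂ ++ s :: m₃)) ++ q :: l₂) p)
    (hrs : s(r, s) ∈ M) (hc' : s(r, s) ∉ pathM p ((m₁ ++ r :: (m₂ ++ s :: m₃)) ++ q :: l₂) p) :
    False := by
  obtain ⟨o1, o2⟩ := h.chord_odd hpq hc
  -- the chord rs
  have e1 : (m₁ ++ r :: (m₂ ++ s :: m₃)) ++ q :: l₂ = m₁ ++ r :: (m₂ ++ s :: (m₃ ++ q :: l₂)) := by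
    simp
  have h' := h
  rw [e1] at h'
  have hr := h'.rotate
  have e2 : (m₂ ++ s :: (m₃ ++ q :: l₂)) ++ p :: m₁ = m₂ ++ s :: ((m₃ ++ q :: l₂) ++ p :: m₁) := by
    simp
  rw [e2] at hr
  have hc2 : s(r, s) ∉ pathM r (m₂ ++ s :: ((m₃ ++ q :: l₂) ++ p :: m₁)) r := by
    rw [← e2, rotate_pathM, ← e1]; exact hc'
  obtain ⟨o3, _⟩ := hr.chord_odd hrs hc2
  -- the cycle through both chords
  have hcyc : IsCyc M p (m₁ ++ r :: s :: (m₃ ++ [q])) := by
    refine ⟨?_, ?_, ?_⟩
    · refine List.Sublist.nodup ?_ h.nodup
      rw [e1]
      apply List.Sublist.cons_cons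
      apply List.Sublist.append_left
      apply List.Sublist.cons_cons
      refine List.Sublist.trans ?_ (List.sublist_append_right _ _)
      apply List.Sublist.cons_cons
      apply List.Sublist.append_left
      simp
    · simp; omega
    · intro e he
      have hs := h.sub
      rw [e1] at hs
      simp only [pathM_append, pathM_cons, pathM_nil, Multiset.mem_add, Multiset.mem_cons,
        Multiset.mem_singleton] at he hs
      rcases he with he | he | he | he
      · exact hs e (Or.inl he)
      · rw [he]; exact hrs
      · exact hs e (Or.inr (Or.inr (Or.inl he)))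
      · rw [he, Sym2.eq_swap]; exact hpq
  have hlen := h.min _ _ hcyc (by
    simp only [List.length_append, List.length_cons, List.length_nil] at o1 ⊢
    rw [Nat.odd_iff] at o1 o3 ⊢
    omega)
  simp only [List.length_append, List.length_cons, List.length_nil] at hlen
  rw [Nat.odd_iff] at o3 o2
  omega

/-- chord `pq`, crossing chord `rs`: `K_4` -/
theorem crossing_chord {p q r s : V} {m₁ m₂ k₁ k₂ : List V}
    (h : MinCyc M p ((m₁ ++ r :: m₂) ++ q :: (k₁ ++ s :: k₂)))
    (hpq : s(p, q) ∈ M) (hc : s(p, q) ∉ pathM p ((m₁ ++ r :: m₂) ++ q :: (k₁ ++ s :: k₂)) p)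
    (hrs : s(r, s) ∈ M) :
    s(p, r) ∈ M ∧ s(r, q) ∈ M ∧ s(q, s) ∈ M ∧ s(s, p) ∈ M := by
  obtain ⟨o1, o2⟩ := h.chord_odd hpq hc
  have hs := h.sub
  have hn := h.nodup
  simp only [pathM_append, Multiset.mem_add, List.append_assoc, List.cons_append] at hs
  -- cycle r m₂ q k₁ s
  have hcyc0 : IsCyc M r (m₂ ++ q :: (k₁ ++ [s])) := by
    refine ⟨?_, ?_, ?_⟩
    · refine List.Sublist.nodup ?_ hn
      simp only [List.append_assoc, List.cons_append]
      refine List.Sublist.cons _ ?_
      refine List.Sublist.trans ?_ (List.sublist_append_right _ _)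
      apply List.Sublist.cons_cons
      apply List.Sublist.append_left
      apply List.Sublist.cons_cons
      apply List.Sublist.append_left
      simp
    · simp; omega
    · intro e he
      simp only [pathM_append, pathM_cons, pathM_nil, Multiset.mem_add, Multiset.mem_cons,
        Multiset.mem_singleton] at he
      rcases he with he | he | he
      · exact hs e (by tauto)
      · exact hs e (by tauto)
      · rw [he, Sym2.eq_swap]; exact hrs
  have par : Even (m₂.length + k₁.length) := by
    by_contra hcon
    rw [Nat.not_even_iff_odd] at hcon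
    have hlen := h.min _ _ hcyc0 (by
      simp only [List.length_append, List.length_cons, List.length_nil]
      rw [Nat.odd_iff] at hcon ⊢
      omega)
    simp only [List.length_append, List.length_cons, List.length_nil] at hlen
    omega
  -- cycle A : p m₁ r s k₁ᴿ q
  have hcycA : IsCyc M p (m₁ ++ r :: s :: (k₁.reverse ++ [q])) := by
    refine ⟨?_, ?_, ?_⟩
    · have hsub : List.Sublist (p :: (m₁ ++ r :: (q :: (k₁ ++ [s]))))
          (p :: ((m₁ ++ r :: m₂) ++ q :: (k₁ ++ s :: k₂))) := by
        simp only [List.append_assoc, List.cons_append]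
        apply List.Sublist.cons_cons
        apply List.Sublist.append_left
        apply List.Sublist.cons_cons
        refine List.Sublist.trans ?_ (List.sublist_append_right _ _)
        apply List.Sublist.cons_cons
        apply List.Sublist.append_left
        simp
      have hperm : (p :: (m₁ ++ r :: s :: (k₁.reverse ++ [q]))).Perm
          (p :: (m₁ ++ r :: (q :: (k₁ ++ [s])))) := by
        apply List.Perm.cons
        apply List.Perm.append_left
        apply List.Perm.cons
        have e1 : s :: (k₁.reverse ++ [q]) = (q :: (k₁ ++ [s])).reverse := by simp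
        rw [e1]
        exact List.reverse_perm _
      exact hperm.nodup_iff.mpr (hsub.nodup hn)
    · simp; omega
    · intro e he
      simp only [pathM_append, pathM_cons, pathM_nil, Multiset.mem_add, Multiset.mem_cons,
        Multiset.mem_singleton, pathM_reverse] at he
      rcases he with he | he | he | he
      · exact hs e (by tauto)
      · rw [he]; exact hrs
      · exact hs e (by tauto)
      · rw [he, Sym2.eq_swap]; exact hpq
  -- cycle B : p q m₂ᴿ r s k₂
  have hcycB : IsCyc M p (q :: (m₂.reverse ++ r :: s :: k₂)) := by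
    refine ⟨?_, ?_, ?_⟩
    · have hsub : List.Sublist (p :: (r :: (m₂ ++ q :: s :: k₂)))
          (p :: ((m₁ ++ r :: m₂) ++ q :: (k₁ ++ s :: k₂))) := by
        simp only [List.append_assoc, List.cons_append]
        apply List.Sublist.cons_cons
        refine List.Sublist.trans ?_ (List.sublist_append_right _ _)
        apply List.Sublist.cons_cons
        apply List.Sublist.append_left
        apply List.Sublist.cons_cons
        exact List.sublist_append_right _ _
      have hperm : (p :: (q :: (m₂.reverse ++ r :: s :: k₂))).Perm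
          (p :: (r :: (m₂ ++ q :: s :: k₂))) := by
        apply List.Perm.cons
        have e1 : q :: (m₂.reverse ++ r :: s :: k₂) = (r :: (m₂ ++ [q])).reverse ++ (s :: k₂) := by
          simp
        have e2 : r :: (m₂ ++ q :: s :: k₂) = (r :: (m₂ ++ [q])) ++ (s :: k₂) := by simp
        rw [e1, e2]
        exact List.Perm.append_right _ (List.reverse_perm _)
      exact hperm.nodup_iff.mpr (hsub.nodup hn)
    · simp; omega
    · intro e he
      simp only [pathM_append, pathM_cons, pathM_nil, Multiset.mem_add, Multiset.mem_cons,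
        Multiset.mem_singleton, pathM_reverse] at he
      rcases he with he | he | he | he
      · rw [he]; exact hpq
      · exact hs e (by tauto)
      · rw [he]; exact hrs
      · exact hs e (by tauto)
  simp only [List.length_append, List.length_cons, List.length_nil] at o1 o2
  have lA := h.min _ _ hcycA (by
    simp only [List.length_append, List.length_cons, List.length_nil, List.length_reverse]
    rw [Nat.odd_iff] at o1 ⊢
    rw [Nat.even_iff] at par
    omega)
  have lB := h.min _ _ hcycB (by
    simp only [List.length_append, List.length_cons, List.length_nil, List.length_reverse]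
    rw [Nat.odd_iff] at o2 ⊢
    rw [Nat.even_iff] at par
    omega)
  simp only [List.length_append, List.length_cons, List.length_nil, List.length_reverse] at lA lB
  have z1 : m₁ = [] := List.length_eq_zero_iff.mp (by omega)
  have z2 : m₂ = [] := List.length_eq_zero_iff.mp (by omega)
  have z3 : k₁ = [] := List.length_eq_zero_iff.mp (by omega)
  have z4 : k₂ = [] := List.length_eq_zero_iff.mp (by omega)
  subst z1; subst z2; subst z3; subst z4
  simp only [pathM_nil, Multiset.mem_singleton] at hs
  exact ⟨hs _ (by simp), hs _ (by simp), hs _ (by simp), hs _ (by simp)⟩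

end chords

end Helper42.L9
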