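import Pool.Agent.helper19.L9.KillW

/-!
# Kernel checks: a `P_5` and a cell `F` with a triple which contains the last vertex

`P_5` = 0 1 2 3 4 (`s u w v t`), `F` = 5 6 7 8 (`p u v q`).
-/

namespace Helper42.L9

open Helper19.Kill

set_option maxRecDepth 100000

def g_q1 : List ((ℕ × ℕ) × Bool × Bool) :=
  [((5, 6), false, false), ((5, 7), true, false), ((6, 7), false, false), ((6, 8), false, false),
   ((4, 6), false, true), ((7, 8), false, false), ((4, 7), false, true), ((3, 4), false, false),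
   ((2, 4), false, true), ((2, 3), false, false), ((1, 3), false, true), ((0, 1), false, false),
   ((0, 2), true, false), ((1, 8), false, true), ((1, 2), true, true)]

def t_q1 : CT :=
  .nd (.sk (.sk (.nd (.sk (.nd (.sk (.sk (.sk (.sk (.sk (.sk (.sk (.sk (.sk (.sk (.sk (.sk (.sk
  (.sk (.sk (.nd (.sk (.sk (.nd (.sk (.sk (.sk (.sk (.sk (.nd (.sk (.sk (.sk (.sk (.sk (.lf
  6857432)))))) (.sk (.sk (.sk (.sk (.sk (.sk (.lf 6857944))))))))))))) (.sk (.sk (.sk (.sk (.sk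
  (.sk (.sk (.sk (.sk (.sk (.sk (.sk (.lf 6857944)))))))))))))))) (.sk (.sk (.sk (.sk (.sk (.sk
  (.sk (.sk (.sk (.nd (.sk (.sk (.sk (.sk (.sk (.lf 6890200)))))) (.sk (.sk (.sk (.sk (.sk (.sk
  (.lf 6890712))))))))))))))))))))))))))))))))) (.sk (.sk (.sk (.sk (.sk (.sk (.sk (.sk (.sk (.sk
  (.sk (.sk (.sk (.sk (.sk (.sk (.sk (.sk (.sk (.sk (.sk (.sk (.sk (.sk (.sk (.nd (.sk (.sk (.sk
  (.sk (.sk (.lf 6890200)))))) (.sk (.sk (.sk (.sk (.sk (.sk (.lf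
  6890712))))))))))))))))))))))))))))))))))) (.sk (.sk (.sk (.sk (.sk (.sk (.sk (.sk (.sk (.sk
  (.sk (.sk (.sk (.sk (.sk (.sk (.sk (.sk (.nd (.sk (.sk (.sk (.sk (.sk (.sk (.sk (.sk (.sk (.sk
  (.sk (.sk (.sk (.sk (.lf 6857944))))))))))))))) (.sk (.sk (.sk (.sk (.sk (.sk (.sk (.sk (.sk
  (.sk (.sk (.sk (.sk (.sk (.sk (.lf 6890712)))))))))))))))))))))))))))))))))))))) (.sk (.sk (.sk
  (.sk (.sk (.sk (.sk (.sk (.sk (.sk (.sk (.sk (.sk (.sk (.sk (.sk (.sk (.sk (.sk (.sk (.sk (.nd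
  (.sk (.sk (.nd (.sk (.sk (.sk (.sk (.sk (.nd (.sk (.sk (.sk (.sk (.sk (.lf 6857433)))))) (.sk
  (.sk (.sk (.sk (.sk (.sk (.lf 6857945))))))))))))) (.sk (.sk (.sk (.sk (.sk (.sk (.sk (.sk (.sk
  (.sk (.sk (.sk (.lf 6857945)))))))))))))))) (.sk (.sk (.sk (.sk (.sk (.sk (.sk (.sk (.sk (.sk
  (.sk (.sk (.sk (.sk (.sk (.lf 6890201))))))))))))))))))))))))))))))))))))))

def g_q2 : List ((ℕ × ℕ) × Bool × Bool) :=
  [((5, 6), false, false), ((6, 7), false, false), ((6, 8), false, false), ((4, 6), false, true),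
   ((7, 8), false, false), ((5, 7), true, false), ((1, 7), false, true), ((4, 8), false, true),
   ((3, 4), false, false), ((2, 4), false, true), ((2, 3), false, false), ((1, 3), false, true),
   ((0, 1), false, false), ((1, 2), true, false), ((0, 2), true, true)]

def t_q2 : CT :=
  .nd (.sk (.sk (.nd (.sk (.nd (.sk (.sk (.sk (.sk (.sk (.sk (.sk (.sk (.sk (.sk (.sk (.sk (.sk
  (.sk (.sk (.nd (.sk (.sk (.nd (.sk (.sk (.sk (.sk (.sk (.nd (.sk (.sk (.sk (.sk (.sk (.lf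
  6857432)))))) (.sk (.sk (.sk (.sk (.sk (.sk (.lf 6857944))))))))))))) (.sk (.sk (.sk (.sk (.sk
  (.sk (.sk (.sk (.sk (.sk (.sk (.sk (.lf 6857944)))))))))))))))) (.sk (.sk (.sk (.sk (.sk (.sk
  (.sk (.sk (.sk (.nd (.sk (.sk (.sk (.sk (.sk (.lf 6890200)))))) (.sk (.sk (.sk (.sk (.sk (.sk
  (.lf 6890712))))))))))))))))))))))))))))))))) (.sk (.sk (.sk (.sk (.sk (.sk (.sk (.sk (.sk (.sk
  (.sk (.sk (.sk (.sk (.sk (.sk (.sk (.sk (.sk (.sk (.sk (.sk (.sk (.sk (.sk (.nd (.sk (.sk (.sk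
  (.sk (.sk (.lf 6890200)))))) (.sk (.sk (.sk (.sk (.sk (.sk (.lf
  6890712))))))))))))))))))))))))))))))))))) (.sk (.sk (.sk (.sk (.sk (.sk (.sk (.sk (.sk (.sk
  (.sk (.sk (.sk (.sk (.sk (.sk (.sk (.sk (.nd (.sk (.sk (.sk (.sk (.sk (.sk (.sk (.sk (.sk (.sk
  (.sk (.sk (.sk (.sk (.lf 6857944))))))))))))))) (.sk (.sk (.sk (.sk (.sk (.sk (.sk (.sk (.sk
  (.sk (.sk (.sk (.sk (.sk (.sk (.lf 6890712)))))))))))))))))))))))))))))))))))))) (.sk (.sk (.sk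
  (.sk (.sk (.sk (.sk (.sk (.sk (.sk (.sk (.sk (.sk (.sk (.sk (.sk (.sk (.sk (.sk (.sk (.sk (.nd
  (.sk (.sk (.nd (.sk (.sk (.sk (.sk (.sk (.nd (.sk (.sk (.sk (.sk (.sk (.lf 6857433)))))) (.sk
  (.sk (.sk (.sk (.sk (.sk (.lf 6857945))))))))))))) (.sk (.sk (.sk (.sk (.sk (.sk (.sk (.sk (.sk
  (.sk (.sk (.sk (.lf 6857945)))))))))))))))) (.sk (.sk (.sk (.sk (.sk (.sk (.sk (.sk (.sk (.sk
  (.sk (.sk (.sk (.sk (.sk (.lf 6890201))))))))))))))))))))))))))))))))))))))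

theorem chk_q1 : chkK 9 [2, 3, 3, 3, 2, 2, 3, 3, 2]
    [(0, 1), (1, 2), (2, 3), (3, 4), (0, 2), (1, 3), (2, 4), (5, 6), (6, 7), (7, 8), (5, 7),
      (6, 8), (4, 6), (4, 7), (1, 8)] [2, 0, 0, 1, 0, 1, 0, 0, 1] = true :=
  chkK_of_chkW t_q1 g_q1 (by decide) (by decide) (by decide) (by decide +kernel)

theorem chk_q2 : chkK 9 [2, 3, 3, 3, 2, 2, 3, 3, 2]
    [(0, 1), (1, 2), (2, 3), (3, 4), (0, 2), (1, 3), (2, 4), (5, 6), (6, 7), (7, 8), (5, 7),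
      (6, 8), (4, 6), (4, 8), (1, 7)] [2, 0, 0, 1, 0, 1, 0, 0, 1] = true :=
  chkK_of_chkW t_q2 g_q2 (by decide) (by decide) (by decide) (by decide +kernel)

end Helper42.L9
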