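import Pool.Agent.helper42.L9.EX9
import Pool.Agent.helper42.L9.KillP
import Pool.Agent.helper19.L9.FNet

/-!
# E-phase with exempt vertices: networks with cells `F`, definitions
-/

set_option linter.unusedSimpArgs false
set_option linter.unusedVariables false

namespace Helper42.L9

open Finset Helper33.L9
open Helper19.Kill (chkK kill_of_chk)
open Helper19.DN (EZ TE slZ cZ tZ img mem_img)

variable {V : Type*} {own : V → V → Prop} {c c' : V → ℕ} {M N L O : Multiset (Sym2 V)} {n k : ℕ}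

/-- killer block, by membership of its inner edges -/
theorem AT.killM (g : Fin n → V) (hg : Function.Injective g) (cl : List ℕ)
    (h7 : cl.all (· ≤ 7) = true) (hc : ∀ i : Fin n, Helper19.Gadget.cp cl i ≤ c (g i))
    (sl : List ℕ)
    (E : List (Fin n × Fin n)) (gE : List (ℕ × ℕ))
    (hE : (E.map fun e => ((e.1 : ℕ), (e.2 : ℕ))) = gE)
    (hnd : (E.map fun p => s(p.1, p.2)).Nodup) (hmem : ∀ p ∈ E, s(g p.1, g p.2) ∈ M)
    (hd : ∀ i : Fin n, dg M (g i) ≤ cnt E i + sl.getD i 0)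
    (hl : ∀ e ∈ M, ¬ e.IsDiag) (h : chkK n cl gE sl = true)
    (hout : AT (outt (img g) M) c) : AT M c := by
  classical
  have hnd' : (emb g E).Nodup := by
    unfold emb
    rw [Multiset.coe_nodup]
    have h1 : (E.map fun p => s(g p.1, g p.2)) = (E.map fun p => s(p.1, p.2)).map (Sym2.map g) := by
      rw [List.map_map]
      rfl
    rw [h1]
    exact hnd.map (Sym2.map.injective hg)
  have hle : emb g E ≤ M := by
    rw [Multiset.le_iff_subset hnd']
    intro e he
    obtain ⟨p, hp, rfl⟩ := mem_emb.mp he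
    exact hmem p hp
  obtain ⟨K, hK⟩ := Multiset.le_iff_exists_add.mp hle
  have hout' : outt (img g) M = outt (img g) K := by
    rw [hK, Helper19.DN.outt_add, Helper19.DN.outt_none (M := emb g E), zero_add]
    intro e he
    obtain ⟨p, hp, rfl⟩ := mem_emb.mp he
    exact ⟨g p.1, Sym2.mem_mk_left _ _, mem_img.mpr ⟨_, rfl⟩⟩
  rw [hK]
  refine kill_of_chk g hg cl h7 hc sl E gE hE K ?_ ?_ h ?_
  · intro i
    have h1 := hd i
    rw [hK, dg_add, dg_emb hg] at h1
    omega
  · intro e he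
    exact hl e (hK ▸ Multiset.mem_add.mpr (Or.inr he))
  · have : (@Finset.image _ _ (Classical.decEq V) g Finset.univ) = img g := rfl
    rw [this, ← hout']
    exact hout

/-! ### networks -/

/-- own-type pairs -/
def OT (own : V → V → Prop) (c : V → ℕ) (x y : V) : Prop :=
  own x y ∨ (∃ X, own x X ∧ own X y ∧ c X = 3) ∨ (c x = 2 ∧ c y = 2)

/-- exempt cells `F` (vertices `z j`), other exempt edges `EB`, slots -/
structure Cells (c c' : V → ℕ) (EB : Multiset (Sym2 V)) (z : Fin k → Fin 4 → V) (slot : V → ℕ) :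
    Prop where
  inj : ∀ j i j' i', z j i = z j' i' → j = j' ∧ i = i'
  ex : ∀ j i, ¬ Nf c (z j i)
  cap : ∀ j i, cZ i ≤ c' (z j i)
  eb : ∀ e ∈ EB, ∀ v ∈ e, ¬ Nf c v
  ebz : ∀ j i, dg EB (z j i) = 0
  slz : ∀ j i, slot (z j i) ≤ slZ i

/-- no ordinary vertex sees `u, v` and `p` or `q` of a cell -/
def NoTri (c : V → ℕ) (z : Fin k → Fin 4 → V) (L : Multiset (Sym2 V)) : Prop :=
  ∀ (o : V) (j : Fin k), c o = 2 → s(o, z j 1) ∈ L → s(o, z j 2) ∈ L →
    (s(o, z j 0) ∈ L ∨ s(o, z j 3) ∈ L) → False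

/-- the invariant: cells `j ∈ J` are present, links `L`, own edges `O` -/
structure Inv0 (own : V → V → Prop) (c : V → ℕ) (EB : Multiset (Sym2 V)) (z : Fin k → Fin 4 → V)
    (slot : V → ℕ) (J : Finset (Fin k)) (L O N : Multiset (Sym2 V)) : Prop where
  eq : N = EB + ((∑ j ∈ J, emb (z j) EZ) + (L + O))
  exO : ∀ e ∈ O, ∀ v ∈ e, Nf c v
  typ : ∀ x y, s(x, y) ∈ O → OT own c x y
  slots : ∀ v, ¬ Nf c v → dg L v ≤ slot v
  dead : ∀ j, j ∉ J → ∀ i, dg L (z j i) = 0
  ph : (∀ v, c v = 2 → dg L v ≤ 2) ∨ NoMid own c N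
  tri : NoTri c z L

/-- the invariant of the E-phase -/
def InvLO (own : V → V → Prop) (c : V → ℕ) (EB : Multiset (Sym2 V)) (z : Fin k → Fin 4 → V)
    (slot : V → ℕ) (N : Multiset (Sym2 V)) : Prop :=
  ∃ J L O, Inv0 own c EB z slot J L O N

/-- `t` sees the exempt vertex `x` after the step with the new edge `a t` -/
def See (M : Multiset (Sym2 V)) (a t x : V) : Prop := s(t, x) ∈ M ∨ x = a

/-- the step with new edge `a t` creates a triple -/
def BadT (z : Fin k → Fin 4 → V) (M : Multiset (Sym2 V)) (_s _u _w _v t a : V) : Prop :=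
  ∃ j, See M a t (z j 1) ∧ See M a t (z j 2) ∧ (See M a t (z j 0) ∨ See M a t (z j 3))

variable {EB : Multiset (Sym2 V)} {z : Fin k → Fin 4 → V} {slot : V → ℕ} {J : Finset (Fin k)}

theorem nf_dec (c : V → ℕ) (v : V) : Nf c v ∨ ¬ Nf c v := by
  unfold Nf; omega

theorem mem_sumZ {J : Finset (Fin k)} {e : Sym2 V} :
    e ∈ ∑ j ∈ J, emb (z j) EZ ↔ ∃ j ∈ J, e ∈ emb (z j) EZ := by
  classical
  induction J using Finset.induction_on with
  | empty => simp
  | insert a s ha ih =>
    rw [Finset.sum_insert ha, Multiset.mem_add, ih]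
    simp only [Finset.mem_insert]
    constructor
    · rintro (h | ⟨j, hj, h⟩)
      · exact ⟨a, Or.inl rfl, h⟩
      · exact ⟨j, Or.inr hj, h⟩
    · rintro ⟨j, rfl | hj, h⟩
      · exact Or.inl h
      · exact Or.inr ⟨j, hj, h⟩

/-- vertices of block edges are exempt -/
theorem Cells.ebF (hC : Cells c c' EB z slot) {J : Finset (Fin k)} {e : Sym2 V}
    (he : e ∈ EB + ∑ j ∈ J, emb (z j) EZ) : ∀ v ∈ e, ¬ Nf c v := by
  intro v hv
  rcases Multiset.mem_add.mp he with h | h
  · exact hC.eb e h v hv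
  · obtain ⟨j, _, h⟩ := mem_sumZ.mp h
    obtain ⟨p, _, rfl⟩ := mem_emb.mp h
    rw [Sym2.mem_iff] at hv
    rcases hv with rfl | rfl
    · exact hC.ex _ _
    · exact hC.ex _ _

/-- an edge at a vertex which is not exempt is a link or an own edge -/
theorem Inv0.memLO (h : Inv0 own c EB z slot J L O N) (hC : Cells c c' EB z slot) {x y : V}
    (hx : Nf c x) (he : s(x, y) ∈ N) : s(x, y) ∈ L ∨ s(x, y) ∈ O := by
  rw [h.eq, ← add_assoc, Multiset.mem_add] at he
  rcases he with he | he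
  · exact absurd hx (hC.ebF he x (Sym2.mem_mk_left _ _))
  · exact Multiset.mem_add.mp he

/-- an edge from `x` to an exempt vertex is a link -/
theorem Inv0.memL (h : Inv0 own c EB z slot J L O N) (hC : Cells c c' EB z slot) {x y : V}
    (hx : Nf c x) (hy : ¬ Nf c y) (he : s(x, y) ∈ N) : s(x, y) ∈ L := by
  rcases h.memLO hC hx he with h1 | h1
  · exact h1
  · exact absurd (h.exO _ h1 y (Sym2.mem_mk_right _ _)) hy

theorem Inv0.subL (h : Inv0 own c EB z slot J L O N) : L ≤ N := by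
  rw [h.eq]
  exact (Multiset.le_add_right L O).trans ((Multiset.le_add_left _ _).trans
    (Multiset.le_add_left _ _))

theorem outt_sumZ (hC : Cells c c' EB z slot) {A : Finset V} (hA : ∀ x ∈ A, Nf c x) :
    outt A (EB + ∑ j ∈ J, emb (z j) EZ) = EB + ∑ j ∈ J, emb (z j) EZ := by
  refine Helper19.DN.outt_keep fun e he v hv hvA => ?_
  exact hC.ebF he v hv (hA v hvA)

theorem NoMid.ou (h : NoMid own c N) (A : Finset V) : NoMid own c (outt A N) := by
  intro u v huv
  have := h u v huv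
  have h2 := dg_le_of_le (outt_le A N) u
  omega

theorem NoTri.mono (h : NoTri c z L) {L' : Multiset (Sym2 V)} (hle : L' ≤ L) : NoTri c z L' :=
  fun o j ho h1 h2 h3 => h o j ho (Multiset.mem_of_le hle h1) (Multiset.mem_of_le hle h2)
    (h3.imp (Multiset.mem_of_le hle) (Multiset.mem_of_le hle))

theorem Inv0.ou (h : Inv0 own c EB z slot J L O N) (hC : Cells c c' EB z slot)
    {A : Finset V} (hA : ∀ x ∈ A, Nf c x) :
    Inv0 own c EB z slot J (outt A L) (outt A O) (outt A N) where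
  eq := by
    rw [h.eq, ← add_assoc, Helper19.DN.outt_add, outt_sumZ hC hA, Helper19.DN.outt_add, add_assoc]
  exO := fun e he => h.exO e (Multiset.mem_of_le (outt_le A O) he)
  typ := fun x y he => h.typ x y (Multiset.mem_of_le (outt_le A O) he)
  slots := fun v hv => (dg_le_of_le (outt_le A L) v).trans (h.slots v hv)
  dead := fun j hj i => Nat.le_zero.mp ((dg_le_of_le (outt_le A L) _).trans (h.dead j hj i).le)
  ph := h.ph.imp (fun h1 v hv => (dg_le_of_le (outt_le A L) v).trans (h1 v hv))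
    (fun h1 => h1.ou A)
  tri := h.tri.mono (outt_le A L)

end Helper42.L9
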