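import Pool.Agent.helper42.L9.EX10

/-!
# E-phase with exempt vertices: the invariant is kept
-/

set_option linter.unusedSimpArgs false
set_option linter.unusedVariables false

namespace Helper42.L9

open Finset Helper33.L9
open Helper19.DN (EZ TE slZ cZ tZ img mem_img)

variable {V : Type*} {own : V → V → Prop} {c c' : V → ℕ} {M N L O : Multiset (Sym2 V)} {n k : ℕ}
  {EB : Multiset (Sym2 V)} {z : Fin k → Fin 4 → V} {slot : V → ℕ} {J : Finset (Fin k)}

theorem Inv0.linkL (h : Inv0 own c EB z slot J L O N) (hC : Cells c c' EB z slot)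
    (hM : ENetX own c c' N) {R : Finset V} {a u : V} (hu : c u = 3) (hl : Link own c N R a u)
    (hno : ∀ X ∈ R, own X u → c X = 3 → ¬ own X a) : s(a, u) ∈ L := by
  have he : s(u, a) ∈ N := mem_swap' hl.edge
  rcases h.memLO hC (Or.inr hu) he with h1 | h1
  · exact mem_swap' h1
  · exfalso
    rcases h.typ u a h1 with h2 | ⟨X, h2, h3, h4⟩ | ⟨h2, _⟩
    · exact hl.nown (hM.symm _ _ h2)
    · exact hno X (hl.beh X (hM.symm _ _ h2) h4) (hM.symm _ _ h2) h4 h3
    · omega

theorem noTri_of_dg (hC : Cells c c' EB z slot) (h : ∀ v, c v = 2 → dg L v ≤ 2) :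
    NoTri c z L := by
  classical
  intro o j ho h1 h2 h3
  have key : ∀ i : Fin 4, i ≠ 1 → i ≠ 2 → s(o, z j i) ∈ L → False := by
    intro i hi1 hi2 h4
    have n1 : z j 1 ≠ z j 2 := fun hh => by
      have := (hC.inj _ _ _ _ hh).2
      exact absurd this (by decide)
    have n2 : z j 1 ≠ z j i := fun hh => hi1 (hC.inj _ _ _ _ hh).2.symm
    have n3 : z j 2 ≠ z j i := fun hh => hi2 (hC.inj _ _ _ _ hh).2.symm
    have := card_le_dg (M := L) (x := o) {z j 1, z j 2, z j i} (by
      intro y hy
      simp only [Finset.mem_insert, Finset.mem_singleton] at hy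
      rcases hy with rfl | rfl | rfl <;> assumption)
    rw [Finset.card_insert_of_notMem (by simp [n1, n2]),
      Finset.card_insert_of_notMem (by simp [n3]), Finset.card_singleton] at this
    have := h o ho
    omega
  rcases h3 with h3 | h3
  · exact key 0 (by decide) (by decide) h3
  · exact key 3 (by decide) (by decide) h3

theorem dg_nw_le {R : Finset V} {a b u v : V} (hab : a ≠ b) (hu : u ∈ R) (hv : v ∈ R)
    (ha : s(a, u) ∈ L) (hb : s(b, v) ∈ L) (x : V) : dg (nw L R a b) x ≤ dg L x := by
  classical
  rw [dg_nw]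
  have h1 := dg_outt_one hu ha
  have h2 := dg_outt_one hv hb
  have h3 := dg_le_of_le (outt_le R L) x
  split_ifs with h
  · rcases h with rfl | rfl <;> omega
  · omega

theorem Inv0.wire (h : Inv0 own c EB z slot J L O N) (hC : Cells c c' EB z slot)
    (hM : ENetX own c c' N) {R : Finset V} {a b u v : V} (hab : a ≠ b) (haR : a ∉ R)
    (hbR : b ∉ R) (hnf : ∀ x ∈ R, Nf c x) (hcl : ∀ x ∈ R, ∀ y, own x y → y ∈ R)
    (hmid : Mid own c u v) (hd : dg N u ≠ 0) (ha : Link own c N R a u) (hb : Link own c N R b v) :
    Inv0 own c EB z slot J (nw L R a b) (outt R O) (nw N R a b) := by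
  classical
  have hau : s(a, u) ∈ L := h.linkL hC hM hmid.1 ha fun X hX _ _ hXa => haR (hcl X hX a hXa)
  have hbv : s(b, v) ∈ L := h.linkL hC hM hmid.2.1 hb fun X hX _ _ hXa => hbR (hcl X hX b hXa)
  have hdeg := dg_nw_le (L := L) hab ha.mem hb.mem hau hbv
  have h1 : ∀ v, c v = 2 → dg (nw L R a b) v ≤ 2 := by
    rcases h.ph with h2 | h2
    · exact fun v hv => (hdeg v).trans (h2 v hv)
    · exact absurd (h2 u v hmid) hd
  exact
    { eq := by
        unfold nw
        rw [h.eq, ← add_assoc, Helper19.DN.outt_add, outt_sumZ hC hnf, Helper19.DN.outt_add,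
          Multiset.cons_add, Multiset.add_cons, Multiset.add_cons, add_assoc]
      exO := fun e he => h.exO e (Multiset.mem_of_le (outt_le R O) he)
      typ := fun x y he => h.typ x y (Multiset.mem_of_le (outt_le R O) he)
      slots := fun v hv => (hdeg v).trans (h.slots v hv)
      dead := fun j hj i => Nat.le_zero.mp ((hdeg _).trans (h.dead j hj i).le)
      ph := Or.inl h1
      tri := noTri_of_dg hC h1 }

theorem Inv0.rung (h : Inv0 own c EB z slot J L O N) (hC : Cells c c' EB z slot)
    {R : Finset V} {a b : V} (hnf : ∀ x ∈ R, Nf c x) (ha : c a = 2) (hb : c b = 2)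
    (hsa : Sees own c N R a) (hsb : Sees own c N R b) :
    Inv0 own c EB z slot J (outt R L) (s(a, b) ::ₘ outt R O) (nw N R a b) := by
  classical
  exact
    { eq := by
        unfold nw
        rw [h.eq, ← add_assoc, Helper19.DN.outt_add, outt_sumZ hC hnf, Helper19.DN.outt_add,
          Multiset.add_cons, Multiset.add_cons, Multiset.add_cons, add_assoc]
      exO := by
        intro e he v hv
        rcases Multiset.mem_cons.mp he with rfl | he
        · rw [Sym2.mem_iff] at hv
          rcases hv with rfl | rfl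
          · exact Or.inl ha
          · exact Or.inl hb
        · exact h.exO e (Multiset.mem_of_le (outt_le R O) he) v hv
      typ := by
        intro x y he
        rcases Multiset.mem_cons.mp he with he | he
        · rw [Sym2.eq_iff] at he
          rcases he with ⟨rfl, rfl⟩ | ⟨rfl, rfl⟩
          · exact Or.inr (Or.inr ⟨ha, hb⟩)
          · exact Or.inr (Or.inr ⟨hb, ha⟩)
        · exact h.typ x y (Multiset.mem_of_le (outt_le R O) he)
      slots := fun v hv => (dg_le_of_le (outt_le R L) v).trans (h.slots v hv)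
      dead := fun j hj i => Nat.le_zero.mp ((dg_le_of_le (outt_le R L) _).trans (h.dead j hj i).le)
      ph := h.ph.imp (fun h1 v hv => (dg_le_of_le (outt_le R L) v).trans (h1 v hv))
        (fun h1 => h1.nw hsa hsb)
      tri := h.tri.mono (outt_le R L) }

theorem Inv0.p5 (h : Inv0 own c EB z slot J L O N) (hC : Cells c c' EB z slot)
    (hM : ENetX own c c' N) (hNM : NoMid own c N) {R : Finset V} {s u w v t a : V}
    (hP : P5At own c N s u w v t a) (hBad : ¬ BadT z N s u w v t a) (haR : a ∉ R) (htR : t ∉ R)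
    (memR : ∀ x, x ∈ R ↔ x = u ∨ x = w ∨ x = s ∨ x = v) :
    Inv0 own c EB z slot J (nw L R a t) (outt R O) (nw N R a t) := by
  classical
  obtain ⟨hs, hu, hw, hv, ht, h1, h2, h3, h4, huv, hLu, hLw, ⟨b₀, hLv⟩, hat⟩ := hP
  have hnf : ∀ x ∈ R, Nf c x := by
    intro x hx
    rcases (memR x).mp hx with rfl | rfl | rfl | rfl
    exacts [Or.inr hu, Or.inr hw, Or.inl hs, Or.inr hv]
  have hsw : s ≠ w := by rintro rfl; omega
  have htw : t ≠ w := by rintro rfl; omega
  have haw : a ≠ w := fun h => haR ((memR a).mpr (Or.inr (Or.inl h)))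
  have has : a ≠ s := fun h => haR ((memR a).mpr (Or.inr (Or.inr (Or.inl h))))
  have hau0 : a ≠ u := fun h => haR ((memR a).mpr (Or.inl h))
  have hav : a ≠ v := fun h => haR ((memR a).mpr (Or.inr (Or.inr (Or.inr h))))
  have hla : Link own c N R a u :=
    { mem := by rw [memR]; tauto
      edge := mem_swap' hLu.mem3
      nown := by
        intro h
        rcases hM.two u s w a (hM.symm _ _ h1) h2 (hM.symm _ _ h) with h | h | h
        · exact hsw h
        · exact has h.symm
        · exact haw h.symm
      beh := by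
        intro X h _
        rw [memR]
        rcases hM.two u s w X (hM.symm _ _ h1) h2 (hM.symm _ _ h) with h | h | h
        · exact absurd h hsw
        · exact Or.inr (Or.inr (Or.inl h.symm))
        · exact Or.inr (Or.inl h.symm) }
  have hau : s(a, u) ∈ L := by
    refine h.linkL hC hM hu hla fun X hX hXu hX3 hXa => ?_
    rcases (memR X).mp hX with rfl | rfl | rfl | rfl
    · exact hM.irr _ hXu
    · rcases hM.two X u v a (hM.symm _ _ h2) h3 hXa with h | h | h
      · exact huv h
      · exact hau0 h.symm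
      · exact hav h.symm
    · omega
    · rcases hM.two X t w u h4 (hM.symm _ _ h3) hXu with h | h | h
      · exact htw h
      · rw [h] at ht; omega
      · rw [h] at h2; exact hM.irr _ h2
  have hsa : Sees own c N R a := Or.inl ⟨u, hla⟩
  have hvw : v ≠ w := by rintro rfl; exact hM.irr _ h3
  have hsb : Sees own c N R t := Or.inr ⟨ht, w, v, by rw [memR]; tauto, by rw [memR]; tauto,
    hvw.symm, mem_swap' hLw.mem4, mem_swap' hLv.mem1⟩
  have hdeg : ∀ x, x ≠ t → dg (nw L R a t) x ≤ dg L x := by
    intro x hx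
    rw [dg_nw]
    have h5 := dg_outt_one hla.mem hau
    have h6 := dg_le_of_le (outt_le R L) x
    split_ifs with h
    · rcases h with rfl | rfl
      · omega
      · exact absurd rfl hx
    · omega
  have hne : ∀ x, ¬ Nf c x → x ≠ t := by
    rintro x hx rfl
    exact hx (Or.inl ht)
  have hzt : ∀ j i, z j i ≠ t := fun j i => hne _ (hC.ex j i)
  exact
    { eq := by
        unfold nw
        rw [h.eq, ← add_assoc, Helper19.DN.outt_add, outt_sumZ hC hnf, Helper19.DN.outt_add,
          Multiset.cons_add, Multiset.add_cons, Multiset.add_cons, add_assoc]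
      exO := fun e he => h.exO e (Multiset.mem_of_le (outt_le R O) he)
      typ := fun x y he => h.typ x y (Multiset.mem_of_le (outt_le R O) he)
      slots := fun v hv => (hdeg v (hne v hv)).trans (h.slots v hv)
      dead := fun j hj i => Nat.le_zero.mp ((hdeg _ (hzt j i)).trans (h.dead j hj i).le)
      ph := Or.inr (hNM.nw hsa hsb)
      tri := by
        intro o j ho e1 e2 e3
        have mem : ∀ i, s(o, z j i) ∈ nw L R a t → o ≠ t → s(o, z j i) ∈ L := by
          intro i hi hot
          rcases Multiset.mem_cons.mp hi with hi | hi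
          · rw [Sym2.eq_iff] at hi
            rcases hi with ⟨_, hi⟩ | ⟨hi, _⟩
            · exact absurd hi (hzt j i)
            · exact absurd hi hot
          · exact Multiset.mem_of_le (outt_le _ _) hi
        by_cases hot : o = t
        · subst hot
          have see : ∀ i, s(o, z j i) ∈ nw L R a o → See N a o (z j i) := by
            intro i hi
            rcases Multiset.mem_cons.mp hi with hi | hi
            · rw [Sym2.eq_iff] at hi
              rcases hi with ⟨_, hi⟩ | ⟨_, hi⟩
              · exact absurd hi (hzt j i)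
              · exact Or.inr hi
            · exact Or.inl (Multiset.mem_of_le h.subL (Multiset.mem_of_le (outt_le _ _) hi))
          exact hBad ⟨j, see 1 e1, see 2 e2, e3.imp (see 0) (see 3)⟩
        · exact h.tri o j ho (mem 1 e1 hot) (mem 2 e2 hot)
            (e3.imp (fun h => mem 0 h hot) (fun h => mem 3 h hot)) }

theorem ivC_LO (hC : Cells c c' EB z slot) : IvC own c c' (InvLO own c EB z slot) where
  out := by
    rintro M A hA ⟨J, L, O, h⟩
    exact ⟨J, _, _, h.ou hC hA⟩
  wire := by
    rintro M R a b u v hM ⟨J, L, O, h⟩ hab haR hbR hnf hcl hmid hd ha hb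
    exact ⟨J, _, _, h.wire hC hM hab haR hbR hnf hcl hmid hd ha hb⟩
  rung := by
    rintro M R a b hM ⟨J, L, O, h⟩ hab haR hbR hnf ha hb _ _ ⟨p, q, p1, p2, p3, p4, p5, p6, p7, p8⟩
      ⟨p', q', p1', p2', p3', p4', p5', p6', p7', p8'⟩
    have n1 : p ≠ q := by rintro rfl; exact hM.irr _ p4
    have n2 : p' ≠ q' := by rintro rfl; exact hM.irr _ p4'
    exact ⟨J, _, _, h.rung hC hnf ha hb (Or.inr ⟨ha, p, q, p1, p2, n1, p7, p8⟩)
      (Or.inr ⟨hb, p', q', p1', p2', n2, p7', p8'⟩)⟩

end Helper42.L9
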