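import Pool.Agent.helper42.L9.EX11

/-!
# E-phase with exempt vertices: removal of cells
-/

set_option linter.unusedSimpArgs false
set_option linter.unusedVariables false

namespace Helper42.L9

open Finset Helper33.L9
open Helper19.DN (EZ TE slZ cZ tZ img mem_img)

variable {V : Type*} {own : V → V → Prop} {c c' : V → ℕ} {M N L O : Multiset (Sym2 V)} {n k : ℕ}
  {EB : Multiset (Sym2 V)} {z : Fin k → Fin 4 → V} {slot : V → ℕ} {J : Finset (Fin k)}

theorem ne_nf {x y : V} (hx : Nf c x) (hy : ¬ Nf c y) : x ≠ y := fun h => hy (h ▸ hx)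

theorem outt_sum (A : Finset V) (J : Finset (Fin k)) (g : Fin k → Multiset (Sym2 V)) :
    outt A (∑ j ∈ J, g j) = ∑ j ∈ J, outt A (g j) := by
  classical
  induction J using Finset.induction_on with
  | empty => simp [outt]
  | insert a s ha ih => rw [Finset.sum_insert ha, Finset.sum_insert ha, Helper19.DN.outt_add, ih]

/-- removal of the cells `K` and of vertices which are not exempt -/
theorem Inv0.rem (h : Inv0 own c EB z slot J L O N) (hC : Cells c c' EB z slot)
    {A : Finset V} {K : Finset (Fin k)} (hA : ∀ x ∈ A, Nf c x ∨ ∃ j ∈ K, ∃ i, z j i = x)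
    (hK : ∀ j ∈ K, ∀ i, z j i ∈ A) :
    Inv0 own c EB z slot (J \ K) (outt A L) (outt A O) (outt A N) where
  eq := by
    rw [h.eq, Helper19.DN.outt_add, Helper19.DN.outt_add, Helper19.DN.outt_add, outt_sum]
    have e1 : outt A EB = EB := by
      refine Helper19.DN.outt_keep fun e he v hv hvA => ?_
      rcases hA v hvA with h1 | ⟨j, _, i, rfl⟩
      · exact hC.eb e he v hv h1
      · exact Helper19.DN.notMem_of_dg (hC.ebz j i) e he hv
    have e2 : ∑ j ∈ J, outt A (emb (z j) EZ) = ∑ j ∈ J \ K, emb (z j) EZ := by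
      rw [← Finset.sum_sdiff (Finset.inter_subset_left : J ∩ K ⊆ J)]
      have e3 : ∑ j ∈ J ∩ K, outt A (emb (z j) EZ) = 0 := by
        refine Finset.sum_eq_zero fun j hj => ?_
        refine Helper19.DN.outt_none fun e he => ?_
        obtain ⟨p, _, rfl⟩ := mem_emb.mp he
        exact ⟨z j p.1, Sym2.mem_mk_left _ _, hK j (Finset.mem_inter.mp hj).2 _⟩
      rw [e3, add_zero, Finset.sdiff_inter_self_left]
      refine Finset.sum_congr rfl fun j hj => ?_
      refine Helper19.DN.outt_keep fun e he v hv hvA => ?_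
      obtain ⟨p, _, rfl⟩ := mem_emb.mp he
      have hjK : j ∉ K := (Finset.mem_sdiff.mp hj).2
      have key : ∀ i, z j i ∉ A := by
        intro i hi
        rcases hA _ hi with h1 | ⟨j', hj', i', h1⟩
        · exact hC.ex j i h1
        · exact hjK ((hC.inj _ _ _ _ h1).1 ▸ hj')
      rw [Sym2.mem_iff] at hv
      rcases hv with rfl | rfl
      · exact key _ hvA
      · exact key _ hvA
    rw [e1, e2]
  exO := fun e he => h.exO e (Multiset.mem_of_le (outt_le A O) he)
  typ := fun x y he => h.typ x y (Multiset.mem_of_le (outt_le A O) he)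
  slots := fun v hv => (dg_le_of_le (outt_le A L) v).trans (h.slots v hv)
  dead := by
    intro j hj i
    by_cases hjJ : j ∈ J
    · have hjK : j ∈ K := by
        by_contra hh
        exact hj (Finset.mem_sdiff.mpr ⟨hjJ, hh⟩)
      exact dg_outt_mem (hK j hjK i)
    · exact Nat.le_zero.mp ((dg_le_of_le (outt_le A L) _).trans (h.dead j hjJ i).le)
  ph := h.ph.imp (fun h1 v hv => (dg_le_of_le (outt_le A L) v).trans (h1 v hv))
    (fun h1 => h1.ou A)
  tri := h.tri.mono (outt_le A L)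

/-- a cell in the multigraph -/
structure Cell (c c' : V → ℕ) (N : Multiset (Sym2 V)) (f : Fin 4 → V) : Prop where
  inj : Function.Injective f
  ex : ∀ i, ¬ Nf c (f i)
  cap : ∀ i, cZ i ≤ c' (f i)
  m01 : s(f 0, f 1) ∈ N
  m02 : s(f 0, f 2) ∈ N
  m12 : s(f 1, f 2) ∈ N
  m13 : s(f 1, f 3) ∈ N
  m23 : s(f 2, f 3) ∈ N
  deg : ∀ i, dg N (f i) ≤ tZ i

theorem Inv0.cell (h : Inv0 own c EB z slot J L O N) (hC : Cells c c' EB z slot) {j : Fin k}
    (hj : j ∈ J) : Cell c c' N (z j) := by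
  classical
  have hinj : Function.Injective (z j) := fun i i' hh => (hC.inj _ _ _ _ hh).2
  have hsub : ∀ e ∈ emb (z j) EZ, e ∈ N := by
    intro e he
    rw [h.eq]
    exact Multiset.mem_add.mpr (Or.inr (Multiset.mem_add.mpr (Or.inl (mem_sumZ.mpr ⟨j, hj, he⟩))))
  have hm : ∀ p ∈ EZ, s(z j p.1, z j p.2) ∈ N := fun p hp => hsub _ (mem_emb.mpr ⟨p, hp, rfl⟩)
  refine
    { inj := hinj
      ex := hC.ex j
      cap := hC.cap j
      m01 := hm (0, 1) (by decide)
      m02 := hm (0, 2) (by decide)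
      m12 := hm (1, 2) (by decide)
      m13 := hm (1, 3) (by decide)
      m23 := hm (2, 3) (by decide)
      deg := ?_ }
  intro i
  have e1 : ∑ j' ∈ J, emb (z j') EZ = emb (z j) EZ + ∑ j' ∈ J.erase j, emb (z j') EZ :=
    (Finset.add_sum_erase J _ hj).symm
  have e2 : dg (∑ j' ∈ J.erase j, emb (z j') EZ) (z j i) = 0 := by
    refine Helper19.DN.dg_zero fun e he hv => ?_
    obtain ⟨j', hj', he⟩ := mem_sumZ.mp he
    obtain ⟨p, _, rfl⟩ := mem_emb.mp he
    rw [Sym2.mem_iff] at hv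
    rcases hv with hv | hv
    · exact (Finset.mem_erase.mp hj').1 (hC.inj _ _ _ _ hv).1.symm
    · exact (Finset.mem_erase.mp hj').1 (hC.inj _ _ _ _ hv).1.symm
  have e3 : dg O (z j i) = 0 :=
    Helper19.DN.dg_zero fun e he hv => hC.ex j i (h.exO e he _ hv)
  have e4 := h.slots _ (hC.ex j i)
  have e5 := hC.slz j i
  have e6 : ∀ i, cnt EZ i + slZ i ≤ tZ i := by decide
  have e7 := e6 i
  rw [h.eq, dg_add, dg_add, dg_add, hC.ebz, e1, dg_add, e2, e3, dg_emb hinj]
  omega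

def sw12 : Fin 4 → Fin 4 := ![0, 2, 1, 3]

theorem Cell.swap {f : Fin 4 → V} (h : Cell c c' N f) : Cell c c' N (f ∘ sw12) where
  inj := h.inj.comp (by decide)
  ex := fun i => h.ex _
  cap := by
    have key : ∀ i, cZ i ≤ cZ (sw12 i) := by decide
    intro i
    exact (key i).trans (h.cap (sw12 i))
  m01 := h.m02
  m02 := h.m01
  m12 := mem_swap' h.m12
  m13 := h.m23
  m23 := h.m13
  deg := by
    have key : ∀ i, tZ (sw12 i) ≤ tZ i := by decide
    intro i
    exact (h.deg (sw12 i)).trans (key i)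

/-- the shapes of a triple -/
inductive TCase (N : Multiset (Sym2 V)) (t a : V) (f : Fin 4 → V) : Prop
  | A1 : s(t, f 1) ∈ N → s(t, f 2) ∈ N → a = f 0 → TCase N t a f
  | A2 : s(t, f 1) ∈ N → s(t, f 0) ∈ N → a = f 2 → TCase N t a f
  | Q1 : s(t, f 1) ∈ N → s(t, f 2) ∈ N → a = f 3 → TCase N t a f
  | Q2 : s(t, f 1) ∈ N → s(t, f 3) ∈ N → a = f 2 → TCase N t a f

theorem Inv0.cases (h : Inv0 own c EB z slot J L O N) (hC : Cells c c' EB z slot)
    {s u w v t a : V} (ht : c t = 2) (hB : BadT z N s u w v t a) :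
    ∃ j ∈ J, ∃ f : Fin 4 → V, (f = z j ∨ f = z j ∘ sw12) ∧ Cell c c' N f ∧ TCase N t a f := by
  classical
  obtain ⟨j, h1, h2, h3⟩ := hB
  have hL : ∀ i, s(t, z j i) ∈ N → s(t, z j i) ∈ L := fun i hi =>
    h.memL hC (Or.inl ht) (hC.ex j i) hi
  have hJ : ∀ i, s(t, z j i) ∈ N → j ∈ J := by
    intro i hi
    by_contra hj
    exact (dg_pos (hL i hi)).2 (h.dead j hj i)
  have hne : ∀ {i i' : Fin 4}, i ≠ i' → z j i = a → z j i' ≠ a := by
    intro i i' hii h5 h6
    exact hii (hC.inj _ _ _ _ (h5.trans h6.symm)).2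
  have get : ∀ {i}, See N a t (z j i) → z j i ≠ a → s(t, z j i) ∈ N := by
    intro i h5 h6
    exact h5.resolve_right h6
  by_cases c1 : z j 1 = a
  · have m2 := get h2 (hne (by decide) c1)
    refine ⟨j, hJ 2 m2, z j ∘ sw12, Or.inr rfl, (h.cell hC (hJ 2 m2)).swap, ?_⟩
    rcases h3 with h3 | h3
    · exact TCase.A2 m2 (get h3 (hne (by decide) c1)) c1.symm
    · exact TCase.Q2 m2 (get h3 (hne (by decide) c1)) c1.symm
  by_cases c2 : z j 2 = a
  · have m1 := get h1 c1
    refine ⟨j, hJ 1 m1, z j, Or.inl rfl, h.cell hC (hJ 1 m1), ?_⟩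
    rcases h3 with h3 | h3
    · exact TCase.A2 m1 (get h3 (hne (by decide) c2)) c2.symm
    · exact TCase.Q2 m1 (get h3 (hne (by decide) c2)) c2.symm
  have m1 := get h1 c1
  have m2 := get h2 c2
  refine ⟨j, hJ 1 m1, z j, Or.inl rfl, h.cell hC (hJ 1 m1), ?_⟩
  rcases h3 with h3 | h3
  · by_cases c3 : z j 0 = a
    · exact TCase.A1 m1 m2 c3.symm
    · exact (h.tri t j ht (hL 1 m1) (hL 2 m2) (Or.inl (hL 0 (get h3 c3)))).elim
  · by_cases c3 : z j 3 = a
    · exact TCase.Q1 m1 m2 c3.symm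
    · exact (h.tri t j ht (hL 1 m1) (hL 2 m2) (Or.inr (hL 3 (get h3 c3)))).elim

theorem range_sw (f : Fin 4 → V) (x : V) : (∃ i, (f ∘ sw12) i = x) ↔ ∃ i, f i = x := by
  constructor
  · rintro ⟨i, rfl⟩
    exact ⟨_, rfl⟩
  · rintro ⟨i, rfl⟩
    have : ∃ i', sw12 i' = i := by revert i; decide
    obtain ⟨i', rfl⟩ := this
    exact ⟨i', rfl⟩

/-- the facts about a `P_5` which are used by the blocks -/
structure P5F (c c' : V → ℕ) (N : Multiset (Sym2 V)) (s u w v t a b : V) : Prop where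
  ne : [s, u, w, v, t].Nodup
  hs : Nf c s
  hu : Nf c u
  hw : Nf c w
  hv : Nf c v
  ht : Nf c t
  cs : 2 ≤ c' s
  cu : 3 ≤ c' u
  cw : 3 ≤ c' w
  cv : 3 ≤ c' v
  ct : 2 ≤ c' t
  ds : dg N s ≤ 4
  du : dg N u ≤ 4
  dw : dg N w ≤ 4
  dv : dg N v ≤ 4
  dt : dg N t ≤ 4
  su : s(s, u) ∈ N
  uw : s(u, w) ∈ N
  wv : s(w, v) ∈ N
  vt : s(v, t) ∈ N
  sw : s(s, w) ∈ N
  uv : s(u, v) ∈ N
  wt : s(w, t) ∈ N
  ua : s(u, a) ∈ N
  vb : s(v, b) ∈ N

theorem P5At.facts (hM : ENetX own c c' N) {s u w v t a b : V} (hP : P5At own c N s u w v t a)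
    (hLv : LocAt own c N v t w b u) : P5F c c' N s u w v t a b := by
  obtain ⟨hs, hu, hw, hv, ht, h1, h2, h3, h4, huv, hLu, hLw, _, hat⟩ := hP
  have hsv : s ≠ v := by rintro rfl; omega
  have hsu : s ≠ u := by rintro rfl; omega
  have hsw : s ≠ w := by rintro rfl; omega
  have htu : t ≠ u := by rintro rfl; omega
  have htv : t ≠ v := by rintro rfl; omega
  have htw : t ≠ w := by rintro rfl; omega
  have huw : u ≠ w := by rintro rfl; exact hM.irr _ h2
  have hvw : v ≠ w := by rintro rfl; exact hM.irr _ h3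
  have hst : s ≠ t := by
    rintro rfl
    exact huv (hM.oneE s u v hs h1 (hM.symm _ _ h4))
  exact
    { ne := by
        simp only [List.nodup_cons, List.mem_cons, List.not_mem_nil, or_false, not_or,
          List.nodup_nil, and_true, not_false_eq_true]
        exact ⟨⟨hsu, hsw, hsv, hst⟩, ⟨huw, huv, htu.symm⟩, ⟨hvw.symm, htw.symm⟩, htv.symm⟩
      hs := Or.inl hs
      hu := Or.inr hu
      hw := Or.inr hw
      hv := Or.inr hv
      ht := Or.inl ht
      cs := hM.cap2 hs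
      cu := hM.cap3 hu
      cw := hM.cap3 hw
      cv := hM.cap3 hv
      ct := hM.cap2 ht
      ds := hM.le4' (Or.inl hs)
      du := hM.le4' (Or.inr hu)
      dw := hM.le4' (Or.inr hw)
      dv := hM.le4' (Or.inr hv)
      dt := hM.le4' (Or.inl ht)
      su := mem_swap' hLu.mem1
      uw := hLu.mem2
      wv := hLw.mem2
      vt := hLv.mem1
      sw := mem_swap' hLw.mem3
      uv := hLu.mem4
      wt := hLw.mem4
      ua := hLu.mem3
      vb := hLv.mem3 }

theorem P5F.mirror {s u w v t a b : V} (h : P5F c c' N s u w v t a b) :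
    P5F c c' N t v w u s b a where
  ne := by
    have := h.ne
    simp only [List.nodup_cons, List.mem_cons, List.not_mem_nil, or_false, not_or,
      List.nodup_nil, and_true, not_false_eq_true] at this ⊢
    obtain ⟨⟨h1, h2, h3, h4⟩, ⟨h5, h6, h7⟩, ⟨h8, h9⟩, h10⟩ := this
    exact ⟨⟨Ne.symm h10, Ne.symm h9, Ne.symm h7, Ne.symm h4⟩, ⟨Ne.symm h8, Ne.symm h6,
      Ne.symm h3⟩, ⟨Ne.symm h5, Ne.symm h2⟩, Ne.symm h1⟩
  hs := h.ht
  hu := h.hv
  hw := h.hw
  hv := h.hu
  ht := h.hs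
  cs := h.ct
  cu := h.cv
  cw := h.cw
  cv := h.cu
  ct := h.cs
  ds := h.dt
  du := h.dv
  dw := h.dw
  dv := h.du
  dt := h.ds
  su := mem_swap' h.vt
  uw := mem_swap' h.wv
  wv := mem_swap' h.uw
  vt := mem_swap' h.su
  sw := mem_swap' h.wt
  uv := mem_swap' h.uv
  wt := mem_swap' h.sw
  ua := h.vb
  vb := h.ua

end Helper42.L9
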