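import Pool.Agent.helper42.L9.EX12

/-!
# E-phase with exempt vertices: kills at a `P_5` with a triple
-/

set_option linter.unusedSimpArgs false
set_option linter.unusedVariables false

namespace Helper42.L9

open Finset Helper33.L9
open Helper19.DN (EZ TE slZ cZ tZ img mem_img)

variable {V : Type*} {own : V → V → Prop} {c c' : V → ℕ} {M N L O : Multiset (Sym2 V)} {n k : ℕ}
  {EB : Multiset (Sym2 V)} {z : Fin k → Fin 4 → V} {slot : V → ℕ} {J : Finset (Fin k)}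

theorem peelQ (hl : ∀ e ∈ N, ¬ e.IsDiag) (A : Finset V) [DecidableEq V] {Q x y : V}
    (hx : x ∈ A) (hy : y ∈ A)
    (hxy : x ≠ y) (h1 : s(x, Q) ∈ N) (h2 : s(y, Q) ∈ N) (hd : dg N Q ≤ 4) (hc : 2 ≤ c' Q)
    (h : AT (outt (A ∪ {Q}) N) c') : AT (outt A N) c' := by
  have h3 := dg_outt_two hx hy hxy (mem_swap' h1) (mem_swap' h2)
  refine AT.peel Q _ c' (fun e he => hl e (Multiset.mem_of_le (outt_le _ _) he)) (by omega) ?_
  rw [outt_outt]
  exact h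

/-- distinctness facts -/
theorem P5F.nes {s u w v t a b : V} (h : P5F c c' N s u w v t a b) :
    s ≠ u ∧ s ≠ w ∧ s ≠ v ∧ s ≠ t ∧ u ≠ w ∧ u ≠ v ∧ u ≠ t ∧ w ≠ v ∧ w ≠ t ∧ v ≠ t := by
  have := h.ne
  simp only [List.nodup_cons, List.mem_cons, List.not_mem_nil, or_false, not_or,
    List.nodup_nil, and_true, not_false_eq_true] at this
  obtain ⟨⟨h1, h2, h3, h4⟩, ⟨h5, h6, h7⟩, ⟨h8, h9⟩, h10⟩ := this
  exact ⟨h1, h2, h3, h4, h5, h6, h7, h8, h9, h10⟩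

theorem Cell.nes {f : Fin 4 → V} (h : Cell c c' N f) :
    f 0 ≠ f 1 ∧ f 0 ≠ f 2 ∧ f 0 ≠ f 3 ∧ f 1 ≠ f 2 ∧ f 1 ≠ f 3 ∧ f 2 ≠ f 3 :=
  ⟨fun hh => absurd (h.inj hh) (by decide), fun hh => absurd (h.inj hh) (by decide),
    fun hh => absurd (h.inj hh) (by decide), fun hh => absurd (h.inj hh) (by decide),
    fun hh => absurd (h.inj hh) (by decide), fun hh => absurd (h.inj hh) (by decide)⟩

theorem Cell.c0 {f : Fin 4 → V} (h : Cell c c' N f) : 2 ≤ c' (f 0) := h.cap 0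
theorem Cell.c1 {f : Fin 4 → V} (h : Cell c c' N f) : 3 ≤ c' (f 1) := h.cap 1
theorem Cell.c2 {f : Fin 4 → V} (h : Cell c c' N f) : 3 ≤ c' (f 2) := h.cap 2
theorem Cell.c3 {f : Fin 4 → V} (h : Cell c c' N f) : 2 ≤ c' (f 3) := h.cap 3
theorem Cell.d0 {f : Fin 4 → V} (h : Cell c c' N f) : dg N (f 0) ≤ 3 := h.deg 0
theorem Cell.d1 {f : Fin 4 → V} (h : Cell c c' N f) : dg N (f 1) ≤ 4 := h.deg 1
theorem Cell.d2 {f : Fin 4 → V} (h : Cell c c' N f) : dg N (f 2) ≤ 4 := h.deg 2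
theorem Cell.d3 {f : Fin 4 → V} (h : Cell c c' N f) : dg N (f 3) ≤ 4 := h.deg 3

theorem nd9 {s u w v t a b : V} {f : Fin 4 → V} (hP : P5F c c' N s u w v t a b)
    (hf : Cell c c' N f) : [s, u, w, v, t, f 0, f 1, f 2, f 3].Nodup := by
  refine List.Nodup.append (l₁ := [s, u, w, v, t]) (l₂ := [f 0, f 1, f 2, f 3]) hP.ne ?_ ?_
  · obtain ⟨h1, h2, h3, h4, h5, h6⟩ := hf.nes
    simp only [List.nodup_cons, List.mem_cons, List.not_mem_nil, or_false, not_or,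
      List.nodup_nil, and_true, not_false_eq_true]
    exact ⟨⟨h1, h2, h3⟩, ⟨h4, h5⟩, h6⟩
  · intro x hx hy
    have hx' : Nf c x := by
      simp only [List.mem_cons, List.not_mem_nil, or_false] at hx
      rcases hx with rfl | rfl | rfl | rfl | rfl
      exacts [hP.hs, hP.hu, hP.hw, hP.hv, hP.ht]
    simp only [List.mem_cons, List.not_mem_nil, or_false] at hy
    rcases hy with rfl | rfl | rfl | rfl
    exacts [hf.ex _ hx', hf.ex _ hx', hf.ex _ hx', hf.ex _ hx']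

/-- the triple `u v q`, first shape -/
theorem kill_q1 (hl : ∀ e ∈ N, ¬ e.IsDiag) {s u w v t b : V} {f : Fin 4 → V}
    (hP : P5F c c' N s u w v t (f 3) b) (hf : Cell c c' N f) (h1 : s(t, f 1) ∈ N)
    (h2 : s(t, f 2) ∈ N)
    (hout : ∀ A : Finset V, (∀ x, x ∈ A ↔ x ∈ [s, u, w, v, t, f 0, f 1, f 2, f 3]) →
      AT (outt A N) c') : AT N c' := by
  have hn := nd9 hP hf
  have hinj := List.nodup_iff_injective_get.mp hn
  refine AT.killM (n := 9) ([s, u, w, v, t, f 0, f 1, f 2, f 3].get) hinj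
    [2, 3, 3, 3, 2, 2, 3, 3, 2] (by decide) ?_ [2, 0, 0, 1, 0, 1, 0, 0, 1]
    [(0, 1), (1, 2), (2, 3), (3, 4), (0, 2), (1, 3), (2, 4), (5, 6), (6, 7), (7, 8), (5, 7),
      (6, 8), (4, 6), (4, 7), (1, 8)] _ (by rfl) (by decide) ?_ ?_ hl chk_q1 (hout _ ?_)
  · intro i
    fin_cases i
    exacts [hP.cs, hP.cu, hP.cw, hP.cv, hP.ct, hf.c0, hf.c1, hf.c2, hf.c3]
  · intro p hp
    simp only [List.mem_cons, List.not_mem_nil, or_false] at hp
    rcases hp with rfl | rfl | rfl | rfl | rfl | rfl | rfl | rfl | rfl | rfl | rfl | rfl | rfl |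
      rfl | rfl
    exacts [hP.su, hP.uw, hP.wv, hP.vt, hP.sw, hP.uv, hP.wt, hf.m01, hf.m12, hf.m23, hf.m02,
      hf.m13, h1, h2, hP.ua]
  · intro i
    fin_cases i
    exacts [hP.ds, hP.du, hP.dw, hP.dv, hP.dt, hf.d0, hf.d1, hf.d2, hf.d3]
  · intro x
    rw [mem_img]
    constructor
    · rintro ⟨i, rfl⟩
      exact List.get_mem _ _
    · intro hx
      obtain ⟨i, hi⟩ := List.mem_iff_get.mp hx
      exact ⟨i, hi⟩

/-- the triple `u v q`, second shape -/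
theorem kill_q2 (hl : ∀ e ∈ N, ¬ e.IsDiag) {s u w v t b : V} {f : Fin 4 → V}
    (hP : P5F c c' N s u w v t (f 2) b) (hf : Cell c c' N f) (h1 : s(t, f 1) ∈ N)
    (h2 : s(t, f 3) ∈ N)
    (hout : ∀ A : Finset V, (∀ x, x ∈ A ↔ x ∈ [s, u, w, v, t, f 0, f 1, f 2, f 3]) →
      AT (outt A N) c') : AT N c' := by
  have hn := nd9 hP hf
  have hinj := List.nodup_iff_injective_get.mp hn
  refine AT.killM (n := 9) ([s, u, w, v, t, f 0, f 1, f 2, f 3].get) hinj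
    [2, 3, 3, 3, 2, 2, 3, 3, 2] (by decide) ?_ [2, 0, 0, 1, 0, 1, 0, 0, 1]
    [(0, 1), (1, 2), (2, 3), (3, 4), (0, 2), (1, 3), (2, 4), (5, 6), (6, 7), (7, 8), (5, 7),
      (6, 8), (4, 6), (4, 8), (1, 7)] _ (by rfl) (by decide) ?_ ?_ hl chk_q2 (hout _ ?_)
  · intro i
    fin_cases i
    exacts [hP.cs, hP.cu, hP.cw, hP.cv, hP.ct, hf.c0, hf.c1, hf.c2, hf.c3]
  · intro p hp
    simp only [List.mem_cons, List.not_mem_nil, or_false] at hp
    rcases hp with rfl | rfl | rfl | rfl | rfl | rfl | rfl | rfl | rfl | rfl | rfl | rfl | rfl |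
      rfl | rfl
    exacts [hP.su, hP.uw, hP.wv, hP.vt, hP.sw, hP.uv, hP.wt, hf.m01, hf.m12, hf.m23, hf.m02,
      hf.m13, h1, h2, hP.ua]
  · intro i
    fin_cases i
    exacts [hP.ds, hP.du, hP.dw, hP.dv, hP.dt, hf.d0, hf.d1, hf.d2, hf.d3]
  · intro x
    rw [mem_img]
    constructor
    · rintro ⟨i, rfl⟩
      exact List.get_mem _ _
    · intro hx
      obtain ⟨i, hi⟩ := List.mem_iff_get.mp hx
      exact ⟨i, hi⟩

end Helper42.L9
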