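import Pool.Agent.helper42.L9.EX13

/-!
# E-phase with exempt vertices: kills at a `P_5` with a triple `u v p`
-/

set_option linter.unusedSimpArgs false
set_option linter.unusedVariables false

namespace Helper42.L9

open Finset Helper33.L9
open Helper19.DN (EZ TE slZ cZ tZ img mem_img)

variable {V : Type*} {own : V → V → Prop} {c c' : V → ℕ} {M N L O : Multiset (Sym2 V)} {n k : ℕ}
  {EB : Multiset (Sym2 V)} {z : Fin k → Fin 4 → V} {slot : V → ℕ} {J : Finset (Fin k)}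

/-- triangle type `A1` or `A2` of a cell at the port neighbour `a` and the end `t` -/
structure Tri3 (N : Multiset (Sym2 V)) (t a : V) (f : Fin 4 → V) (i j l : Fin 4) : Prop where
  ha : a = f i
  tp : s(t, f j) ∈ N
  tq : s(t, f l) ∈ N

theorem kill_cA1 (hl : ∀ e ∈ N, ¬ e.IsDiag) {s u w v t : V} {f : Fin 4 → V}
    (hP : P5F c c' N t v w u s s (f 0)) (hf : Cell c c' N f) (h1 : s(t, f 1) ∈ N) (h2 : s(t, f 2) ∈ N)
    (hout : ∀ B : Finset V, (∀ x ∈ B, Nf c x ∨ ∃ i, f i = x) → (∀ i, f i ∈ B) → t ∈ B →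
      AT (outt B N) c') : AT N c' := by
  classical
  obtain ⟨n1, n2, n3, n4, n5, n6, n7, n8, n9, n10⟩ := hP.nes
  obtain ⟨k1, k2, k3, k4, k5, k6⟩ := hf.nes
  have w1 := hP.hs
  have w2 := hP.hu
  have w3 := hP.hw
  have w4 := hP.hv
  have w5 := hP.ht
  have x0 := hf.ex 0
  have x1 := hf.ex 1
  have x2 := hf.ex 2
  have x3 := hf.ex 3
  refine AT.kcA1 (v1 := t) (v2 := v) (v3 := w) (v4 := u) (v5 := s) (b := f 0) (x := f 1)
    (y := f 2) (Q := f 3) (by
      simp only [List.nodup_cons, List.mem_cons, List.not_mem_nil, or_false, not_or,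
        List.nodup_nil, and_true, not_false_eq_true]
      and_intros
      all_goals first
        | assumption
        | (apply Ne.symm; assumption)
        | exact ne_nf (by assumption) (by assumption)
        | exact (ne_nf (by assumption) (by assumption)).symm) hl hP.su hP.sw hP.uw hP.uv hP.wv hP.wt hP.vt hP.ua hP.vb h1 h2
    hf.m01 hf.m02 hf.m12 hf.m13 hf.m23
    hP.ds hP.cs hP.du hP.cu hP.dw hP.cw hP.dv hP.cv hP.dt hP.ct hf.d0 hf.c0 hf.d1 hf.c1 hf.d2 hf.c2 ?_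
  intro A hA
  have m : ∀ x, x ∈ [t, v, w, u, s, f 0, f 1, f 2] → x ∈ A := fun x => (hA x).mpr
  refine peelQ hl A (Q := f 3) (x := f 1) (y := f 2) (m _ (by simp)) (m _ (by simp)) k4
    hf.m13 hf.m23 hf.d3 hf.c3 (hout _ ?_ ?_ ?_)
  · intro x hx
    rcases Finset.mem_union.mp hx with hx | hx
    · have hx := (hA x).mp hx
      simp only [List.mem_cons, List.not_mem_nil, or_false] at hx
      rcases hx with rfl | rfl | rfl | rfl | rfl | rfl | rfl | rfl
      exacts [Or.inl w1, Or.inl w2, Or.inl w3, Or.inl w4, Or.inl w5, Or.inr ⟨_, rfl⟩,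
        Or.inr ⟨_, rfl⟩, Or.inr ⟨_, rfl⟩]
    · rw [Finset.mem_singleton] at hx
      exact Or.inr ⟨3, hx.symm⟩
  · intro i
    rw [Finset.mem_union]
    fin_cases i
    exacts [Or.inl (m _ (by simp)), Or.inl (m _ (by simp)), Or.inl (m _ (by simp)),
      Or.inr (by simp)]
  · exact Finset.mem_union_left _ (m _ (by simp))

theorem kill_cA2 (hl : ∀ e ∈ N, ¬ e.IsDiag) {s u w v t : V} {f : Fin 4 → V}
    (hP : P5F c c' N t v w u s s (f 2)) (hf : Cell c c' N f) (h1 : s(t, f 1) ∈ N) (h2 : s(t, f 0) ∈ N)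
    (hout : ∀ B : Finset V, (∀ x ∈ B, Nf c x ∨ ∃ i, f i = x) → (∀ i, f i ∈ B) → t ∈ B →
      AT (outt B N) c') : AT N c' := by
  classical
  obtain ⟨n1, n2, n3, n4, n5, n6, n7, n8, n9, n10⟩ := hP.nes
  obtain ⟨k1, k2, k3, k4, k5, k6⟩ := hf.nes
  have w1 := hP.hs
  have w2 := hP.hu
  have w3 := hP.hw
  have w4 := hP.hv
  have w5 := hP.ht
  have x0 := hf.ex 0
  have x1 := hf.ex 1
  have x2 := hf.ex 2
  have x3 := hf.ex 3
  refine AT.kcA2 (v1 := t) (v2 := v) (v3 := w) (v4 := u) (v5 := s) (b := f 2) (x := f 1)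
    (y := f 0) (Q := f 3) (by
      simp only [List.nodup_cons, List.mem_cons, List.not_mem_nil, or_false, not_or,
        List.nodup_nil, and_true, not_false_eq_true]
      and_intros
      all_goals first
        | assumption
        | (apply Ne.symm; assumption)
        | exact ne_nf (by assumption) (by assumption)
        | exact (ne_nf (by assumption) (by assumption)).symm) hl hP.su hP.sw hP.uw hP.uv hP.wv hP.wt hP.vt hP.ua hP.vb h1 h2
    (mem_swap' hf.m12) (mem_swap' hf.m02) (mem_swap' hf.m01) hf.m23 hf.m13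
    hP.ds hP.cs hP.du hP.cu hP.dw hP.cw hP.dv hP.cv hP.dt hP.ct hf.d2 hf.c2 hf.d1 hf.c1 hf.d0 hf.c0 ?_
  intro A hA
  have m : ∀ x, x ∈ [t, v, w, u, s, f 2, f 1, f 0] → x ∈ A := fun x => (hA x).mpr
  refine peelQ hl A (Q := f 3) (x := f 1) (y := f 2) (m _ (by simp)) (m _ (by simp)) k4
    hf.m13 hf.m23 hf.d3 hf.c3 (hout _ ?_ ?_ ?_)
  · intro x hx
    rcases Finset.mem_union.mp hx with hx | hx
    · have hx := (hA x).mp hx
      simp only [List.mem_cons, List.not_mem_nil, or_false] at hx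
      rcases hx with rfl | rfl | rfl | rfl | rfl | rfl | rfl | rfl
      exacts [Or.inl w1, Or.inl w2, Or.inl w3, Or.inl w4, Or.inl w5, Or.inr ⟨_, rfl⟩,
        Or.inr ⟨_, rfl⟩, Or.inr ⟨_, rfl⟩]
    · rw [Finset.mem_singleton] at hx
      exact Or.inr ⟨3, hx.symm⟩
  · intro i
    rw [Finset.mem_union]
    fin_cases i
    exacts [Or.inl (m _ (by simp)), Or.inl (m _ (by simp)), Or.inl (m _ (by simp)),
      Or.inr (by simp)]
  · exact Finset.mem_union_left _ (m _ (by simp))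

theorem kill_kA1 (hM : ENetX own c c' N) {s u w v t b x y : V} {f : Fin 4 → V}
    (hP : P5F c c' N s u w v t (f 0) b) (hf : Cell c c' N f) (h1 : s(t, f 1) ∈ N) (h2 : s(t, f 2) ∈ N)
    (hk : K4At c N t v w u s b x y)
    (hout : ∀ B : Finset V, (∀ x ∈ B, Nf c x ∨ ∃ i, f i = x) → (∀ i, f i ∈ B) → t ∈ B →
      AT (outt B N) c') : AT N c' := by
  classical
  obtain ⟨n1, n2, n3, n4, n5, n6, n7, n8, n9, n10⟩ := hP.nes
  obtain ⟨k1, k2, k3, k4, k5, k6⟩ := hf.nes
  have w1 := hP.hs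
  have w2 := hP.hu
  have w3 := hP.hw
  have w4 := hP.hv
  have w5 := hP.ht
  have x0 := hf.ex 0
  have x1 := hf.ex 1
  have x2 := hf.ex 2
  have x3 := hf.ex 3
  have y1 : Nf c b := Or.inl hk.ca
  have y2 : Nf c x := Or.inl hk.cp
  have y3 : Nf c y := Or.inl hk.cq
  have hne := hk.ne
  simp only [List.nodup_cons, List.mem_cons, List.not_mem_nil, or_false, not_or,
    List.nodup_nil, and_true, not_false_eq_true] at hne
  obtain ⟨⟨a1, a2, a3, a4, a5, a6, a7⟩, ⟨b1, b2, b3, b4, b5, b6⟩, ⟨e1, e2, e3, e4, e5⟩,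
    ⟨g1, g2, g3, g4⟩, ⟨i1, i2, i3⟩, ⟨j1, j2⟩, l1⟩ := hne
  refine AT.kkA1 (v1 := s) (v2 := u) (v3 := w) (v4 := v) (v5 := t) (a := f 0) (p := f 1)
    (q := f 2) (b := b) (x := x) (y := y) (Q := f 3) (by
      simp only [List.nodup_cons, List.mem_cons, List.not_mem_nil, or_false, not_or,
        List.nodup_nil, and_true, not_false_eq_true]
      and_intros
      all_goals first
        | assumption
        | (apply Ne.symm; assumption)
        | exact ne_nf (by assumption) (by assumption)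
        | exact (ne_nf (by assumption) (by assumption)).symm) hM.loopless hP.su hP.sw hP.uw hP.uv hP.wv hP.wt hP.vt hP.ua h1 h2
    hf.m01 hf.m02 hf.m12 hP.vb hk.tp hk.tq hk.ap hk.aq hk.pq hf.m13 hf.m23
    hP.ds hP.cs hP.du hP.cu hP.dw hP.cw hP.dv hP.cv hP.dt hP.ct hf.d0 hf.c0 hf.d1 hf.c1 hf.d2 hf.c2
    hk.da.le (hM.cap2 hk.ca) hk.dp.le (hM.cap2 hk.cp) hk.dq.le (hM.cap2 hk.cq) ?_
  intro A hA
  have m : ∀ z, z ∈ [s, u, w, v, t, f 0, f 1, f 2, b, x, y] → z ∈ A := fun z => (hA z).mpr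
  refine peelQ hM.loopless A (Q := f 3) (x := f 1) (y := f 2) (m _ (by simp)) (m _ (by simp)) k4
    hf.m13 hf.m23 hf.d3 hf.c3 (hout _ ?_ ?_ ?_)
  · intro z hz
    rcases Finset.mem_union.mp hz with hz | hz
    · have hz := (hA z).mp hz
      simp only [List.mem_cons, List.not_mem_nil, or_false] at hz
      rcases hz with rfl | rfl | rfl | rfl | rfl | rfl | rfl | rfl | rfl | rfl | rfl
      exacts [Or.inl w1, Or.inl w2, Or.inl w3, Or.inl w4, Or.inl w5, Or.inr ⟨_, rfl⟩,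
        Or.inr ⟨_, rfl⟩, Or.inr ⟨_, rfl⟩, Or.inl y1, Or.inl y2, Or.inl y3]
    · rw [Finset.mem_singleton] at hz
      exact Or.inr ⟨3, hz.symm⟩
  · intro i
    rw [Finset.mem_union]
    fin_cases i
    exacts [Or.inl (m _ (by simp)), Or.inl (m _ (by simp)), Or.inl (m _ (by simp)),
      Or.inr (by simp)]
  · exact Finset.mem_union_left _ (m _ (by simp))

theorem kill_kA2 (hM : ENetX own c c' N) {s u w v t b x y : V} {f : Fin 4 → V}
    (hP : P5F c c' N s u w v t (f 2) b) (hf : Cell c c' N f) (h1 : s(t, f 1) ∈ N) (h2 : s(t, f 0) ∈ N)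
    (hk : K4At c N t v w u s b x y)
    (hout : ∀ B : Finset V, (∀ x ∈ B, Nf c x ∨ ∃ i, f i = x) → (∀ i, f i ∈ B) → t ∈ B →
      AT (outt B N) c') : AT N c' := by
  classical
  obtain ⟨n1, n2, n3, n4, n5, n6, n7, n8, n9, n10⟩ := hP.nes
  obtain ⟨k1, k2, k3, k4, k5, k6⟩ := hf.nes
  have w1 := hP.hs
  have w2 := hP.hu
  have w3 := hP.hw
  have w4 := hP.hv
  have w5 := hP.ht
  have x0 := hf.ex 0
  have x1 := hf.ex 1
  have x2 := hf.ex 2
  have x3 := hf.ex 3
  have y1 : Nf c b := Or.inl hk.ca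
  have y2 : Nf c x := Or.inl hk.cp
  have y3 : Nf c y := Or.inl hk.cq
  have hne := hk.ne
  simp only [List.nodup_cons, List.mem_cons, List.not_mem_nil, or_false, not_or,
    List.nodup_nil, and_true, not_false_eq_true] at hne
  obtain ⟨⟨a1, a2, a3, a4, a5, a6, a7⟩, ⟨b1, b2, b3, b4, b5, b6⟩, ⟨e1, e2, e3, e4, e5⟩,
    ⟨g1, g2, g3, g4⟩, ⟨i1, i2, i3⟩, ⟨j1, j2⟩, l1⟩ := hne
  refine AT.kkA2 (v1 := s) (v2 := u) (v3 := w) (v4 := v) (v5 := t) (a := f 2) (p := f 1)
    (q := f 0) (b := b) (x := x) (y := y) (Q := f 3) (by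
      simp only [List.nodup_cons, List.mem_cons, List.not_mem_nil, or_false, not_or,
        List.nodup_nil, and_true, not_false_eq_true]
      and_intros
      all_goals first
        | assumption
        | (apply Ne.symm; assumption)
        | exact ne_nf (by assumption) (by assumption)
        | exact (ne_nf (by assumption) (by assumption)).symm) hM.loopless hP.su hP.sw hP.uw hP.uv hP.wv hP.wt hP.vt hP.ua h1 h2
    (mem_swap' hf.m12) (mem_swap' hf.m02) (mem_swap' hf.m01) hP.vb hk.tp hk.tq hk.ap hk.aq hk.pq hf.m23 hf.m13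
    hP.ds hP.cs hP.du hP.cu hP.dw hP.cw hP.dv hP.cv hP.dt hP.ct hf.d2 hf.c2 hf.d1 hf.c1 hf.d0 hf.c0
    hk.da.le (hM.cap2 hk.ca) hk.dp.le (hM.cap2 hk.cp) hk.dq.le (hM.cap2 hk.cq) ?_
  intro A hA
  have m : ∀ z, z ∈ [s, u, w, v, t, f 2, f 1, f 0, b, x, y] → z ∈ A := fun z => (hA z).mpr
  refine peelQ hM.loopless A (Q := f 3) (x := f 1) (y := f 2) (m _ (by simp)) (m _ (by simp)) k4
    hf.m13 hf.m23 hf.d3 hf.c3 (hout _ ?_ ?_ ?_)
  · intro z hz
    rcases Finset.mem_union.mp hz with hz | hz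
    · have hz := (hA z).mp hz
      simp only [List.mem_cons, List.not_mem_nil, or_false] at hz
      rcases hz with rfl | rfl | rfl | rfl | rfl | rfl | rfl | rfl | rfl | rfl | rfl
      exacts [Or.inl w1, Or.inl w2, Or.inl w3, Or.inl w4, Or.inl w5, Or.inr ⟨_, rfl⟩,
        Or.inr ⟨_, rfl⟩, Or.inr ⟨_, rfl⟩, Or.inl y1, Or.inl y2, Or.inl y3]
    · rw [Finset.mem_singleton] at hz
      exact Or.inr ⟨3, hz.symm⟩
  · intro i
    rw [Finset.mem_union]
    fin_cases i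
    exacts [Or.inl (m _ (by simp)), Or.inl (m _ (by simp)), Or.inl (m _ (by simp)),
      Or.inr (by simp)]
  · exact Finset.mem_union_left _ (m _ (by simp))

theorem kill_dA1A1 (hl : ∀ e ∈ N, ¬ e.IsDiag) {s u w v t : V} {f g : Fin 4 → V}
    (hP : P5F c c' N s u w v t (f 0) (g 0)) (hf : Cell c c' N f) (hg : Cell c c' N g)
    (hfg : ∀ i j, f i ≠ g j) (h1 : s(t, f 1) ∈ N) (h2 : s(t, f 2) ∈ N)
    (h3 : s(s, g 1) ∈ N) (h4 : s(s, g 2) ∈ N)
    (hout : ∀ B : Finset V, (∀ x ∈ B, Nf c x ∨ (∃ i, f i = x) ∨ ∃ i, g i = x) →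
      (∀ i, f i ∈ B) → (∀ i, g i ∈ B) → t ∈ B → AT (outt B N) c') : AT N c' := by
  classical
  obtain ⟨n1, n2, n3, n4, n5, n6, n7, n8, n9, n10⟩ := hP.nes
  obtain ⟨k1, k2, k3, k4, k5, k6⟩ := hf.nes
  have w1 := hP.hs
  have w2 := hP.hu
  have w3 := hP.hw
  have w4 := hP.hv
  have w5 := hP.ht
  have x0 := hf.ex 0
  have x1 := hf.ex 1
  have x2 := hf.ex 2
  have x3 := hf.ex 3
  obtain ⟨l1, l2, l3, l4, l5, l6⟩ := hg.nes
  have z0 := hg.ex 0
  have z1 := hg.ex 1
  have z2 := hg.ex 2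
  have z3 := hg.ex 3
  have r00 := hfg 0 0
  have r01 := hfg 0 1
  have r02 := hfg 0 2
  have r03 := hfg 0 3
  have r10 := hfg 1 0
  have r11 := hfg 1 1
  have r12 := hfg 1 2
  have r13 := hfg 1 3
  have r20 := hfg 2 0
  have r21 := hfg 2 1
  have r22 := hfg 2 2
  have r23 := hfg 2 3
  have r30 := hfg 3 0
  have r31 := hfg 3 1
  have r32 := hfg 3 2
  have r33 := hfg 3 3
  refine AT.kdA1A1 (v1 := s) (v2 := u) (v3 := w) (v4 := v) (v5 := t) (a := f 0) (p := f 1)
    (q := f 2) (b := g 0) (x := g 1) (y := g 2) (Q := f 3) (Q' := g 3) (by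
      simp only [List.nodup_cons, List.mem_cons, List.not_mem_nil, or_false, not_or,
        List.nodup_nil, and_true, not_false_eq_true]
      and_intros
      all_goals first
        | assumption
        | (apply Ne.symm; assumption)
        | exact ne_nf (by assumption) (by assumption)
        | exact (ne_nf (by assumption) (by assumption)).symm) hl
    hP.su hP.sw hP.uw hP.uv hP.wv hP.wt hP.vt hP.ua h1 h2
    hf.m01 hf.m02 hf.m12 hP.vb h3 h4 hg.m01 hg.m02 hg.m12 hf.m13 hf.m23 hg.m13 hg.m23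
    hP.ds hP.cs hP.du hP.cu hP.dw hP.cw hP.dv hP.cv hP.dt hP.ct hf.d0 hf.c0 hf.d1 hf.c1 hf.d2 hf.c2
    hg.d0 hg.c0 hg.d1 hg.c1 hg.d2 hg.c2 ?_
  intro A hA
  have m : ∀ z, z ∈ [s, u, w, v, t, f 0, f 1, f 2, g 0, g 1, g 2] → z ∈ A :=
    fun z => (hA z).mpr
  refine peelQ hl A (Q := f 3) (x := f 1) (y := f 2) (m _ (by simp)) (m _ (by simp)) k4
    hf.m13 hf.m23 hf.d3 hf.c3 ?_
  refine peelQ hl _ (Q := g 3) (x := g 1) (y := g 2) (Finset.mem_union_left _ (m _ (by simp)))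
    (Finset.mem_union_left _ (m _ (by simp))) l4 hg.m13 hg.m23 hg.d3 hg.c3 (hout _ ?_ ?_ ?_ ?_)
  · intro z hz
    rcases Finset.mem_union.mp hz with hz | hz
    · rcases Finset.mem_union.mp hz with hz | hz
      · have hz := (hA z).mp hz
        simp only [List.mem_cons, List.not_mem_nil, or_false] at hz
        rcases hz with rfl | rfl | rfl | rfl | rfl | rfl | rfl | rfl | rfl | rfl | rfl
        exacts [Or.inl w1, Or.inl w2, Or.inl w3, Or.inl w4, Or.inl w5, Or.inr (Or.inl ⟨_, rfl⟩),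
          Or.inr (Or.inl ⟨_, rfl⟩), Or.inr (Or.inl ⟨_, rfl⟩), Or.inr (Or.inr ⟨_, rfl⟩),
          Or.inr (Or.inr ⟨_, rfl⟩), Or.inr (Or.inr ⟨_, rfl⟩)]
      · rw [Finset.mem_singleton] at hz
        exact Or.inr (Or.inl ⟨3, hz.symm⟩)
    · rw [Finset.mem_singleton] at hz
      exact Or.inr (Or.inr ⟨3, hz.symm⟩)
  · intro i
    refine Finset.mem_union_left _ ?_
    rw [Finset.mem_union]
    fin_cases i
    exacts [Or.inl (m _ (by simp)), Or.inl (m _ (by simp)), Or.inl (m _ (by simp)),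
      Or.inr (by simp)]
  · intro i
    rw [Finset.mem_union]
    fin_cases i
    exacts [Or.inl (Finset.mem_union_left _ (m _ (by simp))),
      Or.inl (Finset.mem_union_left _ (m _ (by simp))),
      Or.inl (Finset.mem_union_left _ (m _ (by simp))), Or.inr (by simp)]
  · exact Finset.mem_union_left _ (Finset.mem_union_left _ (m _ (by simp)))

theorem kill_dA1A2 (hl : ∀ e ∈ N, ¬ e.IsDiag) {s u w v t : V} {f g : Fin 4 → V}
    (hP : P5F c c' N s u w v t (f 0) (g 2)) (hf : Cell c c' N f) (hg : Cell c c' N g)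
    (hfg : ∀ i j, f i ≠ g j) (h1 : s(t, f 1) ∈ N) (h2 : s(t, f 2) ∈ N)
    (h3 : s(s, g 1) ∈ N) (h4 : s(s, g 0) ∈ N)
    (hout : ∀ B : Finset V, (∀ x ∈ B, Nf c x ∨ (∃ i, f i = x) ∨ ∃ i, g i = x) →
      (∀ i, f i ∈ B) → (∀ i, g i ∈ B) → t ∈ B → AT (outt B N) c') : AT N c' := by
  classical
  obtain ⟨n1, n2, n3, n4, n5, n6, n7, n8, n9, n10⟩ := hP.nes
  obtain ⟨k1, k2, k3, k4, k5, k6⟩ := hf.nes
  have w1 := hP.hs
  have w2 := hP.hu
  have w3 := hP.hw
  have w4 := hP.hv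
  have w5 := hP.ht
  have x0 := hf.ex 0
  have x1 := hf.ex 1
  have x2 := hf.ex 2
  have x3 := hf.ex 3
  obtain ⟨l1, l2, l3, l4, l5, l6⟩ := hg.nes
  have z0 := hg.ex 0
  have z1 := hg.ex 1
  have z2 := hg.ex 2
  have z3 := hg.ex 3
  have r00 := hfg 0 0
  have r01 := hfg 0 1
  have r02 := hfg 0 2
  have r03 := hfg 0 3
  have r10 := hfg 1 0
  have r11 := hfg 1 1
  have r12 := hfg 1 2
  have r13 := hfg 1 3
  have r20 := hfg 2 0
  have r21 := hfg 2 1
  have r22 := hfg 2 2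
  have r23 := hfg 2 3
  have r30 := hfg 3 0
  have r31 := hfg 3 1
  have r32 := hfg 3 2
  have r33 := hfg 3 3
  refine AT.kdA1A2 (v1 := s) (v2 := u) (v3 := w) (v4 := v) (v5 := t) (a := f 0) (p := f 1)
    (q := f 2) (b := g 2) (x := g 1) (y := g 0) (Q := f 3) (Q' := g 3) (by
      simp only [List.nodup_cons, List.mem_cons, List.not_mem_nil, or_false, not_or,
        List.nodup_nil, and_true, not_false_eq_true]
      and_intros
      all_goals first
        | assumption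
        | (apply Ne.symm; assumption)
        | exact ne_nf (by assumption) (by assumption)
        | exact (ne_nf (by assumption) (by assumption)).symm) hl
    hP.su hP.sw hP.uw hP.uv hP.wv hP.wt hP.vt hP.ua h1 h2
    hf.m01 hf.m02 hf.m12 hP.vb h3 h4 (mem_swap' hg.m12) (mem_swap' hg.m02) (mem_swap' hg.m01) hf.m13 hf.m23 hg.m23 hg.m13
    hP.ds hP.cs hP.du hP.cu hP.dw hP.cw hP.dv hP.cv hP.dt hP.ct hf.d0 hf.c0 hf.d1 hf.c1 hf.d2 hf.c2
    hg.d2 hg.c2 hg.d1 hg.c1 hg.d0 hg.c0 ?_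
  intro A hA
  have m : ∀ z, z ∈ [s, u, w, v, t, f 0, f 1, f 2, g 2, g 1, g 0] → z ∈ A :=
    fun z => (hA z).mpr
  refine peelQ hl A (Q := f 3) (x := f 1) (y := f 2) (m _ (by simp)) (m _ (by simp)) k4
    hf.m13 hf.m23 hf.d3 hf.c3 ?_
  refine peelQ hl _ (Q := g 3) (x := g 1) (y := g 2) (Finset.mem_union_left _ (m _ (by simp)))
    (Finset.mem_union_left _ (m _ (by simp))) l4 hg.m13 hg.m23 hg.d3 hg.c3 (hout _ ?_ ?_ ?_ ?_)
  · intro z hz
    rcases Finset.mem_union.mp hz with hz | hz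
    · rcases Finset.mem_union.mp hz with hz | hz
      · have hz := (hA z).mp hz
        simp only [List.mem_cons, List.not_mem_nil, or_false] at hz
        rcases hz with rfl | rfl | rfl | rfl | rfl | rfl | rfl | rfl | rfl | rfl | rfl
        exacts [Or.inl w1, Or.inl w2, Or.inl w3, Or.inl w4, Or.inl w5, Or.inr (Or.inl ⟨_, rfl⟩),
          Or.inr (Or.inl ⟨_, rfl⟩), Or.inr (Or.inl ⟨_, rfl⟩), Or.inr (Or.inr ⟨_, rfl⟩),
          Or.inr (Or.inr ⟨_, rfl⟩), Or.inr (Or.inr ⟨_, rfl⟩)]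
      · rw [Finset.mem_singleton] at hz
        exact Or.inr (Or.inl ⟨3, hz.symm⟩)
    · rw [Finset.mem_singleton] at hz
      exact Or.inr (Or.inr ⟨3, hz.symm⟩)
  · intro i
    refine Finset.mem_union_left _ ?_
    rw [Finset.mem_union]
    fin_cases i
    exacts [Or.inl (m _ (by simp)), Or.inl (m _ (by simp)), Or.inl (m _ (by simp)),
      Or.inr (by simp)]
  · intro i
    rw [Finset.mem_union]
    fin_cases i
    exacts [Or.inl (Finset.mem_union_left _ (m _ (by simp))),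
      Or.inl (Finset.mem_union_left _ (m _ (by simp))),
      Or.inl (Finset.mem_union_left _ (m _ (by simp))), Or.inr (by simp)]
  · exact Finset.mem_union_left _ (Finset.mem_union_left _ (m _ (by simp)))

theorem kill_dA2A1 (hl : ∀ e ∈ N, ¬ e.IsDiag) {s u w v t : V} {f g : Fin 4 → V}
    (hP : P5F c c' N s u w v t (f 2) (g 0)) (hf : Cell c c' N f) (hg : Cell c c' N g)
    (hfg : ∀ i j, f i ≠ g j) (h1 : s(t, f 1) ∈ N) (h2 : s(t, f 0) ∈ N)
    (h3 : s(s, g 1) ∈ N) (h4 : s(s, g 2) ∈ N)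
    (hout : ∀ B : Finset V, (∀ x ∈ B, Nf c x ∨ (∃ i, f i = x) ∨ ∃ i, g i = x) →
      (∀ i, f i ∈ B) → (∀ i, g i ∈ B) → t ∈ B → AT (outt B N) c') : AT N c' := by
  classical
  obtain ⟨n1, n2, n3, n4, n5, n6, n7, n8, n9, n10⟩ := hP.nes
  obtain ⟨k1, k2, k3, k4, k5, k6⟩ := hf.nes
  have w1 := hP.hs
  have w2 := hP.hu
  have w3 := hP.hw
  have w4 := hP.hv
  have w5 := hP.ht
  have x0 := hf.ex 0
  have x1 := hf.ex 1
  have x2 := hf.ex 2
  have x3 := hf.ex 3
  obtain ⟨l1, l2, l3, l4, l5, l6⟩ := hg.nes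
  have z0 := hg.ex 0
  have z1 := hg.ex 1
  have z2 := hg.ex 2
  have z3 := hg.ex 3
  have r00 := hfg 0 0
  have r01 := hfg 0 1
  have r02 := hfg 0 2
  have r03 := hfg 0 3
  have r10 := hfg 1 0
  have r11 := hfg 1 1
  have r12 := hfg 1 2
  have r13 := hfg 1 3
  have r20 := hfg 2 0
  have r21 := hfg 2 1
  have r22 := hfg 2 2
  have r23 := hfg 2 3
  have r30 := hfg 3 0
  have r31 := hfg 3 1
  have r32 := hfg 3 2
  have r33 := hfg 3 3
  refine AT.kdA2A1 (v1 := s) (v2 := u) (v3 := w) (v4 := v) (v5 := t) (a := f 2) (p := f 1)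
    (q := f 0) (b := g 0) (x := g 1) (y := g 2) (Q := f 3) (Q' := g 3) (by
      simp only [List.nodup_cons, List.mem_cons, List.not_mem_nil, or_false, not_or,
        List.nodup_nil, and_true, not_false_eq_true]
      and_intros
      all_goals first
        | assumption
        | (apply Ne.symm; assumption)
        | exact ne_nf (by assumption) (by assumption)
        | exact (ne_nf (by assumption) (by assumption)).symm) hl
    hP.su hP.sw hP.uw hP.uv hP.wv hP.wt hP.vt hP.ua h1 h2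
    (mem_swap' hf.m12) (mem_swap' hf.m02) (mem_swap' hf.m01) hP.vb h3 h4 hg.m01 hg.m02 hg.m12 hf.m23 hf.m13 hg.m13 hg.m23
    hP.ds hP.cs hP.du hP.cu hP.dw hP.cw hP.dv hP.cv hP.dt hP.ct hf.d2 hf.c2 hf.d1 hf.c1 hf.d0 hf.c0
    hg.d0 hg.c0 hg.d1 hg.c1 hg.d2 hg.c2 ?_
  intro A hA
  have m : ∀ z, z ∈ [s, u, w, v, t, f 2, f 1, f 0, g 0, g 1, g 2] → z ∈ A :=
    fun z => (hA z).mpr
  refine peelQ hl A (Q := f 3) (x := f 1) (y := f 2) (m _ (by simp)) (m _ (by simp)) k4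
    hf.m13 hf.m23 hf.d3 hf.c3 ?_
  refine peelQ hl _ (Q := g 3) (x := g 1) (y := g 2) (Finset.mem_union_left _ (m _ (by simp)))
    (Finset.mem_union_left _ (m _ (by simp))) l4 hg.m13 hg.m23 hg.d3 hg.c3 (hout _ ?_ ?_ ?_ ?_)
  · intro z hz
    rcases Finset.mem_union.mp hz with hz | hz
    · rcases Finset.mem_union.mp hz with hz | hz
      · have hz := (hA z).mp hz
        simp only [List.mem_cons, List.not_mem_nil, or_false] at hz
        rcases hz with rfl | rfl | rfl | rfl | rfl | rfl | rfl | rfl | rfl | rfl | rfl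
        exacts [Or.inl w1, Or.inl w2, Or.inl w3, Or.inl w4, Or.inl w5, Or.inr (Or.inl ⟨_, rfl⟩),
          Or.inr (Or.inl ⟨_, rfl⟩), Or.inr (Or.inl ⟨_, rfl⟩), Or.inr (Or.inr ⟨_, rfl⟩),
          Or.inr (Or.inr ⟨_, rfl⟩), Or.inr (Or.inr ⟨_, rfl⟩)]
      · rw [Finset.mem_singleton] at hz
        exact Or.inr (Or.inl ⟨3, hz.symm⟩)
    · rw [Finset.mem_singleton] at hz
      exact Or.inr (Or.inr ⟨3, hz.symm⟩)
  · intro i
    refine Finset.mem_union_left _ ?_
    rw [Finset.mem_union]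
    fin_cases i
    exacts [Or.inl (m _ (by simp)), Or.inl (m _ (by simp)), Or.inl (m _ (by simp)),
      Or.inr (by simp)]
  · intro i
    rw [Finset.mem_union]
    fin_cases i
    exacts [Or.inl (Finset.mem_union_left _ (m _ (by simp))),
      Or.inl (Finset.mem_union_left _ (m _ (by simp))),
      Or.inl (Finset.mem_union_left _ (m _ (by simp))), Or.inr (by simp)]
  · exact Finset.mem_union_left _ (Finset.mem_union_left _ (m _ (by simp)))

theorem kill_dA2A2 (hl : ∀ e ∈ N, ¬ e.IsDiag) {s u w v t : V} {f g : Fin 4 → V}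
    (hP : P5F c c' N s u w v t (f 2) (g 2)) (hf : Cell c c' N f) (hg : Cell c c' N g)
    (hfg : ∀ i j, f i ≠ g j) (h1 : s(t, f 1) ∈ N) (h2 : s(t, f 0) ∈ N)
    (h3 : s(s, g 1) ∈ N) (h4 : s(s, g 0) ∈ N)
    (hout : ∀ B : Finset V, (∀ x ∈ B, Nf c x ∨ (∃ i, f i = x) ∨ ∃ i, g i = x) →
      (∀ i, f i ∈ B) → (∀ i, g i ∈ B) → t ∈ B → AT (outt B N) c') : AT N c' := by
  classical
  obtain ⟨n1, n2, n3, n4, n5, n6, n7, n8, n9, n10⟩ := hP.nes
  obtain ⟨k1, k2, k3, k4, k5, k6⟩ := hf.nes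
  have w1 := hP.hs
  have w2 := hP.hu
  have w3 := hP.hw
  have w4 := hP.hv
  have w5 := hP.ht
  have x0 := hf.ex 0
  have x1 := hf.ex 1
  have x2 := hf.ex 2
  have x3 := hf.ex 3
  obtain ⟨l1, l2, l3, l4, l5, l6⟩ := hg.nes
  have z0 := hg.ex 0
  have z1 := hg.ex 1
  have z2 := hg.ex 2
  have z3 := hg.ex 3
  have r00 := hfg 0 0
  have r01 := hfg 0 1
  have r02 := hfg 0 2
  have r03 := hfg 0 3
  have r10 := hfg 1 0
  have r11 := hfg 1 1
  have r12 := hfg 1 2
  have r13 := hfg 1 3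
  have r20 := hfg 2 0
  have r21 := hfg 2 1
  have r22 := hfg 2 2
  have r23 := hfg 2 3
  have r30 := hfg 3 0
  have r31 := hfg 3 1
  have r32 := hfg 3 2
  have r33 := hfg 3 3
  refine AT.kdA2A2 (v1 := s) (v2 := u) (v3 := w) (v4 := v) (v5 := t) (a := f 2) (p := f 1)
    (q := f 0) (b := g 2) (x := g 1) (y := g 0) (Q := f 3) (Q' := g 3) (by
      simp only [List.nodup_cons, List.mem_cons, List.not_mem_nil, or_false, not_or,
        List.nodup_nil, and_true, not_false_eq_true]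
      and_intros
      all_goals first
        | assumption
        | (apply Ne.symm; assumption)
        | exact ne_nf (by assumption) (by assumption)
        | exact (ne_nf (by assumption) (by assumption)).symm) hl
    hP.su hP.sw hP.uw hP.uv hP.wv hP.wt hP.vt hP.ua h1 h2
    (mem_swap' hf.m12) (mem_swap' hf.m02) (mem_swap' hf.m01) hP.vb h3 h4 (mem_swap' hg.m12) (mem_swap' hg.m02) (mem_swap' hg.m01) hf.m23 hf.m13 hg.m23 hg.m13
    hP.ds hP.cs hP.du hP.cu hP.dw hP.cw hP.dv hP.cv hP.dt hP.ct hf.d2 hf.c2 hf.d1 hf.c1 hf.d0 hf.c0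
    hg.d2 hg.c2 hg.d1 hg.c1 hg.d0 hg.c0 ?_
  intro A hA
  have m : ∀ z, z ∈ [s, u, w, v, t, f 2, f 1, f 0, g 2, g 1, g 0] → z ∈ A :=
    fun z => (hA z).mpr
  refine peelQ hl A (Q := f 3) (x := f 1) (y := f 2) (m _ (by simp)) (m _ (by simp)) k4
    hf.m13 hf.m23 hf.d3 hf.c3 ?_
  refine peelQ hl _ (Q := g 3) (x := g 1) (y := g 2) (Finset.mem_union_left _ (m _ (by simp)))
    (Finset.mem_union_left _ (m _ (by simp))) l4 hg.m13 hg.m23 hg.d3 hg.c3 (hout _ ?_ ?_ ?_ ?_)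
  · intro z hz
    rcases Finset.mem_union.mp hz with hz | hz
    · rcases Finset.mem_union.mp hz with hz | hz
      · have hz := (hA z).mp hz
        simp only [List.mem_cons, List.not_mem_nil, or_false] at hz
        rcases hz with rfl | rfl | rfl | rfl | rfl | rfl | rfl | rfl | rfl | rfl | rfl
        exacts [Or.inl w1, Or.inl w2, Or.inl w3, Or.inl w4, Or.inl w5, Or.inr (Or.inl ⟨_, rfl⟩),
          Or.inr (Or.inl ⟨_, rfl⟩), Or.inr (Or.inl ⟨_, rfl⟩), Or.inr (Or.inr ⟨_, rfl⟩),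
          Or.inr (Or.inr ⟨_, rfl⟩), Or.inr (Or.inr ⟨_, rfl⟩)]
      · rw [Finset.mem_singleton] at hz
        exact Or.inr (Or.inl ⟨3, hz.symm⟩)
    · rw [Finset.mem_singleton] at hz
      exact Or.inr (Or.inr ⟨3, hz.symm⟩)
  · intro i
    refine Finset.mem_union_left _ ?_
    rw [Finset.mem_union]
    fin_cases i
    exacts [Or.inl (m _ (by simp)), Or.inl (m _ (by simp)), Or.inl (m _ (by simp)),
      Or.inr (by simp)]
  · intro i
    rw [Finset.mem_union]
    fin_cases i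
    exacts [Or.inl (Finset.mem_union_left _ (m _ (by simp))),
      Or.inl (Finset.mem_union_left _ (m _ (by simp))),
      Or.inl (Finset.mem_union_left _ (m _ (by simp))), Or.inr (by simp)]
  · exact Finset.mem_union_left _ (Finset.mem_union_left _ (m _ (by simp)))

end Helper42.L9
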