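import Pool.Agent.helper42.L9.EX1

/-!
# E-phase with exempt vertices: units with at least four inner vertices, own cycles
-/

set_option linter.unusedSimpArgs false

namespace Helper42.L9

open Finset

variable {V : Type*} {own : V → V → Prop} {c c' : V → ℕ} {M N : Multiset (Sym2 V)}

theorem nf_union [DecidableEq V] {A B : Finset V} (hA : ∀ x ∈ A, Nf c x)
    (hB : ∀ x ∈ B, Nf c x) : ∀ x ∈ A ∪ B, Nf c x := by
  intro x hx
  rcases Finset.mem_union.mp hx with h | h
  · exact hA x h
  · exact hB x h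

theorem nf_pair [DecidableEq V] {a b : V} (ha : Nf c a) (hb : Nf c b) :
    ∀ x ∈ ({a, b} : Finset V), Nf c x := by
  intro x hx
  simp only [Finset.mem_insert, Finset.mem_singleton] at hx
  rcases hx with rfl | rfl <;> assumption

theorem nf_single [DecidableEq V] {a : V} (ha : Nf c a) :
    ∀ x ∈ ({a} : Finset V), Nf c x := by
  intro x hx
  rw [Finset.mem_singleton] at hx
  rwa [hx]

/-- own path `s, u, v, t, t'` with `c s = 2`, the others `3` -/
theorem ENetX.kill1 (hM : ENetX own c c' M) (hS : StkX c M)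
    (rec_ : ∀ A : Finset V, (∀ x ∈ A, Nf c x) → Multiset.card (outt A M) < Multiset.card M →
      AT (outt A M) c')
    {s u v t t' : V} (hs : c s = 2) (hu : c u = 3) (hv : c v = 3) (ht : c t = 3)
    (ht' : c t' = 3) (h1 : own s u) (h2 : own u v) (h3 : own v t) (h4 : own t t') (hut : u ≠ t)
    (hvt : v ≠ t') (hd : dg M u ≠ 0) (hB : ¬ Port own c M u t') : AT M c' := by
  classical
  have hsv : s ≠ v := by rintro rfl; omega
  have hsu : s ≠ u := by rintro rfl; omega
  have hst : s ≠ t := by rintro rfl; omega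
  have hst' : s ≠ t' := by rintro rfl; omega
  have huv : u ≠ v := by rintro rfl; exact hM.irr _ h2
  have hvt0 : v ≠ t := by rintro rfl; exact hM.irr _ h3
  have htt' : t ≠ t' := by rintro rfl; exact hM.irr _ h4
  have hut' : u ≠ t' := by
    rintro rfl
    have := hM.two u s v t (hM.symm _ _ h1) h2 (hM.symm _ _ h4)
    tauto
  obtain ⟨α, v', hLu⟩ := hM.locAt hu (by have := hS u hu hd; omega) (hM.symm _ _ h1) h2 hsv
  obtain ⟨hv1, hv2⟩ := hLu.hy hv
  have e1 : v' = t := hM.other (hM.symm _ _ h2) hv1 h3 hv2 hut.symm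
  subst e1
  have hdv := (dg_pos hLu.mem2).2
  obtain ⟨s', t'', hLv⟩ := hM.locAt hv (by have := hS v hv hdv; omega) (hM.symm _ _ h2) h3 hut
  obtain ⟨hv3, hv4⟩ := hLv.bx hu
  have e2 : s' = s := hM.other h2 hv3 (hM.symm _ _ h1) hv4 hsv
  subst e2
  obtain ⟨hv5, hv6⟩ := hLv.hy ht
  have e3 : t'' = t' := hM.other (hM.symm _ _ h3) hv5 h4 hv6 hvt.symm
  subst e3
  have hdt := (dg_pos hLv.mem2).2
  obtain ⟨w1, w2, hLt⟩ := hM.locAt ht (by have := hS v' ht hdt; omega) (hM.symm _ _ h3) h4 hvt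
  -- `α ≠ v`
  have hαv : α ≠ v := by
    rintro rfl
    have c1 : (fl M u).count s(u, α) = (fl M α).count s(u, α) := by
      unfold fl
      rw [Multiset.count_filter_of_pos (p := fun e => u ∈ e) (Sym2.mem_mk_left _ _),
        Multiset.count_filter_of_pos (p := fun e => α ∈ e) (Sym2.mem_mk_right _ _)]
    rw [hLu.edges, hLv.edges] at c1
    have d1 : s(u, α) ≠ s(u, s') := by
      intro h; rw [Sym2.eq_iff] at h; rcases h with ⟨_, h⟩ | ⟨h, h'⟩
      · exact hsv h.symm
      · exact hsu h.symm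
    have d2 : s(u, α) ≠ s(u, v') := by
      intro h; rw [Sym2.eq_iff] at h; rcases h with ⟨_, h⟩ | ⟨h, h'⟩
      · exact hvt0 h
      · exact hut h
    have d3 : s(u, α) ≠ s(α, v') := by
      intro h; rw [Sym2.eq_iff] at h; rcases h with ⟨h, _⟩ | ⟨h, h'⟩
      · exact huv h
      · exact hut h
    have d4 : s(u, α) ≠ s(α, s') := by
      intro h; rw [Sym2.eq_iff] at h; rcases h with ⟨h, _⟩ | ⟨h, h'⟩
      · exact huv h
      · exact hsu h.symm
    have d5 : s(u, α) ≠ s(α, t'') := by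
      intro h; rw [Sym2.eq_iff] at h; rcases h with ⟨h, _⟩ | ⟨h, h'⟩
      · exact huv h
      · exact hut' h
    have d6 : s(u, α) = s(α, u) := Sym2.eq_swap
    simp only [Multiset.insert_eq_cons, Multiset.count_cons, Multiset.count_singleton, d1, d2,
      d3, d4, d5, d6.symm, if_true, if_false] at c1
    omega
  have hαt' : α ≠ t'' := by
    rintro rfl
    exact hB ⟨hu, s', v, v', hs, hLu⟩
  refine AT.elim (s := s') (t := v') (a := α) (b := t'') hM.loopless huv hαt' hαv hut'.symm hsu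
    hsv hut.symm hvt0.symm hst ?_ ?_ (hM.cap3 hu) (hM.cap3 hv) ?_ ?_ ?_
  · rw [hLu.edges]
    simp only [Multiset.insert_eq_cons, ← Multiset.singleton_add]
    abel
  · rw [hLv.edges]
    simp only [Multiset.insert_eq_cons, ← Multiset.singleton_add]
    abel
  · have := hM.le4' (Or.inl hs); have := hM.cap2 hs; omega
  · have := hM.le4' (Or.inr ht); have := hM.cap3 ht; omega
  · -- peel `t'`
    have hnf : ∀ x ∈ ({u, v} ∪ {s', v'} : Finset V), Nf c x :=
      nf_union (nf_pair (Or.inr hu) (Or.inr hv)) (nf_pair (Or.inl hs) (Or.inr ht))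
    rw [rest_eq_outt]
    by_cases hα : α ∈ ({s', v'} : Finset V)
    · rw [outt_cons_neg (Or.inl hα), outt_outt]
      exact rec_ _ hnf (card_outt_lt (w := u) (x := v) (by simp) hLu.mem2)
    · have ht'n : t'' ∉ ({s', v'} : Finset V) := by
        simp only [Finset.mem_insert, Finset.mem_singleton, not_or]
        exact ⟨hst'.symm, htt'.symm⟩
      rw [outt_cons_pos hα ht'n, outt_outt]
      have h5 : dg (outt ({u, v} ∪ {s', v'}) M) t'' + 2 ≤ dg M t'' := by
        refine dg_outt_two (x := v) (y := v') (by simp) (by simp) hvt0 ?_ ?_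
        · rw [Sym2.eq_swap]; exact hLv.mem4
        · rw [Sym2.eq_swap]; exact hLt.mem2
      have h6 := hM.le4' (Or.inr ht')
      have h7 := hM.cap3 ht'
      refine AT.peel t'' _ c' ?_ ?_ ?_
      · intro e he
        rcases Multiset.mem_cons.mp he with rfl | he
        · rw [Sym2.mk_isDiag_iff]; exact hαt'
        · exact hM.loopless e (Multiset.mem_of_le (outt_le _ _) he)
      · rw [dg_cons_ite, if_pos (Or.inr rfl)]
        omega
      · rw [outt_cons_neg (Or.inr (by simp)), outt_outt]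
        exact rec_ _ (nf_union hnf (nf_single (Or.inr ht')))
          (card_outt_lt (w := u) (x := v) (by simp) hLu.mem2)

/-- own path `s', s, u, v, t, t'`, the first five inner -/
theorem ENetX.kill2 (hM : ENetX own c c' M) (hS : StkX c M)
    (rec_ : ∀ A : Finset V, (∀ x ∈ A, Nf c x) → Multiset.card (outt A M) < Multiset.card M →
      AT (outt A M) c')
    {s' s u v t : V} (hs' : c s' = 3) (hs : c s = 3) (hu : c u = 3) (hv : c v = 3) (ht : c t = 3)
    (h0 : own s' s) (h1 : own s u) (h2 : own u v) (h3 : own v t) (hs'u : s' ≠ u) (hsv : s ≠ v)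
    (hut : u ≠ t) (hd : dg M u ≠ 0) : AT M c' := by
  classical
  have hsu : s ≠ u := by rintro rfl; exact hM.irr _ h1
  have huv : u ≠ v := by rintro rfl; exact hM.irr _ h2
  have hvt0 : v ≠ t := by rintro rfl; exact hM.irr _ h3
  have hss' : s' ≠ s := by rintro rfl; exact hM.irr _ h0
  obtain ⟨α, v', hLu⟩ := hM.locAt hu (by have := hS u hu hd; omega) (hM.symm _ _ h1) h2 hsv
  obtain ⟨hv1, hv2⟩ := hLu.hy hv
  have e1 : v' = t := hM.other (hM.symm _ _ h2) hv1 h3 hv2 hut.symm
  subst e1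
  obtain ⟨hv7, hv8⟩ := hLu.bx hs
  have e0 : α = s' := hM.other h1 hv7 (hM.symm _ _ h0) hv8 hs'u
  subst e0
  have hdv := (dg_pos hLu.mem2).2
  obtain ⟨s'', t', hLv⟩ := hM.locAt hv (by have := hS v hv hdv; omega) (hM.symm _ _ h2) h3 hut
  obtain ⟨hv3, hv4⟩ := hLv.bx hu
  have e2 : s'' = s := hM.other h2 hv3 (hM.symm _ _ h1) hv4 hsv
  subst e2
  obtain ⟨hv5, hv6⟩ := hLv.hy ht
  have hds := (dg_pos hLu.mem1).2
  obtain ⟨w1, w2, hLs⟩ := hM.locAt hs (by have := hS s'' hs hds; omega) h1 (hM.symm _ _ h0)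
    hs'u.symm
  obtain ⟨hv9, hv10⟩ := hLs.bx hu
  have e4 : w1 = v := hM.other (hM.symm _ _ h1) hv9 h2 hv10 hsv.symm
  subst e4
  have n1 := hLu.nd hs hv
  have n2 := hLv.nd hu ht
  have n3 := hLs.nd hu hs'
  simp only [List.nodup_cons, List.mem_cons, List.not_mem_nil, or_false, not_or,
    List.nodup_nil, and_true, not_false_eq_true] at n1 n2 n3
  have hαt' : α ≠ t' := by
    rintro rfl
    refine hM.noC α s'' u w1 v' hs' hs hu hv ht h0 h1 h2 h3 hv5 ?_ (dg_pos hLu.mem3).2
    simp only [List.nodup_cons, List.mem_cons, List.not_mem_nil, or_false, not_or,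
      List.nodup_nil, and_true, not_false_eq_true]
    refine ⟨⟨hss', hs'u, hv6, ?_⟩, ⟨hsu, hsv, ?_⟩, ⟨huv, hut⟩, hvt0⟩
    · rintro rfl; exact hM.irr _ hv5
    · exact n1.1.2.2
  refine AT.elim (s := s'') (t := v') (a := α) (b := t') hM.loopless huv hαt' (Ne.symm n1.2.1.1)
    (Ne.symm n2.1.2.2) hsu hsv hut.symm hvt0.symm n1.1.2.2 ?_ ?_ (hM.cap3 hu)
    (hM.cap3 hv) ?_ ?_ ?_
  · rw [hLu.edges]
    simp only [Multiset.insert_eq_cons, ← Multiset.singleton_add]
    abel
  · rw [hLv.edges]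
    simp only [Multiset.insert_eq_cons, ← Multiset.singleton_add]
    abel
  · have := hM.le4' (Or.inr hs); have := hM.cap3 hs; omega
  · have := hM.le4' (Or.inr ht); have := hM.cap3 ht; omega
  · have hnf : ∀ x ∈ ({u, w1} ∪ {s'', v'} : Finset V), Nf c x :=
      nf_union (nf_pair (Or.inr hu) (Or.inr hv)) (nf_pair (Or.inr hs) (Or.inr ht))
    rw [rest_eq_outt]
    by_cases hα : α ∈ ({s'', v'} : Finset V) ∨ t' ∈ ({s'', v'} : Finset V)
    · rw [outt_cons_neg hα, outt_outt]
      exact rec_ _ hnf (card_outt_lt (w := u) (x := w1) (by simp) hLu.mem2)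
    · rw [not_or] at hα
      rw [outt_cons_pos hα.1 hα.2, outt_outt]
      have h5 : dg (outt ({u, w1} ∪ {s'', v'}) M) α + 2 ≤ dg M α := by
        refine dg_outt_two (x := u) (y := s'') (by simp) (by simp) hsu.symm ?_ ?_
        · rw [Sym2.eq_swap]; exact hLu.mem3
        · rw [Sym2.eq_swap]; exact hLs.mem2
      have h6 := hM.le4' (Or.inr hs')
      have h7 := hM.cap3 hs'
      refine AT.peel α _ c' ?_ ?_ ?_
      · intro e he
        rcases Multiset.mem_cons.mp he with rfl | he
        · rw [Sym2.mk_isDiag_iff]; exact hαt'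
        · exact hM.loopless e (Multiset.mem_of_le (outt_le _ _) he)
      · rw [dg_cons_ite, if_pos (Or.inl rfl)]
        omega
      · rw [outt_cons_neg (Or.inl (by simp)), outt_outt]
        exact rec_ _ (nf_union hnf (nf_single (Or.inr hs')))
          (card_outt_lt (w := u) (x := w1) (by simp) hLu.mem2)

end Helper42.L9
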