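import Pool.Agent.helper42.L9.EX2

/-!
# E-phase with exempt vertices: the new multigraph
-/

set_option linter.unusedSimpArgs false

namespace Helper42.L9

open Finset

variable {V : Type*} {own : V → V → Prop} {c c' : V → ℕ} {M N : Multiset (Sym2 V)}

/-- ports in the new multigraph, at the end `a` of the new edge -/
theorem nw_port_leftX (hM : ENetX own c c' M) {R : Finset V} {a b u p : V} (haR : a ∉ R)
    (h : Link own c M R a u) (hp : Port own c (nw M R a b) a p) : p = b ∧ Port own c M a u := by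
  classical
  obtain ⟨h3, x, y, y', hx, hL⟩ := hp
  have h4 : 4 ≤ dg (nw M R a b) a := by rw [hL.dg_eq]
  have h5 := nw_full_left h4
  have h6 := dg_outt_one h.mem h.edge
  obtain ⟨X', Y', hLM⟩ := hM.locAt h3 (by omega) hL.ox hL.oy hL.ne
  have hau : a ≠ u := by rintro rfl; exact haR h.mem
  have hcx : c x ≠ 3 := by omega
  have hcy : c y = 3 := by
    rcases hL.one with h | h
    · exact absurd h hcx
    · exact h
  rcases link_loc h hLM hau h5 nw_fl_left with ⟨h7, h8, h9⟩ | ⟨h7, h8, h9⟩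
  · refine ⟨?_, h3, x, y, Y', hx, h8 ▸ hLM⟩
    -- compare the edges
    have e1 := hL.edges.symm.trans h9.edges
    have e2 : y' = Y' := by
      have h10 := hL.hy hcy
      have h11 := h9.hy hcy
      exact hM.other (hM.symm _ _ hL.oy) h10.1 h11.1 h10.2 h11.2
    subst e2
    have e3 : ({s(a, x), s(a, y), s(a, p), s(a, y')} : Multiset (Sym2 V)) =
        s(a, p) ::ₘ {s(a, x), s(a, y), s(a, y')} := by
      simp only [Multiset.insert_eq_cons, ← Multiset.singleton_add]; abel
    have e4 : ({s(a, x), s(a, y), s(a, b), s(a, y')} : Multiset (Sym2 V)) =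
        s(a, b) ::ₘ {s(a, x), s(a, y), s(a, y')} := by
      simp only [Multiset.insert_eq_cons, ← Multiset.singleton_add]; abel
    rw [e3, e4, Multiset.cons_inj_left, Sym2.eq_iff] at e1
    rcases e1 with ⟨_, h⟩ | ⟨h, h'⟩
    · exact h
    · rw [h', h]
  · exact absurd hcy h7

theorem nw_port_otherX (hM : ENetX own c c' M) {R : Finset V} {a b x p : V} (hxa : x ≠ a)
    (hxb : x ≠ b) (hp : Port own c (nw M R a b) x p) : Port own c M x p := by
  refine hp.congr (nw_same hxa hxb (hM.dg_le hp.1) ?_).symm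
  rw [hp.dg_eq]

theorem nw_loc_leftX (hM : ENetX own c c' M) {R : Finset V} {a b u : V} (haR : a ∉ R)
    (h : Link own c M R a u) (h3 : c a = 3) (h4 : 4 ≤ dg (nw M R a b) a) :
    ∃ x y x' y', LocAt own c (nw M R a b) a x y x' y' := by
  have h5 := nw_full_left h4
  have h6 := dg_outt_one h.mem h.edge
  obtain ⟨x, y, x', y', hL⟩ := hM.loc a h3 (by omega)
  have hau : a ≠ u := by rintro rfl; exact haR h.mem
  rcases link_loc h hL hau h5 nw_fl_left with ⟨_, _, h9⟩ | ⟨_, _, h9⟩
  · exact ⟨_, _, _, _, h9⟩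
  · exact ⟨_, _, _, _, h9⟩

theorem nw_heavy_leftX (hM : ENetX own c c' M) {R : Finset V} {a b u : V} (haR : a ∉ R)
    (h : Link own c M R a u) (h2 : c a = 2) (h4 : 4 ≤ dg (nw M R a b) a) :
    ∃ u₁ u₁', c u₁ = 3 ∧ own a u₁ ∧ own u₁ u₁' ∧ u₁' ≠ a ∧ s(a, u₁) ∈ nw M R a b ∧
      s(a, u₁') ∈ nw M R a b := by
  have h5 := nw_full_left h4
  have h6 := dg_outt_one h.mem h.edge
  have h7 := hM.le4 a h2
  obtain ⟨w, w', e1, e2, e3, e4, e5, e6⟩ := hM.heavy a h2 (by omega)
  have hw : w ∉ R := by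
    intro hw
    have hne : w ≠ u := by rintro rfl; exact h.nown e2
    have := dg_outt_two hw h.mem hne e5 h.edge
    omega
  have hw' : w' ∉ R := by
    intro hw'
    have hne : w' ≠ u := by
      rintro rfl
      exact hw (h.beh w e3 e1)
    have := dg_outt_two hw' h.mem hne e6 h.edge
    omega
  have mem : ∀ z, z ∉ R → s(a, z) ∈ M → s(a, z) ∈ nw M R a b := by
    intro z hz hzM
    unfold nw
    refine Multiset.mem_cons_of_mem (mem_outt.mpr ⟨hzM, fun y hy => ?_⟩)
    rw [Sym2.mem_iff] at hy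
    rcases hy with rfl | rfl <;> assumption
  exact ⟨w, w', e1, e2, e3, e4, mem w hw e5, mem w' hw' e6⟩

theorem Sees.locX (hM : ENetX own c c' M) {R : Finset V} {a b : V} (haR : a ∉ R)
    (h : Sees own c M R a) (h3 : c a = 3) (h4 : 4 ≤ Helper42.L9.dg (nw M R a b) a) :
    ∃ x y x' y', LocAt own c (nw M R a b) a x y x' y' := by
  rcases h with ⟨v, hv⟩ | ⟨h, _⟩
  · exact nw_loc_leftX hM haR hv h3 h4
  · omega

theorem Sees.heavyX (hM : ENetX own c c' M) {R : Finset V} {a b : V} (haR : a ∉ R)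
    (h : Sees own c M R a) (h2 : c a = 2) (h4 : 4 ≤ Helper42.L9.dg (nw M R a b) a) :
    ∃ u₁ u₁', c u₁ = 3 ∧ own a u₁ ∧ own u₁ u₁' ∧ u₁' ≠ a ∧ s(a, u₁) ∈ nw M R a b ∧
      s(a, u₁') ∈ nw M R a b := by
  classical
  rcases h with ⟨v, hv⟩ | ⟨_, p, r, hp, hr, hpr, h3, h5⟩
  · exact nw_heavy_leftX hM haR hv h2 h4
  · exfalso
    rw [dg_nw, if_pos (Or.inl rfl)] at h4
    have := dg_outt_two hp hr hpr h3 h5
    have := hM.le4 a h2
    omega

theorem ENetX.nw_base (hM : ENetX own c c' M) {R : Finset V} {a b : V} (hab : a ≠ b) (haR : a ∉ R)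
    (hbR : b ∉ R) (ha : Sees own c M R a) (hb : Sees own c M R b)
    (hLp : ∀ t, c t ≠ 3 → ¬ Lp own c (nw M R a b) t t)
    (hU : ∀ s u w v t, c s = 2 → c u = 3 → c w = 3 → c v = 3 → c t = 2 → own s u → own u w →
      own w v → own v t → u ≠ v → 4 ≤ dg (nw M R a b) s → 4 ≤ dg (nw M R a b) t →
      (Port own c (nw M R a b) u t ∨ Lp own c (nw M R a b) u t) →
      (Port own c (nw M R a b) v s ∨ Lp own c (nw M R a b) v s) → False)
    (hK4 : ∀ a' b' d e, c a' = 2 → c b' = 2 → c d = 2 → c e = 2 → [a', b', d, e].Nodup →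
      Rg own c (nw M R a b) a' b' → Rg own c (nw M R a b) a' d → Rg own c (nw M R a b) a' e →
      Rg own c (nw M R a b) b' d → Rg own c (nw M R a b) b' e → Rg own c (nw M R a b) d e →
      False) :
    ENetX own c c' (nw M R a b) := by
  classical
  have hpos : ∀ x, dg (nw M R a b) x ≠ 0 → dg M x ≠ 0 := nw_pos ha hb
  have hfull : ∀ x, 4 ≤ dg (nw M R a b) x → 4 ≤ dg M x := nw_full ha hb
  refine
    { loopless := ?_
      symm := hM.symm
      irr := hM.irr
      two := hM.two
      oneE := hM.oneE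
      own2 := hM.own2
      hcc := hM.hcc
      loc := ?_
      le4 := ?_
      heavy := ?_
      noLoop := hLp
      noU := hU
      noC := ?_
      noK4 := hK4 }
  · intro e he
    rcases Multiset.mem_cons.mp he with rfl | he
    · rw [Sym2.mk_isDiag_iff]; exact hab
    · exact hM.loopless e (Multiset.mem_of_le (outt_le _ _) he)
  · intro x h3 h4
    by_cases h1 : x = a
    · subst h1
      exact ha.locX hM haR h3 h4
    · by_cases h2 : x = b
      · subst h2
        rw [nw_comm] at h4 ⊢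
        exact hb.locX hM hbR h3 h4
      · obtain ⟨X, Y, X', Y', hL⟩ := hM.loc x h3 (hfull x h4)
        exact ⟨X, Y, X', Y', hL.congr (nw_same h1 h2 (hM.le4' (Or.inr h3)) h4)⟩
  · intro q hq
    rw [dg_nw]
    have h5 := hM.le4 q hq
    by_cases h1 : q = a
    · subst h1
      rw [if_pos (Or.inl rfl)]
      have := ha.dg.1
      omega
    · by_cases h2 : q = b
      · subst h2
        rw [if_pos (Or.inr rfl)]
        have := hb.dg.1
        omega
      · rw [if_neg (by tauto), add_zero]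
        exact (dg_le_of_le (outt_le R M) q).trans (hM.le4 q hq)
  · intro q hq h4
    by_cases h1 : q = a
    · subst h1
      exact ha.heavyX hM haR hq h4
    · by_cases h2 : q = b
      · subst h2
        rw [nw_comm] at h4 ⊢
        exact hb.heavyX hM hbR hq h4
      · obtain ⟨w, w', e1, e2, e3, e4, e5, e6⟩ := hM.heavy q hq (hfull q h4)
        have hfl := nw_same h1 h2 (hM.le4' (Or.inl hq)) h4
        refine ⟨w, w', e1, e2, e3, e4, ?_, ?_⟩
        · have : s(q, w) ∈ fl (nw M R a b) q := by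
            rw [hfl]; exact mem_fl.mpr ⟨e5, Sym2.mem_mk_left _ _⟩
          exact (mem_fl.mp this).1
        · have : s(q, w') ∈ fl (nw M R a b) q := by
            rw [hfl]; exact mem_fl.mpr ⟨e6, Sym2.mem_mk_left _ _⟩
          exact (mem_fl.mp this).1
  · intro x y d e f h1 h2 h3 h4 h5 h6 h7 h8 h9 h10 h11 h12
    exact hM.noC x y d e f h1 h2 h3 h4 h5 h6 h7 h8 h9 h10 h11 (hpos x h12)

/-- ports after the elimination of a `P_4` -/
theorem port_casesX (hM : ENetX own c c' M) {R : Finset V} {a b u v x p : V} (haR : a ∉ R)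
    (hbR : b ∉ R) (ha : Link own c M R a u) (hb : Link own c M R b v)
    (h : Port own c (nw M R a b) x p) :
    Port own c M x p ∨ (x = a ∧ p = b ∧ Port own c M a u) ∨
      (x = b ∧ p = a ∧ Port own c M b v) := by
  by_cases h1 : x = a
  · subst h1
    have := nw_port_leftX hM haR ha h
    exact Or.inr (Or.inl ⟨rfl, this.1, this.2⟩)
  · by_cases h2 : x = b
    · subst h2
      rw [nw_comm] at h
      have := nw_port_leftX hM hbR hb h
      exact Or.inr (Or.inr ⟨rfl, this.1, this.2⟩)
    · exact Or.inl (nw_port_otherX hM h1 h2 h)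

/-- chains after the elimination of a `P_4` -/
theorem lp_of_nwX (hM : ENetX own c c' M) {R : Finset V} {a b u v : V} (haR : a ∉ R)
    (hbR : b ∉ R) (ha : Link own c M R a u) (hb : Link own c M R b v)
    (hmid : Mid own c u v) (hpu : Port own c M u a) (hpv : Port own c M v b) {t x : V}
    (h : Lp own c (nw M R a b) t x) : Lp own c M t x := by
  have hmid' := hmid.swap hM.symm
  -- one step with the new ports
  have step : ∀ {t w x : V}, (∀ y, Port own c M w y → Lp own c M t y) →
      Port own c (nw M R a b) w x → Lp own c M t x := by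
    intro t w x h1 h2
    rcases port_casesX hM haR hbR ha hb h2 with h3 | ⟨rfl, rfl, h3⟩ | ⟨rfl, rfl, h3⟩
    · exact h1 _ h3
    · exact Lp.cons (h1 _ h3) hmid hpv
    · exact Lp.cons (h1 _ h3) hmid' hpu
  induction h with
  | @start w z x h1 h2 h3 =>
    refine step (w := z) (fun y hy => ?_) h3
    rcases port_casesX hM haR hbR ha hb h2 with h4 | ⟨rfl, rfl, _⟩ | ⟨rfl, rfl, _⟩
    · exact Lp.start h1 h4 hy
    · exact Lp.cons (Lp.start hmid' hpv hpu) h1 hy
    · exact Lp.cons (Lp.start hmid hpu hpv) h1 hy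
  | @cons w z x _ h2 h3 ih =>
    exact step (w := z) (fun y hy => Lp.cons ih h2 hy) h3

/-- an end of degree 4 has two inner neighbours -/
theorem ENetX.heavy' (hM : ENetX own c c' M) (hS : StkX c M) {q : V} (hq : c q = 2)
    (h4 : 4 ≤ dg M q) : ∃ u u', c u = 3 ∧ c u' = 3 ∧ own q u ∧ own u u' ∧ u ≠ u' ∧
      s(q, u) ∈ M ∧ s(q, u') ∈ M := by
  obtain ⟨u, u', h1, h2, h3, h5, h6, h7⟩ := hM.heavy q hq h4
  have hd := (dg_pos h6).2
  obtain ⟨x', y', hL⟩ := hM.locAt h1 (by have := hS u h1 hd; omega) (hM.symm _ _ h2) h3 h5.symm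
  have hc : c u' = 3 := by
    rcases hL.one with h | h
    · omega
    · exact h
  refine ⟨u, u', h1, hc, h2, h3, ?_, h6, h7⟩
  rintro rfl
  exact hM.irr _ h3

/-- three neighbours of a vertex of a (virtual) `K_4` -/
theorem ENetX.deg3 (hM : ENetX own c c' M) (hS : StkX c M) {x y₁ y₂ y₃ : V} (hx : c x = 2)
    (hn : [x, y₁, y₂, y₃].Nodup) (h1 : s(x, y₁) ∈ M) (h2 : s(x, y₂) ∈ M) (h3 : s(x, y₃) ∈ M)
    (c1 : c y₁ = 2) (c2 : c y₂ = 2)
    (c3 : c y₃ = 2 ∨ (¬ own x y₃ ∧ ∀ X, own X y₃ → c X = 3 → ¬ own x X)) : dg M x = 3 := by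
  classical
  simp only [List.nodup_cons, List.mem_cons, List.not_mem_nil, or_false, not_or,
    List.nodup_nil, and_true, not_false_eq_true] at hn
  obtain ⟨⟨n1, n2, n3⟩, ⟨n4, n5⟩, n6⟩ := hn
  have hge : 3 ≤ dg M x := by
    have := card_le_dg (M := M) (x := x) {y₁, y₂, y₃} (by
      intro y hy
      simp only [Finset.mem_insert, Finset.mem_singleton] at hy
      rcases hy with rfl | rfl | rfl <;> assumption)
    rwa [Finset.card_insert_of_notMem (by simp [n4, n5]),
      Finset.card_insert_of_notMem (by simp [n6]), Finset.card_singleton] at this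
  by_contra hcon
  obtain ⟨u, u', e1, e2, e3, e4, e5, e6, e7⟩ := hM.heavy' hS hx (by omega)
  have hu3 : u ≠ y₃ := by
    rintro rfl
    rcases c3 with h | ⟨h, _⟩
    · omega
    · exact h e3
  have hu'3 : u' ≠ y₃ := by
    rintro rfl
    rcases c3 with h | ⟨_, h⟩
    · omega
    · exact h u e4 e1 e3
  have f1 : u ≠ y₁ := by rintro rfl; omega
  have f2 : u ≠ y₂ := by rintro rfl; omega
  have f3 : u' ≠ y₁ := by rintro rfl; omega
  have f4 : u' ≠ y₂ := by rintro rfl; omega
  have f5 : x ≠ u := by rintro rfl; omega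
  have f6 : x ≠ u' := by rintro rfl; omega
  have h5 := card_le_dg (M := M) (x := x) {u, u', y₁, y₂, y₃} (by
      intro y hy
      simp only [Finset.mem_insert, Finset.mem_singleton] at hy
      rcases hy with rfl | rfl | rfl | rfl | rfl <;> assumption)
  rw [Finset.card_insert_of_notMem (by simp [e5, f1, f2, hu3]),
    Finset.card_insert_of_notMem (by simp [f3, f4, hu'3]),
    Finset.card_insert_of_notMem (by simp [n4, n5]),
    Finset.card_insert_of_notMem (by simp [n6]), Finset.card_singleton] at h5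
  have := hM.le4 x hx
  omega

theorem port_twoX (hM : ENetX own c c' M) {R : Finset V} {a b x p : V} (ha : c a = 2) (hb : c b = 2)
    (h : Port own c (nw M R a b) x p) : Port own c M x p := by
  have h3 := h.1
  refine nw_port_otherX hM ?_ ?_ h
  · rintro rfl; omega
  · rintro rfl; omega

theorem lp_twoX (hM : ENetX own c c' M) {R : Finset V} {a b t x : V} (ha : c a = 2) (hb : c b = 2)
    (h : Lp own c (nw M R a b) t x) : Lp own c M t x := by
  induction h with
  | @start w z x h1 h2 h3 => exact Lp.start h1 (port_twoX hM ha hb h2) (port_twoX hM ha hb h3)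
  | @cons w z x _ h2 h3 ih => exact Lp.cons ih h2 (port_twoX hM ha hb h3)

end Helper42.L9
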