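import Pool.Agent.helper42.L9.EX3

/-!
# E-phase with exempt vertices: a `P_6` with a chord becomes a virtual rung
-/

set_option linter.unusedSimpArgs false

namespace Helper42.L9

open Finset

variable {V : Type*} {own : V → V → Prop} {c c' : V → ℕ} {M N : Multiset (Sym2 V)}
  {Inv : Multiset (Sym2 V) → Prop}

theorem mem_swap' {x y : V} (h : s(x, y) ∈ M) : s(y, x) ∈ M := by
  rw [Sym2.eq_swap]; exact h

/-- the rung rule -/
theorem ENetX.rung (hM : ENetX own c c' M) (hS : StkX c M)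
    (hI : IvC own c c' Inv) (hIv : Inv M)
    (rec_ : ∀ N, ENetX own c c' N → Inv N → Multiset.card N < Multiset.card M → AT N c')
    {s u v t t' : V} (hs : c s = 2) (hu : c u = 3) (hv : c v = 3) (ht : c t = 3)
    (ht' : c t' = 3) (h1 : own s u) (h2 : own u v) (h3 : own v t) (h4 : own t t') (hut : u ≠ t)
    (hvt : v ≠ t') (hp : Port own c M u t') : AT M c' := by
  classical
  have hsv : s ≠ v := by rintro rfl; omega
  have hsu : s ≠ u := by rintro rfl; omega
  have hst : s ≠ t := by rintro rfl; omega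
  have hst' : s ≠ t' := by rintro rfl; omega
  have huv : u ≠ v := by rintro rfl; exact hM.irr _ h2
  have hvt0 : v ≠ t := by rintro rfl; exact hM.irr _ h3
  have htt' : t ≠ t' := by rintro rfl; exact hM.irr _ h4
  have hut' : u ≠ t' := by
    rintro rfl
    have := hM.two u s v t (hM.symm _ _ h1) h2 (hM.symm _ _ h4)
    tauto
  obtain ⟨_, x, y, y', hx, hL⟩ := id hp
  have hxs : x = s := by
    rcases hM.two u x s v hL.ox (hM.symm _ _ h1) h2 with h | h | h
    · exact h
    · rw [h] at hx; omega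
    · exact absurd h hsv
  subst hxs
  have hyv : y = v := by
    rcases hM.two u y x v hL.oy (hM.symm _ _ h1) h2 with h | h | h
    · exact absurd h.symm hL.ne
    · exact h
    · exact absurd h hsv
  subst hyv
  obtain ⟨hv1, hv2⟩ := hL.hy hv
  have e1 : y' = t := hM.other (hM.symm _ _ h2) hv1 h3 hv2 hut.symm
  subst e1
  have hdv := (dg_pos hL.mem2).2
  obtain ⟨s', t'', hLv⟩ := hM.locAt hv (by have := hS y hv hdv; omega) (hM.symm _ _ h2) h3 hut
  obtain ⟨hv3, hv4⟩ := hLv.bx hu
  have e2 : s' = x := hM.other h2 hv3 (hM.symm _ _ h1) hv4 hsv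
  subst e2
  obtain ⟨hv5, hv6⟩ := hLv.hy ht
  have e3 : t'' = t' := hM.other (hM.symm _ _ h3) hv5 h4 hv6 hvt.symm
  subst e3
  have hdt := (dg_pos hLv.mem2).2
  obtain ⟨w1, w2, hLt⟩ := hM.locAt ht (by have := hS y' ht hdt; omega) (hM.symm _ _ h3) h4 hvt
  obtain ⟨hv7, hv8⟩ := hLt.bx hv
  have e4 : w1 = u := hM.other h3 hv7 (hM.symm _ _ h2) hv8 hut
  subst e4
  obtain ⟨hv9, hv10⟩ := hLt.hy ht'
  have hdt' := (dg_pos hLt.mem2).2
  obtain ⟨z1, z2, hLt'⟩ := hM.locAt ht' (by have := hS t'' ht' hdt'; omega) (hM.symm _ _ h4) hv9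
    hv10.symm
  have hut'M : s(t'', w1) ∈ fl M t'' :=
    mem_fl.mpr ⟨by rw [Sym2.eq_swap]; exact hL.mem3, Sym2.mem_mk_left _ _⟩
  -- `w2` is an end
  have hw2u : w2 ≠ w1 := by
    rintro rfl
    have := hM.two w2 s' y t'' (hM.symm _ _ h1) h2 (hM.symm _ _ hv9)
    tauto
  have hcw : c w2 = 2 := by
    rcases hM.nf2 hv9 with h | h
    · exact h
    · exfalso
      obtain ⟨f1, f2⟩ := hLt'.bx ht
      have e5 : z1 = y := hM.other h4 f1 (hM.symm _ _ h3) f2 hvt
      obtain ⟨f3, f4⟩ := hLt'.hy h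
      rw [hLt'.edges] at hut'M
      simp only [Multiset.insert_eq_cons, Multiset.mem_cons, Multiset.mem_singleton,
        Sym2.eq_iff] at hut'M
      have e6 : w1 = z2 := by
        rcases hut'M with h | h | h | h
        · rcases h with ⟨_, h⟩ | ⟨h, _⟩
          · exact absurd h hut
          · exact absurd h.symm htt'
        · rcases h with ⟨_, h⟩ | ⟨_, h⟩
          · exact absurd h.symm hw2u
          · exact absurd h hut'
        · rcases h with ⟨_, h⟩ | ⟨_, h⟩
          · exact absurd (h.trans e5) huv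
          · exact absurd h hut'
        · rcases h with ⟨_, h⟩ | ⟨_, h⟩
          · exact h
          · exact absurd h hut'
      rw [← e6] at f3
      rcases hM.two w1 s' y w2 (hM.symm _ _ h1) h2 (hM.symm _ _ f3) with h' | h' | h'
      · exact hsv h'
      · rw [h'] at hs; omega
      · rw [← h'] at hv9
        have := hM.two y w1 y' t'' (hM.symm _ _ h2) h3 (hM.symm _ _ hv9)
        tauto
  have hsw : s' ≠ w2 := by
    rintro rfl
    exact hut' (hM.oneE s' w1 t'' hs h1 (hM.symm _ _ hv9))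
  have hwv : w2 ≠ y := by rintro rfl; omega
  have hwu : w2 ≠ w1 := hw2u
  have hwt : w2 ≠ y' := by rintro rfl; omega
  have hwt' : w2 ≠ t'' := by rintro rfl; omega
  refine AT.elim (u := y) (v := y') (s := w1) (t := t'') (a := s') (b := w2) hM.loopless hvt0
    hsw hst hwv huv hut hvt.symm htt'.symm hut' ?_ ?_ (hM.cap3 hv)
    (hM.cap3 ht) ?_ ?_ ?_
  · rw [hLv.edges]
    simp only [Multiset.insert_eq_cons, ← Multiset.singleton_add]
    abel
  · rw [hLt.edges]
    simp only [Multiset.insert_eq_cons, ← Multiset.singleton_add]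
    abel
  · have := hM.le4' (Or.inr hu); have := hM.cap3 hu; omega
  · have := hM.le4' (Or.inr ht'); have := hM.cap3 ht'; omega
  · have hsR : s' ∉ ({w1, t''} : Finset V) := by simp [hsu, hst']
    have hwR : w2 ∉ ({w1, t''} : Finset V) := by simp [hwu, hwt']
    have hsR' : s' ∉ ({y, y'} ∪ {w1, t''} : Finset V) := by simp [hsu, hst', hsv, hst]
    have hwR' : w2 ∉ ({y, y'} ∪ {w1, t''} : Finset V) := by simp [hwu, hwt', hwv, hwt]
    rw [rest_eq_outt, outt_cons_pos hsR hwR, outt_outt]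
    have ha : Sees own c M ({y, y'} ∪ {w1, t''} : Finset V) s' := by
      refine Or.inr ⟨hs, w1, y, by simp, by simp, huv, ?_, ?_⟩
      · rw [Sym2.eq_swap]; exact hL.mem1
      · rw [Sym2.eq_swap]; exact hLv.mem3
    have hb : Sees own c M ({y, y'} ∪ {w1, t''} : Finset V) w2 := by
      refine Or.inr ⟨hcw, t'', y', by simp, by simp, htt'.symm, ?_, ?_⟩
      · rw [Sym2.eq_swap]; exact hLt'.mem2
      · rw [Sym2.eq_swap]; exact hLt.mem4
    have hVR : VR own c M s' w2 := ⟨w1, y, y', t'', hu, hv, ht, ht', h1, h2, h3, h4, hv9, hut,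
      hvt, hp⟩
    have hrg : ∀ {p q : V}, Rg own c (nw M ({y, y'} ∪ {w1, t''} : Finset V) s' w2) p q →
        Rg own c M p q := by
      have key : ∀ {p q : V}, VR own c (nw M ({y, y'} ∪ {w1, t''} : Finset V) s' w2) p q →
          VR own c M p q := by
        rintro a b ⟨k1, k2, k3, k4, g1, g2, g3, g4, g5, g6, g7, g8, g9, g10, g11, g12⟩
        exact ⟨k1, k2, k3, k4, g1, g2, g3, g4, g5, g6, g7, g8, g9, g10, g11,
          port_twoX hM hs hcw g12⟩
      intro p q h
      rcases h with h | h | h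
      · rcases Multiset.mem_cons.mp h with h | h
        · rw [Sym2.eq_iff] at h
          rcases h with ⟨rfl, rfl⟩ | ⟨rfl, rfl⟩
          · exact Or.inr (Or.inl hVR)
          · exact Or.inr (Or.inr hVR)
        · exact Or.inl (Multiset.mem_of_le (outt_le _ _) h)
      · exact Or.inr (Or.inl (key h))
      · exact Or.inr (Or.inr (key h))
    have hnf : ∀ x ∈ ({y, y'} ∪ {w1, t''} : Finset V), Nf c x :=
      nf_union (nf_pair (Or.inr hv) (Or.inr ht)) (nf_pair (Or.inr hu) (Or.inr ht'))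
    refine rec_ _ ?_ (hI.rung M _ s' w2 hM hIv hsw hsR' hwR' hnf hs hcw ?_ ?_
      ⟨w1, y, by simp, by simp, h1, h2, hsv.symm, hu, mem_swap' hL.mem1, mem_swap' hLv.mem3⟩
      ⟨t'', y', by simp, by simp, hM.symm _ _ hv9, hM.symm _ _ h4, hwt.symm, ht',
        mem_swap' hLt'.mem2, mem_swap' hLt.mem4⟩)
      (card_nw_lt (w := y) (x := w1) (y := t'') (by simp) (by simp) hut'
      hLv.mem1 hLv.mem4)
    rotate_left
    · intro x hx
      rw [hM.oneE s' x w1 hs hx h1]
      simp
    · intro x hx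
      rw [hM.oneE w2 x t'' hcw hx (hM.symm _ _ hv9)]
      simp
    refine hM.nw_base hsw hsR' hwR' ha hb ?_ ?_ ?_
    · intro t ht h
      exact hM.noLoop t ht (lp_twoX hM hs hcw h)
    · intro s u w v t g1 g2 g3 g4 g5 g6 g7 g8 g9 g10 k1 k2 g11 g12
      exact hM.noU s u w v t g1 g2 g3 g4 g5 g6 g7 g8 g9 g10 (nw_full ha hb s k1)
        (nw_full ha hb t k2)
        (g11.imp (port_twoX hM hs hcw) (lp_twoX hM hs hcw))
        (g12.imp (port_twoX hM hs hcw) (lp_twoX hM hs hcw))
    · intro a b d e g1 g2 g3 g4 g5 g6 g7 g8 g9 g10 g11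
      exact hM.noK4 a b d e g1 g2 g3 g4 g5 (hrg g6) (hrg g7) (hrg g8) (hrg g9) (hrg g10)
        (hrg g11)

end Helper42.L9
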