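import Pool.Agent.helper42.L9.EX4

/-!
# E-phase with exempt vertices: certificate blocks
-/

set_option linter.unusedSimpArgs false

namespace Helper42.L9

open Finset Helper33.L9

variable {V : Type*} {own : V → V → Prop} {c : V → ℕ} {M N : Multiset (Sym2 V)}

theorem map_get_mem {l : List V} (hinj : Function.Injective l.get) (I : Finset (Fin l.length)) :
    ∀ x ∈ I.map ⟨l.get, hinj⟩, x ∈ l := by
  intro x hx
  obtain ⟨i, _, rfl⟩ := Finset.mem_map.mp hx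
  exact List.get_mem l i

theorem AT.b6X {a b p q u v s t : V} (hn : [a, b, p, q, u, v, s, t].Nodup)
    (hl : ∀ e ∈ M, ¬ e.IsDiag)
    (m1 : s(a, p) ∈ M) (m2 : s(a, q) ∈ M) (m3 : s(b, p) ∈ M) (m4 : s(b, q) ∈ M)
    (m5 : s(p, q) ∈ M) (m6 : s(a, u) ∈ M) (m7 : s(u, v) ∈ M) (m8 : s(v, b) ∈ M)
    (m9 : s(u, s) ∈ M) (m10 : s(u, t) ∈ M) (m11 : s(v, s) ∈ M) (m12 : s(v, t) ∈ M)
    (da : dg M a ≤ 3) (db : dg M b ≤ 3) (dp : dg M p ≤ 3) (dq : dg M q ≤ 3) (du : dg M u ≤ 4)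
    (dv : dg M v ≤ 4) (ca : 2 ≤ c a) (cb : 2 ≤ c b) (cp : 2 ≤ c p) (cq : 2 ≤ c q)
    (cu : 3 ≤ c u) (cv : 3 ≤ c v)
    (h2 : ∀ A : Finset V, u ∈ A → (∀ x ∈ A, x ∈ [a, b, p, q, u, v, s, t]) → AT (outt A M) c) : AT M c := by
  have hinj := List.nodup_iff_injective_get.mp hn
  refine AT.certBlock (n := 8) ([a, b, p, q, u, v, s, t].get) hinj hl {0, 1, 2, 3, 4, 5} e6 c6
    ![2,2,1,2,1,0,0,0] 0 (by decide) ?_ (by decide) (by decide) ?_ co_e6 ?_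
    (h2 _ ?_ ?_)
  · intro x hx
    simp only [e6, c6, List.cons_append, List.nil_append, List.mem_cons, List.not_mem_nil,
      or_false] at hx
    rcases hx with rfl | rfl | rfl | rfl | rfl | rfl | rfl | rfl | rfl | rfl | rfl | rfl
    exacts [m1, m2, m3, m4, m5, m6, m7, m8, m9, m10, m11, m12]
  · intro i hi _
    fin_cases i
    exacts [da, db, dp, dq, du, dv, absurd hi (by decide), absurd hi (by decide)]
  · intro i hi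
    have k : ∀ (x : V) (i : Fin 8) (d : ℕ), dg M x ≤ d →
        ![2,2,1,2,1,0,0,0] i + d ≤ c x + cnt e6 i →
        ![2,2,1,2,1,0,0,0] i + dg M x ≤ c x + cnt e6 i := by
      intro x i d h1 h2; omega
    have e0 : ∀ i : Fin 8, cnt e6 i = ![3,3,3,3,2,2,0,0] i := by decide
    fin_cases i
    · refine k a 0 3 da ?_; rw [e0]; show 2 + 3 ≤ c a + 3; omega
    · refine k b 1 3 db ?_; rw [e0]; show 2 + 3 ≤ c b + 3; omega
    · refine k p 2 3 dp ?_; rw [e0]; show 1 + 3 ≤ c p + 3; omega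
    · refine k q 3 3 dq ?_; rw [e0]; show 2 + 3 ≤ c q + 3; omega
    · refine k u 4 4 du ?_; rw [e0]; show 1 + 4 ≤ c u + 2; omega
    · refine k v 5 4 dv ?_; rw [e0]; show 0 + 4 ≤ c v + 2; omega
    · exact absurd hi (by decide)
    · exact absurd hi (by decide)
  · rw [Finset.mem_map]
    exact ⟨4, by decide, rfl⟩
  · exact map_get_mem hinj _

theorem AT.b8X {v1 v2 v3 v4 v5 b x y : V} (hn : [v1, v2, v3, v4, v5, b, x, y].Nodup)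
    (hl : ∀ e ∈ M, ¬ e.IsDiag)
    (m1 : s(v1, v2) ∈ M) (m2 : s(v1, v3) ∈ M) (m3 : s(v2, v3) ∈ M) (m4 : s(v2, v4) ∈ M)
    (m5 : s(v3, v4) ∈ M) (m6 : s(v3, v5) ∈ M) (m7 : s(v4, v5) ∈ M) (m8 : s(v2, v5) ∈ M)
    (m9 : s(v4, b) ∈ M) (m10 : s(v1, x) ∈ M) (m11 : s(v1, y) ∈ M) (m12 : s(b, x) ∈ M)
    (m13 : s(b, y) ∈ M) (m14 : s(x, y) ∈ M)
    (d1 : dg M v1 ≤ 4) (d2 : dg M v2 ≤ 4) (d3 : dg M v3 ≤ 4) (d4 : dg M v4 ≤ 4)
    (d5 : dg M v5 ≤ 4) (db : dg M b ≤ 3) (dx : dg M x ≤ 3) (dy : dg M y ≤ 3)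
    (c1 : 2 ≤ c v1) (c2 : 3 ≤ c v2) (c3 : 3 ≤ c v3) (c4 : 3 ≤ c v4) (c5 : 2 ≤ c v5)
    (cb : 2 ≤ c b) (cx : 2 ≤ c x) (cy : 2 ≤ c y)
    (h2 : ∀ A : Finset V, v1 ∈ A → (∀ z ∈ A, z ∈ [v1, v2, v3, v4, v5, b, x, y]) →
      AT (outt A M) c) : AT M c := by
  have hinj := List.nodup_iff_injective_get.mp hn
  refine AT.certBlock (n := 8) ([v1, v2, v3, v4, v5, b, x, y].get) hinj hl Finset.univ p25 []
    ![2,2,3,1,1,2,2,1] 4 (by decide) ?_ (by decide) (by decide) ?_ co_p25 ?_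
    (h2 _ ?_ (map_get_mem hinj _))
  · intro z hz
    simp only [p25, List.append_nil, List.mem_cons, List.not_mem_nil,
      or_false] at hz
    rcases hz with rfl | rfl | rfl | rfl | rfl | rfl | rfl | rfl | rfl | rfl | rfl | rfl | rfl |
      rfl
    exacts [m1, m2, m3, m4, m5, m6, m7, m8, m9, m10, m11, m12, m13, m14]
  · intro i _ hi
    rw [List.append_nil]
    fin_cases i
    exacts [d1, d2, d3, d4, absurd rfl hi, db, dx, dy]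
  · intro i _
    have k : ∀ (x : V) (i : Fin 8) (d : ℕ), dg M x ≤ d →
        ![2,2,3,1,1,2,2,1] i + d ≤ c x + cnt p25 i →
        ![2,2,3,1,1,2,2,1] i + dg M x ≤ c x + cnt p25 i := by
      intro x i d h1 h2; omega
    have e0 : ∀ i : Fin 8, cnt p25 i = ![4,4,4,4,3,3,3,3] i := by decide
    fin_cases i
    · refine k v1 0 4 d1 ?_; rw [e0]; show 2 + 4 ≤ c v1 + 4; omega
    · refine k v2 1 4 d2 ?_; rw [e0]; show 2 + 4 ≤ c v2 + 4; omega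
    · refine k v3 2 4 d3 ?_; rw [e0]; show 3 + 4 ≤ c v3 + 4; omega
    · refine k v4 3 4 d4 ?_; rw [e0]; show 1 + 4 ≤ c v4 + 4; omega
    · refine k v5 4 4 d5 ?_; rw [e0]; show 1 + 4 ≤ c v5 + 3; omega
    · refine k b 5 3 db ?_; rw [e0]; show 2 + 3 ≤ c b + 3; omega
    · refine k x 6 3 dx ?_; rw [e0]; show 2 + 3 ≤ c x + 3; omega
    · refine k y 7 3 dy ?_; rw [e0]; show 1 + 3 ≤ c y + 3; omega
  · rw [Finset.mem_map]
    exact ⟨0, Finset.mem_univ _, rfl⟩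

theorem AT.b11X {v1 v2 v3 v4 v5 a p q b x y : V}
    (hn : [v1, v2, v3, v4, v5, a, p, q, b, x, y].Nodup) (hl : ∀ e ∈ M, ¬ e.IsDiag)
    (m1 : s(v1, v2) ∈ M) (m2 : s(v1, v3) ∈ M) (m3 : s(v2, v3) ∈ M) (m4 : s(v2, v4) ∈ M)
    (m5 : s(v3, v4) ∈ M) (m6 : s(v3, v5) ∈ M) (m7 : s(v4, v5) ∈ M)
    (m8 : s(v2, a) ∈ M) (m9 : s(v5, p) ∈ M) (m10 : s(v5, q) ∈ M) (m11 : s(a, p) ∈ M)
    (m12 : s(a, q) ∈ M) (m13 : s(p, q) ∈ M) (m14 : s(v4, b) ∈ M) (m15 : s(v1, x) ∈ M)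
    (m16 : s(v1, y) ∈ M) (m17 : s(b, x) ∈ M) (m18 : s(b, y) ∈ M) (m19 : s(x, y) ∈ M)
    (d1 : dg M v1 ≤ 4) (d2 : dg M v2 ≤ 4) (d3 : dg M v3 ≤ 4) (d4 : dg M v4 ≤ 4)
    (d5 : dg M v5 ≤ 4) (da : dg M a ≤ 3) (dp : dg M p ≤ 3) (dq : dg M q ≤ 3)
    (db : dg M b ≤ 3) (dx : dg M x ≤ 3) (dy : dg M y ≤ 3)
    (c1 : 2 ≤ c v1) (c2 : 3 ≤ c v2) (c3 : 3 ≤ c v3) (c4 : 3 ≤ c v4) (c5 : 2 ≤ c v5)
    (ca : 2 ≤ c a) (cp : 2 ≤ c p) (cq : 2 ≤ c q) (cb : 2 ≤ c b) (cx : 2 ≤ c x) (cy : 2 ≤ c y)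
    (h2 : ∀ A : Finset V, v1 ∈ A → (∀ z ∈ A, z ∈ [v1, v2, v3, v4, v5, a, p, q, b, x, y]) →
      AT (outt A M) c) : AT M c := by
  have hinj := List.nodup_iff_injective_get.mp hn
  refine AT.certBlock (n := 11) ([v1, v2, v3, v4, v5, a, p, q, b, x, y].get) hinj hl
    Finset.univ p5tt []
    ![1,1,2,3,2,2,1,2,2,1,2] 0 (by decide +kernel) ?_ (by decide +kernel) (by simp) ?_ co_p5tt ?_
    (h2 _ ?_ (map_get_mem hinj _))
  · intro z hz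
    simp only [p5tt, List.append_nil, List.mem_cons, List.not_mem_nil,
      or_false] at hz
    rcases hz with rfl | rfl | rfl | rfl | rfl | rfl | rfl | rfl | rfl | rfl | rfl | rfl | rfl |
      rfl | rfl | rfl | rfl | rfl | rfl
    exacts [m1, m2, m3, m4, m5, m6, m7, m8, m9, m10, m11, m12, m13, m14, m15, m16, m17, m18,
      m19]
  · intro i _ hi
    rw [List.append_nil]
    fin_cases i
    exacts [d1, d2, d3, d4, d5, da, dp, dq, db, dx, dy]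
  · intro i _
    have k : ∀ (x : V) (i : Fin 11) (d : ℕ), dg M x ≤ d →
        ![1,1,2,3,2,2,1,2,2,1,2] i + d ≤ c x + cnt p5tt i →
        ![1,1,2,3,2,2,1,2,2,1,2] i + dg M x ≤ c x + cnt p5tt i := by
      intro x i d h1 h2; omega
    have e0 : ∀ i : Fin 11, cnt p5tt i = ![4,4,4,4,4,3,3,3,3,3,3] i := by decide
    fin_cases i
    · refine k v1 0 4 d1 ?_; rw [e0]; show 1 + 4 ≤ c v1 + 4; omega
    · refine k v2 1 4 d2 ?_; rw [e0]; show 1 + 4 ≤ c v2 + 4; omega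
    · refine k v3 2 4 d3 ?_; rw [e0]; show 2 + 4 ≤ c v3 + 4; omega
    · refine k v4 3 4 d4 ?_; rw [e0]; show 3 + 4 ≤ c v4 + 4; omega
    · refine k v5 4 4 d5 ?_; rw [e0]; show 2 + 4 ≤ c v5 + 4; omega
    · refine k a 5 3 da ?_; rw [e0]; show 2 + 3 ≤ c a + 3; omega
    · refine k p 6 3 dp ?_; rw [e0]; show 1 + 3 ≤ c p + 3; omega
    · refine k q 7 3 dq ?_; rw [e0]; show 2 + 3 ≤ c q + 3; omega
    · refine k b 8 3 db ?_; rw [e0]; show 2 + 3 ≤ c b + 3; omega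
    · refine k x 9 3 dx ?_; rw [e0]; show 1 + 3 ≤ c x + 3; omega
    · refine k y 10 3 dy ?_; rw [e0]; show 2 + 3 ≤ c y + 3; omega
  · rw [Finset.mem_map]
    exact ⟨0, Finset.mem_univ _, rfl⟩

theorem AT.b5X {v1 v2 v3 v4 v5 : V} (hn : [v1, v2, v3, v4, v5].Nodup)
    (hl : ∀ e ∈ M, ¬ e.IsDiag)
    (m1 : s(v1, v2) ∈ M) (m2 : s(v1, v3) ∈ M) (m3 : s(v2, v3) ∈ M) (m4 : s(v2, v4) ∈ M)
    (m5 : s(v3, v4) ∈ M) (m6 : s(v3, v5) ∈ M) (m7 : s(v4, v5) ∈ M) (m8 : s(v2, v5) ∈ M)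
    (m9 : s(v1, v4) ∈ M)
    (d1 : dg M v1 ≤ 3) (d2 : dg M v2 ≤ 4) (d3 : dg M v3 ≤ 4) (d4 : dg M v4 ≤ 4)
    (d5 : dg M v5 ≤ 4)
    (c1 : 2 ≤ c v1) (c2 : 3 ≤ c v2) (c3 : 3 ≤ c v3) (c4 : 3 ≤ c v4) (c5 : 2 ≤ c v5)
    (h2 : ∀ A : Finset V, v1 ∈ A → (∀ z ∈ A, z ∈ [v1, v2, v3, v4, v5]) →
      AT (outt A M) c) : AT M c := by
  have hinj := List.nodup_iff_injective_get.mp hn
  refine AT.certBlock (n := 5) ([v1, v2, v3, v4, v5].get) hinj hl Finset.univ u9 []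
    ![2,2,1,3,1] 4 (by decide) ?_ (by decide) (by decide) ?_ co_u9 ?_
    (h2 _ ?_ (map_get_mem hinj _))
  · intro z hz
    simp only [u9, List.append_nil, List.mem_cons, List.not_mem_nil,
      or_false] at hz
    rcases hz with rfl | rfl | rfl | rfl | rfl | rfl | rfl | rfl | rfl
    exacts [m1, m2, m3, m4, m5, m6, m7, m8, m9]
  · intro i _ hi
    rw [List.append_nil]
    fin_cases i
    exacts [d1, d2, d3, d4, absurd rfl hi]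
  · intro i _
    have k : ∀ (x : V) (i : Fin 5) (d : ℕ), dg M x ≤ d →
        ![2,2,1,3,1] i + d ≤ c x + cnt u9 i →
        ![2,2,1,3,1] i + dg M x ≤ c x + cnt u9 i := by
      intro x i d h1 h2; omega
    have e0 : ∀ i : Fin 5, cnt u9 i = ![3,4,4,4,3] i := by decide
    fin_cases i
    · refine k v1 0 3 d1 ?_; rw [e0]; show 2 + 3 ≤ c v1 + 3; omega
    · refine k v2 1 4 d2 ?_; rw [e0]; show 2 + 4 ≤ c v2 + 4; omega
    · refine k v3 2 4 d3 ?_; rw [e0]; show 1 + 4 ≤ c v3 + 4; omega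
    · refine k v4 3 4 d4 ?_; rw [e0]; show 3 + 4 ≤ c v4 + 4; omega
    · refine k v5 4 4 d5 ?_; rw [e0]; show 1 + 4 ≤ c v5 + 3; omega
  · rw [Finset.mem_map]
    exact ⟨0, Finset.mem_univ _, rfl⟩

end Helper42.L9
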