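import Pool.Agent.helper42.L9.EX5

/-!
# E-phase with exempt vertices: the `P_4` rule
-/

set_option linter.unusedSimpArgs false

namespace Helper42.L9

open Finset Helper33.L9

variable {V : Type*} {own : V → V → Prop} {c c' : V → ℕ} {M N : Multiset (Sym2 V)}
  {Inv : Multiset (Sym2 V) → Prop}

theorem IvC.rec' (hI : IvC own c c' Inv) (hM : ENetX own c c' M) (hIv : Inv M)
    (rec_ : ∀ N, ENetX own c c' N → Inv N → Multiset.card N < Multiset.card M → AT N c') :
    ∀ A : Finset V, (∀ x ∈ A, Nf c x) → Multiset.card (outt A M) < Multiset.card M →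
      AT (outt A M) c' :=
  fun A hA h => rec_ _ (hM.mono (outt_le _ _)) (hI.out M A hA hIv) h

/-- the `P_4` rule: own path `s, u, v, t` with two ends -/
theorem ENetX.p4 (hM : ENetX own c c' M) (hS : StkX c M) (hK : NoLong own c M)
    (hI : IvC own c c' Inv) (hIv : Inv M)
    (rec_ : ∀ N, ENetX own c c' N → Inv N → Multiset.card N < Multiset.card M → AT N c')
    {s u v t : V} (hs : c s = 2) (hu : c u = 3) (hv : c v = 3) (ht : c t = 2)
    (h1 : own s u) (h2 : own u v) (h3 : own v t) (hd : dg M u ≠ 0) : AT M c' := by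
  classical
  have rec' := hI.rec' hM hIv rec_
  have hsv : s ≠ v := by rintro rfl; omega
  have hsu : s ≠ u := by rintro rfl; omega
  have htu : t ≠ u := by rintro rfl; omega
  have htv : t ≠ v := by rintro rfl; omega
  have huv : u ≠ v := by rintro rfl; exact hM.irr _ h2
  have hst : s ≠ t := by
    rintro rfl
    exact huv (hM.oneE s u v hs h1 (hM.symm _ _ h3))
  obtain ⟨a, v', hLu⟩ := hM.locAt hu (by have := hS u hu hd; omega) (hM.symm _ _ h1) h2 hsv
  obtain ⟨hv1, hv2⟩ := hLu.hy hv
  have e1 : v' = t := hM.other (hM.symm _ _ h2) hv1 h3 hv2 htu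
  subst e1
  have hdv := (dg_pos hLu.mem2).2
  obtain ⟨b, u', hLv⟩ := hM.locAt hv (by have := hS v hv hdv; omega) h3 (hM.symm _ _ h2) htu
  obtain ⟨hv3, hv4⟩ := hLv.hy hu
  have e2 : u' = s := hM.other h2 hv3 (hM.symm _ _ h1) hv4 hsv
  subst e2
  have hau : a ≠ u := by
    rintro rfl
    exact hM.loopless _ hLu.mem3 rfl
  have hbv : b ≠ v := by
    rintro rfl
    exact hM.loopless _ hLv.mem3 rfl
  have hsw : s(u, v) = s(v, u) := Sym2.eq_swap
  by_cases hav : a = v
  · -- double edge
    subst hav
    have c1 := count_fl M u a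
    rw [hLu.edges, hLv.edges] at c1
    have d1 : s(u, a) ≠ s(u, u') := by
      intro h; rw [Sym2.eq_iff] at h; rcases h with ⟨_, h⟩ | ⟨h, h'⟩
      · exact hsv h.symm
      · exact hsu h.symm
    have d2 : s(u, a) ≠ s(u, v') := by
      intro h; rw [Sym2.eq_iff] at h; rcases h with ⟨_, h⟩ | ⟨h, h'⟩
      · exact htv h.symm
      · exact htu h.symm
    have d3 : s(u, a) ≠ s(a, v') := by
      intro h; rw [Sym2.eq_iff] at h; rcases h with ⟨h, _⟩ | ⟨h, h'⟩
      · exact huv h
      · exact htu h.symm
    have d4 : s(u, a) ≠ s(a, u') := by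
      intro h; rw [Sym2.eq_iff] at h; rcases h with ⟨h, _⟩ | ⟨h, h'⟩
      · exact huv h
      · exact hsu h.symm
    have hbu : b = u := by
      by_contra hbu
      have d5 : s(u, a) ≠ s(a, b) := by
        intro h; rw [Sym2.eq_iff] at h; rcases h with ⟨h, _⟩ | ⟨h, h'⟩
        · exact huv h
        · exact hbu h.symm
      simp only [Multiset.insert_eq_cons, Multiset.count_cons, Multiset.count_singleton, d1, d2,
        d3, d4, d5, hsw.symm, if_true, if_false] at c1
      omega
    subst hbu
    have h5 : (fl M a).filter (fun e => b ∉ e) = {s(a, v'), s(a, u')} := by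
      rw [hLv.edges]
      simp only [Multiset.insert_eq_cons]
      rw [Multiset.filter_cons_of_pos, Multiset.filter_cons_of_neg, Multiset.filter_cons_of_neg,
        Multiset.filter_singleton, if_pos]
      · rw [Sym2.mem_iff]; tauto
      · rw [Sym2.mem_iff]; tauto
      · rw [Sym2.mem_iff]; tauto
      · rw [Sym2.mem_iff]; tauto
    have h6 := split_gen M b a
    rw [h5, hLu.edges] at h6
    have h7 : M = s(b, a) ::ₘ s(b, a) ::ₘ s(b, u') ::ₘ s(b, v') ::ₘ s(a, v') ::ₘ s(a, u') ::ₘ
        rest M b a := by
      conv_lhs => rw [← h6]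
      simp only [Multiset.insert_eq_cons, ← Multiset.singleton_add]
      abel
    have h8 : AT (rest M b a) c' := by
      rw [rest_eq_outt]
      exact rec' _ (nf_pair (Or.inr hu) (Or.inr hv)) (card_outt_lt (w := b) (x := a) (by simp) hLu.mem2)
    rw [h7]
    exact at_ring huv hsu hsv htu htv htu htv hsu hsv rest_left rest_right h8 (hM.cap3 hu)
      (hM.cap3 hv)
  have hbu : b ≠ u := by
    intro hbu
    subst hbu
    have c1 := count_fl M b v
    rw [hLu.edges, hLv.edges] at c1
    have d1 : s(b, v) ≠ s(b, u') := by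
      intro h; rw [Sym2.eq_iff] at h; rcases h with ⟨_, h⟩ | ⟨h, h'⟩
      · exact hsv h.symm
      · exact hsu h.symm
    have d2 : s(b, v) ≠ s(b, v') := by
      intro h; rw [Sym2.eq_iff] at h; rcases h with ⟨_, h⟩ | ⟨h, h'⟩
      · exact htv h.symm
      · exact htu h.symm
    have d3 : s(b, v) ≠ s(v, v') := by
      intro h; rw [Sym2.eq_iff] at h; rcases h with ⟨h, _⟩ | ⟨h, h'⟩
      · exact huv h
      · exact htu h.symm
    have d4 : s(b, v) ≠ s(v, u') := by
      intro h; rw [Sym2.eq_iff] at h; rcases h with ⟨h, _⟩ | ⟨h, h'⟩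
      · exact huv h
      · exact hsu h.symm
    have d5 : s(b, v) ≠ s(b, a) := by
      intro h; rw [Sym2.eq_iff] at h; rcases h with ⟨_, h⟩ | ⟨h, h'⟩
      · exact hav h.symm
      · exact hau h.symm
    simp only [Multiset.insert_eq_cons, Multiset.count_cons, Multiset.count_singleton, d1, d2,
      d3, d4, d5, hsw.symm, if_true, if_false] at c1
    omega
  have hmid : Mid own c u v := ⟨hu, hv, h2, ⟨u', hM.symm _ _ h1, hs⟩, v', h3, ht⟩
  have hpu : Port own c M u a := ⟨hu, u', v, v', hs, hLu⟩
  have hpv : Port own c M v b := ⟨hv, v', u, u', ht, hLv⟩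
  have hab : a ≠ b := by
    rintro rfl
    by_cases h : c a ≠ 3
    · exact hM.noLoop a h (Lp.start hmid hpu hpv)
    · rw [not_not] at h
      have hda := (dg_pos hLu.mem3).2
      obtain ⟨x, y, x', y', hLa⟩ := hM.loc a h (by have := hS a h hda; omega)
      have nau : ¬ own a u := by
        intro hau'
        rcases hM.two u u' v a (hM.symm _ _ h1) h2 (hM.symm _ _ hau') with h | h | h
        · exact hsv h
        · rw [h] at hs; omega
        · exact hav h.symm
      have nav : ¬ own a v := by
        intro hav'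
        rcases hM.two v v' u a h3 (hM.symm _ _ h2) (hM.symm _ _ hav') with h | h | h
        · exact htu h
        · rw [h] at ht; omega
        · exact hau h.symm
      have m1 : s(a, u) ∈ fl M a :=
        mem_fl.mpr ⟨by rw [Sym2.eq_swap]; exact hLu.mem3, Sym2.mem_mk_left _ _⟩
      have m2 : s(a, v) ∈ fl M a :=
        mem_fl.mpr ⟨by rw [Sym2.eq_swap]; exact hLv.mem3, Sym2.mem_mk_left _ _⟩
      have q1 : u = x' ∨ u = y' := by
        rw [hLa.edges] at m1
        simp only [Multiset.insert_eq_cons, Multiset.mem_cons, Multiset.mem_singleton,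
          Sym2.eq_iff] at m1
        have n1 : u ≠ x := by rintro rfl; exact nau hLa.ox
        have n2 : u ≠ y := by rintro rfl; exact nau hLa.oy
        tauto
      have q2 : v = x' ∨ v = y' := by
        rw [hLa.edges] at m2
        simp only [Multiset.insert_eq_cons, Multiset.mem_cons, Multiset.mem_singleton,
          Sym2.eq_iff] at m2
        have n1 : v ≠ x := by rintro rfl; exact nav hLa.ox
        have n2 : v ≠ y := by rintro rfl; exact nav hLa.oy
        tauto
      -- the vertex behind which `u` lies is an end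
      have k1 : ∀ z, own a z → c z = 3 → ¬ own z u := by
        intro z hz hcz hzu
        rcases hM.two u u' v z (hM.symm _ _ h1) h2 (hM.symm _ _ hzu) with h | h | h
        · exact hsv h
        · rw [h] at hs; omega
        · rw [← h] at hz; exact nav hz
      have k2 : ∀ z, own a z → c z = 3 → ¬ own z v := by
        intro z hz hcz hzv
        rcases hM.two v v' u z h3 (hM.symm _ _ h2) (hM.symm _ _ hzv) with h | h | h
        · exact htu h
        · rw [h] at ht; omega
        · rw [← h] at hz; exact nau hz
      rcases hLa.one with hcx | hcy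
      · have f1 := (hLa.bx hcx).1
        rcases q1 with q1 | q1
        · rw [← q1] at f1; exact k1 x hLa.ox hcx f1
        · rcases q2 with q2 | q2
          · rw [← q2] at f1; exact k2 x hLa.ox hcx f1
          · exact huv (q1.trans q2.symm)
      · have f1 := (hLa.hy hcy).1
        rcases q1 with q1 | q1
        · rcases q2 with q2 | q2
          · exact huv (q1.trans q2.symm)
          · rw [← q2] at f1; exact k2 y hLa.oy hcy f1
        · rw [← q1] at f1; exact k1 y hLa.oy hcy f1
  have helim : AT (outt {u', v'} (s(a, b) ::ₘ outt {u, v} M)) c' → AT M c' := by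
    intro hAT
    refine AT.elim (u := u) (v := v) (s := u') (t := v') (a := a) (b := b) hM.loopless huv
      hab hav hbu hsu hsv htu htv hst ?_ ?_ (hM.cap3 hu) (hM.cap3 hv) ?_ ?_ ?_
    · rw [hLu.edges]
      simp only [Multiset.insert_eq_cons, ← Multiset.singleton_add]
      abel
    · rw [hLv.edges]
      simp only [Multiset.insert_eq_cons, ← Multiset.singleton_add]
      abel
    · have := hM.le4' (Or.inl hs); have := hM.cap2 hs; omega
    · have := hM.le4' (Or.inl ht); have := hM.cap2 ht; omega
    · rw [rest_eq_outt]; exact hAT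
  · by_cases hα : a ∈ ({u', v'} : Finset V) ∨ b ∈ ({u', v'} : Finset V)
    · refine helim ?_
      rw [outt_cons_neg hα, outt_outt]
      exact rec' _ (nf_union (nf_pair (Or.inr hu) (Or.inr hv))
        (nf_pair (Or.inl hs) (Or.inl ht))) (card_outt_lt (w := u) (x := v) (by simp) hLu.mem2)
    rw [not_or] at hα
    rw [outt_cons_pos hα.1 hα.2, outt_outt] at helim
    have has : a ≠ u' := by rintro rfl; exact hα.1 (by simp)
    have hat : a ≠ v' := by rintro rfl; exact hα.1 (by simp)
    have hbs : b ≠ u' := by rintro rfl; exact hα.2 (by simp)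
    have hbt : b ≠ v' := by rintro rfl; exact hα.2 (by simp)
    set R : Finset V := {u, v} ∪ {u', v'} with hR
    change AT (nw M R a b) c' → AT M c' at helim
    have memR : ∀ x, x ∈ R ↔ x = u ∨ x = v ∨ x = u' ∨ x = v' := by
      intro x
      rw [hR]
      simp only [Finset.mem_union, Finset.mem_insert, Finset.mem_singleton]
      tauto
    have hnf : ∀ x ∈ R, Nf c x :=
      nf_union (nf_pair (Or.inr hu) (Or.inr hv)) (nf_pair (Or.inl hs) (Or.inl ht))
    have hcl : ∀ x ∈ R, ∀ y, own x y → y ∈ R := by
      intro x hx y hxy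
      rw [memR] at hx ⊢
      rcases hx with rfl | rfl | rfl | rfl
      · rcases hM.two x u' v y (hM.symm _ _ h1) h2 hxy with h | h | h
        · exact absurd h hsv
        · exact Or.inr (Or.inr (Or.inl h.symm))
        · exact Or.inr (Or.inl h.symm)
      · rcases hM.two x v' u y h3 (hM.symm _ _ h2) hxy with h | h | h
        · exact absurd h htu
        · exact Or.inr (Or.inr (Or.inr h.symm))
        · exact Or.inl h.symm
      · exact Or.inl (hM.oneE x y u hs hxy h1)
      · exact Or.inr (Or.inl (hM.oneE x y v ht hxy (hM.symm _ _ h3)))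
    have haR : a ∉ R := by rw [memR]; tauto
    have hbR : b ∉ R := by rw [memR]; tauto
    have hla : Link own c M R a u :=
      { mem := by rw [memR]; tauto
        edge := by rw [Sym2.eq_swap]; exact hLu.mem3
        nown := by
          intro h
          rcases hM.two u u' v a (hM.symm _ _ h1) h2 (hM.symm _ _ h) with h | h | h
          · exact hsv h
          · exact has h.symm
          · exact hav h.symm
        beh := by
          intro X h _
          rw [memR]
          rcases hM.two u u' v X (hM.symm _ _ h1) h2 (hM.symm _ _ h) with h | h | h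
          · exact absurd h hsv
          · exact Or.inr (Or.inr (Or.inl h.symm))
          · exact Or.inr (Or.inl h.symm) }
    have hlb : Link own c M R b v :=
      { mem := by rw [memR]; tauto
        edge := by rw [Sym2.eq_swap]; exact hLv.mem3
        nown := by
          intro h
          rcases hM.two v v' u b h3 (hM.symm _ _ h2) (hM.symm _ _ h) with h | h | h
          · exact htu h
          · exact hbt h.symm
          · exact hbu h.symm
        beh := by
          intro X h _
          rw [memR]
          rcases hM.two v v' u X h3 (hM.symm _ _ h2) (hM.symm _ _ h) with h | h | h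
          · exact absurd h htu
          · exact Or.inr (Or.inr (Or.inr h.symm))
          · exact Or.inl h.symm }
    have hsa : Sees own c M R a := Or.inl ⟨u, hla⟩
    have hsb : Sees own c M R b := Or.inl ⟨v, hlb⟩
    have hcard : Multiset.card (nw M R a b) < Multiset.card M :=
      card_nw_lt (w := u) (x := v) (y := u') (by rw [memR]; tauto) (by rw [memR]; tauto)
        hsv.symm hLu.mem2 hLu.mem1
    have hLp : ∀ t x, Lp own c (nw M R a b) t x → Lp own c M t x := fun t x h =>
      lp_of_nwX hM haR hbR hla hlb hmid hpu hpv h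
    have hPt : ∀ x p, Port own c (nw M R a b) x p → Port own c M x p ∨ Lp own c M x p := by
      intro x p h
      rcases port_casesX hM haR hbR hla hlb h with h | ⟨rfl, rfl, _⟩ | ⟨rfl, rfl, _⟩
      · exact Or.inl h
      · exact Or.inr (Lp.start hmid hpu hpv)
      · exact Or.inr (Lp.start (hmid.swap hM.symm) hpv hpu)
    by_cases hK4 : ∀ a' b' d e, c a' = 2 → c b' = 2 → c d = 2 → c e = 2 → [a', b', d, e].Nodup →
      s(a', b') ∈ nw M R a b → s(a', d) ∈ nw M R a b → s(a', e) ∈ nw M R a b →
      s(b', d) ∈ nw M R a b → s(b', e) ∈ nw M R a b → s(d, e) ∈ nw M R a b → False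
    · refine helim (rec_ _ ?_ (hI.wire M R a b u v hM hIv hab haR hbR hnf hcl hmid hd hla hlb)
        hcard)
      have hK' := hK.nw hsa hsb
      refine hM.nw_base hab haR hbR hsa hsb ?_ ?_ ?_
      · intro t ht h
        exact hM.noLoop t ht (hLp _ _ h)
      · intro s u w v t g1 g2 g3 g4 g5 g6 g7 g8 g9 g10 k1 k2 g11 g12
        refine hM.noU s u w v t g1 g2 g3 g4 g5 g6 g7 g8 g9 g10 (nw_full hsa hsb s k1)
          (nw_full hsa hsb t k2) ?_ ?_
        · rcases g11 with h | h
          · exact hPt _ _ h
          · exact Or.inr (hLp _ _ h)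
        · rcases g12 with h | h
          · exact hPt _ _ h
          · exact Or.inr (hLp _ _ h)
      · intro a' b' d e g1 g2 g3 g4 g5 g6 g7 g8 g9 g10 g11
        exact hK4 a' b' d e g1 g2 g3 g4 g5 (hK'.rg g1 g2 g6) (hK'.rg g1 g3 g7)
          (hK'.rg g1 g4 g8) (hK'.rg g2 g3 g9) (hK'.rg g2 g4 g10) (hK'.rg g3 g4 g11)
    · push Not at hK4
      obtain ⟨x, y, z, w, cx, cy, cz, cw, hn, hxy, hxz, hxw, hyz, hyw, hzw⟩ := hK4
      -- a new `K_4`
      have h0 : ∀ a' b' d e, c a' = 2 → c b' = 2 → c d = 2 → c e = 2 → [a', b', d, e].Nodup →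
          s(a', b') ∈ outt R M → s(a', d) ∈ outt R M → s(a', e) ∈ outt R M →
          s(b', d) ∈ outt R M → s(b', e) ∈ outt R M → s(d, e) ∈ outt R M → False := by
        intro a' b' d e g1 g2 g3 g4 g5 g6 g7 g8 g9 g10 g11
        exact hM.noK4 a' b' d e g1 g2 g3 g4 g5 (Or.inl (mem_outt.mp g6).1)
          (Or.inl (mem_outt.mp g7).1) (Or.inl (mem_outt.mp g8).1) (Or.inl (mem_outt.mp g9).1)
          (Or.inl (mem_outt.mp g10).1) (Or.inl (mem_outt.mp g11).1)
      obtain ⟨p, q, ca, cb, cp, cq, hn', hap, haq, hbp, hbq, hpq⟩ :=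
        new_K4 h0 cx cy cz cw hn hxy hxz hxw hyz hyw hzw.1
      have hpR : p ∉ R := (mem_outt.mp hap).2 p (Sym2.mem_mk_right _ _)
      have hqR : q ∉ R := (mem_outt.mp haq).2 q (Sym2.mem_mk_right _ _)
      have hap' := (mem_outt.mp hap).1
      have haq' := (mem_outt.mp haq).1
      have hbp' := (mem_outt.mp hbp).1
      have hbq' := (mem_outt.mp hbq).1
      have hpq' := (mem_outt.mp hpq).1
      rw [memR] at hpR hqR
      simp only [List.nodup_cons, List.mem_cons, List.not_mem_nil, or_false, not_or,
        List.nodup_nil, and_true, not_false_eq_true] at hn' hpR hqR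
      obtain ⟨⟨n1, n2, n3⟩, ⟨n4, n5⟩, n6⟩ := hn'
      obtain ⟨p1, p2, p3, p4⟩ := hpR
      obtain ⟨q1, q2, q3, q4⟩ := hqR
      have sw : ∀ {x y : V}, s(x, y) ∈ M → s(y, x) ∈ M := by
        intro x y h; rw [Sym2.eq_swap]; exact h
      have da : dg M a = 3 := by
        refine hM.deg3 hS (y₁ := p) (y₂ := q) (y₃ := u) ca ?_ hap' haq' hla.edge cp cq
          (Or.inr ⟨hla.nown, ?_⟩)
        · simp only [List.nodup_cons, List.mem_cons, List.not_mem_nil, or_false, not_or,
            List.nodup_nil, and_true, not_false_eq_true]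
          exact ⟨⟨n2, n3, hau⟩, ⟨n6, p1⟩, q1⟩
        · intro X hX hcX haX
          have := hla.beh X hX hcX
          rw [memR] at this
          rcases this with rfl | rfl | rfl | rfl
          · exact hM.irr _ hX
          · rcases hM.two X v' u a h3 (hM.symm _ _ h2) (hM.symm _ _ haX) with h | h | h
            · exact htu h
            · exact hat h.symm
            · exact hau h.symm
          · omega
          · omega
      have db : dg M b = 3 := by
        refine hM.deg3 hS (y₁ := p) (y₂ := q) (y₃ := v) cb ?_ hbp' hbq' hlb.edge cp cq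
          (Or.inr ⟨hlb.nown, ?_⟩)
        · simp only [List.nodup_cons, List.mem_cons, List.not_mem_nil, or_false, not_or,
            List.nodup_nil, and_true, not_false_eq_true]
          exact ⟨⟨n4, n5, hbv⟩, ⟨n6, p2⟩, q2⟩
        · intro X hX hcX hbX
          have := hlb.beh X hX hcX
          rw [memR] at this
          rcases this with rfl | rfl | rfl | rfl
          · rcases hM.two X u' v b (hM.symm _ _ h1) h2 (hM.symm _ _ hbX) with h | h | h
            · exact hsv h
            · exact hbs h.symm
            · exact hbv h.symm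
          · exact hM.irr _ hX
          · omega
          · omega
      have dp : dg M p = 3 := by
        refine hM.deg3 hS (y₁ := a) (y₂ := b) (y₃ := q) cp ?_ (sw hap') (sw hbp') hpq' ca cb
          (Or.inl cq)
        simp only [List.nodup_cons, List.mem_cons, List.not_mem_nil, or_false, not_or,
          List.nodup_nil, and_true, not_false_eq_true]
        exact ⟨⟨Ne.symm n2, Ne.symm n4, n6⟩, ⟨n1, n3⟩, n5⟩
      have dq : dg M q = 3 := by
        refine hM.deg3 hS (y₁ := a) (y₂ := b) (y₃ := p) cq ?_ (sw haq') (sw hbq') (sw hpq') ca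
          cb (Or.inl cp)
        simp only [List.nodup_cons, List.mem_cons, List.not_mem_nil, or_false, not_or,
          List.nodup_nil, and_true, not_false_eq_true]
        exact ⟨⟨Ne.symm n3, Ne.symm n5, Ne.symm n6⟩, ⟨n1, n2⟩, n4⟩
      refine AT.b6X (a := a) (b := b) (p := p) (q := q) (u := u) (v := v) (s := u') (t := v')
        ?_ hM.loopless hap' haq' hbp' hbq' hpq' hla.edge hLu.mem2 (sw hlb.edge) hLu.mem1
        hLu.mem4 hLv.mem4 hLv.mem1 da.le db.le dp.le dq.le (hM.le4' (Or.inr hu)) (hM.le4' (Or.inr hv))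
        (hM.cap2 ca) (hM.cap2 cb) (hM.cap2 cp) (hM.cap2 cq) (hM.cap3 hu) (hM.cap3 hv) ?_
      · simp only [List.nodup_cons, List.mem_cons, List.not_mem_nil, or_false, not_or,
          List.nodup_nil, and_true, not_false_eq_true]
        exact ⟨⟨n1, n2, n3, hau, hav, has, hat⟩, ⟨n4, n5, hbu, hbv, hbs, hbt⟩,
          ⟨n6, p1, p2, p3, p4⟩, ⟨q1, q2, q3, q4⟩, ⟨huv, hsu.symm, htu.symm⟩,
          ⟨hsv.symm, htv.symm⟩, hst⟩
      · intro A huA hA
        refine rec' _ (fun x hx => ?_) (card_outt_lt (w := a) (x := u) huA hla.edge)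
        have := hA x hx
        simp only [List.mem_cons, List.not_mem_nil, or_false] at this
        rcases this with rfl | rfl | rfl | rfl | rfl | rfl | rfl | rfl
        exacts [Or.inl ca, Or.inl cb, Or.inl cp, Or.inl cq, Or.inr hu, Or.inr hv, Or.inl hs,
          Or.inl ht]

end Helper42.L9
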