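import Pool.Agent.helper42.L9.EX6

/-!
# E-phase with exempt vertices: the `P_5` rule
-/

set_option linter.unusedSimpArgs false

namespace Helper42.L9

open Finset Helper33.L9

variable {V : Type*} {own : V → V → Prop} {c c' : V → ℕ} {M N : Multiset (Sym2 V)}
  {Inv : Multiset (Sym2 V) → Prop} {Bad : Multiset (Sym2 V) → V → V → V → V → V → V → Prop}

/-- the induction invariant at a `P_5`: the step may be forbidden by `Bad`; then the other
mode is used, and if it is blocked as well, `kill` applies -/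
structure Iv5 (own : V → V → Prop) (c c' : V → ℕ) (Inv : Multiset (Sym2 V) → Prop)
    (Bad : Multiset (Sym2 V) → V → V → V → V → V → V → Prop) : Prop where
  step : ∀ (M : Multiset (Sym2 V)) (R : Finset V) (s u w v t a : V), ENetX own c c' M →
    Inv M → NoMid own c M → P5At own c M s u w v t a → ¬ Bad M s u w v t a → a ∉ R → t ∉ R →
    (∀ x, x ∈ R ↔ x = u ∨ x = w ∨ x = s ∨ x = v) → Inv (nw M R a t)
  kill : ∀ (M : Multiset (Sym2 V)) (s u w v t a b : V), ENetX own c c' M → StkX c M →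
    NoMid own c M → Inv M →
    (∀ N, ENetX own c c' N → Inv N → Multiset.card N < Multiset.card M → AT N c') →
    P5At own c M s u w v t a → LocAt own c M v t w b u → Bad M s u w v t a →
    (b = s ∨ (∃ x y, K4At c M t v w u s b x y) ∨
      (P5At own c M t v w u s b ∧ Bad M t v w u s b)) → AT M c'

/-- one way to eliminate a pair in a `P_5` -/
theorem ENetX.p5_mode (hM : ENetX own c c' M) (hS : StkX c M) (hK : NoLong own c M)
    (hNM : NoMid own c M)
    (hI : IvC own c c' Inv) (h5 : Iv5 own c c' Inv Bad) (hIv : Inv M)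
    (rec_ : ∀ N, ENetX own c c' N → Inv N → Multiset.card N < Multiset.card M → AT N c')
    {s u w v t a : V} (hP : P5At own c M s u w v t a) :
    AT M c' ∨ (∃ p q, K4At c M s u w v t a p q) ∨ Bad M s u w v t a := by
  classical
  have rec' := hI.rec' hM hIv rec_
  by_cases hBad : Bad M s u w v t a
  · exact Or.inr (Or.inr hBad)
  obtain ⟨hs, hu, hw, hv, ht, h1, h2, h3, h4, huv, hLu, hLw, ⟨b₀, hLv0⟩, hat⟩ := id hP
  have hLv := hLv0.mem1
  have hsv : s ≠ v := by rintro rfl; omega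
  have hsu : s ≠ u := by rintro rfl; omega
  have hsw : s ≠ w := by rintro rfl; omega
  have htu : t ≠ u := by rintro rfl; omega
  have htv : t ≠ v := by rintro rfl; omega
  have htw : t ≠ w := by rintro rfl; omega
  have huw : u ≠ w := by rintro rfl; exact hM.irr _ h2
  have hvw : v ≠ w := by rintro rfl; exact hM.irr _ h3
  have hst : s ≠ t := by
    rintro rfl
    exact huv (hM.oneE s u v hs h1 (hM.symm _ _ h4))
  have hau : a ≠ u := by
    rintro rfl
    exact hM.loopless _ hLu.mem3 rfl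
  have haw : a ≠ w := by
    rintro rfl
    have c1 := count_fl M u a
    rw [hLu.edges, hLw.edges] at c1
    have d1 : s(u, a) ≠ s(u, s) := by
      intro h; rw [Sym2.eq_iff] at h; rcases h with ⟨_, h⟩ | ⟨h, h'⟩
      · exact hsw h.symm
      · exact hsu h.symm
    have d2 : s(u, a) ≠ s(u, v) := by
      intro h; rw [Sym2.eq_iff] at h; rcases h with ⟨_, h⟩ | ⟨h, h'⟩
      · exact hvw h.symm
      · exact huv h
    have d3 : s(u, a) ≠ s(a, v) := by
      intro h; rw [Sym2.eq_iff] at h; rcases h with ⟨h, _⟩ | ⟨h, h'⟩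
      · exact huw h
      · exact huv h
    have d4 : s(u, a) ≠ s(a, s) := by
      intro h; rw [Sym2.eq_iff] at h; rcases h with ⟨h, _⟩ | ⟨h, h'⟩
      · exact huw h
      · exact hsu h.symm
    have d5 : s(u, a) ≠ s(a, t) := by
      intro h; rw [Sym2.eq_iff] at h; rcases h with ⟨h, _⟩ | ⟨h, h'⟩
      · exact huw h
      · exact htu h.symm
    have d6 : s(u, a) = s(a, u) := Sym2.eq_swap
    simp only [Multiset.insert_eq_cons, Multiset.count_cons, Multiset.count_singleton, d1, d2,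
      d3, d4, d5, d6.symm, if_true, if_false] at c1
    omega
  have helim : AT (outt {s, v} (s(a, t) ::ₘ outt {u, w} M)) c' → AT M c' := by
    intro hAT
    refine AT.elim (u := u) (v := w) (s := s) (t := v) (a := a) (b := t) hM.loopless huw
      hat haw htu hsu hsw huv.symm hvw hsv ?_ ?_ (hM.cap3 hu) (hM.cap3 hw) ?_ ?_ ?_
    · rw [hLu.edges]
      simp only [Multiset.insert_eq_cons, ← Multiset.singleton_add]
      abel
    · rw [hLw.edges]
      simp only [Multiset.insert_eq_cons, ← Multiset.singleton_add]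
      abel
    · have := hM.le4' (Or.inl hs); have := hM.cap2 hs; omega
    · have := hM.le4' (Or.inr hv); have := hM.cap3 hv; omega
    · rw [rest_eq_outt]; exact hAT
  by_cases hα : a ∈ ({s, v} : Finset V)
  · left
    refine helim ?_
    rw [outt_cons_neg (Or.inl hα), outt_outt]
    exact rec' _ (nf_union (nf_pair (Or.inr hu) (Or.inr hw))
      (nf_pair (Or.inl hs) (Or.inr hv))) (card_outt_lt (w := u) (x := w) (by simp) hLu.mem2)
  have htR : t ∉ ({s, v} : Finset V) := by simp [hst.symm, htv]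
  rw [outt_cons_pos hα htR, outt_outt] at helim
  have has : a ≠ s := by rintro rfl; exact hα (by simp)
  have hav : a ≠ v := by rintro rfl; exact hα (by simp)
  set R : Finset V := {u, w} ∪ {s, v} with hR
  change AT (nw M R a t) c' → AT M c' at helim
  have memR : ∀ x, x ∈ R ↔ x = u ∨ x = w ∨ x = s ∨ x = v := by
    intro x
    rw [hR]
    simp only [Finset.mem_union, Finset.mem_insert, Finset.mem_singleton]
    tauto
  have haR : a ∉ R := by rw [memR]; tauto
  have htR : t ∉ R := by rw [memR]; tauto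
  have hla : Link own c M R a u :=
    { mem := by rw [memR]; tauto
      edge := mem_swap hLu.mem3
      nown := by
        intro h
        rcases hM.two u s w a (hM.symm _ _ h1) h2 (hM.symm _ _ h) with h | h | h
        · exact hsw h
        · exact has h.symm
        · exact haw h.symm
      beh := by
        intro X h _
        rw [memR]
        rcases hM.two u s w X (hM.symm _ _ h1) h2 (hM.symm _ _ h) with h | h | h
        · exact absurd h hsw
        · exact Or.inr (Or.inr (Or.inl h.symm))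
        · exact Or.inr (Or.inl h.symm) }
  have hsa : Sees own c M R a := Or.inl ⟨u, hla⟩
  have hsb : Sees own c M R t := Or.inr ⟨ht, w, v, by rw [memR]; tauto, by rw [memR]; tauto,
    hvw.symm, mem_swap hLw.mem4, mem_swap hLv⟩
  have hcard : Multiset.card (nw M R a t) < Multiset.card M :=
    card_nw_lt (w := u) (x := w) (y := s) (by rw [memR]; tauto) (by rw [memR]; tauto)
      hsw.symm hLu.mem2 hLu.mem1
  have hNM' := hNM.nw hsa hsb
  have hPt : ∀ x p, Port own c (nw M R a t) x p → Port own c M x p ∨ (x = a ∧ p = t) := by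
    intro x p h
    by_cases hxa : x = a
    · subst hxa
      exact Or.inr ⟨rfl, (nw_port_leftX hM haR hla h).1⟩
    · have hxt : x ≠ t := by
        rintro rfl
        have := h.1
        omega
      exact Or.inl (nw_port_otherX hM hxa hxt h)
  by_cases hK4 : ∀ a' b' d e, c a' = 2 → c b' = 2 → c d = 2 → c e = 2 → [a', b', d, e].Nodup →
    s(a', b') ∈ nw M R a t → s(a', d) ∈ nw M R a t → s(a', e) ∈ nw M R a t →
    s(b', d) ∈ nw M R a t → s(b', e) ∈ nw M R a t → s(d, e) ∈ nw M R a t → False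
  · left
    refine helim (rec_ _ ?_ (h5.step M R s u w v t a hM hIv hNM hP hBad haR htR memR) hcard)
    have hK' := hK.nw hsa hsb
    refine hM.nw_base hat haR htR hsa hsb ?_ ?_ ?_
    · intro t ht h
      exact hNM'.lp hM.symm h
    · intro s₁ u₁ w₁ v₁ t₁ g1 g2 g3 g4 g5 g6 g7 g8 g9 g10 q1 q2 g11 g12
      have k1 := g11.resolve_right (hNM'.lp hM.symm)
      have k2 := g12.resolve_right (hNM'.lp hM.symm)
      refine hM.noU s₁ u₁ w₁ v₁ t₁ g1 g2 g3 g4 g5 g6 g7 g8 g9 g10 (nw_full hsa hsb s₁ q1)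
        (nw_full hsa hsb t₁ q2) ?_ ?_
      · rcases hPt _ _ k1 with h | ⟨e1, e2⟩
        · exact Or.inl h
        · exfalso
          -- `v₁ = v`, `w₁ = w`, `u₁ = u`
          rw [e2] at g9
          have f1 : v₁ = v := hM.oneE t v₁ v ht (hM.symm _ _ g9) (hM.symm _ _ h4)
          rw [f1] at g8
          have f2 : w₁ = w := by
            rcases hM.two v w₁ w t (hM.symm _ _ g8) (hM.symm _ _ h3) h4 with h | h | h
            · exact h
            · rw [h] at g3; omega
            · exact absurd h.symm htw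
          rw [f2] at g7
          rcases hM.two w u₁ u v (hM.symm _ _ g7) (hM.symm _ _ h2) h3 with h | h | h
          · exact hau (e1.symm.trans h)
          · exact g10 (h.trans f1.symm)
          · exact huv h
      · rcases hPt _ _ k2 with h | ⟨e1, e2⟩
        · exact Or.inl h
        · exfalso
          rw [e2] at g6
          have f1 : u₁ = v := hM.oneE t u₁ v ht g6 (hM.symm _ _ h4)
          rw [f1] at g7
          have f2 : w₁ = w := by
            rcases hM.two v w₁ w t g7 (hM.symm _ _ h3) h4 with h | h | h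
            · exact h
            · rw [h] at g3; omega
            · exact absurd h.symm htw
          rw [f2] at g8
          rcases hM.two w v₁ u v g8 (hM.symm _ _ h2) h3 with h | h | h
          · exact hau (e1.symm.trans h)
          · exact g10 (f1.trans h.symm)
          · exact huv h
    · intro a' b' d e g1 g2 g3 g4 g5 g6 g7 g8 g9 g10 g11
      exact hK4 a' b' d e g1 g2 g3 g4 g5 (hK'.rg g1 g2 g6) (hK'.rg g1 g3 g7)
        (hK'.rg g1 g4 g8) (hK'.rg g2 g3 g9) (hK'.rg g2 g4 g10) (hK'.rg g3 g4 g11)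
  · right; left
    push Not at hK4
    obtain ⟨x, y, z, x', cx, cy, cz, cw, hn, hxy, hxz, hxw, hyz, hyw, hzw⟩ := hK4
    have h0 : ∀ a' b' d e, c a' = 2 → c b' = 2 → c d = 2 → c e = 2 → [a', b', d, e].Nodup →
        s(a', b') ∈ outt R M → s(a', d) ∈ outt R M → s(a', e) ∈ outt R M →
        s(b', d) ∈ outt R M → s(b', e) ∈ outt R M → s(d, e) ∈ outt R M → False := by
      intro a' b' d e g1 g2 g3 g4 g5 g6 g7 g8 g9 g10 g11
      exact hM.noK4 a' b' d e g1 g2 g3 g4 g5 (Or.inl (mem_outt.mp g6).1)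
        (Or.inl (mem_outt.mp g7).1) (Or.inl (mem_outt.mp g8).1) (Or.inl (mem_outt.mp g9).1)
        (Or.inl (mem_outt.mp g10).1) (Or.inl (mem_outt.mp g11).1)
    obtain ⟨p, q, ca, cb, cp, cq, hn', hap, haq, hbp, hbq, hpq⟩ :=
      new_K4 h0 cx cy cz cw hn hxy hxz hxw hyz hyw hzw.1
    have hpR : p ∉ R := (mem_outt.mp hap).2 p (Sym2.mem_mk_right _ _)
    have hqR : q ∉ R := (mem_outt.mp haq).2 q (Sym2.mem_mk_right _ _)
    have hap' := (mem_outt.mp hap).1
    have haq' := (mem_outt.mp haq).1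
    have hbp' := (mem_outt.mp hbp).1
    have hbq' := (mem_outt.mp hbq).1
    have hpq' := (mem_outt.mp hpq).1
    rw [memR] at hpR hqR
    simp only [List.nodup_cons, List.mem_cons, List.not_mem_nil, or_false, not_or,
      List.nodup_nil, and_true, not_false_eq_true] at hn' hpR hqR
    obtain ⟨⟨n1, n2, n3⟩, ⟨n4, n5⟩, n6⟩ := hn'
    obtain ⟨p1, p2, p3, p4⟩ := hpR
    obtain ⟨q1, q2, q3, q4⟩ := hqR
    have da : dg M a = 3 := by
      refine hM.deg3 hS (y₁ := p) (y₂ := q) (y₃ := u) ca ?_ hap' haq' hla.edge cp cq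
        (Or.inr ⟨hla.nown, ?_⟩)
      · simp only [List.nodup_cons, List.mem_cons, List.not_mem_nil, or_false, not_or,
          List.nodup_nil, and_true, not_false_eq_true]
        exact ⟨⟨n2, n3, hau⟩, ⟨n6, p1⟩, q1⟩
      · intro X hX hcX haX
        have := hla.beh X hX hcX
        rw [memR] at this
        rcases this with rfl | rfl | rfl | rfl
        · exact hM.irr _ hX
        · rcases hM.two X u v a (hM.symm _ _ h2) h3 (hM.symm _ _ haX) with h | h | h
          · exact huv h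
          · exact hau h.symm
          · exact hav h.symm
        · omega
        · rcases hM.two X t w a h4 (hM.symm _ _ h3) (hM.symm _ _ haX) with h | h | h
          · exact htw h
          · exact hat h.symm
          · exact haw h.symm
    have dp : dg M p = 3 := by
      refine hM.deg3 hS (y₁ := a) (y₂ := t) (y₃ := q) cp ?_ (mem_swap hap') (mem_swap hbp') hpq'
        ca cb (Or.inl cq)
      simp only [List.nodup_cons, List.mem_cons, List.not_mem_nil, or_false, not_or,
        List.nodup_nil, and_true, not_false_eq_true]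
      exact ⟨⟨Ne.symm n2, Ne.symm n4, n6⟩, ⟨n1, n3⟩, n5⟩
    have dq : dg M q = 3 := by
      refine hM.deg3 hS (y₁ := a) (y₂ := t) (y₃ := p) cq ?_ (mem_swap haq') (mem_swap hbq')
        (mem_swap hpq') ca cb (Or.inl cp)
      simp only [List.nodup_cons, List.mem_cons, List.not_mem_nil, or_false, not_or,
        List.nodup_nil, and_true, not_false_eq_true]
      exact ⟨⟨Ne.symm n3, Ne.symm n5, Ne.symm n6⟩, ⟨n1, n2⟩, n4⟩
    refine ⟨p, q, ca, cp, cq, ?_, hap', haq', hbp', hbq', hpq', da, dp, dq⟩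
    simp only [List.nodup_cons, List.mem_cons, List.not_mem_nil, or_false, not_or,
      List.nodup_nil, and_true, not_false_eq_true]
    exact ⟨⟨hsu, hsw, hsv, hst, Ne.symm has, Ne.symm p3, Ne.symm q3⟩,
      ⟨huw, huv, htu.symm, Ne.symm hau, Ne.symm p1, Ne.symm q1⟩,
      ⟨hvw.symm, htw.symm, Ne.symm haw, Ne.symm p2, Ne.symm q2⟩,
      ⟨htv.symm, Ne.symm hav, Ne.symm p4, Ne.symm q4⟩,
      ⟨hat.symm, n4, n5⟩, ⟨n2, n3⟩, n6⟩

/-- the case of a chord `u t` -/
theorem ENetX.p5_chord (hM : ENetX own c c' M)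
    (rec' : ∀ A : Finset V, (∀ x ∈ A, Nf c x) → Multiset.card (outt A M) < Multiset.card M →
      AT (outt A M) c')
    {s u w v t b x y : V} (hs : c s = 2) (hu : c u = 3) (hw : c w = 3) (hv : c v = 3)
    (ht : c t = 2) (hLu : LocAt own c M u s w t v) (hLw : LocAt own c M w u v s t)
    (hLv : LocAt own c M v t w b u) (hk : K4At c M t v w u s b x y) : AT M c' := by
  have hne := hk.ne
  simp only [List.nodup_cons, List.mem_cons, List.not_mem_nil, or_false, not_or,
    List.nodup_nil, and_true, not_false_eq_true] at hne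
  obtain ⟨⟨tv, tw, tu, ts, tb, tx, ty⟩, ⟨vw, vu, vs, vb, vx, vy⟩, ⟨wu, ws, wb, wx, wy⟩,
    ⟨us, ub, ux, uy⟩, ⟨sb, sx, sy⟩, ⟨bx, b_y⟩, xy⟩ := hne
  refine AT.b8X (v1 := s) (v2 := u) (v3 := w) (v4 := v) (v5 := t) (b := b) (x := x) (y := y)
    ?_ hM.loopless (mem_swap hLu.mem1) (mem_swap hLw.mem3) hLu.mem2 hLu.mem4 hLw.mem2 hLw.mem4
    hLv.mem1 hLu.mem3 hLv.mem3 hk.tp hk.tq hk.ap hk.aq hk.pq (hM.le4' (Or.inl hs))
    (hM.le4' (Or.inr hu)) (hM.le4' (Or.inr hw)) (hM.le4' (Or.inr hv)) (hM.le4' (Or.inl ht))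
    hk.da.le hk.dp.le hk.dq.le (hM.cap2 hs) (hM.cap3 hu) (hM.cap3 hw) (hM.cap3 hv)
    (hM.cap2 ht) (hM.cap2 hk.ca) (hM.cap2 hk.cp) (hM.cap2 hk.cq) ?_
  · simp only [List.nodup_cons, List.mem_cons, List.not_mem_nil, or_false, not_or,
      List.nodup_nil, and_true, not_false_eq_true]
    exact ⟨⟨Ne.symm us, Ne.symm ws, Ne.symm vs, Ne.symm ts, sb, sx, sy⟩,
      ⟨Ne.symm wu, Ne.symm vu, Ne.symm tu, ub, ux, uy⟩, ⟨Ne.symm vw, Ne.symm tw, wb, wx, wy⟩,
      ⟨Ne.symm tv, vb, vx, vy⟩, ⟨tb, tx, ty⟩, ⟨bx, b_y⟩, xy⟩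
  · intro A hA hA'
    refine rec' _ (fun z hz => ?_) (card_outt_lt (w := u) (x := s) hA hLu.mem1)
    have := hA' z hz
    simp only [List.mem_cons, List.not_mem_nil, or_false] at this
    rcases this with rfl | rfl | rfl | rfl | rfl | rfl | rfl | rfl
    exacts [Or.inl hs, Or.inr hu, Or.inr hw, Or.inr hv, Or.inl ht, Or.inl hk.ca, Or.inl hk.cp,
      Or.inl hk.cq]

/-- the `P_5` rule -/
theorem ENetX.p5 (hM : ENetX own c c' M) (hS : StkX c M) (hK : NoLong own c M)
    (hNM : NoMid own c M)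
    (hI : IvC own c c' Inv) (h5 : Iv5 own c c' Inv Bad) (hIv : Inv M)
    (rec_ : ∀ N, ENetX own c c' N → Inv N → Multiset.card N < Multiset.card M → AT N c')
    {s u w v t : V} (hs : c s = 2) (hu : c u = 3) (hw : c w = 3) (hv : c v = 3) (ht : c t = 2)
    (h1 : own s u) (h2 : own u w) (h3 : own w v) (h4 : own v t) (huv : u ≠ v)
    (hd : dg M u ≠ 0) : AT M c' := by
  classical
  have rec' := hI.rec' hM hIv rec_
  have hsv : s ≠ v := by rintro rfl; omega
  have hsu : s ≠ u := by rintro rfl; omega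
  have hsw : s ≠ w := by rintro rfl; omega
  have htu : t ≠ u := by rintro rfl; omega
  have htv : t ≠ v := by rintro rfl; omega
  have htw : t ≠ w := by rintro rfl; omega
  have huw : u ≠ w := by rintro rfl; exact hM.irr _ h2
  have hvw : v ≠ w := by rintro rfl; exact hM.irr _ h3
  obtain ⟨a, v', hLu⟩ := hM.locAt hu (by have := hS u hu hd; omega) (hM.symm _ _ h1) h2 hsw
  obtain ⟨k1, k2⟩ := hLu.hy hw
  have e1 : v' = v := hM.other (hM.symm _ _ h2) k1 h3 k2 huv.symm
  subst e1
  have hdw := (dg_pos hLu.mem2).2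
  obtain ⟨s', t', hLw⟩ := hM.locAt hw (by have := hS w hw hdw; omega) (hM.symm _ _ h2) h3 huv
  obtain ⟨k3, k4⟩ := hLw.bx hu
  have e2 : s' = s := hM.other h2 k3 (hM.symm _ _ h1) k4 hsw
  subst e2
  obtain ⟨k5, k6⟩ := hLw.hy hv
  have e3 : t' = t := hM.other (hM.symm _ _ h3) k5 h4 k6 htw
  subst e3
  have hdv := (dg_pos hLw.mem2).2
  obtain ⟨b, u', hLv⟩ := hM.locAt hv (by have := hS v' hv hdv; omega) h4 (hM.symm _ _ h3) htw
  obtain ⟨k7, k8⟩ := hLv.hy hw
  have e4 : u' = u := hM.other h3 k7 (hM.symm _ _ h2) k8 huv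
  subst e4
  have hpu : Port own c M u' a := ⟨hu, s', w, v', hs, hLu⟩
  have hpv : Port own c M v' b := ⟨hv, t', w, u', ht, hLv⟩
  -- the two modes
  have P5 : a ≠ t' → P5At own c M s' u' w v' t' a := fun hat =>
    ⟨hs, hu, hw, hv, ht, h1, h2, h3, h4, huv, hLu, hLw, ⟨b, hLv⟩, hat⟩
  have P1 : b ≠ s' → P5At own c M t' v' w u' s' b := fun hbs =>
    ⟨ht, hv, hw, hu, hs, hM.symm _ _ h4, hM.symm _ _ h3, hM.symm _ _ h2, hM.symm _ _ h1,
      huv.symm, hLv, hLw.swap, ⟨a, hLu⟩, hbs⟩
  have mode5 := fun (hat : a ≠ t') => hM.p5_mode hS hK hNM hI h5 hIv rec_ (P5 hat)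
  have mode1 := fun (hbs : b ≠ s') => hM.p5_mode hS hK hNM hI h5 hIv rec_ (P1 hbs)
  have kill5 := fun (hat : a ≠ t') => h5.kill M s' u' w v' t' a b hM hS hNM hIv rec_ (P5 hat) hLv
  have kill1 := fun (hbs : b ≠ s') => h5.kill M t' v' w u' s' b a hM hS hNM hIv rec_ (P1 hbs) hLu
  by_cases hat : a = t'
  · subst hat
    by_cases hbs : b = s'
    · subst hbs
      have hst : b ≠ a := by
        rintro rfl
        exact huv (hM.oneE b u' v' hs h1 (hM.symm _ _ h4))
      by_cases hds : 4 ≤ dg M b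
      · by_cases hdt : 4 ≤ dg M a
        · exact (hM.noU b u' w v' a hs hu hw hv ht h1 h2 h3 h4 huv hds hdt (Or.inl hpu)
            (Or.inl hpv)).elim
        · refine AT.b5X (v1 := a) (v2 := v') (v3 := w) (v4 := u') (v5 := b) ?_ hM.loopless
            (mem_swap hLv.mem1) (mem_swap hLw.mem4) hLv.mem2 hLv.mem4 hLw.mem1 hLw.mem3
            hLu.mem1 hLv.mem3 (mem_swap hLu.mem3) (by omega) (hM.le4' (Or.inr hv))
            (hM.le4' (Or.inr hw)) (hM.le4' (Or.inr hu)) (hM.le4' (Or.inl hs)) (hM.cap2 ht)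
            (hM.cap3 hv) (hM.cap3 hw) (hM.cap3 hu) (hM.cap2 hs) ?_
          · simp only [List.nodup_cons, List.mem_cons, List.not_mem_nil, or_false, not_or,
              List.nodup_nil, and_true, not_false_eq_true]
            exact ⟨⟨htv, htw, htu, hst.symm⟩, ⟨hvw, huv.symm, hsv.symm⟩,
              ⟨huw.symm, hsw.symm⟩, hsu.symm⟩
          · intro A hA hA'
            refine rec' _ (fun z hz => ?_) (card_outt_lt (w := v') (x := a) hA hLv.mem1)
            have := hA' z hz
            simp only [List.mem_cons, List.not_mem_nil, or_false] at this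
            rcases this with rfl | rfl | rfl | rfl | rfl
            exacts [Or.inl ht, Or.inr hv, Or.inr hw, Or.inr hu, Or.inl hs]
      · refine AT.b5X (v1 := b) (v2 := u') (v3 := w) (v4 := v') (v5 := a) ?_ hM.loopless
          (mem_swap hLu.mem1) (mem_swap hLw.mem3) hLu.mem2 hLu.mem4 hLw.mem2 hLw.mem4
          hLv.mem1 hLu.mem3 (mem_swap hLv.mem3) (by omega) (hM.le4' (Or.inr hu))
          (hM.le4' (Or.inr hw)) (hM.le4' (Or.inr hv)) (hM.le4' (Or.inl ht)) (hM.cap2 hs)
          (hM.cap3 hu) (hM.cap3 hw) (hM.cap3 hv) (hM.cap2 ht) ?_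
        · simp only [List.nodup_cons, List.mem_cons, List.not_mem_nil, or_false, not_or,
            List.nodup_nil, and_true, not_false_eq_true]
          exact ⟨⟨hsu, hsw, hsv, hst⟩, ⟨huw, huv, htu.symm⟩, ⟨hvw.symm, htw.symm⟩,
            htv.symm⟩
        · intro A hA hA'
          refine rec' _ (fun z hz => ?_) (card_outt_lt (w := u') (x := b) hA hLu.mem1)
          have := hA' z hz
          simp only [List.mem_cons, List.not_mem_nil, or_false] at this
          rcases this with rfl | rfl | rfl | rfl | rfl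
          exacts [Or.inl hs, Or.inr hu, Or.inr hw, Or.inr hv, Or.inl ht]
    rcases mode1 hbs with h | ⟨x, y, hk⟩ | hB
    · exact h
    · exact hM.p5_chord rec' hs hu hw hv ht hLu hLw hLv hk
    · exact kill1 hbs hB (Or.inl rfl)
  · rcases mode5 hat with h | ⟨p, q, hk5⟩ | hB
    · exact h
    rotate_left
    · by_cases hbs : b = s'
      · exact kill5 hat hB (Or.inl hbs)
      · rcases mode1 hbs with h | ⟨x, y, hk1⟩ | hB1
        · exact h
        · exact kill5 hat hB (Or.inr (Or.inl ⟨x, y, hk1⟩))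
        · exact kill5 hat hB (Or.inr (Or.inr ⟨P1 hbs, hB1⟩))
    by_cases hbs : b = s'
    · subst hbs
      exact hM.p5_chord rec' ht hv hw hu hs hLv hLw.swap hLu hk5
    · rcases mode1 hbs with h | ⟨x, y, hk1⟩ | hB1
      · exact h
      rotate_left
      · exact kill1 hbs hB1 (Or.inr (Or.inl ⟨p, q, hk5⟩))
      have hne5 := hk5.ne
      have hne1 := hk1.ne
      simp only [List.nodup_cons, List.mem_cons, List.not_mem_nil, or_false, not_or,
        List.nodup_nil, and_true, not_false_eq_true] at hne5 hne1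
      obtain ⟨⟨f1, f2, f3, f4, f5, f6, f7⟩, ⟨g1, g2, g3, g4, g5, g6⟩, ⟨i1, i2, i3, i4, i5⟩,
        ⟨j1, j2, j3, j4⟩, ⟨l1, l2, l3⟩, ⟨o1, o2⟩, r1⟩ := hne5
      obtain ⟨⟨f1', f2', f3', f4', f5', f6', f7'⟩, ⟨g1', g2', g3', g4', g5', g6'⟩,
        ⟨i1', i2', i3', i4', i5'⟩,
        ⟨j1', j2', j3', j4'⟩, ⟨l1', l2', l3'⟩, ⟨o1', o2'⟩, r1'⟩ := hne1
      have key : ∀ z, (z = a ∨ z = p ∨ z = q) → z ≠ b ∧ z ≠ x ∧ z ≠ y := by
        intro z hz
        refine ⟨?_, ?_, ?_⟩
        · rintro rfl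
          exact hk5.no_nbr (mem_swap hLu.mem3) hz (Or.inr rfl) (mem_swap hLv.mem3)
        · rintro rfl
          exact hk5.no_nbr (mem_swap hLu.mem3) hz (Or.inl rfl) (mem_swap hk1.tp)
        · rintro rfl
          exact hk5.no_nbr (mem_swap hLu.mem3) hz (Or.inl rfl) (mem_swap hk1.tq)
      obtain ⟨ab, ax, ay⟩ := key a (Or.inl rfl)
      obtain ⟨pb, px, py⟩ := key p (Or.inr (Or.inl rfl))
      obtain ⟨qb, qx, qy⟩ := key q (Or.inr (Or.inr rfl))
      refine AT.b11X (v1 := s') (v2 := u') (v3 := w) (v4 := v') (v5 := t') (a := a) (p := p)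
        (q := q) (b := b) (x := x) (y := y) ?_ hM.loopless (mem_swap hLu.mem1)
        (mem_swap hLw.mem3) hLu.mem2 hLu.mem4 hLw.mem2 hLw.mem4 hLv.mem1 hLu.mem3 hk5.tp hk5.tq
        hk5.ap hk5.aq hk5.pq hLv.mem3 hk1.tp hk1.tq hk1.ap hk1.aq hk1.pq 
        (hM.le4' (Or.inl hs)) (hM.le4' (Or.inr hu)) (hM.le4' (Or.inr hw)) (hM.le4' (Or.inr hv))
        (hM.le4' (Or.inl ht)) hk5.da.le hk5.dp.le hk5.dq.le hk1.da.le hk1.dp.le hk1.dq.le
        (hM.cap2 hs) (hM.cap3 hu) (hM.cap3 hw) (hM.cap3 hv) (hM.cap2 ht) (hM.cap2 hk5.ca)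
        (hM.cap2 hk5.cp) (hM.cap2 hk5.cq) (hM.cap2 hk1.ca) (hM.cap2 hk1.cp)
        (hM.cap2 hk1.cq) ?_
      · simp only [List.nodup_cons, List.mem_cons, List.not_mem_nil, or_false, not_or,
          List.nodup_nil, and_true, not_false_eq_true]
        exact ⟨⟨f1, f2, f3, f4, f5, f6, f7, l1', l2', l3'⟩,
          ⟨g1, g2, g3, g4, g5, g6, j2', j3', j4'⟩, ⟨i1, i2, i3, i4, i5, i3', i4', i5'⟩,
          ⟨j1, j2, j3, j4, g4', g5', g6'⟩, ⟨l1, l2, l3, f5', f6', f7'⟩,
          ⟨o1, o2, ab, ax, ay⟩, ⟨r1, pb, px, py⟩, ⟨qb, qx, qy⟩, ⟨o1', o2'⟩, r1'⟩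
      · intro A hA hA'
        refine rec' _ (fun z hz => ?_) (card_outt_lt (w := u') (x := s') hA hLu.mem1)
        have := hA' z hz
        simp only [List.mem_cons, List.not_mem_nil, or_false] at this
        rcases this with rfl | rfl | rfl | rfl | rfl | rfl | rfl | rfl | rfl | rfl | rfl
        exacts [Or.inl hs, Or.inr hu, Or.inr hw, Or.inr hv, Or.inl ht, Or.inl hk5.ca,
          Or.inl hk5.cp, Or.inl hk5.cq, Or.inl hk1.ca, Or.inl hk1.cp, Or.inl hk1.cq]

end Helper42.L9
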