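import Pool.Agent.helper42.L9.EX7

/-!
# E-phase with exempt vertices: the main theorem
-/

set_option linter.unusedSimpArgs false

namespace Helper42.L9

open Finset Helper33.L9

variable {V : Type*} {own : V → V → Prop} {c c' : V → ℕ} {M N : Multiset (Sym2 V)}
  {Inv : Multiset (Sym2 V) → Prop} {Bad : Multiset (Sym2 V) → V → V → V → V → V → V → Prop}

/-- an inner vertex of positive degree lies in a `P_4` or `P_5`, or in a long unit -/
theorem ENetX.unit (hM : ENetX own c c' M) (hS : StkX c M) (hK : NoLong own c M)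
    (hC : ∀ s' s u v t, c s' = 3 → c s = 3 → c u = 3 → c v = 3 → c t = 3 → own s' s → own s u →
      own u v → own v t → s' ≠ u → s ≠ v → u ≠ t → dg M u = 0)
    (hNM : NoMid own c M) {u : V} (hu : c u = 3) (hd : dg M u ≠ 0) :
    ∃ s u w v t, c s = 2 ∧ c u = 3 ∧ c w = 3 ∧ c v = 3 ∧ c t = 2 ∧ own s u ∧ own u w ∧
      own w v ∧ own v t ∧ u ≠ v ∧ dg M u ≠ 0 := by
  have full : ∀ {x : V}, dg M x ≠ 0 → c x = 3 → 4 ≤ dg M x := by
    intro x h1 h2
    exact hS x h2 h1
  have side : ∀ {u x y x' y' : V}, dg M u ≠ 0 → c u = 3 → LocAt own c M u x y x' y' →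
      c x = 3 → ∃ s u w v t, c s = 2 ∧ c u = 3 ∧ c w = 3 ∧ c v = 3 ∧ c t = 2 ∧ own s u ∧
      own u w ∧ own w v ∧ own v t ∧ u ≠ v ∧ dg M u ≠ 0 := by
    intro u x y x' y' hd hu hL hcx
    obtain ⟨k1, k2⟩ := hL.bx hcx
    have hdx := (dg_pos hL.mem1).2
    rcases hM.nf2 hL.oy with hcy | hcy
    · -- `y, u, x, x'`
      rcases hM.nf2 k1 with hcx' | hcx'
      · exfalso
        exact hd (hNM u x ⟨hu, hcx, hL.ox, ⟨y, hL.oy, hcy⟩, x', k1, hcx'⟩)
      · obtain ⟨z1, z2, hLx⟩ := hM.locAt hcx (full hdx hcx) (hM.symm _ _ hL.ox) k1 k2.symm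
        obtain ⟨k3, k4⟩ := hLx.hy hcx'
        rcases hM.nf2 k3 with hz | hz
        · exact ⟨y, u, x, x', z2, hcy, hu, hcx, hcx', hz, hM.symm _ _ hL.oy, hL.ox, k1, k3,
            k2.symm, hd⟩
        · exfalso
          exact hd (hK y u x x' z2 hcy hu hcx hcx' hz (hM.symm _ _ hL.oy) hL.ox k1 k3 k2.symm
            k4.symm)
    · obtain ⟨k3, k4⟩ := hL.hy hcy
      have hdy := (dg_pos hL.mem2).2
      rcases hM.nf2 k1 with hcx' | hcx'
      · rcases hM.nf2 k3 with hcy' | hcy'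
        · exact ⟨x', x, u, y, y', hcx', hcx, hu, hcy, hcy', hM.symm _ _ k1,
            hM.symm _ _ hL.ox, hL.oy, k3, hL.ne, hdx⟩
        · exfalso
          exact hdx (hK x' x u y y' hcx' hcx hu hcy hcy' (hM.symm _ _ k1) (hM.symm _ _ hL.ox)
            hL.oy k3 hL.ne k4.symm)
      · rcases hM.nf2 k3 with hcy' | hcy'
        · exfalso
          exact hdy (hK y' y u x x' hcy' hcy hu hcx hcx' (hM.symm _ _ k3) (hM.symm _ _ hL.oy)
            hL.ox k1 hL.ne.symm k2.symm)
        · exfalso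
          exact hd (hC x' x u y y' hcx' hcx hu hcy hcy' (hM.symm _ _ k1) (hM.symm _ _ hL.ox)
            hL.oy k3 k2 hL.ne k4.symm)
  obtain ⟨x, y, x', y', hL⟩ := hM.loc u hu (full hd hu)
  rcases hL.one with h | h
  · exact side hd hu hL h
  · exact side hd hu hL.swap h

/-- **E-phase with exempt vertices.** -/
theorem ENetX.at_aux (hI : IvC own c c' Inv) (h5 : Iv5 own c c' Inv Bad)
    (hfin : ∀ N, ENetX own c c' N → Inv N → (∀ u, c u = 3 → dg N u = 0) →
      (∀ u, c u = 2 → dg N u ≤ 3) → AT N c') :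
    ∀ (n : ℕ) (M : Multiset (Sym2 V)), Multiset.card M ≤ n →
    ENetX own c c' M → Inv M → AT M c' := by
  classical
  intro n
  induction n with
  | zero =>
    intro M hn _ _
    have : M = 0 := Multiset.card_eq_zero.mp (by omega)
    subst this
    exact at_zero _
  | succ n ih =>
    intro M hn hM hIv
    have rec_ : ∀ N, ENetX own c c' N → Inv N → Multiset.card N < Multiset.card M → AT N c' :=
      fun N hN hIN h => ih N (by omega) hN hIN
    have rec' := hI.rec' hM hIv rec_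
    by_cases hS : StkX c M
    swap
    · unfold StkX at hS
      push Not at hS
      obtain ⟨v, hc, hv, hv'⟩ := hS
      obtain ⟨w, hw⟩ := exists_edge hv
      have := hM.cap3 hc
      exact AT.peel v M c' hM.loopless (by omega)
        (rec' _ (nf_single (Or.inr hc)) (card_outt_lt (w := w) (x := v) (by simp) hw))
    by_cases hK : NoLong own c M
    swap
    · unfold NoLong at hK
      push Not at hK
      obtain ⟨s, u, v, t, t', h1, h2, h3, h4, h5, h6, h7, h8, h9, h10, h11, h12⟩ := hK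
      by_cases hp : Port own c M u t'
      · exact hM.rung hS hI hIv rec_ h1 h2 h3 h4 h5 h6 h7 h8 h9 h10 h11 hp
      · exact hM.kill1 hS rec' h1 h2 h3 h4 h5 h6 h7 h8 h9 h10 h11 h12 hp
    by_cases hC : ∀ s' s u v t, c s' = 3 → c s = 3 → c u = 3 → c v = 3 → c t = 3 → own s' s →
        own s u → own u v → own v t → s' ≠ u → s ≠ v → u ≠ t → dg M u = 0
    swap
    · push Not at hC
      obtain ⟨s', s, u, v, t, h1, h2, h3, h4, h5, h6, h7, h8, h9, h10, h11, h12, h13⟩ := hC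
      exact hM.kill2 hS rec' h1 h2 h3 h4 h5 h6 h7 h8 h9 h10 h11 h12 h13
    by_cases hNM : NoMid own c M
    swap
    · unfold NoMid at hNM
      push Not at hNM
      obtain ⟨u, v, ⟨h1, h2, h3, ⟨s, h4, h5⟩, t, h6, h7⟩, hd⟩ := hNM
      exact hM.p4 hS hK hI hIv rec_ h5 h1 h2 h7 (hM.symm _ _ h4) h3 h6 hd
    by_cases h3 : ∃ u, c u = 3 ∧ dg M u ≠ 0
    · obtain ⟨u, hu, hd⟩ := h3
      obtain ⟨s, u, w, v, t, h1, h2, h3, h4, h5', h6, h7, h8, h9, h10, h11⟩ :=
        hM.unit hS hK hC hNM hu hd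
      exact hM.p5 hS hK hNM hI h5 hIv rec_ h1 h2 h3 h4 h5' h6 h7 h8 h9 h10 h11
    · push Not at h3
      refine hfin M hM hIv h3 ?_
      intro v h1
      by_contra hcon
      obtain ⟨u, u', e1, e2, e3, e4, e5, e6⟩ := hM.heavy v h1 (by omega)
      exact (dg_pos e5).2 (h3 u e1)

/-- **E-phase with exempt vertices.** -/
theorem ENetX.at (hI : IvC own c c' Inv) (h5 : Iv5 own c c' Inv Bad)
    (hfin : ∀ N, ENetX own c c' N → Inv N → (∀ u, c u = 3 → dg N u = 0) →
      (∀ u, c u = 2 → dg N u ≤ 3) → AT N c')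
    (hM : ENetX own c c' M) (hIv : Inv M) : AT M c' :=
  ENetX.at_aux hI h5 hfin _ M le_rfl hM hIv

end Helper42.L9
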