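import Pool.Agent.helper42.L9.EX8

/-!
# Certificate blocks: a `P_5` with triangles of cells `F`

`v1 .. v5` the `P_5`; a triangle `a p q` (`v2 a`, `v5 p`, `v5 q`) is ordinary (type K) or it
consists of the vertices `p u v` of a cell, `Q` is the last vertex of the cell.
Type A1: `a` is the first vertex, type A2: `q` is the first vertex of the cell.
-/

set_option linter.unusedSimpArgs false
set_option linter.unusedVariables false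

namespace Helper42.L9

open Finset Helper33.L9

variable {V : Type*} {c : V → ℕ} {M : Multiset (Sym2 V)}

def k9 : List (Fin 9 × Fin 9) :=
  [(0, 1), (0, 2), (1, 2), (1, 3), (2, 3), (2, 4), (3, 4), (1, 4), (3, 5), (0, 6), (0, 7), (5, 6), (5, 7), (6, 7)]

theorem co_k9 : co k9 ![2,2,3,1,1,2,2,1,0] ≠ 0 := by decide +kernel

def k12 : List (Fin 12 × Fin 12) :=
  [(0, 1), (0, 2), (1, 2), (1, 3), (2, 3), (2, 4), (3, 4), (1, 5), (4, 6), (4, 7), (5, 6), (5, 7), (6, 7), (3, 8), (0, 9), (0, 10), (8, 9), (8, 10), (9, 10)]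

theorem co_k12 : co k12 ![1,1,2,3,2,2,1,2,2,1,2,0] ≠ 0 := by decide +kernel

def k13 : List (Fin 13 × Fin 13) :=
  [(0, 1), (0, 2), (1, 2), (1, 3), (2, 3), (2, 4), (3, 4), (1, 5), (4, 6), (4, 7), (5, 6), (5, 7), (6, 7), (3, 8), (0, 9), (0, 10), (8, 9), (8, 10), (9, 10)]

theorem co_k13 : co k13 ![1,1,2,3,2,2,1,2,2,1,2,0,0] ≠ 0 := by decide +kernel

theorem AT.kcA1 {v1 v2 v3 v4 v5 b x y Q : V}
    (hn : [v1, v2, v3, v4, v5, b, x, y, Q].Nodup) (hl : ∀ e ∈ M, ¬ e.IsDiag)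
    (m1 : s(v1, v2) ∈ M) (m2 : s(v1, v3) ∈ M) (m3 : s(v2, v3) ∈ M) (m4 : s(v2, v4) ∈ M)
    (m5 : s(v3, v4) ∈ M) (m6 : s(v3, v5) ∈ M) (m7 : s(v4, v5) ∈ M) (m8 : s(v2, v5) ∈ M)
    (m9 : s(v4, b) ∈ M) (m10 : s(v1, x) ∈ M) (m11 : s(v1, y) ∈ M) (m12 : s(b, x) ∈ M)
    (m13 : s(b, y) ∈ M) (m14 : s(x, y) ∈ M) (m15 : s(x, Q) ∈ M) (m16 : s(y, Q) ∈ M)
    (d0 : dg M v1 ≤ 4) (c0 : 2 ≤ c v1) (d1 : dg M v2 ≤ 4) (c1 : 3 ≤ c v2)
    (d2 : dg M v3 ≤ 4) (c2 : 3 ≤ c v3) (d3 : dg M v4 ≤ 4) (c3 : 3 ≤ c v4)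
    (d4 : dg M v5 ≤ 4) (c4 : 2 ≤ c v5) (d5 : dg M b ≤ 3) (c5 : 2 ≤ c b)
    (d6 : dg M x ≤ 4) (c6 : 3 ≤ c x) (d7 : dg M y ≤ 4) (c7 : 3 ≤ c y)
    (h2 : ∀ A : Finset V, (∀ z, z ∈ A ↔ z ∈ [v1, v2, v3, v4, v5, b, x, y]) →
      AT (outt A M) c) : AT M c := by
  have hinj := List.nodup_iff_injective_get.mp hn
  refine AT.certBlock (n := 9) ([v1, v2, v3, v4, v5, b, x, y, Q].get) hinj hl
    {0, 1, 2, 3, 4, 5, 6, 7} k9 [(6, 8), (7, 8)]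
    ![2,2,3,1,1,2,2,1,0] 4 (by decide +kernel) ?_ (by decide +kernel) (by decide +kernel) ?_
    co_k9 ?_ (h2 _ ?_)
  · intro z hz
    simp only [k9, List.cons_append, List.nil_append, List.mem_cons, List.not_mem_nil,
      or_false] at hz
    rcases hz with rfl | rfl | rfl | rfl | rfl | rfl | rfl | rfl | rfl | rfl | rfl | rfl | rfl | rfl | rfl | rfl
    exacts [m1, m2, m3, m4, m5, m6, m7, m8, m9, m10, m11, m12, m13, m14, m15, m16]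
  · intro i hi hi0
    fin_cases i
    exacts [d0, d1, d2, d3, absurd rfl hi0, d5, d6, d7, absurd hi (by decide +kernel)]
  · intro i hi
    have k : ∀ (x : V) (i : Fin 9) (d : ℕ), dg M x ≤ d →
        ![2,2,3,1,1,2,2,1,0] i + d ≤ c x + cnt k9 i →
        ![2,2,3,1,1,2,2,1,0] i + dg M x ≤ c x + cnt k9 i := by
      intro x i d h1 h2; omega
    have e0 : ∀ i : Fin 9, cnt k9 i = ![4,4,4,4,3,3,3,3,0] i := by decide +kernel
    fin_cases i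
    · refine k v1 0 4 d0 ?_; rw [e0]; show 2 + 4 ≤ c v1 + 4; omega
    · refine k v2 1 4 d1 ?_; rw [e0]; show 2 + 4 ≤ c v2 + 4; omega
    · refine k v3 2 4 d2 ?_; rw [e0]; show 3 + 4 ≤ c v3 + 4; omega
    · refine k v4 3 4 d3 ?_; rw [e0]; show 1 + 4 ≤ c v4 + 4; omega
    · refine k v5 4 4 d4 ?_; rw [e0]; show 1 + 4 ≤ c v5 + 3; omega
    · refine k b 5 3 d5 ?_; rw [e0]; show 2 + 3 ≤ c b + 3; omega
    · refine k x 6 4 d6 ?_; rw [e0]; show 2 + 4 ≤ c x + 3; omega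
    · refine k y 7 4 d7 ?_; rw [e0]; show 1 + 4 ≤ c y + 3; omega
    · exact absurd hi (by decide +kernel)
  · intro z
    rw [Finset.mem_map]
    constructor
    · rintro ⟨i, hi, rfl⟩
      fin_cases i <;> first | exact absurd hi (by decide +kernel) | simp
    · intro hz
      simp only [List.mem_cons, List.not_mem_nil, or_false] at hz
      rcases hz with rfl | rfl | rfl | rfl | rfl | rfl | rfl | rfl
      exacts [⟨0, by decide +kernel, rfl⟩, ⟨1, by decide +kernel, rfl⟩, ⟨2, by decide +kernel, rfl⟩, ⟨3, by decide +kernel, rfl⟩, ⟨4, by decide +kernel, rfl⟩, ⟨5, by decide +kernel, rfl⟩, ⟨6, by decide +kernel, rfl⟩, ⟨7, by decide +kernel, rfl⟩]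

theorem AT.kcA2 {v1 v2 v3 v4 v5 b x y Q : V}
    (hn : [v1, v2, v3, v4, v5, b, x, y, Q].Nodup) (hl : ∀ e ∈ M, ¬ e.IsDiag)
    (m1 : s(v1, v2) ∈ M) (m2 : s(v1, v3) ∈ M) (m3 : s(v2, v3) ∈ M) (m4 : s(v2, v4) ∈ M)
    (m5 : s(v3, v4) ∈ M) (m6 : s(v3, v5) ∈ M) (m7 : s(v4, v5) ∈ M) (m8 : s(v2, v5) ∈ M)
    (m9 : s(v4, b) ∈ M) (m10 : s(v1, x) ∈ M) (m11 : s(v1, y) ∈ M) (m12 : s(b, x) ∈ M)
    (m13 : s(b, y) ∈ M) (m14 : s(x, y) ∈ M) (m15 : s(b, Q) ∈ M) (m16 : s(x, Q) ∈ M)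
    (d0 : dg M v1 ≤ 4) (c0 : 2 ≤ c v1) (d1 : dg M v2 ≤ 4) (c1 : 3 ≤ c v2)
    (d2 : dg M v3 ≤ 4) (c2 : 3 ≤ c v3) (d3 : dg M v4 ≤ 4) (c3 : 3 ≤ c v4)
    (d4 : dg M v5 ≤ 4) (c4 : 2 ≤ c v5) (d5 : dg M b ≤ 4) (c5 : 3 ≤ c b)
    (d6 : dg M x ≤ 4) (c6 : 3 ≤ c x) (d7 : dg M y ≤ 3) (c7 : 2 ≤ c y)
    (h2 : ∀ A : Finset V, (∀ z, z ∈ A ↔ z ∈ [v1, v2, v3, v4, v5, b, x, y]) →
      AT (outt A M) c) : AT M c := by
  have hinj := List.nodup_iff_injective_get.mp hn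
  refine AT.certBlock (n := 9) ([v1, v2, v3, v4, v5, b, x, y, Q].get) hinj hl
    {0, 1, 2, 3, 4, 5, 6, 7} k9 [(5, 8), (6, 8)]
    ![2,2,3,1,1,2,2,1,0] 4 (by decide +kernel) ?_ (by decide +kernel) (by decide +kernel) ?_
    co_k9 ?_ (h2 _ ?_)
  · intro z hz
    simp only [k9, List.cons_append, List.nil_append, List.mem_cons, List.not_mem_nil,
      or_false] at hz
    rcases hz with rfl | rfl | rfl | rfl | rfl | rfl | rfl | rfl | rfl | rfl | rfl | rfl | rfl | rfl | rfl | rfl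
    exacts [m1, m2, m3, m4, m5, m6, m7, m8, m9, m10, m11, m12, m13, m14, m15, m16]
  · intro i hi hi0
    fin_cases i
    exacts [d0, d1, d2, d3, absurd rfl hi0, d5, d6, d7, absurd hi (by decide +kernel)]
  · intro i hi
    have k : ∀ (x : V) (i : Fin 9) (d : ℕ), dg M x ≤ d →
        ![2,2,3,1,1,2,2,1,0] i + d ≤ c x + cnt k9 i →
        ![2,2,3,1,1,2,2,1,0] i + dg M x ≤ c x + cnt k9 i := by
      intro x i d h1 h2; omega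
    have e0 : ∀ i : Fin 9, cnt k9 i = ![4,4,4,4,3,3,3,3,0] i := by decide +kernel
    fin_cases i
    · refine k v1 0 4 d0 ?_; rw [e0]; show 2 + 4 ≤ c v1 + 4; omega
    · refine k v2 1 4 d1 ?_; rw [e0]; show 2 + 4 ≤ c v2 + 4; omega
    · refine k v3 2 4 d2 ?_; rw [e0]; show 3 + 4 ≤ c v3 + 4; omega
    · refine k v4 3 4 d3 ?_; rw [e0]; show 1 + 4 ≤ c v4 + 4; omega
    · refine k v5 4 4 d4 ?_; rw [e0]; show 1 + 4 ≤ c v5 + 3; omega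
    · refine k b 5 4 d5 ?_; rw [e0]; show 2 + 4 ≤ c b + 3; omega
    · refine k x 6 4 d6 ?_; rw [e0]; show 2 + 4 ≤ c x + 3; omega
    · refine k y 7 3 d7 ?_; rw [e0]; show 1 + 3 ≤ c y + 3; omega
    · exact absurd hi (by decide +kernel)
  · intro z
    rw [Finset.mem_map]
    constructor
    · rintro ⟨i, hi, rfl⟩
      fin_cases i <;> first | exact absurd hi (by decide +kernel) | simp
    · intro hz
      simp only [List.mem_cons, List.not_mem_nil, or_false] at hz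
      rcases hz with rfl | rfl | rfl | rfl | rfl | rfl | rfl | rfl
      exacts [⟨0, by decide +kernel, rfl⟩, ⟨1, by decide +kernel, rfl⟩, ⟨2, by decide +kernel, rfl⟩, ⟨3, by decide +kernel, rfl⟩, ⟨4, by decide +kernel, rfl⟩, ⟨5, by decide +kernel, rfl⟩, ⟨6, by decide +kernel, rfl⟩, ⟨7, by decide +kernel, rfl⟩]

theorem AT.kkA1 {v1 v2 v3 v4 v5 a p q b x y Q : V}
    (hn : [v1, v2, v3, v4, v5, a, p, q, b, x, y, Q].Nodup) (hl : ∀ e ∈ M, ¬ e.IsDiag)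
    (m1 : s(v1, v2) ∈ M) (m2 : s(v1, v3) ∈ M) (m3 : s(v2, v3) ∈ M) (m4 : s(v2, v4) ∈ M)
    (m5 : s(v3, v4) ∈ M) (m6 : s(v3, v5) ∈ M) (m7 : s(v4, v5) ∈ M) (m8 : s(v2, a) ∈ M)
    (m9 : s(v5, p) ∈ M) (m10 : s(v5, q) ∈ M) (m11 : s(a, p) ∈ M) (m12 : s(a, q) ∈ M)
    (m13 : s(p, q) ∈ M) (m14 : s(v4, b) ∈ M) (m15 : s(v1, x) ∈ M) (m16 : s(v1, y) ∈ M)
    (m17 : s(b, x) ∈ M) (m18 : s(b, y) ∈ M) (m19 : s(x, y) ∈ M) (m20 : s(p, Q) ∈ M)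
    (m21 : s(q, Q) ∈ M)
    (d0 : dg M v1 ≤ 4) (c0 : 2 ≤ c v1) (d1 : dg M v2 ≤ 4) (c1 : 3 ≤ c v2)
    (d2 : dg M v3 ≤ 4) (c2 : 3 ≤ c v3) (d3 : dg M v4 ≤ 4) (c3 : 3 ≤ c v4)
    (d4 : dg M v5 ≤ 4) (c4 : 2 ≤ c v5) (d5 : dg M a ≤ 3) (c5 : 2 ≤ c a)
    (d6 : dg M p ≤ 4) (c6 : 3 ≤ c p) (d7 : dg M q ≤ 4) (c7 : 3 ≤ c q)
    (d8 : dg M b ≤ 3) (c8 : 2 ≤ c b) (d9 : dg M x ≤ 3) (c9 : 2 ≤ c x)
    (d10 : dg M y ≤ 3) (c10 : 2 ≤ c y)
    (h2 : ∀ A : Finset V, (∀ z, z ∈ A ↔ z ∈ [v1, v2, v3, v4, v5, a, p, q, b, x, y]) →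
      AT (outt A M) c) : AT M c := by
  have hinj := List.nodup_iff_injective_get.mp hn
  refine AT.certBlock (n := 12) ([v1, v2, v3, v4, v5, a, p, q, b, x, y, Q].get) hinj hl
    {0, 1, 2, 3, 4, 5, 6, 7, 8, 9, 10} k12 [(6, 11), (7, 11)]
    ![1,1,2,3,2,2,1,2,2,1,2,0] 0 (by decide +kernel) ?_ (by decide +kernel) (by decide +kernel) ?_
    co_k12 ?_ (h2 _ ?_)
  · intro z hz
    simp only [k12, List.cons_append, List.nil_append, List.mem_cons, List.not_mem_nil,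
      or_false] at hz
    rcases hz with rfl | rfl | rfl | rfl | rfl | rfl | rfl | rfl | rfl | rfl | rfl | rfl | rfl | rfl | rfl | rfl | rfl | rfl | rfl | rfl | rfl
    exacts [m1, m2, m3, m4, m5, m6, m7, m8, m9, m10, m11, m12, m13, m14, m15, m16, m17, m18, m19, m20, m21]
  · intro i hi hi0
    fin_cases i
    exacts [absurd rfl hi0, d1, d2, d3, d4, d5, d6, d7, d8, d9, d10, absurd hi (by decide +kernel)]
  · intro i hi
    have k : ∀ (x : V) (i : Fin 12) (d : ℕ), dg M x ≤ d →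
        ![1,1,2,3,2,2,1,2,2,1,2,0] i + d ≤ c x + cnt k12 i →
        ![1,1,2,3,2,2,1,2,2,1,2,0] i + dg M x ≤ c x + cnt k12 i := by
      intro x i d h1 h2; omega
    have e0 : ∀ i : Fin 12, cnt k12 i = ![4,4,4,4,4,3,3,3,3,3,3,0] i := by decide +kernel
    fin_cases i
    · refine k v1 0 4 d0 ?_; rw [e0]; show 1 + 4 ≤ c v1 + 4; omega
    · refine k v2 1 4 d1 ?_; rw [e0]; show 1 + 4 ≤ c v2 + 4; omega
    · refine k v3 2 4 d2 ?_; rw [e0]; show 2 + 4 ≤ c v3 + 4; omega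
    · refine k v4 3 4 d3 ?_; rw [e0]; show 3 + 4 ≤ c v4 + 4; omega
    · refine k v5 4 4 d4 ?_; rw [e0]; show 2 + 4 ≤ c v5 + 4; omega
    · refine k a 5 3 d5 ?_; rw [e0]; show 2 + 3 ≤ c a + 3; omega
    · refine k p 6 4 d6 ?_; rw [e0]; show 1 + 4 ≤ c p + 3; omega
    · refine k q 7 4 d7 ?_; rw [e0]; show 2 + 4 ≤ c q + 3; omega
    · refine k b 8 3 d8 ?_; rw [e0]; show 2 + 3 ≤ c b + 3; omega
    · refine k x 9 3 d9 ?_; rw [e0]; show 1 + 3 ≤ c x + 3; omega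
    · refine k y 10 3 d10 ?_; rw [e0]; show 2 + 3 ≤ c y + 3; omega
    · exact absurd hi (by decide +kernel)
  · intro z
    rw [Finset.mem_map]
    constructor
    · rintro ⟨i, hi, rfl⟩
      fin_cases i <;> first | exact absurd hi (by decide +kernel) | simp
    · intro hz
      simp only [List.mem_cons, List.not_mem_nil, or_false] at hz
      rcases hz with rfl | rfl | rfl | rfl | rfl | rfl | rfl | rfl | rfl | rfl | rfl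
      exacts [⟨0, by decide +kernel, rfl⟩, ⟨1, by decide +kernel, rfl⟩, ⟨2, by decide +kernel, rfl⟩, ⟨3, by decide +kernel, rfl⟩, ⟨4, by decide +kernel, rfl⟩, ⟨5, by decide +kernel, rfl⟩, ⟨6, by decide +kernel, rfl⟩, ⟨7, by decide +kernel, rfl⟩, ⟨8, by decide +kernel, rfl⟩, ⟨9, by decide +kernel, rfl⟩, ⟨10, by decide +kernel, rfl⟩]

theorem AT.kkA2 {v1 v2 v3 v4 v5 a p q b x y Q : V}
    (hn : [v1, v2, v3, v4, v5, a, p, q, b, x, y, Q].Nodup) (hl : ∀ e ∈ M, ¬ e.IsDiag)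
    (m1 : s(v1, v2) ∈ M) (m2 : s(v1, v3) ∈ M) (m3 : s(v2, v3) ∈ M) (m4 : s(v2, v4) ∈ M)
    (m5 : s(v3, v4) ∈ M) (m6 : s(v3, v5) ∈ M) (m7 : s(v4, v5) ∈ M) (m8 : s(v2, a) ∈ M)
    (m9 : s(v5, p) ∈ M) (m10 : s(v5, q) ∈ M) (m11 : s(a, p) ∈ M) (m12 : s(a, q) ∈ M)
    (m13 : s(p, q) ∈ M) (m14 : s(v4, b) ∈ M) (m15 : s(v1, x) ∈ M) (m16 : s(v1, y) ∈ M)
    (m17 : s(b, x) ∈ M) (m18 : s(b, y) ∈ M) (m19 : s(x, y) ∈ M) (m20 : s(a, Q) ∈ M)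
    (m21 : s(p, Q) ∈ M)
    (d0 : dg M v1 ≤ 4) (c0 : 2 ≤ c v1) (d1 : dg M v2 ≤ 4) (c1 : 3 ≤ c v2)
    (d2 : dg M v3 ≤ 4) (c2 : 3 ≤ c v3) (d3 : dg M v4 ≤ 4) (c3 : 3 ≤ c v4)
    (d4 : dg M v5 ≤ 4) (c4 : 2 ≤ c v5) (d5 : dg M a ≤ 4) (c5 : 3 ≤ c a)
    (d6 : dg M p ≤ 4) (c6 : 3 ≤ c p) (d7 : dg M q ≤ 3) (c7 : 2 ≤ c q)
    (d8 : dg M b ≤ 3) (c8 : 2 ≤ c b) (d9 : dg M x ≤ 3) (c9 : 2 ≤ c x)
    (d10 : dg M y ≤ 3) (c10 : 2 ≤ c y)
    (h2 : ∀ A : Finset V, (∀ z, z ∈ A ↔ z ∈ [v1, v2, v3, v4, v5, a, p, q, b, x, y]) →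
      AT (outt A M) c) : AT M c := by
  have hinj := List.nodup_iff_injective_get.mp hn
  refine AT.certBlock (n := 12) ([v1, v2, v3, v4, v5, a, p, q, b, x, y, Q].get) hinj hl
    {0, 1, 2, 3, 4, 5, 6, 7, 8, 9, 10} k12 [(5, 11), (6, 11)]
    ![1,1,2,3,2,2,1,2,2,1,2,0] 0 (by decide +kernel) ?_ (by decide +kernel) (by decide +kernel) ?_
    co_k12 ?_ (h2 _ ?_)
  · intro z hz
    simp only [k12, List.cons_append, List.nil_append, List.mem_cons, List.not_mem_nil,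
      or_false] at hz
    rcases hz with rfl | rfl | rfl | rfl | rfl | rfl | rfl | rfl | rfl | rfl | rfl | rfl | rfl | rfl | rfl | rfl | rfl | rfl | rfl | rfl | rfl
    exacts [m1, m2, m3, m4, m5, m6, m7, m8, m9, m10, m11, m12, m13, m14, m15, m16, m17, m18, m19, m20, m21]
  · intro i hi hi0
    fin_cases i
    exacts [absurd rfl hi0, d1, d2, d3, d4, d5, d6, d7, d8, d9, d10, absurd hi (by decide +kernel)]
  · intro i hi
    have k : ∀ (x : V) (i : Fin 12) (d : ℕ), dg M x ≤ d →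
        ![1,1,2,3,2,2,1,2,2,1,2,0] i + d ≤ c x + cnt k12 i →
        ![1,1,2,3,2,2,1,2,2,1,2,0] i + dg M x ≤ c x + cnt k12 i := by
      intro x i d h1 h2; omega
    have e0 : ∀ i : Fin 12, cnt k12 i = ![4,4,4,4,4,3,3,3,3,3,3,0] i := by decide +kernel
    fin_cases i
    · refine k v1 0 4 d0 ?_; rw [e0]; show 1 + 4 ≤ c v1 + 4; omega
    · refine k v2 1 4 d1 ?_; rw [e0]; show 1 + 4 ≤ c v2 + 4; omega
    · refine k v3 2 4 d2 ?_; rw [e0]; show 2 + 4 ≤ c v3 + 4; omega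
    · refine k v4 3 4 d3 ?_; rw [e0]; show 3 + 4 ≤ c v4 + 4; omega
    · refine k v5 4 4 d4 ?_; rw [e0]; show 2 + 4 ≤ c v5 + 4; omega
    · refine k a 5 4 d5 ?_; rw [e0]; show 2 + 4 ≤ c a + 3; omega
    · refine k p 6 4 d6 ?_; rw [e0]; show 1 + 4 ≤ c p + 3; omega
    · refine k q 7 3 d7 ?_; rw [e0]; show 2 + 3 ≤ c q + 3; omega
    · refine k b 8 3 d8 ?_; rw [e0]; show 2 + 3 ≤ c b + 3; omega
    · refine k x 9 3 d9 ?_; rw [e0]; show 1 + 3 ≤ c x + 3; omega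
    · refine k y 10 3 d10 ?_; rw [e0]; show 2 + 3 ≤ c y + 3; omega
    · exact absurd hi (by decide +kernel)
  · intro z
    rw [Finset.mem_map]
    constructor
    · rintro ⟨i, hi, rfl⟩
      fin_cases i <;> first | exact absurd hi (by decide +kernel) | simp
    · intro hz
      simp only [List.mem_cons, List.not_mem_nil, or_false] at hz
      rcases hz with rfl | rfl | rfl | rfl | rfl | rfl | rfl | rfl | rfl | rfl | rfl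
      exacts [⟨0, by decide +kernel, rfl⟩, ⟨1, by decide +kernel, rfl⟩, ⟨2, by decide +kernel, rfl⟩, ⟨3, by decide +kernel, rfl⟩, ⟨4, by decide +kernel, rfl⟩, ⟨5, by decide +kernel, rfl⟩, ⟨6, by decide +kernel, rfl⟩, ⟨7, by decide +kernel, rfl⟩, ⟨8, by decide +kernel, rfl⟩, ⟨9, by decide +kernel, rfl⟩, ⟨10, by decide +kernel, rfl⟩]

theorem AT.kdA1A1 {v1 v2 v3 v4 v5 a p q b x y Q Q' : V}
    (hn : [v1, v2, v3, v4, v5, a, p, q, b, x, y, Q, Q'].Nodup) (hl : ∀ e ∈ M, ¬ e.IsDiag)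
    (m1 : s(v1, v2) ∈ M) (m2 : s(v1, v3) ∈ M) (m3 : s(v2, v3) ∈ M) (m4 : s(v2, v4) ∈ M)
    (m5 : s(v3, v4) ∈ M) (m6 : s(v3, v5) ∈ M) (m7 : s(v4, v5) ∈ M) (m8 : s(v2, a) ∈ M)
    (m9 : s(v5, p) ∈ M) (m10 : s(v5, q) ∈ M) (m11 : s(a, p) ∈ M) (m12 : s(a, q) ∈ M)
    (m13 : s(p, q) ∈ M) (m14 : s(v4, b) ∈ M) (m15 : s(v1, x) ∈ M) (m16 : s(v1, y) ∈ M)
    (m17 : s(b, x) ∈ M) (m18 : s(b, y) ∈ M) (m19 : s(x, y) ∈ M) (m20 : s(p, Q) ∈ M)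
    (m21 : s(q, Q) ∈ M) (m22 : s(x, Q') ∈ M) (m23 : s(y, Q') ∈ M)
    (d0 : dg M v1 ≤ 4) (c0 : 2 ≤ c v1) (d1 : dg M v2 ≤ 4) (c1 : 3 ≤ c v2)
    (d2 : dg M v3 ≤ 4) (c2 : 3 ≤ c v3) (d3 : dg M v4 ≤ 4) (c3 : 3 ≤ c v4)
    (d4 : dg M v5 ≤ 4) (c4 : 2 ≤ c v5) (d5 : dg M a ≤ 3) (c5 : 2 ≤ c a)
    (d6 : dg M p ≤ 4) (c6 : 3 ≤ c p) (d7 : dg M q ≤ 4) (c7 : 3 ≤ c q)
    (d8 : dg M b ≤ 3) (c8 : 2 ≤ c b) (d9 : dg M x ≤ 4) (c9 : 3 ≤ c x)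
    (d10 : dg M y ≤ 4) (c10 : 3 ≤ c y)
    (h2 : ∀ A : Finset V, (∀ z, z ∈ A ↔ z ∈ [v1, v2, v3, v4, v5, a, p, q, b, x, y]) →
      AT (outt A M) c) : AT M c := by
  have hinj := List.nodup_iff_injective_get.mp hn
  refine AT.certBlock (n := 13) ([v1, v2, v3, v4, v5, a, p, q, b, x, y, Q, Q'].get) hinj hl
    {0, 1, 2, 3, 4, 5, 6, 7, 8, 9, 10} k13 [(6, 11), (7, 11), (9, 12), (10, 12)]
    ![1,1,2,3,2,2,1,2,2,1,2,0,0] 0 (by decide +kernel) ?_ (by decide +kernel) (by decide +kernel) ?_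
    co_k13 ?_ (h2 _ ?_)
  · intro z hz
    simp only [k13, List.cons_append, List.nil_append, List.mem_cons, List.not_mem_nil,
      or_false] at hz
    rcases hz with rfl | rfl | rfl | rfl | rfl | rfl | rfl | rfl | rfl | rfl | rfl | rfl | rfl | rfl | rfl | rfl | rfl | rfl | rfl | rfl | rfl | rfl | rfl
    exacts [m1, m2, m3, m4, m5, m6, m7, m8, m9, m10, m11, m12, m13, m14, m15, m16, m17, m18, m19, m20, m21, m22, m23]
  · intro i hi hi0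
    fin_cases i
    exacts [absurd rfl hi0, d1, d2, d3, d4, d5, d6, d7, d8, d9, d10, absurd hi (by decide +kernel), absurd hi (by decide +kernel)]
  · intro i hi
    have k : ∀ (x : V) (i : Fin 13) (d : ℕ), dg M x ≤ d →
        ![1,1,2,3,2,2,1,2,2,1,2,0,0] i + d ≤ c x + cnt k13 i →
        ![1,1,2,3,2,2,1,2,2,1,2,0,0] i + dg M x ≤ c x + cnt k13 i := by
      intro x i d h1 h2; omega
    have e0 : ∀ i : Fin 13, cnt k13 i = ![4,4,4,4,4,3,3,3,3,3,3,0,0] i := by decide +kernel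
    fin_cases i
    · refine k v1 0 4 d0 ?_; rw [e0]; show 1 + 4 ≤ c v1 + 4; omega
    · refine k v2 1 4 d1 ?_; rw [e0]; show 1 + 4 ≤ c v2 + 4; omega
    · refine k v3 2 4 d2 ?_; rw [e0]; show 2 + 4 ≤ c v3 + 4; omega
    · refine k v4 3 4 d3 ?_; rw [e0]; show 3 + 4 ≤ c v4 + 4; omega
    · refine k v5 4 4 d4 ?_; rw [e0]; show 2 + 4 ≤ c v5 + 4; omega
    · refine k a 5 3 d5 ?_; rw [e0]; show 2 + 3 ≤ c a + 3; omega
    · refine k p 6 4 d6 ?_; rw [e0]; show 1 + 4 ≤ c p + 3; omega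
    · refine k q 7 4 d7 ?_; rw [e0]; show 2 + 4 ≤ c q + 3; omega
    · refine k b 8 3 d8 ?_; rw [e0]; show 2 + 3 ≤ c b + 3; omega
    · refine k x 9 4 d9 ?_; rw [e0]; show 1 + 4 ≤ c x + 3; omega
    · refine k y 10 4 d10 ?_; rw [e0]; show 2 + 4 ≤ c y + 3; omega
    · exact absurd hi (by decide +kernel)
    · exact absurd hi (by decide +kernel)
  · intro z
    rw [Finset.mem_map]
    constructor
    · rintro ⟨i, hi, rfl⟩
      fin_cases i <;> first | exact absurd hi (by decide +kernel) | simp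
    · intro hz
      simp only [List.mem_cons, List.not_mem_nil, or_false] at hz
      rcases hz with rfl | rfl | rfl | rfl | rfl | rfl | rfl | rfl | rfl | rfl | rfl
      exacts [⟨0, by decide +kernel, rfl⟩, ⟨1, by decide +kernel, rfl⟩, ⟨2, by decide +kernel, rfl⟩, ⟨3, by decide +kernel, rfl⟩, ⟨4, by decide +kernel, rfl⟩, ⟨5, by decide +kernel, rfl⟩, ⟨6, by decide +kernel, rfl⟩, ⟨7, by decide +kernel, rfl⟩, ⟨8, by decide +kernel, rfl⟩, ⟨9, by decide +kernel, rfl⟩, ⟨10, by decide +kernel, rfl⟩]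

theorem AT.kdA1A2 {v1 v2 v3 v4 v5 a p q b x y Q Q' : V}
    (hn : [v1, v2, v3, v4, v5, a, p, q, b, x, y, Q, Q'].Nodup) (hl : ∀ e ∈ M, ¬ e.IsDiag)
    (m1 : s(v1, v2) ∈ M) (m2 : s(v1, v3) ∈ M) (m3 : s(v2, v3) ∈ M) (m4 : s(v2, v4) ∈ M)
    (m5 : s(v3, v4) ∈ M) (m6 : s(v3, v5) ∈ M) (m7 : s(v4, v5) ∈ M) (m8 : s(v2, a) ∈ M)
    (m9 : s(v5, p) ∈ M) (m10 : s(v5, q) ∈ M) (m11 : s(a, p) ∈ M) (m12 : s(a, q) ∈ M)
    (m13 : s(p, q) ∈ M) (m14 : s(v4, b) ∈ M) (m15 : s(v1, x) ∈ M) (m16 : s(v1, y) ∈ M)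
    (m17 : s(b, x) ∈ M) (m18 : s(b, y) ∈ M) (m19 : s(x, y) ∈ M) (m20 : s(p, Q) ∈ M)
    (m21 : s(q, Q) ∈ M) (m22 : s(b, Q') ∈ M) (m23 : s(x, Q') ∈ M)
    (d0 : dg M v1 ≤ 4) (c0 : 2 ≤ c v1) (d1 : dg M v2 ≤ 4) (c1 : 3 ≤ c v2)
    (d2 : dg M v3 ≤ 4) (c2 : 3 ≤ c v3) (d3 : dg M v4 ≤ 4) (c3 : 3 ≤ c v4)
    (d4 : dg M v5 ≤ 4) (c4 : 2 ≤ c v5) (d5 : dg M a ≤ 3) (c5 : 2 ≤ c a)
    (d6 : dg M p ≤ 4) (c6 : 3 ≤ c p) (d7 : dg M q ≤ 4) (c7 : 3 ≤ c q)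
    (d8 : dg M b ≤ 4) (c8 : 3 ≤ c b) (d9 : dg M x ≤ 4) (c9 : 3 ≤ c x)
    (d10 : dg M y ≤ 3) (c10 : 2 ≤ c y)
    (h2 : ∀ A : Finset V, (∀ z, z ∈ A ↔ z ∈ [v1, v2, v3, v4, v5, a, p, q, b, x, y]) →
      AT (outt A M) c) : AT M c := by
  have hinj := List.nodup_iff_injective_get.mp hn
  refine AT.certBlock (n := 13) ([v1, v2, v3, v4, v5, a, p, q, b, x, y, Q, Q'].get) hinj hl
    {0, 1, 2, 3, 4, 5, 6, 7, 8, 9, 10} k13 [(6, 11), (7, 11), (8, 12), (9, 12)]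
    ![1,1,2,3,2,2,1,2,2,1,2,0,0] 0 (by decide +kernel) ?_ (by decide +kernel) (by decide +kernel) ?_
    co_k13 ?_ (h2 _ ?_)
  · intro z hz
    simp only [k13, List.cons_append, List.nil_append, List.mem_cons, List.not_mem_nil,
      or_false] at hz
    rcases hz with rfl | rfl | rfl | rfl | rfl | rfl | rfl | rfl | rfl | rfl | rfl | rfl | rfl | rfl | rfl | rfl | rfl | rfl | rfl | rfl | rfl | rfl | rfl
    exacts [m1, m2, m3, m4, m5, m6, m7, m8, m9, m10, m11, m12, m13, m14, m15, m16, m17, m18, m19, m20, m21, m22, m23]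
  · intro i hi hi0
    fin_cases i
    exacts [absurd rfl hi0, d1, d2, d3, d4, d5, d6, d7, d8, d9, d10, absurd hi (by decide +kernel), absurd hi (by decide +kernel)]
  · intro i hi
    have k : ∀ (x : V) (i : Fin 13) (d : ℕ), dg M x ≤ d →
        ![1,1,2,3,2,2,1,2,2,1,2,0,0] i + d ≤ c x + cnt k13 i →
        ![1,1,2,3,2,2,1,2,2,1,2,0,0] i + dg M x ≤ c x + cnt k13 i := by
      intro x i d h1 h2; omega
    have e0 : ∀ i : Fin 13, cnt k13 i = ![4,4,4,4,4,3,3,3,3,3,3,0,0] i := by decide +kernel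
    fin_cases i
    · refine k v1 0 4 d0 ?_; rw [e0]; show 1 + 4 ≤ c v1 + 4; omega
    · refine k v2 1 4 d1 ?_; rw [e0]; show 1 + 4 ≤ c v2 + 4; omega
    · refine k v3 2 4 d2 ?_; rw [e0]; show 2 + 4 ≤ c v3 + 4; omega
    · refine k v4 3 4 d3 ?_; rw [e0]; show 3 + 4 ≤ c v4 + 4; omega
    · refine k v5 4 4 d4 ?_; rw [e0]; show 2 + 4 ≤ c v5 + 4; omega
    · refine k a 5 3 d5 ?_; rw [e0]; show 2 + 3 ≤ c a + 3; omega
    · refine k p 6 4 d6 ?_; rw [e0]; show 1 + 4 ≤ c p + 3; omega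
    · refine k q 7 4 d7 ?_; rw [e0]; show 2 + 4 ≤ c q + 3; omega
    · refine k b 8 4 d8 ?_; rw [e0]; show 2 + 4 ≤ c b + 3; omega
    · refine k x 9 4 d9 ?_; rw [e0]; show 1 + 4 ≤ c x + 3; omega
    · refine k y 10 3 d10 ?_; rw [e0]; show 2 + 3 ≤ c y + 3; omega
    · exact absurd hi (by decide +kernel)
    · exact absurd hi (by decide +kernel)
  · intro z
    rw [Finset.mem_map]
    constructor
    · rintro ⟨i, hi, rfl⟩
      fin_cases i <;> first | exact absurd hi (by decide +kernel) | simp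
    · intro hz
      simp only [List.mem_cons, List.not_mem_nil, or_false] at hz
      rcases hz with rfl | rfl | rfl | rfl | rfl | rfl | rfl | rfl | rfl | rfl | rfl
      exacts [⟨0, by decide +kernel, rfl⟩, ⟨1, by decide +kernel, rfl⟩, ⟨2, by decide +kernel, rfl⟩, ⟨3, by decide +kernel, rfl⟩, ⟨4, by decide +kernel, rfl⟩, ⟨5, by decide +kernel, rfl⟩, ⟨6, by decide +kernel, rfl⟩, ⟨7, by decide +kernel, rfl⟩, ⟨8, by decide +kernel, rfl⟩, ⟨9, by decide +kernel, rfl⟩, ⟨10, by decide +kernel, rfl⟩]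

theorem AT.kdA2A1 {v1 v2 v3 v4 v5 a p q b x y Q Q' : V}
    (hn : [v1, v2, v3, v4, v5, a, p, q, b, x, y, Q, Q'].Nodup) (hl : ∀ e ∈ M, ¬ e.IsDiag)
    (m1 : s(v1, v2) ∈ M) (m2 : s(v1, v3) ∈ M) (m3 : s(v2, v3) ∈ M) (m4 : s(v2, v4) ∈ M)
    (m5 : s(v3, v4) ∈ M) (m6 : s(v3, v5) ∈ M) (m7 : s(v4, v5) ∈ M) (m8 : s(v2, a) ∈ M)
    (m9 : s(v5, p) ∈ M) (m10 : s(v5, q) ∈ M) (m11 : s(a, p) ∈ M) (m12 : s(a, q) ∈ M)
    (m13 : s(p, q) ∈ M) (m14 : s(v4, b) ∈ M) (m15 : s(v1, x) ∈ M) (m16 : s(v1, y) ∈ M)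
    (m17 : s(b, x) ∈ M) (m18 : s(b, y) ∈ M) (m19 : s(x, y) ∈ M) (m20 : s(a, Q) ∈ M)
    (m21 : s(p, Q) ∈ M) (m22 : s(x, Q') ∈ M) (m23 : s(y, Q') ∈ M)
    (d0 : dg M v1 ≤ 4) (c0 : 2 ≤ c v1) (d1 : dg M v2 ≤ 4) (c1 : 3 ≤ c v2)
    (d2 : dg M v3 ≤ 4) (c2 : 3 ≤ c v3) (d3 : dg M v4 ≤ 4) (c3 : 3 ≤ c v4)
    (d4 : dg M v5 ≤ 4) (c4 : 2 ≤ c v5) (d5 : dg M a ≤ 4) (c5 : 3 ≤ c a)
    (d6 : dg M p ≤ 4) (c6 : 3 ≤ c p) (d7 : dg M q ≤ 3) (c7 : 2 ≤ c q)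
    (d8 : dg M b ≤ 3) (c8 : 2 ≤ c b) (d9 : dg M x ≤ 4) (c9 : 3 ≤ c x)
    (d10 : dg M y ≤ 4) (c10 : 3 ≤ c y)
    (h2 : ∀ A : Finset V, (∀ z, z ∈ A ↔ z ∈ [v1, v2, v3, v4, v5, a, p, q, b, x, y]) →
      AT (outt A M) c) : AT M c := by
  have hinj := List.nodup_iff_injective_get.mp hn
  refine AT.certBlock (n := 13) ([v1, v2, v3, v4, v5, a, p, q, b, x, y, Q, Q'].get) hinj hl
    {0, 1, 2, 3, 4, 5, 6, 7, 8, 9, 10} k13 [(5, 11), (6, 11), (9, 12), (10, 12)]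
    ![1,1,2,3,2,2,1,2,2,1,2,0,0] 0 (by decide +kernel) ?_ (by decide +kernel) (by decide +kernel) ?_
    co_k13 ?_ (h2 _ ?_)
  · intro z hz
    simp only [k13, List.cons_append, List.nil_append, List.mem_cons, List.not_mem_nil,
      or_false] at hz
    rcases hz with rfl | rfl | rfl | rfl | rfl | rfl | rfl | rfl | rfl | rfl | rfl | rfl | rfl | rfl | rfl | rfl | rfl | rfl | rfl | rfl | rfl | rfl | rfl
    exacts [m1, m2, m3, m4, m5, m6, m7, m8, m9, m10, m11, m12, m13, m14, m15, m16, m17, m18, m19, m20, m21, m22, m23]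
  · intro i hi hi0
    fin_cases i
    exacts [absurd rfl hi0, d1, d2, d3, d4, d5, d6, d7, d8, d9, d10, absurd hi (by decide +kernel), absurd hi (by decide +kernel)]
  · intro i hi
    have k : ∀ (x : V) (i : Fin 13) (d : ℕ), dg M x ≤ d →
        ![1,1,2,3,2,2,1,2,2,1,2,0,0] i + d ≤ c x + cnt k13 i →
        ![1,1,2,3,2,2,1,2,2,1,2,0,0] i + dg M x ≤ c x + cnt k13 i := by
      intro x i d h1 h2; omega
    have e0 : ∀ i : Fin 13, cnt k13 i = ![4,4,4,4,4,3,3,3,3,3,3,0,0] i := by decide +kernel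
    fin_cases i
    · refine k v1 0 4 d0 ?_; rw [e0]; show 1 + 4 ≤ c v1 + 4; omega
    · refine k v2 1 4 d1 ?_; rw [e0]; show 1 + 4 ≤ c v2 + 4; omega
    · refine k v3 2 4 d2 ?_; rw [e0]; show 2 + 4 ≤ c v3 + 4; omega
    · refine k v4 3 4 d3 ?_; rw [e0]; show 3 + 4 ≤ c v4 + 4; omega
    · refine k v5 4 4 d4 ?_; rw [e0]; show 2 + 4 ≤ c v5 + 4; omega
    · refine k a 5 4 d5 ?_; rw [e0]; show 2 + 4 ≤ c a + 3; omega
    · refine k p 6 4 d6 ?_; rw [e0]; show 1 + 4 ≤ c p + 3; omega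
    · refine k q 7 3 d7 ?_; rw [e0]; show 2 + 3 ≤ c q + 3; omega
    · refine k b 8 3 d8 ?_; rw [e0]; show 2 + 3 ≤ c b + 3; omega
    · refine k x 9 4 d9 ?_; rw [e0]; show 1 + 4 ≤ c x + 3; omega
    · refine k y 10 4 d10 ?_; rw [e0]; show 2 + 4 ≤ c y + 3; omega
    · exact absurd hi (by decide +kernel)
    · exact absurd hi (by decide +kernel)
  · intro z
    rw [Finset.mem_map]
    constructor
    · rintro ⟨i, hi, rfl⟩
      fin_cases i <;> first | exact absurd hi (by decide +kernel) | simp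
    · intro hz
      simp only [List.mem_cons, List.not_mem_nil, or_false] at hz
      rcases hz with rfl | rfl | rfl | rfl | rfl | rfl | rfl | rfl | rfl | rfl | rfl
      exacts [⟨0, by decide +kernel, rfl⟩, ⟨1, by decide +kernel, rfl⟩, ⟨2, by decide +kernel, rfl⟩, ⟨3, by decide +kernel, rfl⟩, ⟨4, by decide +kernel, rfl⟩, ⟨5, by decide +kernel, rfl⟩, ⟨6, by decide +kernel, rfl⟩, ⟨7, by decide +kernel, rfl⟩, ⟨8, by decide +kernel, rfl⟩, ⟨9, by decide +kernel, rfl⟩, ⟨10, by decide +kernel, rfl⟩]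

theorem AT.kdA2A2 {v1 v2 v3 v4 v5 a p q b x y Q Q' : V}
    (hn : [v1, v2, v3, v4, v5, a, p, q, b, x, y, Q, Q'].Nodup) (hl : ∀ e ∈ M, ¬ e.IsDiag)
    (m1 : s(v1, v2) ∈ M) (m2 : s(v1, v3) ∈ M) (m3 : s(v2, v3) ∈ M) (m4 : s(v2, v4) ∈ M)
    (m5 : s(v3, v4) ∈ M) (m6 : s(v3, v5) ∈ M) (m7 : s(v4, v5) ∈ M) (m8 : s(v2, a) ∈ M)
    (m9 : s(v5, p) ∈ M) (m10 : s(v5, q) ∈ M) (m11 : s(a, p) ∈ M) (m12 : s(a, q) ∈ M)
    (m13 : s(p, q) ∈ M) (m14 : s(v4, b) ∈ M) (m15 : s(v1, x) ∈ M) (m16 : s(v1, y) ∈ M)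
    (m17 : s(b, x) ∈ M) (m18 : s(b, y) ∈ M) (m19 : s(x, y) ∈ M) (m20 : s(a, Q) ∈ M)
    (m21 : s(p, Q) ∈ M) (m22 : s(b, Q') ∈ M) (m23 : s(x, Q') ∈ M)
    (d0 : dg M v1 ≤ 4) (c0 : 2 ≤ c v1) (d1 : dg M v2 ≤ 4) (c1 : 3 ≤ c v2)
    (d2 : dg M v3 ≤ 4) (c2 : 3 ≤ c v3) (d3 : dg M v4 ≤ 4) (c3 : 3 ≤ c v4)
    (d4 : dg M v5 ≤ 4) (c4 : 2 ≤ c v5) (d5 : dg M a ≤ 4) (c5 : 3 ≤ c a)
    (d6 : dg M p ≤ 4) (c6 : 3 ≤ c p) (d7 : dg M q ≤ 3) (c7 : 2 ≤ c q)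
    (d8 : dg M b ≤ 4) (c8 : 3 ≤ c b) (d9 : dg M x ≤ 4) (c9 : 3 ≤ c x)
    (d10 : dg M y ≤ 3) (c10 : 2 ≤ c y)
    (h2 : ∀ A : Finset V, (∀ z, z ∈ A ↔ z ∈ [v1, v2, v3, v4, v5, a, p, q, b, x, y]) →
      AT (outt A M) c) : AT M c := by
  have hinj := List.nodup_iff_injective_get.mp hn
  refine AT.certBlock (n := 13) ([v1, v2, v3, v4, v5, a, p, q, b, x, y, Q, Q'].get) hinj hl
    {0, 1, 2, 3, 4, 5, 6, 7, 8, 9, 10} k13 [(5, 11), (6, 11), (8, 12), (9, 12)]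
    ![1,1,2,3,2,2,1,2,2,1,2,0,0] 0 (by decide +kernel) ?_ (by decide +kernel) (by decide +kernel) ?_
    co_k13 ?_ (h2 _ ?_)
  · intro z hz
    simp only [k13, List.cons_append, List.nil_append, List.mem_cons, List.not_mem_nil,
      or_false] at hz
    rcases hz with rfl | rfl | rfl | rfl | rfl | rfl | rfl | rfl | rfl | rfl | rfl | rfl | rfl | rfl | rfl | rfl | rfl | rfl | rfl | rfl | rfl | rfl | rfl
    exacts [m1, m2, m3, m4, m5, m6, m7, m8, m9, m10, m11, m12, m13, m14, m15, m16, m17, m18, m19, m20, m21, m22, m23]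
  · intro i hi hi0
    fin_cases i
    exacts [absurd rfl hi0, d1, d2, d3, d4, d5, d6, d7, d8, d9, d10, absurd hi (by decide +kernel), absurd hi (by decide +kernel)]
  · intro i hi
    have k : ∀ (x : V) (i : Fin 13) (d : ℕ), dg M x ≤ d →
        ![1,1,2,3,2,2,1,2,2,1,2,0,0] i + d ≤ c x + cnt k13 i →
        ![1,1,2,3,2,2,1,2,2,1,2,0,0] i + dg M x ≤ c x + cnt k13 i := by
      intro x i d h1 h2; omega
    have e0 : ∀ i : Fin 13, cnt k13 i = ![4,4,4,4,4,3,3,3,3,3,3,0,0] i := by decide +kernel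
    fin_cases i
    · refine k v1 0 4 d0 ?_; rw [e0]; show 1 + 4 ≤ c v1 + 4; omega
    · refine k v2 1 4 d1 ?_; rw [e0]; show 1 + 4 ≤ c v2 + 4; omega
    · refine k v3 2 4 d2 ?_; rw [e0]; show 2 + 4 ≤ c v3 + 4; omega
    · refine k v4 3 4 d3 ?_; rw [e0]; show 3 + 4 ≤ c v4 + 4; omega
    · refine k v5 4 4 d4 ?_; rw [e0]; show 2 + 4 ≤ c v5 + 4; omega
    · refine k a 5 4 d5 ?_; rw [e0]; show 2 + 4 ≤ c a + 3; omega
    · refine k p 6 4 d6 ?_; rw [e0]; show 1 + 4 ≤ c p + 3; omega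
    · refine k q 7 3 d7 ?_; rw [e0]; show 2 + 3 ≤ c q + 3; omega
    · refine k b 8 4 d8 ?_; rw [e0]; show 2 + 4 ≤ c b + 3; omega
    · refine k x 9 4 d9 ?_; rw [e0]; show 1 + 4 ≤ c x + 3; omega
    · refine k y 10 3 d10 ?_; rw [e0]; show 2 + 3 ≤ c y + 3; omega
    · exact absurd hi (by decide +kernel)
    · exact absurd hi (by decide +kernel)
  · intro z
    rw [Finset.mem_map]
    constructor
    · rintro ⟨i, hi, rfl⟩
      fin_cases i <;> first | exact absurd hi (by decide +kernel) | simp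
    · intro hz
      simp only [List.mem_cons, List.not_mem_nil, or_false] at hz
      rcases hz with rfl | rfl | rfl | rfl | rfl | rfl | rfl | rfl | rfl | rfl | rfl
      exacts [⟨0, by decide +kernel, rfl⟩, ⟨1, by decide +kernel, rfl⟩, ⟨2, by decide +kernel, rfl⟩, ⟨3, by decide +kernel, rfl⟩, ⟨4, by decide +kernel, rfl⟩, ⟨5, by decide +kernel, rfl⟩, ⟨6, by decide +kernel, rfl⟩, ⟨7, by decide +kernel, rfl⟩, ⟨8, by decide +kernel, rfl⟩, ⟨9, by decide +kernel, rfl⟩, ⟨10, by decide +kernel, rfl⟩]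

end Helper42.L9
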