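import Pool.Agent.helper42.L9.Gp

/-!
# Lemma E and relatives

`AT.lemmaE`: `u ~ v` of degree 4, common neighbours `s, t`, remaining neighbours `a, b`:
the coefficient of `u^3 v^3` is `±(a - b)`, so `u, v` may be removed and the edge `ab` added.
-/

set_option linter.unusedSimpArgs false

namespace Helper42.L9

open MvPolynomial Finset

variable {V : Type*}

theorem sup_congr_sign {P Q : MvPolynomial V ℤ} {c : V → ℕ} (h : P = Q ∨ P = -Q)
    (hQ : Sup Q c) : Sup P c := by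
  rcases h with rfl | rfl
  · exact hQ
  · exact hQ.neg

theorem sign_trans {P Q R : MvPolynomial V ℤ} (h : P = Q ∨ P = -Q) (h' : Q = R ∨ Q = -R) :
    P = R ∨ P = -R := by
  rcases h with rfl | rfl
  · exact h'
  · rcases h' with rfl | rfl
    · right; rfl
    · left; ring

theorem sign_mul {P Q : MvPolynomial V ℤ} (R : MvPolynomial V ℤ) (h : P = Q ∨ P = -Q) :
    R * P = R * Q ∨ R * P = -(R * Q) := by
  rcases h with rfl | rfl
  · left; rfl
  · right; ring

/-- edges given by ordered pairs -/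
theorem gp_pairs (K : List (V × V)) (N : Multiset (Sym2 V)) :
    gp ((K.map fun p => s(p.1, p.2) : List (Sym2 V)) + N : Multiset (Sym2 V)) =
      (K.map fun p => (X p.1 - X p.2 : MvPolynomial V ℤ)).prod * gp N ∨
    gp ((K.map fun p => s(p.1, p.2) : List (Sym2 V)) + N : Multiset (Sym2 V)) =
      -((K.map fun p => (X p.1 - X p.2 : MvPolynomial V ℤ)).prod * gp N) := by
  induction K with
  | nil => left; simp
  | cons p K ih =>
    have e1 : (((p :: K).map fun p => s(p.1, p.2) : List (Sym2 V)) + N : Multiset (Sym2 V)) =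
        s(p.1, p.2) ::ₘ ((K.map fun p => s(p.1, p.2) : List (Sym2 V)) + N : Multiset (Sym2 V)) := by
      simp only [List.map_cons]
      rw [← Multiset.cons_coe, Multiset.cons_add]
    rw [e1, List.map_cons, List.prod_cons, mul_assoc]
    refine sign_trans ?_ (sign_mul _ ih)
    exact gp_cons_mk _ _ _

section cf

variable {v : V} {a b c d R : MvPolynomial V ℤ}

theorem cf1_1 (ha : Fr v a) (hR : Fr v R) : cf v 1 ((X v - a) * R) = R := by
  rw [cf_sub_mul_succ ha 0, cf_free_zero hR, cf_free_succ hR 0]; ring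

theorem cf1_0 (ha : Fr v a) (hR : Fr v R) : cf v 0 ((X v - a) * R) = -a * R := by
  rw [cf_sub_mul_zero ha, cf_free_zero hR]; ring

theorem cf1_big (ha : Fr v a) (hR : Fr v R) (k : ℕ) : cf v (k + 2) ((X v - a) * R) = 0 := by
  rw [cf_sub_mul_succ ha (k + 1), cf_free_succ hR k, cf_free_succ hR (k + 1)]; ring

theorem cf2_2 (ha : Fr v a) (hb : Fr v b) (hR : Fr v R) :
    cf v 2 ((X v - a) * ((X v - b) * R)) = R := by
  rw [cf_sub_mul_succ ha 1, cf1_1 hb hR, cf1_big hb hR 0]; ring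

theorem cf2_1 (ha : Fr v a) (hb : Fr v b) (hR : Fr v R) :
    cf v 1 ((X v - a) * ((X v - b) * R)) = -(a + b) * R := by
  rw [cf_sub_mul_succ ha 0, cf1_1 hb hR, cf1_0 hb hR]; ring

theorem cf2_0 (ha : Fr v a) (hb : Fr v b) (hR : Fr v R) :
    cf v 0 ((X v - a) * ((X v - b) * R)) = a * b * R := by
  rw [cf_sub_mul_zero ha, cf1_0 hb hR]; ring

theorem cf2_big (ha : Fr v a) (hb : Fr v b) (hR : Fr v R) (k : ℕ) :
    cf v (k + 3) ((X v - a) * ((X v - b) * R)) = 0 := by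
  rw [cf_sub_mul_succ ha (k + 2), cf1_big hb hR k, cf1_big hb hR (k + 1)]; ring

theorem cf3_3 (ha : Fr v a) (hb : Fr v b) (hc : Fr v c) (hR : Fr v R) :
    cf v 3 ((X v - a) * ((X v - b) * ((X v - c) * R))) = R := by
  rw [cf_sub_mul_succ ha 2, cf2_2 hb hc hR, cf2_big hb hc hR 0]; ring

theorem cf3_2 (ha : Fr v a) (hb : Fr v b) (hc : Fr v c) (hR : Fr v R) :
    cf v 2 ((X v - a) * ((X v - b) * ((X v - c) * R))) = -(a + b + c) * R := by
  rw [cf_sub_mul_succ ha 1, cf2_1 hb hc hR, cf2_2 hb hc hR]; ring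

theorem cf3_1 (ha : Fr v a) (hb : Fr v b) (hc : Fr v c) (hR : Fr v R) :
    cf v 1 ((X v - a) * ((X v - b) * ((X v - c) * R))) = (a * b + a * c + b * c) * R := by
  rw [cf_sub_mul_succ ha 0, cf2_0 hb hc hR, cf2_1 hb hc hR]; ring

theorem cf3_big (ha : Fr v a) (hb : Fr v b) (hc : Fr v c) (hR : Fr v R) (k : ℕ) :
    cf v (k + 4) ((X v - a) * ((X v - b) * ((X v - c) * R))) = 0 := by
  rw [cf_sub_mul_succ ha (k + 3), cf2_big hb hc hR k, cf2_big hb hc hR (k + 1)]; ring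

theorem cf4_4 (ha : Fr v a) (hb : Fr v b) (hc : Fr v c) (hd : Fr v d) (hR : Fr v R) :
    cf v 4 ((X v - a) * ((X v - b) * ((X v - c) * ((X v - d) * R)))) = R := by
  rw [cf_sub_mul_succ ha 3, cf3_3 hb hc hd hR, cf3_big hb hc hd hR 0]; ring

theorem cf4_3 (ha : Fr v a) (hb : Fr v b) (hc : Fr v c) (hd : Fr v d) (hR : Fr v R) :
    cf v 3 ((X v - a) * ((X v - b) * ((X v - c) * ((X v - d) * R)))) =
      -(a + b + c + d) * R := by
  rw [cf_sub_mul_succ ha 2, cf3_2 hb hc hd hR, cf3_3 hb hc hd hR]; ring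

theorem cf4_2 (ha : Fr v a) (hb : Fr v b) (hc : Fr v c) (hd : Fr v d) (hR : Fr v R) :
    cf v 2 ((X v - a) * ((X v - b) * ((X v - c) * ((X v - d) * R)))) =
      (a * b + a * c + a * d + b * c + b * d + c * d) * R := by
  rw [cf_sub_mul_succ ha 1, cf3_1 hb hc hd hR, cf3_2 hb hc hd hR]; ring

end cf

/-- **Lemma E.** -/
theorem AT.lemmaE {u v a b s t : V} {N : Multiset (Sym2 V)} {c : V → ℕ}
    (huv : u ≠ v) (hau : a ≠ u) (hav : a ≠ v) (hbu : b ≠ u) (hbv : b ≠ v)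
    (hsu : s ≠ u) (hsv : s ≠ v) (htu : t ≠ u) (htv : t ≠ v)
    (hNu : ∀ e ∈ N, u ∉ e) (hNv : ∀ e ∈ N, v ∉ e)
    (h : AT (s(a, b) ::ₘ N) c) (hu : 3 ≤ c u) (hv : 3 ≤ c v) :
    AT (s(v, u) ::ₘ s(v, b) ::ₘ s(v, s) ::ₘ s(v, t) ::ₘ s(u, a) ::ₘ s(u, s) ::ₘ s(u, t) ::ₘ N)
      c := by
  unfold AT at h ⊢
  have fu := fr_gp hNu
  have fv := fr_gp hNv
  set R := (X u - X a) * ((X u - X s) * ((X u - X t) * gp N)) with hR
  have fR : Fr v R := by
    have h1 : Fr v (X u : MvPolynomial V ℤ) := fr_X huv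
    exact (h1.sub (fr_X hav)).mul ((h1.sub (fr_X hsv)).mul ((h1.sub (fr_X htv)).mul fv))
  set P := (X v - X u) * ((X v - X b) * ((X v - X s) * ((X v - X t) * R))) with hP
  have key : gp (s(v, u) ::ₘ s(v, b) ::ₘ s(v, s) ::ₘ s(v, t) ::ₘ s(u, a) ::ₘ s(u, s) ::ₘ
      s(u, t) ::ₘ N) = P ∨
      gp (s(v, u) ::ₘ s(v, b) ::ₘ s(v, s) ::ₘ s(v, t) ::ₘ s(u, a) ::ₘ s(u, s) ::ₘ
      s(u, t) ::ₘ N) = -P := by
    have h1 := gp_pairs [(v, u), (v, b), (v, s), (v, t), (u, a), (u, s), (u, t)] N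
    have h2 : (([(v, u), (v, b), (v, s), (v, t), (u, a), (u, s), (u, t)].map
        fun p => (X p.1 - X p.2 : MvPolynomial V ℤ)).prod * gp N) = P := by
      simp only [List.map_cons, List.map_nil, List.prod_cons, List.prod_nil, hP, hR]
      ring
    rw [h2] at h1
    simpa only [List.map_cons, List.map_nil, ← Multiset.cons_coe, Multiset.coe_nil,
      Multiset.cons_add, zero_add] using h1
  refine sup_congr_sign key ?_
  refine Sup.of_cf' (k := 3) (v := v) ?_ hv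
  rw [hP, cf4_3 (fr_X huv) (fr_X hbv) (fr_X hsv) (fr_X htv) fR]
  refine Sup.of_cf' (k := 3) (v := u) ?_ hu
  have e1 : -(X u + X b + X s + X t) * R = -(X u * R + (X b + X s + X t) * R) := by ring
  have f3 : Fr u (X b + X s + X t : MvPolynomial V ℤ) :=
    ((fr_X hbu).add (fr_X hsu)).add (fr_X htu)
  rw [e1, map_neg, map_add, cf_X_mul_succ u 2, cf_mul _ f3, hR,
    cf3_2 (fr_X hau) (fr_X hsu) (fr_X htu) fu, cf3_3 (fr_X hau) (fr_X hsu) (fr_X htu) fu]
  have e2 : -(-(X a + X s + X t) * gp N + (X b + X s + X t) * gp N) = (X a - X b) * gp N := by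
    ring
  rw [e2]
  rcases gp_cons_mk a b N with h1 | h1
  · rw [h1] at h; exact h
  · rw [h1] at h; exact (sup_neg_iff.mp h)

end Helper42.L9
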