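import Pool.Agent.helper42.L9.EphDefs
import Pool.Agent.helper42.L9.LemmaE

/-!
# E-phase: elimination of a pair of inner vertices
-/

set_option linter.unusedSimpArgs false

namespace Helper42.L9

open Finset

variable {V : Type*}

open Classical in
theorem dg_cons_ite (a b v : V) (M : Multiset (Sym2 V)) :
    dg (s(a, b) ::ₘ M) v = dg M v + if v = a ∨ v = b then 1 else 0 := by
  by_cases h : v = a ∨ v = b
  · rw [dg_cons_pos (by rwa [Sym2.mem_iff]), if_pos h]
  · rw [dg_cons_neg (by rwa [Sym2.mem_iff]), if_neg h, add_zero]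

open Classical in
/-- edges which avoid `u` and `v` -/
noncomputable def rest (M : Multiset (Sym2 V)) (u v : V) : Multiset (Sym2 V) :=
  M.filter fun e => u ∉ e ∧ v ∉ e

theorem rest_le (M : Multiset (Sym2 V)) (u v : V) : rest M u v ≤ M := by
  classical
  unfold rest
  exact Multiset.filter_le _ _

theorem rest_left {M : Multiset (Sym2 V)} {u v : V} : ∀ e ∈ rest M u v, u ∉ e := by
  classical
  unfold rest
  intro e he
  exact (Multiset.mem_filter.mp he).2.1

theorem rest_right {M : Multiset (Sym2 V)} {u v : V} : ∀ e ∈ rest M u v, v ∉ e := by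
  classical
  unfold rest
  intro e he
  exact (Multiset.mem_filter.mp he).2.2

theorem split_uv {M : Multiset (Sym2 V)} {u v a b s t : V} (huv : u ≠ v) (hbu : b ≠ u)
    (hsu : s ≠ u) (htu : t ≠ u) (hfu : fl M u = {s(u, v), s(u, a), s(u, s), s(u, t)})
    (hfv : fl M v = {s(v, u), s(v, b), s(v, s), s(v, t)}) :
    M = s(v, u) ::ₘ s(v, b) ::ₘ s(v, s) ::ₘ s(v, t) ::ₘ s(u, a) ::ₘ s(u, s) ::ₘ s(u, t) ::ₘ
      rest M u v := by
  classical
  have h1 : fl M u + M.filter (fun e => ¬ u ∈ e) = M := by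
    unfold fl
    exact Multiset.filter_add_not _ _
  have h2 : (M.filter (fun e => ¬ u ∈ e)).filter (fun e => v ∈ e) +
      (M.filter (fun e => ¬ u ∈ e)).filter (fun e => ¬ v ∈ e) = M.filter (fun e => ¬ u ∈ e) :=
    Multiset.filter_add_not _ _
  have h3 : (M.filter (fun e => ¬ u ∈ e)).filter (fun e => ¬ v ∈ e) = rest M u v := by
    unfold rest
    rw [Multiset.filter_filter]
    congr 1
    funext e
    exact propext and_comm
  have h4 : (M.filter (fun e => ¬ u ∈ e)).filter (fun e => v ∈ e) =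
      (fl M v).filter (fun e => ¬ u ∈ e) := by
    unfold fl
    rw [Multiset.filter_filter, Multiset.filter_filter]
    congr 1
    funext e
    exact propext and_comm
  have h5 : (fl M v).filter (fun e => ¬ u ∈ e) = {s(v, b), s(v, s), s(v, t)} := by
    rw [hfv]
    simp only [Multiset.insert_eq_cons]
    rw [Multiset.filter_cons_of_neg, Multiset.filter_cons_of_pos, Multiset.filter_cons_of_pos,
      Multiset.filter_singleton, if_pos]
    · rw [Sym2.mem_iff]; tauto
    · rw [Sym2.mem_iff]; tauto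
    · rw [Sym2.mem_iff]; tauto
    · rw [Sym2.mem_iff]; tauto
  rw [h3, h4, h5] at h2
  rw [← h2, hfu] at h1
  have h6 : s(u, v) = s(v, u) := Sym2.eq_swap
  conv_lhs => rw [← h1]
  rw [h6]
  simp only [Multiset.insert_eq_cons, ← Multiset.singleton_add]
  abel

theorem outt_outt (A B : Finset V) [DecidableEq V] (M : Multiset (Sym2 V)) :
    outt B (outt A M) = outt (A ∪ B) M := by
  classical
  unfold outt
  rw [Multiset.filter_filter]
  congr 1
  funext e
  simp only [Finset.mem_union, not_or, eq_iff_iff]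
  constructor
  · rintro ⟨h1, h2⟩ v hv
    exact ⟨h2 v hv, h1 v hv⟩
  · intro h
    exact ⟨fun v hv => (h v hv).2, fun v hv => (h v hv).1⟩

theorem mem_outt {A : Finset V} {M : Multiset (Sym2 V)} {e : Sym2 V} :
    e ∈ outt A M ↔ e ∈ M ∧ ∀ v ∈ e, v ∉ A := by
  classical
  unfold outt
  rw [Multiset.mem_filter]

theorem outt_cons_pos {A : Finset V} {M : Multiset (Sym2 V)} {a b : V} (ha : a ∉ A)
    (hb : b ∉ A) : outt A (s(a, b) ::ₘ M) = s(a, b) ::ₘ outt A M := by
  classical
  unfold outt
  rw [Multiset.filter_cons_of_pos]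
  intro v hv
  rw [Sym2.mem_iff] at hv
  rcases hv with rfl | rfl <;> assumption

theorem outt_cons_neg {A : Finset V} {M : Multiset (Sym2 V)} {a b : V} (h : a ∈ A ∨ b ∈ A) :
    outt A (s(a, b) ::ₘ M) = outt A M := by
  classical
  unfold outt
  rw [Multiset.filter_cons_of_neg]
  intro hcon
  rcases h with h | h
  · exact hcon a (Sym2.mem_mk_left _ _) h
  · exact hcon b (Sym2.mem_mk_right _ _) h

theorem outt_cons_le {A : Finset V} {M : Multiset (Sym2 V)} {a b : V} (h : a ∈ A ∨ b ∈ A) :
    outt A (s(a, b) ::ₘ M) ≤ M := by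
  rw [outt_cons_neg h]
  exact outt_le A M

/-- elimination of `u, v` and peeling of the common neighbours -/
theorem AT.elim {c : V → ℕ} {M : Multiset (Sym2 V)} {u v a b s t : V} [DecidableEq V]
    (hl : ∀ e ∈ M, ¬ e.IsDiag)
    (huv : u ≠ v) (hab : a ≠ b) (hav : a ≠ v) (hbu : b ≠ u) (hsu : s ≠ u) (hsv : s ≠ v)
    (htu : t ≠ u) (htv : t ≠ v) (hst : s ≠ t)
    (hfu : fl M u = {s(u, v), s(u, a), s(u, s), s(u, t)})
    (hfv : fl M v = {s(v, u), s(v, b), s(v, s), s(v, t)})
    (hu : 3 ≤ c u) (hv : 3 ≤ c v) (hs : dg M s ≤ c s + 2) (ht : dg M t ≤ c t + 2)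
    (h : AT (outt {s, t} (s(a, b) ::ₘ rest M u v)) c) : AT M c := by
  have hM := split_uv huv hbu hsu htu hfu hfv
  have hau : a ≠ u := by
    rintro rfl
    have : s(a, a) ∈ fl M a := by rw [hfu]; simp
    exact hl _ (mem_fl.mp this).1 rfl
  have hbv : b ≠ v := by
    rintro rfl
    have : s(b, b) ∈ fl M b := by rw [hfv]; simp
    exact hl _ (mem_fl.mp this).1 rfl
  have key : ∀ w, w = s ∨ w = t → dg (s(a, b) ::ₘ rest M u v) w + 2 ≤ dg M w := by
    intro w hw
    conv_rhs => rw [hM]
    simp only [dg_cons_ite]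
    have h1 : w ≠ u := by rcases hw with rfl | rfl <;> assumption
    have h2 : w ≠ v := by rcases hw with rfl | rfl <;> assumption
    rcases hw with rfl | rfl
    · have h3 : w ≠ t := hst
      by_cases h5 : w = a
      · have h6 : w ≠ b := by rw [h5]; exact hab
        simp [h1, h2, h3, ← h5, h6]
      · by_cases h6 : w = b
        · simp [h1, h2, h3, ← h6, h5]
        · simp [h1, h2, h3, h5, h6]
    · have h3 : w ≠ s := hst.symm
      by_cases h5 : w = a
      · have h6 : w ≠ b := by rw [h5]; exact hab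
        simp [h1, h2, h3, ← h5, h6]
      · by_cases h6 : w = b
        · simp [h1, h2, h3, ← h6, h5]
        · simp [h1, h2, h3, h5, h6]
  have hl' : ∀ e ∈ s(a, b) ::ₘ rest M u v, ¬ e.IsDiag := by
    intro e he
    rcases Multiset.mem_cons.mp he with rfl | he
    · rw [Sym2.mk_isDiag_iff]; exact hab
    · exact hl e (Multiset.mem_of_le (rest_le M u v) he)
  have h1 : AT (s(a, b) ::ₘ rest M u v) c := by
    refine AT.peel s _ c hl' ?_ ?_
    · have := key s (Or.inl rfl)
      omega
    · refine AT.peel t _ c ?_ ?_ ?_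
      · intro e he
        exact hl' e (Multiset.mem_of_le (outt_le _ _) he)
      · have h2 := key t (Or.inr rfl)
        have h3 := dg_le_of_le (outt_le {s} (s(a, b) ::ₘ rest M u v)) t
        omega
      · rw [outt_outt]
        exact h
  rw [hM]
  exact AT.lemmaE huv hau hav hbu hbv hsu hsv htu htv rest_left rest_right h1 hu hv

end Helper42.L9
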