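import Pool.Agent.helper42.L9.Eph9

/-!
# E-phase: blocks on a `P_5`
-/

set_option linter.unusedSimpArgs false

namespace Helper42.L9

open Finset Helper33.L9

variable {V : Type*} {own : V → V → Prop} {c : V → ℕ} {M N : Multiset (Sym2 V)}

theorem AT.b8 {v1 v2 v3 v4 v5 b x y : V} (hn : [v1, v2, v3, v4, v5, b, x, y].Nodup)
    (hl : ∀ e ∈ M, ¬ e.IsDiag)
    (m1 : s(v1, v2) ∈ M) (m2 : s(v1, v3) ∈ M) (m3 : s(v2, v3) ∈ M) (m4 : s(v2, v4) ∈ M)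
    (m5 : s(v3, v4) ∈ M) (m6 : s(v3, v5) ∈ M) (m7 : s(v4, v5) ∈ M) (m8 : s(v2, v5) ∈ M)
    (m9 : s(v4, b) ∈ M) (m10 : s(v1, x) ∈ M) (m11 : s(v1, y) ∈ M) (m12 : s(b, x) ∈ M)
    (m13 : s(b, y) ∈ M) (m14 : s(x, y) ∈ M)
    (d1 : dg M v1 ≤ 4) (d2 : dg M v2 ≤ 4) (d3 : dg M v3 ≤ 4) (d4 : dg M v4 ≤ 4)
    (d5 : dg M v5 ≤ 4) (db : dg M b ≤ 3) (dx : dg M x ≤ 3) (dy : dg M y ≤ 3)
    (c1 : 2 ≤ c v1) (c2 : 3 ≤ c v2) (c3 : 3 ≤ c v3) (c4 : 3 ≤ c v4) (c5 : 2 ≤ c v5)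
    (cb : 2 ≤ c b) (cx : 2 ≤ c x) (cy : 2 ≤ c y)
    (h2 : ∀ A : Finset V, v1 ∈ A → AT (outt A M) c) : AT M c := by
  have hinj := List.nodup_iff_injective_get.mp hn
  refine AT.certBlock (n := 8) ([v1, v2, v3, v4, v5, b, x, y].get) hinj hl Finset.univ p25 []
    ![2,2,3,1,1,2,2,1] 4 (by decide) ?_ (by decide) (by decide) ?_ co_p25 ?_
    (h2 _ ?_)
  · intro z hz
    simp only [p25, List.append_nil, List.mem_cons, List.not_mem_nil,
      or_false] at hz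
    rcases hz with rfl | rfl | rfl | rfl | rfl | rfl | rfl | rfl | rfl | rfl | rfl | rfl | rfl |
      rfl
    exacts [m1, m2, m3, m4, m5, m6, m7, m8, m9, m10, m11, m12, m13, m14]
  · intro i _ hi
    rw [List.append_nil]
    fin_cases i
    exacts [d1, d2, d3, d4, absurd rfl hi, db, dx, dy]
  · intro i _
    have k : ∀ (x : V) (i : Fin 8) (d : ℕ), dg M x ≤ d →
        ![2,2,3,1,1,2,2,1] i + d ≤ c x + cnt p25 i →
        ![2,2,3,1,1,2,2,1] i + dg M x ≤ c x + cnt p25 i := by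
      intro x i d h1 h2; omega
    have e0 : ∀ i : Fin 8, cnt p25 i = ![4,4,4,4,3,3,3,3] i := by decide
    fin_cases i
    · refine k v1 0 4 d1 ?_; rw [e0]; show 2 + 4 ≤ c v1 + 4; omega
    · refine k v2 1 4 d2 ?_; rw [e0]; show 2 + 4 ≤ c v2 + 4; omega
    · refine k v3 2 4 d3 ?_; rw [e0]; show 3 + 4 ≤ c v3 + 4; omega
    · refine k v4 3 4 d4 ?_; rw [e0]; show 1 + 4 ≤ c v4 + 4; omega
    · refine k v5 4 4 d5 ?_; rw [e0]; show 1 + 4 ≤ c v5 + 3; omega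
    · refine k b 5 3 db ?_; rw [e0]; show 2 + 3 ≤ c b + 3; omega
    · refine k x 6 3 dx ?_; rw [e0]; show 2 + 3 ≤ c x + 3; omega
    · refine k y 7 3 dy ?_; rw [e0]; show 1 + 3 ≤ c y + 3; omega
  · rw [Finset.mem_map]
    exact ⟨0, Finset.mem_univ _, rfl⟩

theorem AT.b11 {v1 v2 v3 v4 v5 a p q b x y : V}
    (hn : [v1, v2, v3, v4, v5, a, p, q, b, x, y].Nodup) (hl : ∀ e ∈ M, ¬ e.IsDiag)
    (m1 : s(v1, v2) ∈ M) (m2 : s(v1, v3) ∈ M) (m3 : s(v2, v3) ∈ M) (m4 : s(v2, v4) ∈ M)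
    (m5 : s(v3, v4) ∈ M) (m6 : s(v3, v5) ∈ M) (m7 : s(v4, v5) ∈ M)
    (m8 : s(v2, a) ∈ M) (m9 : s(v5, p) ∈ M) (m10 : s(v5, q) ∈ M) (m11 : s(a, p) ∈ M)
    (m12 : s(a, q) ∈ M) (m13 : s(p, q) ∈ M) (m14 : s(v4, b) ∈ M) (m15 : s(v1, x) ∈ M)
    (m16 : s(v1, y) ∈ M) (m17 : s(b, x) ∈ M) (m18 : s(b, y) ∈ M) (m19 : s(x, y) ∈ M)
    (d1 : dg M v1 ≤ 4) (d2 : dg M v2 ≤ 4) (d3 : dg M v3 ≤ 4) (d4 : dg M v4 ≤ 4)
    (d5 : dg M v5 ≤ 4) (da : dg M a ≤ 3) (dp : dg M p ≤ 3) (dq : dg M q ≤ 3)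
    (db : dg M b ≤ 3) (dx : dg M x ≤ 3) (dy : dg M y ≤ 3)
    (c1 : 2 ≤ c v1) (c2 : 3 ≤ c v2) (c3 : 3 ≤ c v3) (c4 : 3 ≤ c v4) (c5 : 2 ≤ c v5)
    (ca : 2 ≤ c a) (cp : 2 ≤ c p) (cq : 2 ≤ c q) (cb : 2 ≤ c b) (cx : 2 ≤ c x) (cy : 2 ≤ c y)
    (h2 : ∀ A : Finset V, v1 ∈ A → AT (outt A M) c) : AT M c := by
  have hinj := List.nodup_iff_injective_get.mp hn
  refine AT.certBlock (n := 11) ([v1, v2, v3, v4, v5, a, p, q, b, x, y].get) hinj hl
    Finset.univ p5tt []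
    ![1,1,2,3,2,2,1,2,2,1,2] 0 (by decide +kernel) ?_ (by decide +kernel) (by simp) ?_ co_p5tt ?_
    (h2 _ ?_)
  · intro z hz
    simp only [p5tt, List.append_nil, List.mem_cons, List.not_mem_nil,
      or_false] at hz
    rcases hz with rfl | rfl | rfl | rfl | rfl | rfl | rfl | rfl | rfl | rfl | rfl | rfl | rfl |
      rfl | rfl | rfl | rfl | rfl | rfl
    exacts [m1, m2, m3, m4, m5, m6, m7, m8, m9, m10, m11, m12, m13, m14, m15, m16, m17, m18,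
      m19]
  · intro i _ hi
    rw [List.append_nil]
    fin_cases i
    exacts [d1, d2, d3, d4, d5, da, dp, dq, db, dx, dy]
  · intro i _
    have k : ∀ (x : V) (i : Fin 11) (d : ℕ), dg M x ≤ d →
        ![1,1,2,3,2,2,1,2,2,1,2] i + d ≤ c x + cnt p5tt i →
        ![1,1,2,3,2,2,1,2,2,1,2] i + dg M x ≤ c x + cnt p5tt i := by
      intro x i d h1 h2; omega
    have e0 : ∀ i : Fin 11, cnt p5tt i = ![4,4,4,4,4,3,3,3,3,3,3] i := by decide
    fin_cases i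
    · refine k v1 0 4 d1 ?_; rw [e0]; show 1 + 4 ≤ c v1 + 4; omega
    · refine k v2 1 4 d2 ?_; rw [e0]; show 1 + 4 ≤ c v2 + 4; omega
    · refine k v3 2 4 d3 ?_; rw [e0]; show 2 + 4 ≤ c v3 + 4; omega
    · refine k v4 3 4 d4 ?_; rw [e0]; show 3 + 4 ≤ c v4 + 4; omega
    · refine k v5 4 4 d5 ?_; rw [e0]; show 2 + 4 ≤ c v5 + 4; omega
    · refine k a 5 3 da ?_; rw [e0]; show 2 + 3 ≤ c a + 3; omega
    · refine k p 6 3 dp ?_; rw [e0]; show 1 + 3 ≤ c p + 3; omega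
    · refine k q 7 3 dq ?_; rw [e0]; show 2 + 3 ≤ c q + 3; omega
    · refine k b 8 3 db ?_; rw [e0]; show 2 + 3 ≤ c b + 3; omega
    · refine k x 9 3 dx ?_; rw [e0]; show 1 + 3 ≤ c x + 3; omega
    · refine k y 10 3 dy ?_; rw [e0]; show 2 + 3 ≤ c y + 3; omega
  · rw [Finset.mem_map]
    exact ⟨0, Finset.mem_univ _, rfl⟩

/-- a `U_5` with an end of degree three -/
def u9 : List (Fin 5 × Fin 5) :=
  [(0,1),(0,2),(1,2),(1,3),(2,3),(2,4),(3,4),(1,4),(0,3)]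

theorem co_u9 : co u9 ![2,2,1,3,1] ≠ 0 := by decide +kernel

theorem AT.b5 {v1 v2 v3 v4 v5 : V} (hn : [v1, v2, v3, v4, v5].Nodup)
    (hl : ∀ e ∈ M, ¬ e.IsDiag)
    (m1 : s(v1, v2) ∈ M) (m2 : s(v1, v3) ∈ M) (m3 : s(v2, v3) ∈ M) (m4 : s(v2, v4) ∈ M)
    (m5 : s(v3, v4) ∈ M) (m6 : s(v3, v5) ∈ M) (m7 : s(v4, v5) ∈ M) (m8 : s(v2, v5) ∈ M)
    (m9 : s(v1, v4) ∈ M)
    (d1 : dg M v1 ≤ 3) (d2 : dg M v2 ≤ 4) (d3 : dg M v3 ≤ 4) (d4 : dg M v4 ≤ 4)
    (d5 : dg M v5 ≤ 4)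
    (c1 : 2 ≤ c v1) (c2 : 3 ≤ c v2) (c3 : 3 ≤ c v3) (c4 : 3 ≤ c v4) (c5 : 2 ≤ c v5)
    (h2 : ∀ A : Finset V, v1 ∈ A → AT (outt A M) c) : AT M c := by
  have hinj := List.nodup_iff_injective_get.mp hn
  refine AT.certBlock (n := 5) ([v1, v2, v3, v4, v5].get) hinj hl Finset.univ u9 []
    ![2,2,1,3,1] 4 (by decide) ?_ (by decide) (by decide) ?_ co_u9 ?_
    (h2 _ ?_)
  · intro z hz
    simp only [u9, List.append_nil, List.mem_cons, List.not_mem_nil,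
      or_false] at hz
    rcases hz with rfl | rfl | rfl | rfl | rfl | rfl | rfl | rfl | rfl
    exacts [m1, m2, m3, m4, m5, m6, m7, m8, m9]
  · intro i _ hi
    rw [List.append_nil]
    fin_cases i
    exacts [d1, d2, d3, d4, absurd rfl hi]
  · intro i _
    have k : ∀ (x : V) (i : Fin 5) (d : ℕ), dg M x ≤ d →
        ![2,2,1,3,1] i + d ≤ c x + cnt u9 i →
        ![2,2,1,3,1] i + dg M x ≤ c x + cnt u9 i := by
      intro x i d h1 h2; omega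
    have e0 : ∀ i : Fin 5, cnt u9 i = ![3,4,4,4,3] i := by decide
    fin_cases i
    · refine k v1 0 3 d1 ?_; rw [e0]; show 2 + 3 ≤ c v1 + 3; omega
    · refine k v2 1 4 d2 ?_; rw [e0]; show 2 + 4 ≤ c v2 + 4; omega
    · refine k v3 2 4 d3 ?_; rw [e0]; show 1 + 4 ≤ c v3 + 4; omega
    · refine k v4 3 4 d4 ?_; rw [e0]; show 3 + 4 ≤ c v4 + 4; omega
    · refine k v5 4 4 d5 ?_; rw [e0]; show 1 + 4 ≤ c v5 + 3; omega
  · rw [Finset.mem_map]
    exact ⟨0, Finset.mem_univ _, rfl⟩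

/-- a vertex of degree 3 has no fourth neighbour -/
theorem no_fourth {z y₁ y₂ y₃ y₄ : V} (hn : [y₁, y₂, y₃, y₄].Nodup) (hd : dg M z = 3)
    (h1 : s(z, y₁) ∈ M) (h2 : s(z, y₂) ∈ M) (h3 : s(z, y₃) ∈ M) (h4 : s(z, y₄) ∈ M) : False := by
  classical
  simp only [List.nodup_cons, List.mem_cons, List.not_mem_nil, or_false, not_or,
    List.nodup_nil, and_true, not_false_eq_true] at hn
  obtain ⟨⟨n1, n2, n3⟩, ⟨n4, n5⟩, n6⟩ := hn
  have := card_le_dg (M := M) (x := z) {y₁, y₂, y₃, y₄} (by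
    intro y hy
    simp only [Finset.mem_insert, Finset.mem_singleton] at hy
    rcases hy with rfl | rfl | rfl | rfl <;> assumption)
  rw [Finset.card_insert_of_notMem (by simp [n1, n2, n3]),
    Finset.card_insert_of_notMem (by simp [n4, n5]),
    Finset.card_insert_of_notMem (by simp [n6]), Finset.card_singleton] at this
  omega

/-- the vertices `a, p, q` do not see `s` and `v` -/
theorem K4At.no_nbr {s u w v t a p q : V} (h : K4At c M s u w v t a p q) (hau : s(a, u) ∈ M)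
    {z y : V} (hz : z = a ∨ z = p ∨ z = q) (hy : y = s ∨ y = v) : s(z, y) ∉ M := by
  intro hzy
  have hne := h.ne
  simp only [List.nodup_cons, List.mem_cons, List.not_mem_nil, or_false, not_or,
    List.nodup_nil, and_true, not_false_eq_true] at hne
  obtain ⟨⟨_, _, _, st, sa, sp, sq⟩, ⟨_, uv, _, ua, up, uq⟩, _, ⟨vt, va, vp, vq⟩,
    ⟨ta, tp, tq⟩, ⟨ap, aq⟩, pq⟩ := hne
  have su : s ≠ u := by
    have := h.ne
    simp only [List.nodup_cons, List.mem_cons, List.not_mem_nil, or_false, not_or,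
      List.nodup_nil, and_true, not_false_eq_true] at this
    exact this.1.1
  rcases hz with rfl | rfl | rfl
  · refine no_fourth (z := z) (y₁ := u) (y₂ := p) (y₃ := q) (y₄ := y) ?_ h.da hau h.ap h.aq hzy
    simp only [List.nodup_cons, List.mem_cons, List.not_mem_nil, or_false, not_or,
      List.nodup_nil, and_true, not_false_eq_true]
    rcases hy with rfl | rfl
    · exact ⟨⟨up, uq, Ne.symm su⟩, ⟨pq, Ne.symm sp⟩, Ne.symm sq⟩
    · exact ⟨⟨up, uq, uv⟩, ⟨pq, Ne.symm vp⟩, Ne.symm vq⟩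
  · refine no_fourth (z := z) (y₁ := a) (y₂ := t) (y₃ := q) (y₄ := y) ?_ h.dp (mem_swap h.ap)
      (mem_swap h.tp) h.pq hzy
    simp only [List.nodup_cons, List.mem_cons, List.not_mem_nil, or_false, not_or,
      List.nodup_nil, and_true, not_false_eq_true]
    rcases hy with rfl | rfl
    · exact ⟨⟨Ne.symm ta, aq, Ne.symm sa⟩, ⟨tq, Ne.symm st⟩, Ne.symm sq⟩
    · exact ⟨⟨Ne.symm ta, aq, Ne.symm va⟩, ⟨tq, Ne.symm vt⟩, Ne.symm vq⟩
  · refine no_fourth (z := z) (y₁ := a) (y₂ := t) (y₃ := p) (y₄ := y) ?_ h.dq (mem_swap h.aq)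
      (mem_swap h.tq) (mem_swap h.pq) hzy
    simp only [List.nodup_cons, List.mem_cons, List.not_mem_nil, or_false, not_or,
      List.nodup_nil, and_true, not_false_eq_true]
    rcases hy with rfl | rfl
    · exact ⟨⟨Ne.symm ta, ap, Ne.symm sa⟩, ⟨tp, Ne.symm st⟩, Ne.symm sp⟩
    · exact ⟨⟨Ne.symm ta, ap, Ne.symm va⟩, ⟨tp, Ne.symm vt⟩, Ne.symm vp⟩

/-- the case of a chord `u t` -/
theorem ENet.p5_chord (hM : ENet own c M)
    (rec' : ∀ N, N ≤ M → Multiset.card N < Multiset.card M → AT N c)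
    {s u w v t b x y : V} (hs : c s = 2) (hu : c u = 3) (hw : c w = 3) (hv : c v = 3)
    (ht : c t = 2) (hLu : LocAt own c M u s w t v) (hLw : LocAt own c M w u v s t)
    (hLv : LocAt own c M v t w b u) (hk : K4At c M t v w u s b x y) : AT M c := by
  have hne := hk.ne
  simp only [List.nodup_cons, List.mem_cons, List.not_mem_nil, or_false, not_or,
    List.nodup_nil, and_true, not_false_eq_true] at hne
  obtain ⟨⟨tv, tw, tu, ts, tb, tx, ty⟩, ⟨vw, vu, vs, vb, vx, vy⟩, ⟨wu, ws, wb, wx, wy⟩,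
    ⟨us, ub, ux, uy⟩, ⟨sb, sx, sy⟩, ⟨bx, b_y⟩, xy⟩ := hne
  refine AT.b8 (v1 := s) (v2 := u) (v3 := w) (v4 := v) (v5 := t) (b := b) (x := x) (y := y)
    ?_ hM.loopless (mem_swap hLu.mem1) (mem_swap hLw.mem3) hLu.mem2 hLu.mem4 hLw.mem2 hLw.mem4
    hLv.mem1 hLu.mem3 hLv.mem3 hk.tp hk.tq hk.ap hk.aq hk.pq (hM.le4' s) (hM.le4' u)
    (hM.le4' w) (hM.le4' v) (hM.le4' t) hk.da.le hk.dp.le hk.dq.le hs.ge hu.ge hw.ge hv.ge
    ht.ge hk.ca.ge hk.cp.ge hk.cq.ge ?_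
  · simp only [List.nodup_cons, List.mem_cons, List.not_mem_nil, or_false, not_or,
      List.nodup_nil, and_true, not_false_eq_true]
    exact ⟨⟨Ne.symm us, Ne.symm ws, Ne.symm vs, Ne.symm ts, sb, sx, sy⟩,
      ⟨Ne.symm wu, Ne.symm vu, Ne.symm tu, ub, ux, uy⟩, ⟨Ne.symm vw, Ne.symm tw, wb, wx, wy⟩,
      ⟨Ne.symm tv, vb, vx, vy⟩, ⟨tb, tx, ty⟩, ⟨bx, b_y⟩, xy⟩
  · intro A hA
    exact rec' _ (outt_le _ _) (card_outt_lt (w := u) (x := s) hA hLu.mem1)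

/-- the `P_5` rule -/
theorem ENet.p5 (hM : ENet own c M) (hS : Stk c M) (hK : NoLong own c M)
    (hNM : NoMid own c M)
    (rec_ : ∀ N, ENet own c N → Multiset.card N < Multiset.card M → AT N c)
    {s u w v t : V} (hs : c s = 2) (hu : c u = 3) (hw : c w = 3) (hv : c v = 3) (ht : c t = 2)
    (h1 : own s u) (h2 : own u w) (h3 : own w v) (h4 : own v t) (huv : u ≠ v)
    (hd : dg M u ≠ 0) : AT M c := by
  classical
  have rec' : ∀ N, N ≤ M → Multiset.card N < Multiset.card M → AT N c :=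
    fun N hN h => rec_ N (hM.mono hN) h
  have hsv : s ≠ v := by rintro rfl; omega
  have hsu : s ≠ u := by rintro rfl; omega
  have hsw : s ≠ w := by rintro rfl; omega
  have htu : t ≠ u := by rintro rfl; omega
  have htv : t ≠ v := by rintro rfl; omega
  have htw : t ≠ w := by rintro rfl; omega
  have huw : u ≠ w := by rintro rfl; exact hM.irr _ h2
  have hvw : v ≠ w := by rintro rfl; exact hM.irr _ h3
  obtain ⟨a, v', hLu⟩ := hM.locAt hu (by have := hS u hd; omega) (hM.symm _ _ h1) h2 hsw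
  obtain ⟨k1, k2⟩ := hLu.hy hw
  have e1 : v' = v := hM.other (hM.symm _ _ h2) k1 h3 k2 huv.symm
  subst e1
  have hdw := (dg_pos hLu.mem2).2
  obtain ⟨s', t', hLw⟩ := hM.locAt hw (by have := hS w hdw; omega) (hM.symm _ _ h2) h3 huv
  obtain ⟨k3, k4⟩ := hLw.bx hu
  have e2 : s' = s := hM.other h2 k3 (hM.symm _ _ h1) k4 hsw
  subst e2
  obtain ⟨k5, k6⟩ := hLw.hy hv
  have e3 : t' = t := hM.other (hM.symm _ _ h3) k5 h4 k6 htw
  subst e3
  have hdv := (dg_pos hLw.mem2).2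
  obtain ⟨b, u', hLv⟩ := hM.locAt hv (by have := hS v' hdv; omega) h4 (hM.symm _ _ h3) htw
  obtain ⟨k7, k8⟩ := hLv.hy hw
  have e4 : u' = u := hM.other h3 k7 (hM.symm _ _ h2) k8 huv
  subst e4
  have hpu : Port own c M u' a := ⟨hu, s', w, v', hs, hLu⟩
  have hpv : Port own c M v' b := ⟨hv, t', w, u', ht, hLv⟩
  -- the two modes
  have mode5 := fun (hat : a ≠ t') => hM.p5_mode hS hK hNM rec_ hs hu hw hv ht h1 h2 h3 h4 huv
    hLu hLw hLv.mem1 hat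
  have mode1 := fun (hbs : b ≠ s') => hM.p5_mode hS hK hNM rec_ ht hv hw hu hs (hM.symm _ _ h4)
    (hM.symm _ _ h3) (hM.symm _ _ h2) (hM.symm _ _ h1) huv.symm hLv hLw.swap hLu.mem1 hbs
  by_cases hat : a = t'
  · subst hat
    by_cases hbs : b = s'
    · subst hbs
      have hst : b ≠ a := by
        rintro rfl
        exact huv (hM.oneE b u' v' hs h1 (hM.symm _ _ h4))
      by_cases hds : 4 ≤ dg M b
      · by_cases hdt : 4 ≤ dg M a
        · exact (hM.noU b u' w v' a hs hu hw hv ht h1 h2 h3 h4 huv hds hdt (Or.inl hpu)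
            (Or.inl hpv)).elim
        · refine AT.b5 (v1 := a) (v2 := v') (v3 := w) (v4 := u') (v5 := b) ?_ hM.loopless
            (mem_swap hLv.mem1) (mem_swap hLw.mem4) hLv.mem2 hLv.mem4 hLw.mem1 hLw.mem3
            hLu.mem1 hLv.mem3 (mem_swap hLu.mem3) (by omega) (hM.le4' _) (hM.le4' _)
            (hM.le4' _) (hM.le4' _) ht.ge hv.ge hw.ge hu.ge hs.ge ?_
          · simp only [List.nodup_cons, List.mem_cons, List.not_mem_nil, or_false, not_or,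
              List.nodup_nil, and_true, not_false_eq_true]
            exact ⟨⟨htv, htw, htu, hst.symm⟩, ⟨hvw, huv.symm, hsv.symm⟩,
              ⟨huw.symm, hsw.symm⟩, hsu.symm⟩
          · intro A hA
            exact rec' _ (outt_le _ _) (card_outt_lt (w := v') (x := a) hA hLv.mem1)
      · refine AT.b5 (v1 := b) (v2 := u') (v3 := w) (v4 := v') (v5 := a) ?_ hM.loopless
          (mem_swap hLu.mem1) (mem_swap hLw.mem3) hLu.mem2 hLu.mem4 hLw.mem2 hLw.mem4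
          hLv.mem1 hLu.mem3 (mem_swap hLv.mem3) (by omega) (hM.le4' _) (hM.le4' _)
          (hM.le4' _) (hM.le4' _) hs.ge hu.ge hw.ge hv.ge ht.ge ?_
        · simp only [List.nodup_cons, List.mem_cons, List.not_mem_nil, or_false, not_or,
            List.nodup_nil, and_true, not_false_eq_true]
          exact ⟨⟨hsu, hsw, hsv, hst⟩, ⟨huw, huv, htu.symm⟩, ⟨hvw.symm, htw.symm⟩,
            htv.symm⟩
        · intro A hA
          exact rec' _ (outt_le _ _) (card_outt_lt (w := u') (x := b) hA hLu.mem1)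
    rcases mode1 hbs with h | ⟨x, y, hk⟩
    · exact h
    · exact hM.p5_chord rec' hs hu hw hv ht hLu hLw hLv hk
  · rcases mode5 hat with h | ⟨p, q, hk5⟩
    · exact h
    by_cases hbs : b = s'
    · subst hbs
      exact hM.p5_chord rec' ht hv hw hu hs hLv hLw.swap hLu hk5
    · rcases mode1 hbs with h | ⟨x, y, hk1⟩
      · exact h
      have hne5 := hk5.ne
      have hne1 := hk1.ne
      simp only [List.nodup_cons, List.mem_cons, List.not_mem_nil, or_false, not_or,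
        List.nodup_nil, and_true, not_false_eq_true] at hne5 hne1
      obtain ⟨⟨f1, f2, f3, f4, f5, f6, f7⟩, ⟨g1, g2, g3, g4, g5, g6⟩, ⟨i1, i2, i3, i4, i5⟩,
        ⟨j1, j2, j3, j4⟩, ⟨l1, l2, l3⟩, ⟨o1, o2⟩, r1⟩ := hne5
      obtain ⟨⟨f1', f2', f3', f4', f5', f6', f7'⟩, ⟨g1', g2', g3', g4', g5', g6'⟩,
        ⟨i1', i2', i3', i4', i5'⟩,
        ⟨j1', j2', j3', j4'⟩, ⟨l1', l2', l3'⟩, ⟨o1', o2'⟩, r1'⟩ := hne1
      have key : ∀ z, (z = a ∨ z = p ∨ z = q) → z ≠ b ∧ z ≠ x ∧ z ≠ y := by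
        intro z hz
        refine ⟨?_, ?_, ?_⟩
        · rintro rfl
          exact hk5.no_nbr (mem_swap hLu.mem3) hz (Or.inr rfl) (mem_swap hLv.mem3)
        · rintro rfl
          exact hk5.no_nbr (mem_swap hLu.mem3) hz (Or.inl rfl) (mem_swap hk1.tp)
        · rintro rfl
          exact hk5.no_nbr (mem_swap hLu.mem3) hz (Or.inl rfl) (mem_swap hk1.tq)
      obtain ⟨ab, ax, ay⟩ := key a (Or.inl rfl)
      obtain ⟨pb, px, py⟩ := key p (Or.inr (Or.inl rfl))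
      obtain ⟨qb, qx, qy⟩ := key q (Or.inr (Or.inr rfl))
      refine AT.b11 (v1 := s') (v2 := u') (v3 := w) (v4 := v') (v5 := t') (a := a) (p := p)
        (q := q) (b := b) (x := x) (y := y) ?_ hM.loopless (mem_swap hLu.mem1)
        (mem_swap hLw.mem3) hLu.mem2 hLu.mem4 hLw.mem2 hLw.mem4 hLv.mem1 hLu.mem3 hk5.tp hk5.tq
        hk5.ap hk5.aq hk5.pq hLv.mem3 hk1.tp hk1.tq hk1.ap hk1.aq hk1.pq (hM.le4' _)
        (hM.le4' _) (hM.le4' _) (hM.le4' _) (hM.le4' _) hk5.da.le hk5.dp.le hk5.dq.le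
        hk1.da.le hk1.dp.le hk1.dq.le hs.ge hu.ge hw.ge hv.ge ht.ge hk5.ca.ge hk5.cp.ge
        hk5.cq.ge hk1.ca.ge hk1.cp.ge hk1.cq.ge ?_
      · simp only [List.nodup_cons, List.mem_cons, List.not_mem_nil, or_false, not_or,
          List.nodup_nil, and_true, not_false_eq_true]
        exact ⟨⟨f1, f2, f3, f4, f5, f6, f7, l1', l2', l3'⟩,
          ⟨g1, g2, g3, g4, g5, g6, j2', j3', j4'⟩, ⟨i1, i2, i3, i4, i5, i3', i4', i5'⟩,
          ⟨j1, j2, j3, j4, g4', g5', g6'⟩, ⟨l1, l2, l3, f5', f6', f7'⟩,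
          ⟨o1, o2, ab, ax, ay⟩, ⟨r1, pb, px, py⟩, ⟨qb, qx, qy⟩, ⟨o1', o2'⟩, r1'⟩
      · intro A hA
        exact rec' _ (outt_le _ _) (card_outt_lt (w := u') (x := s') hA hLu.mem1)

end Helper42.L9
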