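import Pool.Agent.helper42.L9.Eph1

/-!
# E-phase: units with at least four inner vertices, own cycles
-/

set_option linter.unusedSimpArgs false

namespace Helper42.L9

open Finset

variable {V : Type*}

theorem rest_eq_outt [DecidableEq V] (M : Multiset (Sym2 V)) (u v : V) :
    rest M u v = outt {u, v} M := by
  classical
  unfold rest outt
  congr 1
  funext e
  simp only [Finset.mem_insert, Finset.mem_singleton, eq_iff_iff]
  constructor
  · rintro ⟨h1, h2⟩ w hw (rfl | rfl)
    · exact h1 hw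
    · exact h2 hw
  · intro h
    exact ⟨fun hu => h u hu (Or.inl rfl), fun hv => h v hv (Or.inr rfl)⟩

theorem nodup_pair_le {α : Type*} {a b : α} {M : Multiset α} (hab : a ≠ b) (ha : a ∈ M)
    (hb : b ∈ M) : ({a, b} : Multiset α) ≤ M := by
  classical
  rw [Multiset.insert_eq_cons]
  refine (Multiset.le_iff_count.mpr fun x => ?_)
  rw [Multiset.count_cons, Multiset.count_singleton]
  by_cases h1 : x = a
  · subst h1
    rw [if_neg hab, if_pos rfl, zero_add]
    exact Multiset.one_le_count_iff_mem.mpr ha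
  · by_cases h2 : x = b
    · subst h2
      rw [if_pos rfl, if_neg h1, add_zero]
      exact Multiset.one_le_count_iff_mem.mpr hb
    · rw [if_neg h2, if_neg h1]
      exact Nat.zero_le _

theorem dg_outt_two {R : Finset V} {M : Multiset (Sym2 V)} {w x y : V} (hx : x ∈ R) (hy : y ∈ R)
    (hxy : x ≠ y) (h1 : s(w, x) ∈ M) (h2 : s(w, y) ∈ M) : dg (outt R M) w + 2 ≤ dg M w := by
  classical
  have h3 : outt R M + M.filter (fun e => ¬ ∀ v ∈ e, v ∉ R) = M := by
    unfold outt
    exact Multiset.filter_add_not _ _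
  have h4 : dg M w = dg (outt R M) w + dg (M.filter (fun e => ¬ ∀ v ∈ e, v ∉ R)) w := by
    rw [← dg_add, h3]
  have h5 : ({s(w, x), s(w, y)} : Multiset (Sym2 V)) ≤ M.filter (fun e => ¬ ∀ v ∈ e, v ∉ R) := by
    refine nodup_pair_le ?_ (Multiset.mem_filter.mpr ⟨h1, fun h => ?_⟩)
      (Multiset.mem_filter.mpr ⟨h2, fun h => ?_⟩)
    · intro h
      rw [Sym2.eq_iff] at h
      rcases h with ⟨_, h⟩ | ⟨h, h'⟩
      · exact hxy h
      · exact hxy (h' ▸ h)
    · exact h x (Sym2.mem_mk_right _ _) hx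
    · exact h y (Sym2.mem_mk_right _ _) hy
  have h6 := dg_le_of_le h5 w
  have h7 : dg ({s(w, x), s(w, y)} : Multiset (Sym2 V)) w = 2 := by
    rw [Multiset.insert_eq_cons, ← Multiset.cons_zero, dg_cons_ite, dg_cons_ite]
    simp [dg]
  omega

theorem dg_outt_one {R : Finset V} {M : Multiset (Sym2 V)} {w x : V} (hx : x ∈ R)
    (h1 : s(w, x) ∈ M) : dg (outt R M) w + 1 ≤ dg M w := by
  classical
  have h3 : outt R M + M.filter (fun e => ¬ ∀ v ∈ e, v ∉ R) = M := by
    unfold outt
    exact Multiset.filter_add_not _ _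
  have h4 : dg M w = dg (outt R M) w + dg (M.filter (fun e => ¬ ∀ v ∈ e, v ∉ R)) w := by
    rw [← dg_add, h3]
  have h5 : ({s(w, x)} : Multiset (Sym2 V)) ≤ M.filter (fun e => ¬ ∀ v ∈ e, v ∉ R) := by
    rw [Multiset.singleton_le]
    exact Multiset.mem_filter.mpr ⟨h1, fun h => h x (Sym2.mem_mk_right _ _) hx⟩
  have h6 := dg_le_of_le h5 w
  have h7 : dg ({s(w, x)} : Multiset (Sym2 V)) w = 1 := by
    rw [← Multiset.cons_zero, dg_cons_ite]
    simp [dg]
  omega

theorem card_outt_lt {R : Finset V} {M : Multiset (Sym2 V)} {w x : V} (hx : x ∈ R)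
    (h1 : s(w, x) ∈ M) : Multiset.card (outt R M) < Multiset.card M := by
  classical
  refine lt_of_le_of_ne (Multiset.card_le_card (outt_le R M)) fun hh => ?_
  have h2 := Multiset.eq_of_le_of_card_le (outt_le R M) hh.ge
  rw [← h2] at h1
  exact (mem_outt.mp h1).2 x (Sym2.mem_mk_right _ _) hx

variable {own : V → V → Prop} {c : V → ℕ} {M N : Multiset (Sym2 V)}

theorem ENet.locAt (hM : ENet own c M) {u s v : V} (hu : c u = 3) (h4 : 4 ≤ dg M u)
    (hs : own u s) (hv : own u v) (hsv : s ≠ v) : ∃ s' v', LocAt own c M u s v s' v' := by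
  obtain ⟨x, y, x', y', h⟩ := hM.loc u hu h4
  have h1 := hM.two u x y s h.ox h.oy hs
  have h2 := hM.two u x y v h.ox h.oy hv
  have hne := h.ne
  rcases h1 with h1 | h1 | h1
  · exact absurd h1 hne
  · rcases h2 with h2 | h2 | h2
    · exact absurd h2 hne
    · exact absurd (h1.symm.trans h2) hsv
    · subst h1; subst h2; exact ⟨_, _, h⟩
  · rcases h2 with h2 | h2 | h2
    · exact absurd h2 hne
    · subst h1; subst h2; exact ⟨_, _, h.swap⟩
    · exact absurd (h1.symm.trans h2) hsv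

theorem ENet.other (hM : ENet own c M) {u a b d : V} (h1 : own u a) (h2 : own u b)
    (h3 : own u d) (hba : b ≠ a) (hda : d ≠ a) : b = d := by
  rcases hM.two u a b d h1 h2 h3 with h | h | h
  · exact absurd h.symm hba
  · exact absurd h.symm hda
  · exact h

theorem dg_pos {u v : V} (h : s(u, v) ∈ M) : dg M u ≠ 0 ∧ dg M v ≠ 0 := by
  classical
  unfold dg
  constructor
  · exact (Multiset.countP_pos (p := fun e => u ∈ e)).mpr
      ⟨s(u, v), h, Sym2.mem_mk_left _ _⟩ |>.ne'
  · exact (Multiset.countP_pos (p := fun e => v ∈ e)).mpr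
      ⟨s(u, v), h, Sym2.mem_mk_right _ _⟩ |>.ne'

theorem LocAt.mem1 {u x y x' y' : V} (h : LocAt own c M u x y x' y') : s(u, x) ∈ M :=
  (mem_fl.mp (by rw [h.edges]; simp : s(u, x) ∈ fl M u)).1

theorem LocAt.mem2 {u x y x' y' : V} (h : LocAt own c M u x y x' y') : s(u, y) ∈ M :=
  (mem_fl.mp (by rw [h.edges]; simp : s(u, y) ∈ fl M u)).1

theorem LocAt.mem3 {u x y x' y' : V} (h : LocAt own c M u x y x' y') : s(u, x') ∈ M :=
  (mem_fl.mp (by rw [h.edges]; simp : s(u, x') ∈ fl M u)).1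

theorem LocAt.mem4 {u x y x' y' : V} (h : LocAt own c M u x y x' y') : s(u, y') ∈ M :=
  (mem_fl.mp (by rw [h.edges]; simp : s(u, y') ∈ fl M u)).1

/-- every vertex of positive degree is overfull -/
def Stk (c : V → ℕ) (M : Multiset (Sym2 V)) : Prop := ∀ v, dg M v ≠ 0 → c v < dg M v

/-- own path `s, u, v, t, t'` with `c s = 2`, the others `3` -/
theorem ENet.kill1 (hM : ENet own c M) (hS : Stk c M)
    (rec_ : ∀ N, N ≤ M → Multiset.card N < Multiset.card M → AT N c)
    {s u v t t' : V} (hs : c s = 2) (hu : c u = 3) (hv : c v = 3) (ht : c t = 3)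
    (ht' : c t' = 3) (h1 : own s u) (h2 : own u v) (h3 : own v t) (h4 : own t t') (hut : u ≠ t)
    (hvt : v ≠ t') (hd : dg M u ≠ 0) (hB : ¬ Port own c M u t') : AT M c := by
  classical
  have hsv : s ≠ v := by rintro rfl; omega
  have hsu : s ≠ u := by rintro rfl; omega
  have hst : s ≠ t := by rintro rfl; omega
  have hst' : s ≠ t' := by rintro rfl; omega
  have huv : u ≠ v := by rintro rfl; exact hM.irr _ h2
  have hvt0 : v ≠ t := by rintro rfl; exact hM.irr _ h3
  have htt' : t ≠ t' := by rintro rfl; exact hM.irr _ h4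
  have hut' : u ≠ t' := by
    rintro rfl
    have := hM.two u s v t (hM.symm _ _ h1) h2 (hM.symm _ _ h4)
    tauto
  obtain ⟨α, v', hLu⟩ := hM.locAt hu (by have := hS u hd; omega) (hM.symm _ _ h1) h2 hsv
  obtain ⟨hv1, hv2⟩ := hLu.hy hv
  have e1 : v' = t := hM.other (hM.symm _ _ h2) hv1 h3 hv2 hut.symm
  subst e1
  have hdv := (dg_pos hLu.mem2).2
  obtain ⟨s', t'', hLv⟩ := hM.locAt hv (by have := hS v hdv; omega) (hM.symm _ _ h2) h3 hut
  obtain ⟨hv3, hv4⟩ := hLv.bx hu
  have e2 : s' = s := hM.other h2 hv3 (hM.symm _ _ h1) hv4 hsv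
  subst e2
  obtain ⟨hv5, hv6⟩ := hLv.hy ht
  have e3 : t'' = t' := hM.other (hM.symm _ _ h3) hv5 h4 hv6 hvt.symm
  subst e3
  have hdt := (dg_pos hLv.mem2).2
  obtain ⟨w1, w2, hLt⟩ := hM.locAt ht (by have := hS v' hdt; omega) (hM.symm _ _ h3) h4 hvt
  -- `α ≠ v`
  have hαv : α ≠ v := by
    rintro rfl
    have c1 : (fl M u).count s(u, α) = (fl M α).count s(u, α) := by
      unfold fl
      rw [Multiset.count_filter_of_pos (p := fun e => u ∈ e) (Sym2.mem_mk_left _ _),
        Multiset.count_filter_of_pos (p := fun e => α ∈ e) (Sym2.mem_mk_right _ _)]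
    rw [hLu.edges, hLv.edges] at c1
    have d1 : s(u, α) ≠ s(u, s') := by
      intro h; rw [Sym2.eq_iff] at h; rcases h with ⟨_, h⟩ | ⟨h, h'⟩
      · exact hsv h.symm
      · exact hsu h.symm
    have d2 : s(u, α) ≠ s(u, v') := by
      intro h; rw [Sym2.eq_iff] at h; rcases h with ⟨_, h⟩ | ⟨h, h'⟩
      · exact hvt0 h
      · exact hut h
    have d3 : s(u, α) ≠ s(α, v') := by
      intro h; rw [Sym2.eq_iff] at h; rcases h with ⟨h, _⟩ | ⟨h, h'⟩
      · exact huv h
      · exact hut h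
    have d4 : s(u, α) ≠ s(α, s') := by
      intro h; rw [Sym2.eq_iff] at h; rcases h with ⟨h, _⟩ | ⟨h, h'⟩
      · exact huv h
      · exact hsu h.symm
    have d5 : s(u, α) ≠ s(α, t'') := by
      intro h; rw [Sym2.eq_iff] at h; rcases h with ⟨h, _⟩ | ⟨h, h'⟩
      · exact huv h
      · exact hut' h
    have d6 : s(u, α) = s(α, u) := Sym2.eq_swap
    simp only [Multiset.insert_eq_cons, Multiset.count_cons, Multiset.count_singleton, d1, d2,
      d3, d4, d5, d6.symm, if_true, if_false] at c1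
    omega
  have hαt' : α ≠ t'' := by
    rintro rfl
    exact hB ⟨hu, s', v, v', hs, hLu⟩
  refine AT.elim (s := s') (t := v') (a := α) (b := t'') hM.loopless huv hαt' hαv hut'.symm hsu
    hsv hut.symm hvt0.symm hst ?_ ?_ (by omega) (by omega) ?_ ?_ ?_
  · rw [hLu.edges]
    simp only [Multiset.insert_eq_cons, ← Multiset.singleton_add]
    abel
  · rw [hLv.edges]
    simp only [Multiset.insert_eq_cons, ← Multiset.singleton_add]
    abel
  · have := hM.le4' s'; omega
  · have := hM.le4' v'; omega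
  · -- peel `t'`
    rw [rest_eq_outt]
    by_cases hα : α ∈ ({s', v'} : Finset V)
    · rw [outt_cons_neg (Or.inl hα), outt_outt]
      exact rec_ _ (outt_le _ _) (card_outt_lt (w := u) (x := v) (by simp) hLu.mem2)
    · have ht'n : t'' ∉ ({s', v'} : Finset V) := by
        simp only [Finset.mem_insert, Finset.mem_singleton, not_or]
        exact ⟨hst'.symm, htt'.symm⟩
      rw [outt_cons_pos hα ht'n, outt_outt]
      have h5 : dg (outt ({u, v} ∪ {s', v'}) M) t'' + 2 ≤ dg M t'' := by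
        refine dg_outt_two (x := v) (y := v') (by simp) (by simp) hvt0 ?_ ?_
        · rw [Sym2.eq_swap]; exact hLv.mem4
        · rw [Sym2.eq_swap]; exact hLt.mem2
      have h6 := hM.le4' t''
      refine AT.peel t'' _ c ?_ ?_ ?_
      · intro e he
        rcases Multiset.mem_cons.mp he with rfl | he
        · rw [Sym2.mk_isDiag_iff]; exact hαt'
        · exact hM.loopless e (Multiset.mem_of_le (outt_le _ _) he)
      · rw [dg_cons_ite, if_pos (Or.inr rfl)]
        omega
      · rw [outt_cons_neg (Or.inr (by simp)), outt_outt]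
        exact rec_ _ (outt_le _ _) (card_outt_lt (w := u) (x := v) (by simp) hLu.mem2)

/-- own path `s', s, u, v, t, t'`, the first five inner -/
theorem ENet.kill2 (hM : ENet own c M) (hS : Stk c M)
    (rec_ : ∀ N, N ≤ M → Multiset.card N < Multiset.card M → AT N c)
    {s' s u v t : V} (hs' : c s' = 3) (hs : c s = 3) (hu : c u = 3) (hv : c v = 3) (ht : c t = 3)
    (h0 : own s' s) (h1 : own s u) (h2 : own u v) (h3 : own v t) (hs'u : s' ≠ u) (hsv : s ≠ v)
    (hut : u ≠ t) (hd : dg M u ≠ 0) : AT M c := by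
  classical
  have hsu : s ≠ u := by rintro rfl; exact hM.irr _ h1
  have huv : u ≠ v := by rintro rfl; exact hM.irr _ h2
  have hvt0 : v ≠ t := by rintro rfl; exact hM.irr _ h3
  have hss' : s' ≠ s := by rintro rfl; exact hM.irr _ h0
  obtain ⟨α, v', hLu⟩ := hM.locAt hu (by have := hS u hd; omega) (hM.symm _ _ h1) h2 hsv
  obtain ⟨hv1, hv2⟩ := hLu.hy hv
  have e1 : v' = t := hM.other (hM.symm _ _ h2) hv1 h3 hv2 hut.symm
  subst e1
  obtain ⟨hv7, hv8⟩ := hLu.bx hs
  have e0 : α = s' := hM.other h1 hv7 (hM.symm _ _ h0) hv8 hs'u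
  subst e0
  have hdv := (dg_pos hLu.mem2).2
  obtain ⟨s'', t', hLv⟩ := hM.locAt hv (by have := hS v hdv; omega) (hM.symm _ _ h2) h3 hut
  obtain ⟨hv3, hv4⟩ := hLv.bx hu
  have e2 : s'' = s := hM.other h2 hv3 (hM.symm _ _ h1) hv4 hsv
  subst e2
  obtain ⟨hv5, hv6⟩ := hLv.hy ht
  have hds := (dg_pos hLu.mem1).2
  obtain ⟨w1, w2, hLs⟩ := hM.locAt hs (by have := hS s'' hds; omega) h1 (hM.symm _ _ h0)
    hs'u.symm
  obtain ⟨hv9, hv10⟩ := hLs.bx hu
  have e4 : w1 = v := hM.other (hM.symm _ _ h1) hv9 h2 hv10 hsv.symm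
  subst e4
  have n1 := hLu.nd hs hv
  have n2 := hLv.nd hu ht
  have n3 := hLs.nd hu hs'
  simp only [List.nodup_cons, List.mem_cons, List.not_mem_nil, or_false, not_or,
    List.nodup_nil, and_true, not_false_eq_true] at n1 n2 n3
  have hαt' : α ≠ t' := by
    rintro rfl
    refine hM.noC α s'' u w1 v' hs' hs hu hv ht h0 h1 h2 h3 hv5 ?_ (dg_pos hLu.mem3).2
    simp only [List.nodup_cons, List.mem_cons, List.not_mem_nil, or_false, not_or,
      List.nodup_nil, and_true, not_false_eq_true]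
    refine ⟨⟨hss', hs'u, hv6, ?_⟩, ⟨hsu, hsv, ?_⟩, ⟨huv, hut⟩, hvt0⟩
    · rintro rfl; exact hM.irr _ hv5
    · exact n1.1.2.2
  refine AT.elim (s := s'') (t := v') (a := α) (b := t') hM.loopless huv hαt' (Ne.symm n1.2.1.1)
    (Ne.symm n2.1.2.2) hsu hsv hut.symm hvt0.symm n1.1.2.2 ?_ ?_ (by omega) (by omega) ?_ ?_ ?_
  · rw [hLu.edges]
    simp only [Multiset.insert_eq_cons, ← Multiset.singleton_add]
    abel
  · rw [hLv.edges]
    simp only [Multiset.insert_eq_cons, ← Multiset.singleton_add]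
    abel
  · have := hM.le4' s''; omega
  · have := hM.le4' v'; omega
  · rw [rest_eq_outt]
    by_cases hα : α ∈ ({s'', v'} : Finset V) ∨ t' ∈ ({s'', v'} : Finset V)
    · rw [outt_cons_neg hα, outt_outt]
      exact rec_ _ (outt_le _ _) (card_outt_lt (w := u) (x := w1) (by simp) hLu.mem2)
    · rw [not_or] at hα
      rw [outt_cons_pos hα.1 hα.2, outt_outt]
      have h5 : dg (outt ({u, w1} ∪ {s'', v'}) M) α + 2 ≤ dg M α := by
        refine dg_outt_two (x := u) (y := s'') (by simp) (by simp) hsu.symm ?_ ?_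
        · rw [Sym2.eq_swap]; exact hLu.mem3
        · rw [Sym2.eq_swap]; exact hLs.mem2
      have h6 := hM.le4' α
      refine AT.peel α _ c ?_ ?_ ?_
      · intro e he
        rcases Multiset.mem_cons.mp he with rfl | he
        · rw [Sym2.mk_isDiag_iff]; exact hαt'
        · exact hM.loopless e (Multiset.mem_of_le (outt_le _ _) he)
      · rw [dg_cons_ite, if_pos (Or.inl rfl)]
        omega
      · rw [outt_cons_neg (Or.inl (by simp)), outt_outt]
        exact rec_ _ (outt_le _ _) (card_outt_lt (w := u) (x := w1) (by simp) hLu.mem2)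

end Helper42.L9
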