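import Pool.Agent.helper42.L9.Eph3

/-!
# E-phase: the new multigraph satisfies the hypotheses
-/

set_option linter.unusedSimpArgs false

namespace Helper42.L9

open Finset

variable {V : Type*} {own : V → V → Prop} {c : V → ℕ} {M N : Multiset (Sym2 V)}

/-- no unit with at least four inner vertices -/
def NoLong (own : V → V → Prop) (c : V → ℕ) (M : Multiset (Sym2 V)) : Prop :=
  ∀ s u v t t', c s = 2 → c u = 3 → c v = 3 → c t = 3 → c t' = 3 → own s u → own u v →
    own v t → own t t' → u ≠ t → v ≠ t' → dg M u = 0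

theorem nw_loc_left (hM : ENet own c M) {R : Finset V} {a b u : V} (haR : a ∉ R)
    (h : Link own c M R a u) (h3 : c a = 3) (h4 : 4 ≤ dg (nw M R a b) a) :
    ∃ x y x' y', LocAt own c (nw M R a b) a x y x' y' := by
  have h5 := nw_full_left h4
  have h6 := dg_outt_one h.mem h.edge
  obtain ⟨x, y, x', y', hL⟩ := hM.loc a h3 (by omega)
  have hau : a ≠ u := by rintro rfl; exact haR h.mem
  rcases link_loc h hL hau h5 nw_fl_left with ⟨_, _, h9⟩ | ⟨_, _, h9⟩
  · exact ⟨_, _, _, _, h9⟩
  · exact ⟨_, _, _, _, h9⟩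

theorem nw_heavy_left (hM : ENet own c M) {R : Finset V} {a b u : V} (haR : a ∉ R)
    (h : Link own c M R a u) (h2 : c a = 2) (h4 : 4 ≤ dg (nw M R a b) a) :
    ∃ u₁ u₁', c u₁ = 3 ∧ own a u₁ ∧ own u₁ u₁' ∧ u₁' ≠ a ∧ s(a, u₁) ∈ nw M R a b ∧
      s(a, u₁') ∈ nw M R a b := by
  have h5 := nw_full_left h4
  have h6 := dg_outt_one h.mem h.edge
  have h7 := hM.le4 a h2
  obtain ⟨w, w', e1, e2, e3, e4, e5, e6⟩ := hM.heavy a h2 (by omega)
  have hw : w ∉ R := by
    intro hw
    have hne : w ≠ u := by rintro rfl; exact h.nown e2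
    have := dg_outt_two hw h.mem hne e5 h.edge
    omega
  have hw' : w' ∉ R := by
    intro hw'
    have hne : w' ≠ u := by
      rintro rfl
      exact hw (h.beh w e3 e1)
    have := dg_outt_two hw' h.mem hne e6 h.edge
    omega
  have mem : ∀ z, z ∉ R → s(a, z) ∈ M → s(a, z) ∈ nw M R a b := by
    intro z hz hzM
    unfold nw
    refine Multiset.mem_cons_of_mem (mem_outt.mpr ⟨hzM, fun y hy => ?_⟩)
    rw [Sym2.mem_iff] at hy
    rcases hy with rfl | rfl <;> assumption
  exact ⟨w, w', e1, e2, e3, e4, mem w hw e5, mem w' hw' e6⟩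

/-- `x` sees `R` through a link, or it is an end with two edges into `R` -/
def Sees (own : V → V → Prop) (c : V → ℕ) (M : Multiset (Sym2 V)) (R : Finset V) (x : V) : Prop :=
  (∃ v, Link own c M R x v) ∨ (c x = 2 ∧ ∃ p q, p ∈ R ∧ q ∈ R ∧ p ≠ q ∧ s(x, p) ∈ M ∧
    s(x, q) ∈ M)

theorem Sees.dg {R : Finset V} {x : V} (h : Sees own c M R x) :
    dg (outt R M) x + 1 ≤ dg M x ∧ dg M x ≠ 0 := by
  rcases h with ⟨v, hv⟩ | ⟨_, p, q, hp, hq, hpq, h3, h4⟩
  · exact ⟨dg_outt_one hv.mem hv.edge, (dg_pos hv.edge).1⟩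
  · exact ⟨dg_outt_one hp h3, (dg_pos h3).1⟩

theorem Sees.loc (hM : ENet own c M) {R : Finset V} {a b : V} (haR : a ∉ R)
    (h : Sees own c M R a) (h3 : c a = 3) (h4 : 4 ≤ Helper42.L9.dg (nw M R a b) a) :
    ∃ x y x' y', LocAt own c (nw M R a b) a x y x' y' := by
  rcases h with ⟨v, hv⟩ | ⟨h, _⟩
  · exact nw_loc_left hM haR hv h3 h4
  · omega

theorem Sees.heavy (hM : ENet own c M) {R : Finset V} {a b : V} (haR : a ∉ R)
    (h : Sees own c M R a) (h2 : c a = 2) (h4 : 4 ≤ Helper42.L9.dg (nw M R a b) a) :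
    ∃ u₁ u₁', c u₁ = 3 ∧ own a u₁ ∧ own u₁ u₁' ∧ u₁' ≠ a ∧ s(a, u₁) ∈ nw M R a b ∧
      s(a, u₁') ∈ nw M R a b := by
  classical
  rcases h with ⟨v, hv⟩ | ⟨_, p, r, hp, hr, hpr, h3, h5⟩
  · exact nw_heavy_left hM haR hv h2 h4
  · exfalso
    rw [dg_nw, if_pos (Or.inl rfl)] at h4
    have := dg_outt_two hp hr hpr h3 h5
    have := hM.le4 a h2
    omega

theorem nw_pos {R : Finset V} {a b : V} (ha : Sees own c M R a) (hb : Sees own c M R b) (x : V)
    (hx : dg (nw M R a b) x ≠ 0) : dg M x ≠ 0 := by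
  classical
  by_cases h1 : x = a
  · rw [h1]; exact ha.dg.2
  · by_cases h2 : x = b
    · rw [h2]; exact hb.dg.2
    · rw [dg_nw, if_neg (by tauto), add_zero] at hx
      have := dg_le_of_le (outt_le R M) x
      omega

theorem nw_full {R : Finset V} {a b : V} (ha : Sees own c M R a) (hb : Sees own c M R b) (x : V)
    (hx : 4 ≤ dg (nw M R a b) x) : 4 ≤ dg M x := by
  classical
  rw [dg_nw] at hx
  by_cases h1 : x = a
  · subst h1
    rw [if_pos (Or.inl rfl)] at hx
    have := ha.dg.1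
    omega
  · by_cases h2 : x = b
    · subst h2
      rw [if_pos (Or.inr rfl)] at hx
      have := hb.dg.1
      omega
    · rw [if_neg (by tauto), add_zero] at hx
      exact hx.trans (dg_le_of_le (outt_le R M) x)

theorem ENet.nw_base (hM : ENet own c M) {R : Finset V} {a b : V} (hab : a ≠ b) (haR : a ∉ R)
    (hbR : b ∉ R) (ha : Sees own c M R a) (hb : Sees own c M R b)
    (hLp : ∀ t, c t = 2 → ¬ Lp own c (nw M R a b) t t)
    (hU : ∀ s u w v t, c s = 2 → c u = 3 → c w = 3 → c v = 3 → c t = 2 → own s u → own u w →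
      own w v → own v t → u ≠ v → 4 ≤ dg (nw M R a b) s → 4 ≤ dg (nw M R a b) t →
      (Port own c (nw M R a b) u t ∨ Lp own c (nw M R a b) u t) →
      (Port own c (nw M R a b) v s ∨ Lp own c (nw M R a b) v s) → False)
    (hK4 : ∀ a' b' d e, c a' = 2 → c b' = 2 → c d = 2 → c e = 2 → [a', b', d, e].Nodup →
      Rg own c (nw M R a b) a' b' → Rg own c (nw M R a b) a' d → Rg own c (nw M R a b) a' e →
      Rg own c (nw M R a b) b' d → Rg own c (nw M R a b) b' e → Rg own c (nw M R a b) d e →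
      False) :
    ENet own c (nw M R a b) := by
  classical
  have hpos : ∀ x, dg (nw M R a b) x ≠ 0 → dg M x ≠ 0 := nw_pos ha hb
  have hfull : ∀ x, 4 ≤ dg (nw M R a b) x → 4 ≤ dg M x := nw_full ha hb
  refine
    { loopless := ?_
      symm := hM.symm
      irr := hM.irr
      two := hM.two
      oneE := hM.oneE
      cap := hM.cap
      loc := ?_
      le4 := ?_
      heavy := ?_
      noLoop := hLp
      noU := hU
      noC := ?_
      noK4 := hK4 }
  · intro e he
    rcases Multiset.mem_cons.mp he with rfl | he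
    · rw [Sym2.mk_isDiag_iff]; exact hab
    · exact hM.loopless e (Multiset.mem_of_le (outt_le _ _) he)
  · intro x h3 h4
    by_cases h1 : x = a
    · subst h1
      exact ha.loc hM haR h3 h4
    · by_cases h2 : x = b
      · subst h2
        rw [nw_comm] at h4 ⊢
        exact hb.loc hM hbR h3 h4
      · obtain ⟨X, Y, X', Y', hL⟩ := hM.loc x h3 (hfull x h4)
        exact ⟨X, Y, X', Y', hL.congr (nw_same h1 h2 (hM.le4' x) h4)⟩
  · intro q hq
    rw [dg_nw]
    have h5 := hM.le4 q hq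
    by_cases h1 : q = a
    · subst h1
      rw [if_pos (Or.inl rfl)]
      have := ha.dg.1
      omega
    · by_cases h2 : q = b
      · subst h2
        rw [if_pos (Or.inr rfl)]
        have := hb.dg.1
        omega
      · rw [if_neg (by tauto), add_zero]
        exact (dg_le_of_le (outt_le R M) q).trans (hM.le4 q hq)
  · intro q hq h4
    by_cases h1 : q = a
    · subst h1
      exact ha.heavy hM haR hq h4
    · by_cases h2 : q = b
      · subst h2
        rw [nw_comm] at h4 ⊢
        exact hb.heavy hM hbR hq h4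
      · obtain ⟨w, w', e1, e2, e3, e4, e5, e6⟩ := hM.heavy q hq (hfull q h4)
        have hfl := nw_same h1 h2 (hM.le4' q) h4
        refine ⟨w, w', e1, e2, e3, e4, ?_, ?_⟩
        · have : s(q, w) ∈ fl (nw M R a b) q := by
            rw [hfl]; exact mem_fl.mpr ⟨e5, Sym2.mem_mk_left _ _⟩
          exact (mem_fl.mp this).1
        · have : s(q, w') ∈ fl (nw M R a b) q := by
            rw [hfl]; exact mem_fl.mpr ⟨e6, Sym2.mem_mk_left _ _⟩
          exact (mem_fl.mp this).1
  · intro x y d e f h1 h2 h3 h4 h5 h6 h7 h8 h9 h10 h11 h12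
    exact hM.noC x y d e f h1 h2 h3 h4 h5 h6 h7 h8 h9 h10 h11 (hpos x h12)

/-- a virtual rung lies in a long unit -/
theorem NoLong.rg (hK : NoLong own c M) {x y : V} (hx : c x = 2) (hy : c y = 2)
    (h : Rg own c M x y) : s(x, y) ∈ M := by
  rcases h with h | ⟨u, v, t, t', h1, h2, h3, h4, h5, h6, h7, h8, _, h10, h11, h12⟩ |
    ⟨u, v, t, t', h1, h2, h3, h4, h5, h6, h7, h8, _, h10, h11, h12⟩
  · exact h
  · have := hK x u v t t' hx h1 h2 h3 h4 h5 h6 h7 h8 h10 h11
    have := h12.dg_eq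
    omega
  · have := hK y u v t t' hy h1 h2 h3 h4 h5 h6 h7 h8 h10 h11
    have := h12.dg_eq
    omega

theorem NoLong.nw (hK : NoLong own c M) {R : Finset V} {a b : V} (ha : Sees own c M R a)
    (hb : Sees own c M R b) : NoLong own c (nw M R a b) := by
  intro s u v t t' h1 h2 h3 h4 h5 h6 h7 h8 h9 h10 h11
  by_contra hcon
  exact nw_pos ha hb u hcon (hK s u v t t' h1 h2 h3 h4 h5 h6 h7 h8 h9 h10 h11)

/-- ports after the elimination of a `P_4` -/
theorem port_cases (hM : ENet own c M) {R : Finset V} {a b u v x p : V} (haR : a ∉ R)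
    (hbR : b ∉ R) (ha : Link own c M R a u) (hb : Link own c M R b v)
    (h : Port own c (nw M R a b) x p) :
    Port own c M x p ∨ (x = a ∧ p = b ∧ Port own c M a u) ∨
      (x = b ∧ p = a ∧ Port own c M b v) := by
  by_cases h1 : x = a
  · subst h1
    have := nw_port_left hM haR ha h
    exact Or.inr (Or.inl ⟨rfl, this.1, this.2⟩)
  · by_cases h2 : x = b
    · subst h2
      rw [nw_comm] at h
      have := nw_port_left hM hbR hb h
      exact Or.inr (Or.inr ⟨rfl, this.1, this.2⟩)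
    · exact Or.inl (nw_port_other hM h1 h2 h)

theorem Mid.swap (hs : ∀ u v, own u v → own v u) {u v : V} (h : Mid own c u v) :
    Mid own c v u := ⟨h.2.1, h.1, hs _ _ h.2.2.1, h.2.2.2.2, h.2.2.2.1⟩

/-- chains after the elimination of a `P_4` -/
theorem lp_of_nw (hM : ENet own c M) {R : Finset V} {a b u v : V} (haR : a ∉ R)
    (hbR : b ∉ R) (ha : Link own c M R a u) (hb : Link own c M R b v)
    (hmid : Mid own c u v) (hpu : Port own c M u a) (hpv : Port own c M v b) {t x : V}
    (h : Lp own c (nw M R a b) t x) : Lp own c M t x := by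
  have hmid' := hmid.swap hM.symm
  -- one step with the new ports
  have step : ∀ {t w x : V}, (∀ y, Port own c M w y → Lp own c M t y) →
      Port own c (nw M R a b) w x → Lp own c M t x := by
    intro t w x h1 h2
    rcases port_cases hM haR hbR ha hb h2 with h3 | ⟨rfl, rfl, h3⟩ | ⟨rfl, rfl, h3⟩
    · exact h1 _ h3
    · exact Lp.cons (h1 _ h3) hmid hpv
    · exact Lp.cons (h1 _ h3) hmid' hpu
  induction h with
  | @start w z x h1 h2 h3 =>
    refine step (w := z) (fun y hy => ?_) h3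
    rcases port_cases hM haR hbR ha hb h2 with h4 | ⟨rfl, rfl, _⟩ | ⟨rfl, rfl, _⟩
    · exact Lp.start h1 h4 hy
    · exact Lp.cons (Lp.start hmid' hpv hpu) h1 hy
    · exact Lp.cons (Lp.start hmid hpu hpv) h1 hy
  | @cons w z x _ h2 h3 ih =>
    exact step (w := z) (fun y hy => Lp.cons ih h2 hy) h3

end Helper42.L9
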