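import Pool.Agent.helper42.L9.Eph4
import Pool.Agent.helper33.L9.Blocks

/-!
# E-phase: tools for blocks
-/

set_option linter.unusedSimpArgs false

namespace Helper42.L9

open Finset

variable {V : Type*} {own : V → V → Prop} {c : V → ℕ} {M N : Multiset (Sym2 V)}

/-- different neighbours are counted by the degree -/
theorem card_le_dg {x : V} (S : Finset V) (h : ∀ y ∈ S, s(x, y) ∈ M) :
    S.card ≤ dg M x := by
  classical
  have h1 : (S.val.map fun y => s(x, y)).Nodup := by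
    refine Multiset.Nodup.map_on ?_ S.nodup
    intro y hy z hz hyz
    rw [Sym2.eq_iff] at hyz
    rcases hyz with ⟨_, h⟩ | ⟨h, h'⟩
    · exact h
    · rw [h', h]
  have h2 : (S.val.map fun y => s(x, y)) ≤ fl M x := by
    rw [Multiset.le_iff_subset h1]
    intro e he
    obtain ⟨y, hy, rfl⟩ := Multiset.mem_map.mp he
    exact mem_fl.mpr ⟨h y hy, Sym2.mem_mk_left _ _⟩
  have h3 := Multiset.card_le_card h2
  rw [Multiset.card_map, card_fl] at h3
  exact h3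

/-- an end of degree 4 has two inner neighbours -/
theorem ENet.heavy' (hM : ENet own c M) (hS : Stk c M) {q : V} (hq : c q = 2)
    (h4 : 4 ≤ dg M q) : ∃ u u', c u = 3 ∧ c u' = 3 ∧ own q u ∧ own u u' ∧ u ≠ u' ∧
      s(q, u) ∈ M ∧ s(q, u') ∈ M := by
  obtain ⟨u, u', h1, h2, h3, h5, h6, h7⟩ := hM.heavy q hq h4
  have hd := (dg_pos h6).2
  obtain ⟨x', y', hL⟩ := hM.locAt h1 (by have := hS u hd; omega) (hM.symm _ _ h2) h3 h5.symm
  have hc : c u' = 3 := by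
    rcases hL.one with h | h
    · omega
    · exact h
  refine ⟨u, u', h1, hc, h2, h3, ?_, h6, h7⟩
  rintro rfl
  exact hM.irr _ h3

/-- three neighbours of a vertex of a (virtual) `K_4` -/
theorem ENet.deg3 (hM : ENet own c M) (hS : Stk c M) {x y₁ y₂ y₃ : V} (hx : c x = 2)
    (hn : [x, y₁, y₂, y₃].Nodup) (h1 : s(x, y₁) ∈ M) (h2 : s(x, y₂) ∈ M) (h3 : s(x, y₃) ∈ M)
    (c1 : c y₁ = 2) (c2 : c y₂ = 2)
    (c3 : c y₃ = 2 ∨ (¬ own x y₃ ∧ ∀ X, own X y₃ → c X = 3 → ¬ own x X)) : dg M x = 3 := by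
  classical
  simp only [List.nodup_cons, List.mem_cons, List.not_mem_nil, or_false, not_or,
    List.nodup_nil, and_true, not_false_eq_true] at hn
  obtain ⟨⟨n1, n2, n3⟩, ⟨n4, n5⟩, n6⟩ := hn
  have hge : 3 ≤ dg M x := by
    have := card_le_dg (M := M) (x := x) {y₁, y₂, y₃} (by
      intro y hy
      simp only [Finset.mem_insert, Finset.mem_singleton] at hy
      rcases hy with rfl | rfl | rfl <;> assumption)
    rwa [Finset.card_insert_of_notMem (by simp [n4, n5]),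
      Finset.card_insert_of_notMem (by simp [n6]), Finset.card_singleton] at this
  by_contra hcon
  obtain ⟨u, u', e1, e2, e3, e4, e5, e6, e7⟩ := hM.heavy' hS hx (by omega)
  have hu3 : u ≠ y₃ := by
    rintro rfl
    rcases c3 with h | ⟨h, _⟩
    · omega
    · exact h e3
  have hu'3 : u' ≠ y₃ := by
    rintro rfl
    rcases c3 with h | ⟨_, h⟩
    · omega
    · exact h u e4 e1 e3
  have f1 : u ≠ y₁ := by rintro rfl; omega
  have f2 : u ≠ y₂ := by rintro rfl; omega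
  have f3 : u' ≠ y₁ := by rintro rfl; omega
  have f4 : u' ≠ y₂ := by rintro rfl; omega
  have f5 : x ≠ u := by rintro rfl; omega
  have f6 : x ≠ u' := by rintro rfl; omega
  have h5 := card_le_dg (M := M) (x := x) {u, u', y₁, y₂, y₃} (by
      intro y hy
      simp only [Finset.mem_insert, Finset.mem_singleton] at hy
      rcases hy with rfl | rfl | rfl | rfl | rfl <;> assumption)
  rw [Finset.card_insert_of_notMem (by simp [e5, f1, f2, hu3]),
    Finset.card_insert_of_notMem (by simp [f3, f4, hu'3]),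
    Finset.card_insert_of_notMem (by simp [n4, n5]),
    Finset.card_insert_of_notMem (by simp [n6]), Finset.card_singleton] at h5
  have := hM.le4 x hx
  omega

/-- a multiset of edges which exhausts the degrees of `A` -/
theorem saturate (A : Finset V) {L : Multiset (Sym2 V)} (hL : L ≤ M)
    (hd : ∀ x ∈ A, dg M x ≤ dg L x) (he : ∀ e ∈ L, ∃ x ∈ A, x ∈ e) : M = L + outt A M := by
  classical
  obtain ⟨K, rfl⟩ := Multiset.le_iff_exists_add.mp hL
  have h1 : outt A L = 0 := by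
    unfold outt
    rw [Multiset.filter_eq_nil]
    intro e h h2
    obtain ⟨x, hx, hxe⟩ := he e h
    exact h2 x hxe hx
  have h2 : outt A K = K := by
    unfold outt
    rw [Multiset.filter_eq_self]
    intro e h x hx hxA
    have h3 := hd x hxA
    rw [dg_add] at h3
    have h4 : dg K x = 0 := by omega
    have h5 : dg K x ≠ 0 := by
      unfold dg
      exact (Multiset.countP_pos (p := fun e => x ∈ e)).mpr ⟨e, h, hx⟩ |>.ne'
    exact h5 h4
  have h3 : outt A (L + K) = outt A L + outt A K := by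
    unfold outt
    exact Multiset.filter_add _ _ _
  rw [h3, h1, h2, zero_add]

/-- block lemma for an explicit block -/
theorem AT.satBlock (A : Finset V) (Mi : Multiset (Sym2 V)) (K : Multiset (V × V))
    (c₁ : V → ℕ) (hle : Mi + K.map (fun p => s(p.1, p.2)) ≤ M)
    (hd : ∀ x ∈ A, dg M x ≤ dg (Mi + K.map (fun p => s(p.1, p.2))) x)
    (hMi : ∀ e ∈ Mi, ∀ v ∈ e, v ∈ A) (hK : ∀ p ∈ K, p.1 ∈ A ∧ p.2 ∉ A) (h1 : AT Mi c₁)
    (h2 : AT (outt A M) c)
    (hc : ∀ v ∈ A, c₁ v + (K.map fun p => (Finsupp.single p.1 1 : V →₀ ℕ)).sum v ≤ c v) :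
    AT M c := by
  have h3 := saturate A hle hd (by
    intro e he
    rcases Multiset.mem_add.mp he with he | he
    · exact ⟨e.out.1, hMi e he _ (out_mem e).1, (out_mem e).1⟩
    · obtain ⟨p, hp, rfl⟩ := Multiset.mem_map.mp he
      exact ⟨p.1, (hK p hp).1, Sym2.mem_mk_left _ _⟩)
  rw [h3]
  exact AT.block A Mi (outt A M) K c₁ c hMi (fun e he => (mem_outt.mp he).2) hK h1 h2 hc

/-- a `K_4` created by one new edge -/
theorem new_K4 {a b : V} {M₀ : Multiset (Sym2 V)}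
    (h0 : ∀ a' b' d e, c a' = 2 → c b' = 2 → c d = 2 → c e = 2 → [a', b', d, e].Nodup →
      s(a', b') ∈ M₀ → s(a', d) ∈ M₀ → s(a', e) ∈ M₀ → s(b', d) ∈ M₀ → s(b', e) ∈ M₀ →
      s(d, e) ∈ M₀ → False)
    {x y z w : V} (cx : c x = 2) (cy : c y = 2) (cz : c z = 2) (cw : c w = 2)
    (hn : [x, y, z, w].Nodup) (hxy : s(x, y) ∈ s(a, b) ::ₘ M₀) (hxz : s(x, z) ∈ s(a, b) ::ₘ M₀)
    (hxw : s(x, w) ∈ s(a, b) ::ₘ M₀) (hyz : s(y, z) ∈ s(a, b) ::ₘ M₀)
    (hyw : s(y, w) ∈ s(a, b) ::ₘ M₀) (hzw : s(z, w) ∈ s(a, b) ::ₘ M₀) :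
    ∃ p q, c a = 2 ∧ c b = 2 ∧ c p = 2 ∧ c q = 2 ∧ [a, b, p, q].Nodup ∧ s(a, p) ∈ M₀ ∧
      s(a, q) ∈ M₀ ∧ s(b, p) ∈ M₀ ∧ s(b, q) ∈ M₀ ∧ s(p, q) ∈ M₀ := by
  have memM : ∀ {x y : V}, s(x, y) ∈ s(a, b) ::ₘ M₀ →
      (x = a ∧ y = b) ∨ (x = b ∧ y = a) ∨ s(x, y) ∈ M₀ := by
    intro x y h
    rcases Multiset.mem_cons.mp h with h | h
    · rw [Sym2.eq_iff] at h
      tauto
    · exact Or.inr (Or.inr h)
  have sw' : ∀ {x y : V}, s(x, y) ∈ M₀ → s(y, x) ∈ M₀ := by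
    intro x y h; rw [Sym2.eq_swap]; exact h
  have sw : ∀ {x y : V}, s(x, y) ∈ s(a, b) ::ₘ M₀ → s(y, x) ∈ s(a, b) ::ₘ M₀ := by
    intro x y h
    have h1 : s(y, x) = s(x, y) := Sym2.eq_swap
    rw [h1]; exact h
  have key0 : ∀ z w : V, c a = 2 → c b = 2 → c z = 2 → c w = 2 → [a, b, z, w].Nodup →
      s(a, z) ∈ s(a, b) ::ₘ M₀ → s(a, w) ∈ s(a, b) ::ₘ M₀ →
      s(b, z) ∈ s(a, b) ::ₘ M₀ → s(b, w) ∈ s(a, b) ::ₘ M₀ → s(z, w) ∈ s(a, b) ::ₘ M₀ →
      ∃ p q, c a = 2 ∧ c b = 2 ∧ c p = 2 ∧ c q = 2 ∧ [a, b, p, q].Nodup ∧ s(a, p) ∈ M₀ ∧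
      s(a, q) ∈ M₀ ∧ s(b, p) ∈ M₀ ∧ s(b, q) ∈ M₀ ∧ s(p, q) ∈ M₀ := by
    intro z w cx cy cz cw hn h1 h2 h3 h4 h5
    have hn' := hn
    simp only [List.nodup_cons, List.mem_cons, List.not_mem_nil, or_false, not_or,
      List.nodup_nil, and_true, not_false_eq_true] at hn'
    obtain ⟨⟨n1, n2, n3⟩, ⟨n4, n5⟩, n6⟩ := hn'
    refine ⟨z, w, cx, cy, cz, cw, hn, ?_, ?_, ?_, ?_, ?_⟩
    · rcases memM h1 with ⟨_, h⟩ | ⟨h, _⟩ | h
      · exact absurd h.symm n4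
      · exact absurd h n1
      · exact h
    · rcases memM h2 with ⟨_, h⟩ | ⟨h, _⟩ | h
      · exact absurd h.symm n5
      · exact absurd h n1
      · exact h
    · rcases memM h3 with ⟨h, _⟩ | ⟨_, h⟩ | h
      · exact absurd h.symm n1
      · exact absurd h.symm n2
      · exact h
    · rcases memM h4 with ⟨h, _⟩ | ⟨_, h⟩ | h
      · exact absurd h.symm n1
      · exact absurd h.symm n3
      · exact h
    · rcases memM h5 with ⟨h, _⟩ | ⟨h, _⟩ | h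
      · exact absurd h.symm n2
      · exact absurd h.symm n4
      · exact h
  have swn : ∀ {x y z w : V}, [x, y, z, w].Nodup → [y, x, z, w].Nodup := by
    intro x y z w hn
    simp only [List.nodup_cons, List.mem_cons, List.not_mem_nil, or_false, not_or,
      List.nodup_nil, and_true, not_false_eq_true] at hn ⊢
    exact ⟨⟨Ne.symm hn.1.1, hn.2.1⟩, hn.1.2, hn.2.2⟩
  have rot : ∀ {x y z w : V}, [x, y, z, w].Nodup → [x, z, y, w].Nodup := by
    intro x y z w hn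
    simp only [List.nodup_cons, List.mem_cons, List.not_mem_nil, or_false, not_or,
      List.nodup_nil, and_true, not_false_eq_true] at hn ⊢
    exact ⟨⟨hn.1.2.1, hn.1.1, hn.1.2.2⟩, ⟨Ne.symm hn.2.1.1, hn.2.2⟩, hn.2.1.2⟩
  have swl : ∀ {x y z w : V}, [x, y, z, w].Nodup → [x, y, w, z].Nodup := by
    intro x y z w hn
    simp only [List.nodup_cons, List.mem_cons, List.not_mem_nil, or_false, not_or,
      List.nodup_nil, and_true, not_false_eq_true] at hn ⊢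
    exact ⟨⟨hn.1.1, hn.1.2.2, hn.1.2.1⟩, ⟨hn.2.1.2, hn.2.1.1⟩, Ne.symm hn.2.2⟩
  -- symmetric form: edge `xy` is new
  have key : ∀ x y z w : V, c x = 2 → c y = 2 → c z = 2 → c w = 2 → [x, y, z, w].Nodup →
      ((x = a ∧ y = b) ∨ (x = b ∧ y = a)) → s(x, z) ∈ s(a, b) ::ₘ M₀ →
      s(x, w) ∈ s(a, b) ::ₘ M₀ →
      s(y, z) ∈ s(a, b) ::ₘ M₀ → s(y, w) ∈ s(a, b) ::ₘ M₀ → s(z, w) ∈ s(a, b) ::ₘ M₀ →
      ∃ p q, c a = 2 ∧ c b = 2 ∧ c p = 2 ∧ c q = 2 ∧ [a, b, p, q].Nodup ∧ s(a, p) ∈ M₀ ∧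
      s(a, q) ∈ M₀ ∧ s(b, p) ∈ M₀ ∧ s(b, q) ∈ M₀ ∧ s(p, q) ∈ M₀ := by
    intro x y z w cx cy cz cw hn he h1 h2 h3 h4 h5
    rcases he with ⟨hx, hy⟩ | ⟨hx, hy⟩
    · rw [hx] at cx hn h1 h2
      rw [hy] at cy hn h3 h4
      exact key0 z w cx cy cz cw hn h1 h2 h3 h4 h5
    · rw [hx] at cx hn h1 h2
      rw [hy] at cy hn h3 h4
      exact key0 z w cy cx cz cw (swn hn) h3 h4 h1 h2 h5
  have h12 : ∀ {x y : V}, s(x, y) ∈ s(a, b) ::ₘ M₀ →
      ((x = a ∧ y = b) ∨ (x = b ∧ y = a)) ∨ s(x, y) ∈ M₀ := by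
    intro x y h
    rcases memM h with h | h | h
    · exact Or.inl (Or.inl h)
    · exact Or.inl (Or.inr h)
    · exact Or.inr h
  rcases h12 hxy with h1 | h1
  · exact key x y z w cx cy cz cw hn h1 hxz hxw hyz hyw hzw
  rcases h12 hxz with h2 | h2
  · exact key x z y w cx cz cy cw (rot hn) h2 hxy hxw (sw hyz) hzw hyw
  rcases h12 hxw with h3 | h3
  · exact key x w y z cx cw cy cz (rot (swl hn)) h3 hxy hxz (sw hyw) (sw hzw) hyz
  rcases h12 hyz with h4 | h4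
  · exact key y z x w cy cz cx cw (rot (swn hn)) h4 (sw hxy) hyw (sw hxz) hzw hxw
  rcases h12 hyw with h5 | h5
  · exact key y w x z cy cw cx cz (rot (swl (swn hn))) h5 (sw hxy) hyz (sw hxw) (sw hzw) hxz
  rcases h12 hzw with h6 | h6
  · exact key z w x y cz cw cx cy (rot (swl (swn (rot hn)))) h6 (sw hxz) (sw hyz)
      (sw hxw) (sw hyw) hxy
  exact (h0 x y z w cx cy cz cw hn h1 h2 h3 h4 h5 h6).elim

end Helper42.L9
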