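import Pool.Agent.helper42.L9.Eph5

/-!
# E-phase: a `P_6` with a chord becomes a virtual rung
-/

set_option linter.unusedSimpArgs false

namespace Helper42.L9

open Finset

variable {V : Type*} {own : V → V → Prop} {c : V → ℕ} {M N : Multiset (Sym2 V)}

theorem card_nw_lt {R : Finset V} {a b w x y : V} (hx : x ∈ R) (hy : y ∈ R)
    (hxy : x ≠ y) (h1 : s(w, x) ∈ M) (h2 : s(w, y) ∈ M) :
    Multiset.card (nw M R a b) < Multiset.card M := by
  classical
  have h3 : outt R M + M.filter (fun e => ¬ ∀ v ∈ e, v ∉ R) = M := by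
    unfold outt
    exact Multiset.filter_add_not _ _
  have h4 : Multiset.card M = Multiset.card (outt R M) +
      Multiset.card (M.filter (fun e => ¬ ∀ v ∈ e, v ∉ R)) := by
    rw [← Multiset.card_add, h3]
  have h5 : ({s(w, x), s(w, y)} : Multiset (Sym2 V)) ≤ M.filter (fun e => ¬ ∀ v ∈ e, v ∉ R) := by
    refine nodup_pair_le ?_ (Multiset.mem_filter.mpr ⟨h1, fun h => ?_⟩)
      (Multiset.mem_filter.mpr ⟨h2, fun h => ?_⟩)
    · intro h
      rw [Sym2.eq_iff] at h
      rcases h with ⟨_, h⟩ | ⟨h, h'⟩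
      · exact hxy h
      · exact hxy (h' ▸ h)
    · exact h x (Sym2.mem_mk_right _ _) hx
    · exact h y (Sym2.mem_mk_right _ _) hy
  have h6 := Multiset.card_le_card h5
  have h7 : Multiset.card ({s(w, x), s(w, y)} : Multiset (Sym2 V)) = 2 := rfl
  have h8 : Multiset.card (nw M R a b) = Multiset.card (outt R M) + 1 := by
    unfold nw
    exact Multiset.card_cons _ _
  omega

theorem port_two (hM : ENet own c M) {R : Finset V} {a b x p : V} (ha : c a = 2) (hb : c b = 2)
    (h : Port own c (nw M R a b) x p) : Port own c M x p := by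
  have h3 := h.1
  refine nw_port_other hM ?_ ?_ h
  · rintro rfl; omega
  · rintro rfl; omega

theorem lp_two (hM : ENet own c M) {R : Finset V} {a b t x : V} (ha : c a = 2) (hb : c b = 2)
    (h : Lp own c (nw M R a b) t x) : Lp own c M t x := by
  induction h with
  | @start w z x h1 h2 h3 => exact Lp.start h1 (port_two hM ha hb h2) (port_two hM ha hb h3)
  | @cons w z x _ h2 h3 ih => exact Lp.cons ih h2 (port_two hM ha hb h3)

/-- the rung rule -/
theorem ENet.rung (hM : ENet own c M) (hS : Stk c M)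
    (rec_ : ∀ N, ENet own c N → Multiset.card N < Multiset.card M → AT N c)
    {s u v t t' : V} (hs : c s = 2) (hu : c u = 3) (hv : c v = 3) (ht : c t = 3)
    (ht' : c t' = 3) (h1 : own s u) (h2 : own u v) (h3 : own v t) (h4 : own t t') (hut : u ≠ t)
    (hvt : v ≠ t') (hp : Port own c M u t') : AT M c := by
  classical
  have hsv : s ≠ v := by rintro rfl; omega
  have hsu : s ≠ u := by rintro rfl; omega
  have hst : s ≠ t := by rintro rfl; omega
  have hst' : s ≠ t' := by rintro rfl; omega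
  have huv : u ≠ v := by rintro rfl; exact hM.irr _ h2
  have hvt0 : v ≠ t := by rintro rfl; exact hM.irr _ h3
  have htt' : t ≠ t' := by rintro rfl; exact hM.irr _ h4
  have hut' : u ≠ t' := by
    rintro rfl
    have := hM.two u s v t (hM.symm _ _ h1) h2 (hM.symm _ _ h4)
    tauto
  obtain ⟨_, x, y, y', hx, hL⟩ := id hp
  have hxs : x = s := by
    rcases hM.two u x s v hL.ox (hM.symm _ _ h1) h2 with h | h | h
    · exact h
    · rw [h] at hx; omega
    · exact absurd h hsv
  subst hxs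
  have hyv : y = v := by
    rcases hM.two u y x v hL.oy (hM.symm _ _ h1) h2 with h | h | h
    · exact absurd h.symm hL.ne
    · exact h
    · exact absurd h hsv
  subst hyv
  obtain ⟨hv1, hv2⟩ := hL.hy hv
  have e1 : y' = t := hM.other (hM.symm _ _ h2) hv1 h3 hv2 hut.symm
  subst e1
  have hdv := (dg_pos hL.mem2).2
  obtain ⟨s', t'', hLv⟩ := hM.locAt hv (by have := hS y hdv; omega) (hM.symm _ _ h2) h3 hut
  obtain ⟨hv3, hv4⟩ := hLv.bx hu
  have e2 : s' = x := hM.other h2 hv3 (hM.symm _ _ h1) hv4 hsv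
  subst e2
  obtain ⟨hv5, hv6⟩ := hLv.hy ht
  have e3 : t'' = t' := hM.other (hM.symm _ _ h3) hv5 h4 hv6 hvt.symm
  subst e3
  have hdt := (dg_pos hLv.mem2).2
  obtain ⟨w1, w2, hLt⟩ := hM.locAt ht (by have := hS y' hdt; omega) (hM.symm _ _ h3) h4 hvt
  obtain ⟨hv7, hv8⟩ := hLt.bx hv
  have e4 : w1 = u := hM.other h3 hv7 (hM.symm _ _ h2) hv8 hut
  subst e4
  obtain ⟨hv9, hv10⟩ := hLt.hy ht'
  have hdt' := (dg_pos hLt.mem2).2
  obtain ⟨z1, z2, hLt'⟩ := hM.locAt ht' (by have := hS t'' hdt'; omega) (hM.symm _ _ h4) hv9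
    hv10.symm
  have hut'M : s(t'', w1) ∈ fl M t'' :=
    mem_fl.mpr ⟨by rw [Sym2.eq_swap]; exact hL.mem3, Sym2.mem_mk_left _ _⟩
  -- `w2` is an end
  have hw2u : w2 ≠ w1 := by
    rintro rfl
    have := hM.two w2 s' y t'' (hM.symm _ _ h1) h2 (hM.symm _ _ hv9)
    tauto
  have hcw : c w2 = 2 := by
    rcases hM.cap w2 with h | h
    · exact h
    · exfalso
      obtain ⟨f1, f2⟩ := hLt'.bx ht
      have e5 : z1 = y := hM.other h4 f1 (hM.symm _ _ h3) f2 hvt
      obtain ⟨f3, f4⟩ := hLt'.hy h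
      rw [hLt'.edges] at hut'M
      simp only [Multiset.insert_eq_cons, Multiset.mem_cons, Multiset.mem_singleton,
        Sym2.eq_iff] at hut'M
      have e6 : w1 = z2 := by
        rcases hut'M with h | h | h | h
        · rcases h with ⟨_, h⟩ | ⟨h, _⟩
          · exact absurd h hut
          · exact absurd h.symm htt'
        · rcases h with ⟨_, h⟩ | ⟨_, h⟩
          · exact absurd h.symm hw2u
          · exact absurd h hut'
        · rcases h with ⟨_, h⟩ | ⟨_, h⟩
          · exact absurd (h.trans e5) huv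
          · exact absurd h hut'
        · rcases h with ⟨_, h⟩ | ⟨_, h⟩
          · exact h
          · exact absurd h hut'
      rw [← e6] at f3
      rcases hM.two w1 s' y w2 (hM.symm _ _ h1) h2 (hM.symm _ _ f3) with h' | h' | h'
      · exact hsv h'
      · rw [h'] at hs; omega
      · rw [← h'] at hv9
        have := hM.two y w1 y' t'' (hM.symm _ _ h2) h3 (hM.symm _ _ hv9)
        tauto
  have hsw : s' ≠ w2 := by
    rintro rfl
    exact hut' (hM.oneE s' w1 t'' hs h1 (hM.symm _ _ hv9))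
  have hwv : w2 ≠ y := by rintro rfl; omega
  have hwu : w2 ≠ w1 := hw2u
  have hwt : w2 ≠ y' := by rintro rfl; omega
  have hwt' : w2 ≠ t'' := by rintro rfl; omega
  refine AT.elim (u := y) (v := y') (s := w1) (t := t'') (a := s') (b := w2) hM.loopless hvt0
    hsw hst hwv huv hut hvt.symm htt'.symm hut' ?_ ?_ (by omega) (by omega) ?_ ?_ ?_
  · rw [hLv.edges]
    simp only [Multiset.insert_eq_cons, ← Multiset.singleton_add]
    abel
  · rw [hLt.edges]
    simp only [Multiset.insert_eq_cons, ← Multiset.singleton_add]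
    abel
  · have := hM.le4' w1; omega
  · have := hM.le4' t''; omega
  · have hsR : s' ∉ ({w1, t''} : Finset V) := by simp [hsu, hst']
    have hwR : w2 ∉ ({w1, t''} : Finset V) := by simp [hwu, hwt']
    have hsR' : s' ∉ ({y, y'} ∪ {w1, t''} : Finset V) := by simp [hsu, hst', hsv, hst]
    have hwR' : w2 ∉ ({y, y'} ∪ {w1, t''} : Finset V) := by simp [hwu, hwt', hwv, hwt]
    rw [rest_eq_outt, outt_cons_pos hsR hwR, outt_outt]
    have ha : Sees own c M ({y, y'} ∪ {w1, t''} : Finset V) s' := by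
      refine Or.inr ⟨hs, w1, y, by simp, by simp, huv, ?_, ?_⟩
      · rw [Sym2.eq_swap]; exact hL.mem1
      · rw [Sym2.eq_swap]; exact hLv.mem3
    have hb : Sees own c M ({y, y'} ∪ {w1, t''} : Finset V) w2 := by
      refine Or.inr ⟨hcw, t'', y', by simp, by simp, htt'.symm, ?_, ?_⟩
      · rw [Sym2.eq_swap]; exact hLt'.mem2
      · rw [Sym2.eq_swap]; exact hLt.mem4
    have hVR : VR own c M s' w2 := ⟨w1, y, y', t'', hu, hv, ht, ht', h1, h2, h3, h4, hv9, hut,
      hvt, hp⟩
    have hrg : ∀ {p q : V}, Rg own c (nw M ({y, y'} ∪ {w1, t''} : Finset V) s' w2) p q →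
        Rg own c M p q := by
      have key : ∀ {p q : V}, VR own c (nw M ({y, y'} ∪ {w1, t''} : Finset V) s' w2) p q →
          VR own c M p q := by
        rintro a b ⟨k1, k2, k3, k4, g1, g2, g3, g4, g5, g6, g7, g8, g9, g10, g11, g12⟩
        exact ⟨k1, k2, k3, k4, g1, g2, g3, g4, g5, g6, g7, g8, g9, g10, g11,
          port_two hM hs hcw g12⟩
      intro p q h
      rcases h with h | h | h
      · rcases Multiset.mem_cons.mp h with h | h
        · rw [Sym2.eq_iff] at h
          rcases h with ⟨rfl, rfl⟩ | ⟨rfl, rfl⟩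
          · exact Or.inr (Or.inl hVR)
          · exact Or.inr (Or.inr hVR)
        · exact Or.inl (Multiset.mem_of_le (outt_le _ _) h)
      · exact Or.inr (Or.inl (key h))
      · exact Or.inr (Or.inr (key h))
    refine rec_ _ ?_ (card_nw_lt (w := y) (x := w1) (y := t'') (by simp) (by simp) hut'
      hLv.mem1 hLv.mem4)
    refine hM.nw_base hsw hsR' hwR' ha hb ?_ ?_ ?_
    · intro t ht h
      exact hM.noLoop t ht (lp_two hM hs hcw h)
    · intro s u w v t g1 g2 g3 g4 g5 g6 g7 g8 g9 g10 k1 k2 g11 g12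
      exact hM.noU s u w v t g1 g2 g3 g4 g5 g6 g7 g8 g9 g10 (nw_full ha hb s k1)
        (nw_full ha hb t k2)
        (g11.imp (port_two hM hs hcw) (lp_two hM hs hcw))
        (g12.imp (port_two hM hs hcw) (lp_two hM hs hcw))
    · intro a b d e g1 g2 g3 g4 g5 g6 g7 g8 g9 g10 g11
      exact hM.noK4 a b d e g1 g2 g3 g4 g5 (hrg g6) (hrg g7) (hrg g8) (hrg g9) (hrg g10)
        (hrg g11)

end Helper42.L9
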