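import Pool.Agent.helper42.L9.Eph8

/-!
# E-phase: the `P_5` rule
-/

set_option linter.unusedSimpArgs false

namespace Helper42.L9

open Finset Helper33.L9

variable {V : Type*} {own : V → V → Prop} {c : V → ℕ} {M N : Multiset (Sym2 V)}

/-- no middle pair of a `P_4` of positive degree -/
def NoMid (own : V → V → Prop) (c : V → ℕ) (M : Multiset (Sym2 V)) : Prop :=
  ∀ u v, Mid own c u v → dg M u = 0

theorem NoMid.lp (h : NoMid own c M) (hs : ∀ u v, own u v → own v u) {t x : V} :
    ¬ Lp own c M t x := by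
  intro hL
  cases hL with
  | @start w z x h1 h2 h3 =>
    have h4 := h _ _ h1
    have h5 := h2.dg_eq
    omega
  | @cons w z x _ h2 h3 =>
    have h4 := h _ _ (h2.swap hs)
    have h5 := h3.dg_eq
    omega

theorem NoMid.nw (h : NoMid own c M) {R : Finset V} {a b : V} (ha : Sees own c M R a)
    (hb : Sees own c M R b) : NoMid own c (nw M R a b) := by
  intro u v h1
  by_contra hcon
  exact nw_pos ha hb u hcon (h u v h1)

/-- the new edge `a t` closes a `K_4` with `p, q` -/
structure K4At (c : V → ℕ) (M : Multiset (Sym2 V)) (s u w v t a p q : V) : Prop where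
  ca : c a = 2
  cp : c p = 2
  cq : c q = 2
  ne : [s, u, w, v, t, a, p, q].Nodup
  ap : s(a, p) ∈ M
  aq : s(a, q) ∈ M
  tp : s(t, p) ∈ M
  tq : s(t, q) ∈ M
  pq : s(p, q) ∈ M
  da : dg M a = 3
  dp : dg M p = 3
  dq : dg M q = 3

theorem mem_swap {x y : V} (h : s(x, y) ∈ M) : s(y, x) ∈ M := by
  rw [Sym2.eq_swap]; exact h

/-- one way to eliminate a pair in a `P_5` -/
theorem ENet.p5_mode (hM : ENet own c M) (hS : Stk c M) (hK : NoLong own c M)
    (hNM : NoMid own c M)
    (rec_ : ∀ N, ENet own c N → Multiset.card N < Multiset.card M → AT N c)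
    {s u w v t a : V} (hs : c s = 2) (hu : c u = 3) (hw : c w = 3) (hv : c v = 3) (ht : c t = 2)
    (h1 : own s u) (h2 : own u w) (h3 : own w v) (h4 : own v t) (huv : u ≠ v)
    (hLu : LocAt own c M u s w a v) (hLw : LocAt own c M w u v s t)
    (hLv : s(v, t) ∈ M) (hat : a ≠ t) : AT M c ∨ ∃ p q, K4At c M s u w v t a p q := by
  classical
  have rec' : ∀ N, N ≤ M → Multiset.card N < Multiset.card M → AT N c :=
    fun N hN h => rec_ N (hM.mono hN) h
  have hsv : s ≠ v := by rintro rfl; omega
  have hsu : s ≠ u := by rintro rfl; omega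
  have hsw : s ≠ w := by rintro rfl; omega
  have htu : t ≠ u := by rintro rfl; omega
  have htv : t ≠ v := by rintro rfl; omega
  have htw : t ≠ w := by rintro rfl; omega
  have huw : u ≠ w := by rintro rfl; exact hM.irr _ h2
  have hvw : v ≠ w := by rintro rfl; exact hM.irr _ h3
  have hst : s ≠ t := by
    rintro rfl
    exact huv (hM.oneE s u v hs h1 (hM.symm _ _ h4))
  have hau : a ≠ u := by
    rintro rfl
    exact hM.loopless _ hLu.mem3 rfl
  have haw : a ≠ w := by
    rintro rfl
    have c1 := count_fl M u a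
    rw [hLu.edges, hLw.edges] at c1
    have d1 : s(u, a) ≠ s(u, s) := by
      intro h; rw [Sym2.eq_iff] at h; rcases h with ⟨_, h⟩ | ⟨h, h'⟩
      · exact hsw h.symm
      · exact hsu h.symm
    have d2 : s(u, a) ≠ s(u, v) := by
      intro h; rw [Sym2.eq_iff] at h; rcases h with ⟨_, h⟩ | ⟨h, h'⟩
      · exact hvw h.symm
      · exact huv h
    have d3 : s(u, a) ≠ s(a, v) := by
      intro h; rw [Sym2.eq_iff] at h; rcases h with ⟨h, _⟩ | ⟨h, h'⟩
      · exact huw h
      · exact huv h
    have d4 : s(u, a) ≠ s(a, s) := by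
      intro h; rw [Sym2.eq_iff] at h; rcases h with ⟨h, _⟩ | ⟨h, h'⟩
      · exact huw h
      · exact hsu h.symm
    have d5 : s(u, a) ≠ s(a, t) := by
      intro h; rw [Sym2.eq_iff] at h; rcases h with ⟨h, _⟩ | ⟨h, h'⟩
      · exact huw h
      · exact htu h.symm
    have d6 : s(u, a) = s(a, u) := Sym2.eq_swap
    simp only [Multiset.insert_eq_cons, Multiset.count_cons, Multiset.count_singleton, d1, d2,
      d3, d4, d5, d6.symm, if_true, if_false] at c1
    omega
  have helim : AT (outt {s, v} (s(a, t) ::ₘ outt {u, w} M)) c → AT M c := by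
    intro hAT
    refine AT.elim (u := u) (v := w) (s := s) (t := v) (a := a) (b := t) hM.loopless huw
      hat haw htu hsu hsw huv.symm hvw hsv ?_ ?_ (by omega) (by omega) ?_ ?_ ?_
    · rw [hLu.edges]
      simp only [Multiset.insert_eq_cons, ← Multiset.singleton_add]
      abel
    · rw [hLw.edges]
      simp only [Multiset.insert_eq_cons, ← Multiset.singleton_add]
      abel
    · have := hM.le4' s; omega
    · have := hM.le4' v; omega
    · rw [rest_eq_outt]; exact hAT
  by_cases hα : a ∈ ({s, v} : Finset V)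
  · left
    refine helim ?_
    rw [outt_cons_neg (Or.inl hα), outt_outt]
    exact rec' _ (outt_le _ _) (card_outt_lt (w := u) (x := w) (by simp) hLu.mem2)
  have htR : t ∉ ({s, v} : Finset V) := by simp [hst.symm, htv]
  rw [outt_cons_pos hα htR, outt_outt] at helim
  have has : a ≠ s := by rintro rfl; exact hα (by simp)
  have hav : a ≠ v := by rintro rfl; exact hα (by simp)
  set R : Finset V := {u, w} ∪ {s, v} with hR
  change AT (nw M R a t) c → AT M c at helim
  have memR : ∀ x, x ∈ R ↔ x = u ∨ x = w ∨ x = s ∨ x = v := by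
    intro x
    rw [hR]
    simp only [Finset.mem_union, Finset.mem_insert, Finset.mem_singleton]
    tauto
  have haR : a ∉ R := by rw [memR]; tauto
  have htR : t ∉ R := by rw [memR]; tauto
  have hla : Link own c M R a u :=
    { mem := by rw [memR]; tauto
      edge := mem_swap hLu.mem3
      nown := by
        intro h
        rcases hM.two u s w a (hM.symm _ _ h1) h2 (hM.symm _ _ h) with h | h | h
        · exact hsw h
        · exact has h.symm
        · exact haw h.symm
      beh := by
        intro X h _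
        rw [memR]
        rcases hM.two u s w X (hM.symm _ _ h1) h2 (hM.symm _ _ h) with h | h | h
        · exact absurd h hsw
        · exact Or.inr (Or.inr (Or.inl h.symm))
        · exact Or.inr (Or.inl h.symm) }
  have hsa : Sees own c M R a := Or.inl ⟨u, hla⟩
  have hsb : Sees own c M R t := Or.inr ⟨ht, w, v, by rw [memR]; tauto, by rw [memR]; tauto,
    hvw.symm, mem_swap hLw.mem4, mem_swap hLv⟩
  have hcard : Multiset.card (nw M R a t) < Multiset.card M :=
    card_nw_lt (w := u) (x := w) (y := s) (by rw [memR]; tauto) (by rw [memR]; tauto)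
      hsw.symm hLu.mem2 hLu.mem1
  have hNM' := hNM.nw hsa hsb
  have hPt : ∀ x p, Port own c (nw M R a t) x p → Port own c M x p ∨ (x = a ∧ p = t) := by
    intro x p h
    by_cases hxa : x = a
    · subst hxa
      exact Or.inr ⟨rfl, (nw_port_left hM haR hla h).1⟩
    · have hxt : x ≠ t := by
        rintro rfl
        have := h.1
        omega
      exact Or.inl (nw_port_other hM hxa hxt h)
  by_cases hK4 : ∀ a' b' d e, c a' = 2 → c b' = 2 → c d = 2 → c e = 2 → [a', b', d, e].Nodup →
    s(a', b') ∈ nw M R a t → s(a', d) ∈ nw M R a t → s(a', e) ∈ nw M R a t →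
    s(b', d) ∈ nw M R a t → s(b', e) ∈ nw M R a t → s(d, e) ∈ nw M R a t → False
  · left
    refine helim (rec_ _ ?_ hcard)
    have hK' := hK.nw hsa hsb
    refine hM.nw_base hat haR htR hsa hsb ?_ ?_ ?_
    · intro t ht h
      exact hNM'.lp hM.symm h
    · intro s₁ u₁ w₁ v₁ t₁ g1 g2 g3 g4 g5 g6 g7 g8 g9 g10 q1 q2 g11 g12
      have k1 := g11.resolve_right (hNM'.lp hM.symm)
      have k2 := g12.resolve_right (hNM'.lp hM.symm)
      refine hM.noU s₁ u₁ w₁ v₁ t₁ g1 g2 g3 g4 g5 g6 g7 g8 g9 g10 (nw_full hsa hsb s₁ q1)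
        (nw_full hsa hsb t₁ q2) ?_ ?_
      · rcases hPt _ _ k1 with h | ⟨e1, e2⟩
        · exact Or.inl h
        · exfalso
          -- `v₁ = v`, `w₁ = w`, `u₁ = u`
          rw [e2] at g9
          have f1 : v₁ = v := hM.oneE t v₁ v ht (hM.symm _ _ g9) (hM.symm _ _ h4)
          rw [f1] at g8
          have f2 : w₁ = w := by
            rcases hM.two v w₁ w t (hM.symm _ _ g8) (hM.symm _ _ h3) h4 with h | h | h
            · exact h
            · rw [h] at g3; omega
            · exact absurd h.symm htw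
          rw [f2] at g7
          rcases hM.two w u₁ u v (hM.symm _ _ g7) (hM.symm _ _ h2) h3 with h | h | h
          · exact hau (e1.symm.trans h)
          · exact g10 (h.trans f1.symm)
          · exact huv h
      · rcases hPt _ _ k2 with h | ⟨e1, e2⟩
        · exact Or.inl h
        · exfalso
          rw [e2] at g6
          have f1 : u₁ = v := hM.oneE t u₁ v ht g6 (hM.symm _ _ h4)
          rw [f1] at g7
          have f2 : w₁ = w := by
            rcases hM.two v w₁ w t g7 (hM.symm _ _ h3) h4 with h | h | h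
            · exact h
            · rw [h] at g3; omega
            · exact absurd h.symm htw
          rw [f2] at g8
          rcases hM.two w v₁ u v g8 (hM.symm _ _ h2) h3 with h | h | h
          · exact hau (e1.symm.trans h)
          · exact g10 (f1.trans h.symm)
          · exact huv h
    · intro a' b' d e g1 g2 g3 g4 g5 g6 g7 g8 g9 g10 g11
      exact hK4 a' b' d e g1 g2 g3 g4 g5 (hK'.rg g1 g2 g6) (hK'.rg g1 g3 g7)
        (hK'.rg g1 g4 g8) (hK'.rg g2 g3 g9) (hK'.rg g2 g4 g10) (hK'.rg g3 g4 g11)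
  · right
    push Not at hK4
    obtain ⟨x, y, z, x', cx, cy, cz, cw, hn, hxy, hxz, hxw, hyz, hyw, hzw⟩ := hK4
    have h0 : ∀ a' b' d e, c a' = 2 → c b' = 2 → c d = 2 → c e = 2 → [a', b', d, e].Nodup →
        s(a', b') ∈ outt R M → s(a', d) ∈ outt R M → s(a', e) ∈ outt R M →
        s(b', d) ∈ outt R M → s(b', e) ∈ outt R M → s(d, e) ∈ outt R M → False := by
      intro a' b' d e g1 g2 g3 g4 g5 g6 g7 g8 g9 g10 g11
      exact hM.noK4 a' b' d e g1 g2 g3 g4 g5 (Or.inl (mem_outt.mp g6).1)
        (Or.inl (mem_outt.mp g7).1) (Or.inl (mem_outt.mp g8).1) (Or.inl (mem_outt.mp g9).1)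
        (Or.inl (mem_outt.mp g10).1) (Or.inl (mem_outt.mp g11).1)
    obtain ⟨p, q, ca, cb, cp, cq, hn', hap, haq, hbp, hbq, hpq⟩ :=
      new_K4 h0 cx cy cz cw hn hxy hxz hxw hyz hyw hzw.1
    have hpR : p ∉ R := (mem_outt.mp hap).2 p (Sym2.mem_mk_right _ _)
    have hqR : q ∉ R := (mem_outt.mp haq).2 q (Sym2.mem_mk_right _ _)
    have hap' := (mem_outt.mp hap).1
    have haq' := (mem_outt.mp haq).1
    have hbp' := (mem_outt.mp hbp).1
    have hbq' := (mem_outt.mp hbq).1
    have hpq' := (mem_outt.mp hpq).1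
    rw [memR] at hpR hqR
    simp only [List.nodup_cons, List.mem_cons, List.not_mem_nil, or_false, not_or,
      List.nodup_nil, and_true, not_false_eq_true] at hn' hpR hqR
    obtain ⟨⟨n1, n2, n3⟩, ⟨n4, n5⟩, n6⟩ := hn'
    obtain ⟨p1, p2, p3, p4⟩ := hpR
    obtain ⟨q1, q2, q3, q4⟩ := hqR
    have da : dg M a = 3 := by
      refine hM.deg3 hS (y₁ := p) (y₂ := q) (y₃ := u) ca ?_ hap' haq' hla.edge cp cq
        (Or.inr ⟨hla.nown, ?_⟩)
      · simp only [List.nodup_cons, List.mem_cons, List.not_mem_nil, or_false, not_or,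
          List.nodup_nil, and_true, not_false_eq_true]
        exact ⟨⟨n2, n3, hau⟩, ⟨n6, p1⟩, q1⟩
      · intro X hX hcX haX
        have := hla.beh X hX hcX
        rw [memR] at this
        rcases this with rfl | rfl | rfl | rfl
        · exact hM.irr _ hX
        · rcases hM.two X u v a (hM.symm _ _ h2) h3 (hM.symm _ _ haX) with h | h | h
          · exact huv h
          · exact hau h.symm
          · exact hav h.symm
        · omega
        · rcases hM.two X t w a h4 (hM.symm _ _ h3) (hM.symm _ _ haX) with h | h | h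
          · exact htw h
          · exact hat h.symm
          · exact haw h.symm
    have dp : dg M p = 3 := by
      refine hM.deg3 hS (y₁ := a) (y₂ := t) (y₃ := q) cp ?_ (mem_swap hap') (mem_swap hbp') hpq'
        ca cb (Or.inl cq)
      simp only [List.nodup_cons, List.mem_cons, List.not_mem_nil, or_false, not_or,
        List.nodup_nil, and_true, not_false_eq_true]
      exact ⟨⟨Ne.symm n2, Ne.symm n4, n6⟩, ⟨n1, n3⟩, n5⟩
    have dq : dg M q = 3 := by
      refine hM.deg3 hS (y₁ := a) (y₂ := t) (y₃ := p) cq ?_ (mem_swap haq') (mem_swap hbq')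
        (mem_swap hpq') ca cb (Or.inl cp)
      simp only [List.nodup_cons, List.mem_cons, List.not_mem_nil, or_false, not_or,
        List.nodup_nil, and_true, not_false_eq_true]
      exact ⟨⟨Ne.symm n3, Ne.symm n5, Ne.symm n6⟩, ⟨n1, n2⟩, n4⟩
    refine ⟨p, q, ca, cp, cq, ?_, hap', haq', hbp', hbq', hpq', da, dp, dq⟩
    simp only [List.nodup_cons, List.mem_cons, List.not_mem_nil, or_false, not_or,
      List.nodup_nil, and_true, not_false_eq_true]
    exact ⟨⟨hsu, hsw, hsv, hst, Ne.symm has, Ne.symm p3, Ne.symm q3⟩,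
      ⟨huw, huv, htu.symm, Ne.symm hau, Ne.symm p1, Ne.symm q1⟩,
      ⟨hvw.symm, htw.symm, Ne.symm haw, Ne.symm p2, Ne.symm q2⟩,
      ⟨htv.symm, Ne.symm hav, Ne.symm p4, Ne.symm q4⟩,
      ⟨hat.symm, n4, n5⟩, ⟨n2, n3⟩, n6⟩

end Helper42.L9
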