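import Pool.Agent.helper42.L9.Cubic3

/-!
# Even cycles in subcubic graphs with isolated vertices of degree two
-/

set_option linter.unusedSimpArgs false

namespace Helper42.L9

open Finset

variable {V : Type*} {M : Multiset (Sym2 V)}

theorem pathM_prefix {x d q : V} {l t r : List V} (h : l ++ [d] = t ++ q :: r) :
    ∀ e ∈ pathM x t q, e ∈ pathM x l d := by
  intro e he
  rcases List.eq_nil_or_concat r with rfl | ⟨t', z, rfl⟩
  · obtain ⟨e2, e3⟩ := List.append_inj' h rfl
    rw [List.singleton_inj] at e3
    rw [e2, e3]; exact he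
  · have e1 : l ++ [d] = (t ++ q :: t') ++ [z] := by rw [h]; simp
    obtain ⟨e2, e3⟩ := List.append_inj' e1 rfl
    rw [List.singleton_inj] at e3
    rw [e2, e3, pathM_append]
    exact Multiset.mem_add.mpr (Or.inl he)

/-- a connector from `q` to `x` outside of the path `x :: L` -/
structure Conn (M : Multiset (Sym2 V)) (x : V) (L : List V) (q : V) (κ : List V) : Prop where
  mem : q ∈ L
  nodup : κ.Nodup
  disj : ∀ w ∈ κ, w ∉ x :: L
  sub : ∀ e ∈ pathM q κ x, e ∈ M

theorem Conn.cyc {x q : V} {t r κ : List V} (hn : (x :: (t ++ q :: r)).Nodup)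
    (hP : ∀ e ∈ pathM x t q, e ∈ M) (h : Conn M x (t ++ q :: r) q κ)
    (hlen : 1 ≤ (t ++ κ).length) : IsCyc M x (t ++ q :: κ) := by
  refine ⟨?_, ?_, ?_⟩
  · have h1 : (x :: (t ++ [q])).Nodup := by
      refine List.Sublist.nodup ?_ hn
      apply List.Sublist.cons_cons
      apply List.Sublist.append_left
      simp
    have e1 : x :: (t ++ q :: κ) = (x :: (t ++ [q])) ++ κ := by simp
    rw [e1, List.nodup_append]
    refine ⟨h1, h.nodup, fun a ha b hb hab => ?_⟩
    subst hab
    apply h.disj a hb
    simp only [List.mem_cons, List.mem_append, List.not_mem_nil, or_false] at ha ⊢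
    tauto
  · simp only [List.length_append, List.length_cons] at hlen ⊢
    omega
  · intro e he
    rw [pathM_append, Multiset.mem_add] at he
    rcases he with he | he
    · exact hP e he
    · exact h.sub e he

theorem Conn.cyc2 {x q q' : V} {t t' r κ κ' : List V}
    (hn : (x :: (t ++ q :: (t' ++ q' :: r))).Nodup) (hP : ∀ e ∈ pathM q t' q', e ∈ M)
    (h : Conn M x (t ++ q :: (t' ++ q' :: r)) q κ)
    (h' : Conn M x (t ++ q :: (t' ++ q' :: r)) q' κ') (hd : ∀ w ∈ κ, w ∉ κ') :
    IsCyc M x (κ.reverse ++ q :: (t' ++ q' :: κ')) := by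
  refine ⟨?_, ?_, ?_⟩
  · have h1 : (x :: q :: (t' ++ [q'])).Nodup := by
      refine List.Sublist.nodup ?_ hn
      apply List.Sublist.cons_cons
      refine List.Sublist.trans ?_ (List.sublist_append_right _ _)
      apply List.Sublist.cons_cons
      apply List.Sublist.append_left
      simp
    have hsub : ∀ w ∈ x :: q :: (t' ++ [q']), w ∈ x :: (t ++ q :: (t' ++ q' :: r)) := by
      intro w hw
      simp only [List.mem_cons, List.mem_append, List.not_mem_nil, or_false] at hw ⊢
      tauto
    have e1 : (x :: (κ.reverse ++ q :: (t' ++ q' :: κ'))).Perm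
        (κ.reverse ++ ((x :: q :: (t' ++ [q'])) ++ κ')) := by
      have e2 : (x :: q :: (t' ++ [q'])) ++ κ' = x :: (q :: (t' ++ q' :: κ')) := by simp
      rw [e2]
      exact List.perm_middle.symm
    rw [e1.nodup_iff, List.nodup_append]
    refine ⟨List.nodup_reverse.mpr h.nodup, ?_, fun a ha b hb hab => ?_⟩
    · rw [List.nodup_append]
      refine ⟨h1, h'.nodup, fun a ha b hb hab => ?_⟩
      subst hab
      exact h'.disj a hb (hsub a ha)
    · subst hab
      rw [List.mem_reverse] at ha
      rw [List.mem_append] at hb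
      rcases hb with hb | hb
      · exact h.disj a ha (hsub a hb)
      · exact hd a ha hb
  · simp only [List.length_append, List.length_cons]
    omega
  · intro e he
    rw [pathM_append, pathM_append, Multiset.mem_add, Multiset.mem_add, pathM_reverse] at he
    rcases he with he | he | he
    · exact h.sub e he
    · exact hP e he
    · exact h'.sub e he

theorem two_conn {x d q q' : V} {l t t' r κ κ' : List V} (hn : (x :: (l ++ [d])).Nodup)
    (hP : ∀ e ∈ pathM x l d, e ∈ M) (hL : l ++ [d] = t ++ q :: (t' ++ q' :: r))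
    (h : Conn M x (l ++ [d]) q κ) (h' : Conn M x (l ++ [d]) q' κ') (hd : ∀ w ∈ κ, w ∉ κ')
    (hlen : 1 ≤ (t ++ κ).length) : ∃ a l, IsCyc M a l ∧ Odd l.length := by
  have hP1 := pathM_prefix (x := x) hL
  have hL' : l ++ [d] = (t ++ q :: t') ++ q' :: r := by rw [hL]; simp
  have hP2 := pathM_prefix (x := x) hL'
  have c1 : IsCyc M x (t ++ q :: κ) := by
    refine Conn.cyc (r := t' ++ q' :: r) ?_ ?_ ?_ hlen
    · rw [← hL]; exact hn
    · exact fun e he => hP e (hP1 e he)
    · rw [← hL]; exact h
  have c2 : IsCyc M x ((t ++ q :: t') ++ q' :: κ') := by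
    refine Conn.cyc (r := r) ?_ ?_ ?_ ?_
    · rw [← hL']; exact hn
    · exact fun e he => hP e (hP2 e he)
    · rw [← hL']; exact h'
    · simp only [List.length_append, List.length_cons]; omega
  have c3 : IsCyc M x (κ.reverse ++ q :: (t' ++ q' :: κ')) := by
    refine Conn.cyc2 (t := t) (r := r) ?_ ?_ ?_ ?_ hd
    · rw [← hL]; exact hn
    · intro e he
      refine hP e (hP2 e ?_)
      rw [pathM_append, Multiset.mem_add]
      exact Or.inr he
    · rw [← hL]; exact h
    · rw [← hL]; exact h'
  by_cases o1 : Odd (t ++ q :: κ).length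
  · exact ⟨_, _, c1, o1⟩
  by_cases o2 : Odd ((t ++ q :: t') ++ q' :: κ').length
  · exact ⟨_, _, c2, o2⟩
  refine ⟨_, _, c3, ?_⟩
  simp only [List.length_append, List.length_cons, List.length_reverse] at o1 o2 ⊢
  rw [Nat.odd_iff] at o1 o2 ⊢
  omega

theorem two_nbrs (hM : M.Nodup) {v : V} (hv : 2 ≤ dg M v) (x : V) :
    ∃ b, b ≠ x ∧ s(v, b) ∈ M := by
  classical
  unfold dg at hv
  rw [Multiset.countP_eq_card_filter] at hv
  have hnd : (M.filter (fun e => v ∈ e)).Nodup := hM.filter _
  have h1 : 1 < (⟨M.filter (fun e => v ∈ e), hnd⟩ : Finset (Sym2 V)).card := hv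
  rw [Finset.one_lt_card] at h1
  obtain ⟨e1, he1, e2, he2, h12⟩ := h1
  have key : ∀ e ∈ (⟨M.filter (fun e => v ∈ e), hnd⟩ : Finset (Sym2 V)),
      ∃ b, e = s(v, b) ∧ e ∈ M := by
    intro e he
    have he' : e ∈ M.filter (fun e => v ∈ e) := he
    rw [Multiset.mem_filter] at he'
    obtain ⟨b, hb⟩ := he'.2
    exact ⟨b, hb, he'.1⟩
  obtain ⟨b1, rfl, h1⟩ := key e1 he1
  obtain ⟨b2, rfl, h2⟩ := key e2 he2
  by_cases hb : b1 = x
  · refine ⟨b2, ?_, h2⟩
    rintro rfl
    exact h12 (by rw [hb])
  · exact ⟨b1, hb, h1⟩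

/-- an even cycle exists -/
theorem exists_even_cycle2 (hM : M.Nodup) (hl : ∀ e ∈ M, ¬ e.IsDiag)
    (h3 : ∀ v, dg M v = 0 ∨ dg M v = 2 ∨ dg M v = 3)
    (hiso : ∀ v w, s(v, w) ∈ M → dg M v = 2 → dg M w = 3) (hne : M ≠ 0) :
    ∃ a l, IsCyc M a l ∧ Odd l.length := by
  classical
  have pos : ∀ v w, s(v, w) ∈ M → dg M v = 2 ∨ dg M v = 3 := by
    intro v w h
    rcases h3 v with h0 | h0
    · exfalso
      unfold dg at h0
      rw [Multiset.countP_eq_zero] at h0
      exact h0 _ h (Sym2.mem_mk_left _ _)
    · exact h0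
  let P : ℕ → Prop := fun n => ∃ (x : V) (l : List V) (d : V), dg M x = 3 ∧
    (x :: (l ++ [d])).Nodup ∧ (∀ e ∈ pathM x l d, e ∈ M) ∧ l.length = n
  have hP0 : ∃ n, P n := by
    obtain ⟨e, he⟩ := Multiset.exists_mem_of_ne_zero hne
    induction e with
    | _ x y =>
      have hxy : x ≠ y := by
        have := hl _ he
        rw [Sym2.mk_isDiag_iff] at this
        exact this
      rcases pos x y he with h | h
      · refine ⟨0, y, [], x, hiso x y he h, by simp [hxy.symm], ?_, rfl⟩
        intro e' he'
        rw [pathM_nil, Multiset.mem_singleton] at he'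
        rw [he', Sym2.eq_swap]; exact he
      · refine ⟨0, x, [], y, h, by simp [hxy], ?_, rfl⟩
        intro e' he'
        rw [pathM_nil, Multiset.mem_singleton] at he'
        exact he' ▸ he
  have hbd : ∀ n, P n → n ≤ Multiset.card M := by
    rintro n ⟨x, l, d, _, hn, hs, rfl⟩
    have := Multiset.card_le_card (nodup_le (pathM_nodup x d l hn) hs)
    rw [card_pathM] at this
    omega
  obtain ⟨n₀, hn₀⟩ := hP0
  have hPn := Nat.findGreatest_spec (P := P) (hbd _ hn₀) hn₀
  have hmax : ∀ m, P m → m ≤ Nat.findGreatest P (Multiset.card M) := fun m hm =>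
    Nat.le_findGreatest (hbd m hm) hm
  obtain ⟨x, l, d, hx3, hn, hs, hlen⟩ := hPn
  have hxl := (List.nodup_cons.mp hn).1
  -- connectors
  have hconn : ∀ b, s(x, b) ∈ M → ∃ q κ, Conn M x (l ++ [d]) q κ ∧
      ((κ = [] ∧ q = b) ∨ (κ = [b] ∧ b ∉ l ++ [d])) := by
    intro b hb
    by_cases hbl : b ∈ l ++ [d]
    · refine ⟨b, [], ⟨hbl, List.nodup_nil, by simp, ?_⟩, Or.inl ⟨rfl, rfl⟩⟩
      intro e he
      rw [pathM_nil, Multiset.mem_singleton] at he
      rw [he, Sym2.eq_swap]; exact hb
    · have hbx : b ≠ x := by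
        rintro rfl
        exact hl _ hb (by simp)
      have hb' : s(b, x) ∈ M := by rw [Sym2.eq_swap]; exact hb
      have hnb : (b :: x :: (l ++ [d])).Nodup := by
        rw [List.nodup_cons]
        refine ⟨?_, hn⟩
        rw [List.mem_cons, not_or]
        exact ⟨hbx, hbl⟩
      have hb3 : dg M b ≠ 3 := by
        intro hb3
        have := hmax (l.length + 1) ⟨b, x :: l, d, hb3, by simpa using hnb, ?_, by simp⟩
        · omega
        · intro e he
          rw [pathM_cons, Multiset.mem_cons] at he
          rcases he with rfl | he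
          · exact hb'
          · exact hs e he
      have hb2 : dg M b = 2 := (pos b x hb').resolve_right hb3
      obtain ⟨w, hwx, hbw⟩ := two_nbrs hM hb2.ge x
      have hw3 := hiso b w hbw hb2
      have hwb : w ≠ b := by
        rintro rfl
        exact hl _ hbw (by simp)
      have hwl : w ∈ l ++ [d] := by
        by_contra hwl
        have := hmax (l.length + 2) ⟨w, b :: x :: l, d, hw3, ?_, ?_, by simp⟩
        · omega
        · rw [List.nodup_cons]
          refine ⟨?_, by simpa using hnb⟩
          rw [List.cons_append, List.cons_append, List.mem_cons, List.mem_cons, not_or, not_or]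
          exact ⟨hwb, hwx, hwl⟩
        · intro e he
          rw [pathM_cons, pathM_cons, Multiset.mem_cons, Multiset.mem_cons] at he
          rcases he with rfl | rfl | he
          · rw [Sym2.eq_swap]; exact hbw
          · exact hb'
          · exact hs e he
      refine ⟨w, [b], ⟨hwl, by simp, ?_, ?_⟩, Or.inr ⟨rfl, hbl⟩⟩
      · intro v hv
        rw [List.mem_singleton] at hv
        rw [hv, List.mem_cons, not_or]
        exact ⟨hbx, hbl⟩
      · intro e he
        rw [pathM_cons, pathM_nil, Multiset.mem_cons, Multiset.mem_singleton] at he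
        rcases he with rfl | rfl
        · rw [Sym2.eq_swap]; exact hbw
        · exact hb'
  -- the first vertex of the path
  obtain ⟨y, hy⟩ : ∃ y r, l ++ [d] = y :: r := by
    match l with
    | [] => exact ⟨d, [], rfl⟩
    | b :: l => exact ⟨b, l ++ [d], rfl⟩
  obtain ⟨r₀, hy⟩ := hy
  have hfirst : ∀ {t r : List V} {q : V}, l ++ [d] = t ++ q :: r → q ≠ y → 1 ≤ t.length := by
    intro t r q h hq
    match t, h with
    | [], h =>
      exfalso
      rw [hy] at h
      simp only [List.nil_append, List.cons.injEq] at h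
      exact hq h.1.symm
    | _ :: _, _ => simp
  -- two neighbours different from `y`
  have key : ∀ b b', b ≠ b' → b ≠ y → b' ≠ y → s(x, b) ∈ M → s(x, b') ∈ M →
      ∃ a l, IsCyc M a l ∧ Odd l.length := by
    intro b b' hbb hby hby' hb hb'
    obtain ⟨q, κ, hC, hκ⟩ := hconn b hb
    obtain ⟨q', κ', hC', hκ'⟩ := hconn b' hb'
    have hd : ∀ w ∈ κ, w ∉ κ' := by
      intro w hw hw'
      rcases hκ with ⟨h, _⟩ | ⟨h, _⟩
      · rw [h] at hw; simp at hw
      · rcases hκ' with ⟨h', _⟩ | ⟨h', _⟩
        · rw [h'] at hw'; simp at hw'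
        · rw [h, List.mem_singleton] at hw
          rw [h', List.mem_singleton] at hw'
          exact hbb (hw.symm.trans hw')
    have hlen : ∀ {t r : List V}, l ++ [d] = t ++ q :: r → 1 ≤ (t ++ κ).length := by
      intro t r h
      rcases hκ with ⟨h1, h2⟩ | ⟨h1, _⟩
      · have := hfirst h (by rw [h2]; exact hby)
        rw [List.length_append]; omega
      · rw [h1]; simp
    have hlen' : ∀ {t r : List V}, l ++ [d] = t ++ q' :: r → 1 ≤ (t ++ κ').length := by
      intro t r h
      rcases hκ' with ⟨h1, h2⟩ | ⟨h1, _⟩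
      · have := hfirst h (by rw [h2]; exact hby')
        rw [List.length_append]; omega
      · rw [h1]; simp
    obtain ⟨t, r, hL⟩ := List.append_of_mem hC.mem
    by_cases hqq : q' = q
    · -- same target
      subst hqq
      rcases hκ with ⟨h1, h2⟩ | ⟨h1, h2⟩
      · rcases hκ' with ⟨h1', h2'⟩ | ⟨h1', h2'⟩
        · exact absurd (h2.symm.trans h2') hbb
        · have c1 : IsCyc M x (t ++ q' :: κ) := by
            refine Conn.cyc (r := r) ?_ ?_ ?_ (hlen hL)
            · rw [← hL]; exact hn
            · exact fun e he => hs e (pathM_prefix (x := x) hL e he)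
            · rw [← hL]; exact hC
          have c2 : IsCyc M x (t ++ q' :: κ') := by
            refine Conn.cyc (r := r) ?_ ?_ ?_ (hlen' hL)
            · rw [← hL]; exact hn
            · exact fun e he => hs e (pathM_prefix (x := x) hL e he)
            · rw [← hL]; exact hC'
          by_cases o1 : Odd (t ++ q' :: κ).length
          · exact ⟨_, _, c1, o1⟩
          · refine ⟨_, _, c2, ?_⟩
            rw [h1] at o1
            rw [h1']
            simp only [List.length_append, List.length_cons, List.length_nil] at o1 ⊢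
            rw [Nat.odd_iff] at o1 ⊢
            omega
      · rcases hκ' with ⟨h1', h2'⟩ | ⟨h1', h2'⟩
        · have c1 : IsCyc M x (t ++ q' :: κ) := by
            refine Conn.cyc (r := r) ?_ ?_ ?_ (hlen hL)
            · rw [← hL]; exact hn
            · exact fun e he => hs e (pathM_prefix (x := x) hL e he)
            · rw [← hL]; exact hC
          have c2 : IsCyc M x (t ++ q' :: κ') := by
            refine Conn.cyc (r := r) ?_ ?_ ?_ (hlen' hL)
            · rw [← hL]; exact hn
            · exact fun e he => hs e (pathM_prefix (x := x) hL e he)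
            · rw [← hL]; exact hC'
          by_cases o1 : Odd (t ++ q' :: κ).length
          · exact ⟨_, _, c1, o1⟩
          · refine ⟨_, _, c2, ?_⟩
            rw [h1] at o1
            rw [h1']
            simp only [List.length_append, List.length_cons, List.length_nil] at o1 ⊢
            rw [Nat.odd_iff] at o1 ⊢
            omega
        · -- 4-cycle `x, b, q, b'`
          refine ⟨x, [b, q', b'], ⟨?_, by simp, ?_⟩, ⟨1, rfl⟩⟩
          · have hxb : b ∉ x :: (l ++ [d]) := hC.disj b (by rw [h1]; simp)
            have hxb' : b' ∉ x :: (l ++ [d]) := hC'.disj b' (by rw [h1']; simp)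
            rw [List.mem_cons, not_or] at hxb hxb'
            have hxq : q' ≠ x := by rintro rfl; exact hxl hC.mem
            have hbq : b ≠ q' := by rintro rfl; exact hxb.2 hC.mem
            have hbq' : b' ≠ q' := by rintro rfl; exact hxb'.2 hC.mem
            simp only [List.nodup_cons, List.mem_cons, List.not_mem_nil, or_false, not_or,
              List.nodup_nil, and_true, not_false_eq_true]
            exact ⟨⟨Ne.symm hxb.1, hxq.symm, Ne.symm hxb'.1⟩, ⟨hbq, hbb⟩, hbq'.symm⟩
          · intro e he
            simp only [pathM_cons, pathM_nil, Multiset.mem_cons, Multiset.mem_singleton] at he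
            rcases he with rfl | rfl | rfl | rfl
            · exact hb
            · have := hC.sub s(q', b) (by rw [h1]; simp)
              rw [Sym2.eq_swap]; exact this
            · exact hC'.sub s(q', b') (by rw [h1']; simp)
            · rw [Sym2.eq_swap]; exact hb'
    · have hq' : q' ∈ t ++ q :: r := hL ▸ hC'.mem
      rw [List.mem_append, List.mem_cons] at hq'
      rcases hq' with hq' | hq' | hq'
      · obtain ⟨t₁, t₂, rfl⟩ := List.append_of_mem hq'
        have hL2 : l ++ [d] = t₁ ++ q' :: (t₂ ++ q :: r) := by rw [hL]; simp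
        exact two_conn hn hs hL2 hC' hC (fun w hw hw' => hd w hw' hw) (hlen' hL2)
      · exact absurd hq' hqq
      · obtain ⟨t₁, t₂, rfl⟩ := List.append_of_mem hq'
        exact two_conn hn hs hL hC hC' hd (hlen hL)
  obtain ⟨b₁, b₂, b₃, h12, h13, h23, hb1, hb2, hb3⟩ := three_nbrs hM hx3.ge
  by_cases e1 : b₁ = y
  · exact key b₂ b₃ h23 (by rw [← e1]; exact h12.symm) (by rw [← e1]; exact h13.symm) hb2 hb3
  · by_cases e2 : b₂ = y
    · exact key b₁ b₃ h13 e1 (by rw [← e2]; exact h23.symm) hb1 hb3
    · exact key b₁ b₂ h12 e1 e2 hb1 hb2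

end Helper42.L9
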