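import Mathlib.Combinatorics.SimpleGraph.Finite
import Mathlib.Data.Finset.Card
import Mathlib.Tactic

/-!
# The greedy engine for two parity classes

`X | Y` is a cut of a set `W` of vertices of `G`.  Vertices of `X` get even labels `0,2,4,6,8`,
vertices of `Y` get odd labels `1,3,5,7,9`.  The labels are given in increasing order; inside one
label the vertices are treated by increasing priority `pr`.  A vertex `v` is refused

* at most once because of each neighbour on the other side,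
* at most once because of each same-side vertex at distance at most two of smaller priority,
* and at the labels of its static list `Fb v`.

If this makes at most four refusals, every vertex is labelled.
-/

set_option linter.unusedSimpArgs false

namespace Helper42.L9

open Finset

variable {V : Type*}

/-- distance one or two -/
def near (G : SimpleGraph V) (u v : V) : Prop :=
  u ≠ v ∧ (G.Adj u v ∨ ∃ w, G.Adj u w ∧ G.Adj w v)

theorem near.symm {G : SimpleGraph V} {u v : V} (h : near G u v) : near G v u := by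
  obtain ⟨h1, h2 | ⟨w, h2, h3⟩⟩ := h
  · exact ⟨h1.symm, Or.inl h2.symm⟩
  · exact ⟨h1.symm, Or.inr ⟨w, h3.symm, h2.symm⟩⟩

/-- same side of the cut and near: an edge of `Q` -/
def qadj (G : SimpleGraph V) (X : V → Prop) (u v : V) : Prop := (X u ↔ X v) ∧ near G u v

/-- the labels of the side of `v` -/
def isLab (X : V → Prop) (v : V) (l : ℕ) : Prop := l ≤ 9 ∧ (Even l ↔ X v)

open Classical in
/-- the five labels of the side of `v` -/
noncomputable def labs (X : V → Prop) (v : V) : Finset ℕ :=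
  if X v then {0, 2, 4, 6, 8} else {1, 3, 5, 7, 9}

theorem card_labs (X : V → Prop) (v : V) : (labs X v).card = 5 := by
  unfold labs
  split_ifs <;> rfl

theorem mem_labs {X : V → Prop} {v : V} {l : ℕ} : l ∈ labs X v ↔ isLab X v l := by
  unfold labs isLab
  split_ifs with h
  · simp only [Finset.mem_insert, Finset.mem_singleton, h, iff_true]
    constructor
    · rintro (rfl | rfl | rfl | rfl | rfl) <;> exact ⟨by norm_num, by decide⟩
    · rintro ⟨h1, k, hk⟩
      omega
  · simp only [Finset.mem_insert, Finset.mem_singleton, h, iff_false, Nat.not_even_iff_odd]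
    constructor
    · rintro (rfl | rfl | rfl | rfl | rfl) <;> exact ⟨by norm_num, by decide⟩
    · rintro ⟨h1, k, hk⟩
      omega

/-- `v` accepts the label `l` -/
def Acpt (G : SimpleGraph V) (W : Finset V) (X : V → Prop) (Fb : V → Finset ℕ) (pr : V → ℕ)
    (l : ℕ) (v : V) : Prop :=
  (v ∈ W ∧ l ∈ labs X v ∧ l ∉ Fb v) ∧ (∀ l', l' < l → ¬ Acpt G W X Fb pr l' v) ∧
    (∀ b, b ∈ W → G.Adj v b → ¬ (X b ↔ X v) → ∀ l', l' + 1 = l → ¬ Acpt G W X Fb pr l' b) ∧
    (∀ u, u ∈ W → qadj G X u v → pr u < pr v → ¬ Acpt G W X Fb pr l u)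
termination_by (l, pr v)
decreasing_by
  · exact Prod.Lex.left _ _ (by assumption)
  · exact Prod.Lex.left _ _ (by omega)
  · exact Prod.Lex.right _ (by assumption)

section

variable {G : SimpleGraph V} {W : Finset V} {X : V → Prop} {Fb : V → Finset ℕ} {pr : V → ℕ}

theorem acpt_iff (l : ℕ) (v : V) : Acpt G W X Fb pr l v ↔
    (v ∈ W ∧ l ∈ labs X v ∧ l ∉ Fb v) ∧ (∀ l', l' < l → ¬ Acpt G W X Fb pr l' v) ∧
    (∀ b, b ∈ W → G.Adj v b → ¬ (X b ↔ X v) → ∀ l', l' + 1 = l → ¬ Acpt G W X Fb pr l' b) ∧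
    (∀ u, u ∈ W → qadj G X u v → pr u < pr v → ¬ Acpt G W X Fb pr l u) := by
  rw [Acpt]

theorem acpt_unique {l l' : ℕ} {v : V} (h : Acpt G W X Fb pr l v)
    (h' : Acpt G W X Fb pr l' v) : l = l' := by
  rcases lt_trichotomy l l' with h1 | h1 | h1
  · exact absurd h (((acpt_iff _ _).mp h').2.1 l h1)
  · exact h1
  · exact absurd h' (((acpt_iff _ _).mp h).2.1 l' h1)

open Classical in
/-- every vertex within the budget accepts a label -/
theorem exists_acpt {v : V} (hv : v ∈ W)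
    (hbud : (labs X v ∩ Fb v).card + (W.filter fun b => G.Adj v b ∧ ¬ (X b ↔ X v)).card +
      (W.filter fun u => qadj G X u v ∧ pr u < pr v).card ≤ 4) :
    ∃ l, Acpt G W X Fb pr l v := by
  by_contra hcon
  push Not at hcon
  -- every label has a reason
  have hreason : ∀ l ∈ labs X v, l ∈ Fb v ∨
      (∃ b ∈ W.filter (fun b => G.Adj v b ∧ ¬ (X b ↔ X v)), ∃ l', l' + 1 = l ∧
        Acpt G W X Fb pr l' b) ∨
      (∃ u ∈ W.filter (fun u => qadj G X u v ∧ pr u < pr v), Acpt G W X Fb pr l u) := by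
    intro l hl
    by_contra hno
    rw [not_or, not_or] at hno
    obtain ⟨h1, h2, h3⟩ := hno
    apply hcon l
    rw [acpt_iff]
    refine ⟨⟨hv, hl, h1⟩, fun l' _ => hcon l', ?_, ?_⟩
    · intro b hb hadj hX l' hl' hA
      exact h2 ⟨b, Finset.mem_filter.mpr ⟨hb, hadj, hX⟩, l', hl', hA⟩
    · intro u hu hq hp hA
      exact h3 ⟨u, Finset.mem_filter.mpr ⟨hu, hq, hp⟩, hA⟩
  -- count
  set B := W.filter (fun b => G.Adj v b ∧ ¬ (X b ↔ X v)) with hB
  set U := W.filter (fun u => qadj G X u v ∧ pr u < pr v) with hU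
  let fB : V → ℕ := fun b => if h : ∃ l', Acpt G W X Fb pr l' b then h.choose + 1 else 0
  let fU : V → ℕ := fun u => if h : ∃ l', Acpt G W X Fb pr l' u then h.choose else 0
  have hsub : labs X v ⊆ (labs X v ∩ Fb v) ∪ B.image fB ∪ U.image fU := by
    intro l hl
    rw [Finset.mem_union, Finset.mem_union]
    rcases hreason l hl with h | ⟨b, hb, l', hl', hA⟩ | ⟨u, hu, hA⟩
    · exact Or.inl (Or.inl (Finset.mem_inter.mpr ⟨hl, h⟩))
    · left; right
      rw [Finset.mem_image]
      refine ⟨b, hb, ?_⟩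
      have hex : ∃ l', Acpt G W X Fb pr l' b := ⟨l', hA⟩
      simp only [fB, hex, dif_pos]
      rw [← hl', acpt_unique hex.choose_spec hA]
    · right
      rw [Finset.mem_image]
      refine ⟨u, hu, ?_⟩
      have hex : ∃ l', Acpt G W X Fb pr l' u := ⟨l, hA⟩
      simp only [fU, hex, dif_pos]
      exact acpt_unique hex.choose_spec hA
  have h1 := Finset.card_le_card hsub
  have h2 := Finset.card_union_le ((labs X v ∩ Fb v) ∪ B.image fB) (U.image fU)
  have h3 := Finset.card_union_le (labs X v ∩ Fb v) (B.image fB)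
  have h4 := Finset.card_image_le (s := B) (f := fB)
  have h5 := Finset.card_image_le (s := U) (f := fU)
  rw [card_labs] at h1
  omega

open Classical in
/-- **Greedy engine.** -/
theorem greedy (G : SimpleGraph V) (W : Finset V) (X : V → Prop) (Fb : V → Finset ℕ)
    (pr : V → ℕ)
    (hpr : ∀ u ∈ W, ∀ v ∈ W, qadj G X u v → pr u ≠ pr v)
    (hbud : ∀ v ∈ W, (labs X v ∩ Fb v).card +
      (W.filter fun b => G.Adj v b ∧ ¬ (X b ↔ X v)).card +
      (W.filter fun u => qadj G X u v ∧ pr u < pr v).card ≤ 4) :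
    ∃ f : V → ℕ, (∀ v ∈ W, f v ≤ 9 ∧ (Even (f v) ↔ X v) ∧ f v ∉ Fb v) ∧
      (∀ u ∈ W, ∀ v ∈ W, G.Adj u v → f u + 2 ≤ f v ∨ f v + 2 ≤ f u) ∧
      (∀ u ∈ W, ∀ v ∈ W, near G u v → f u ≠ f v) := by
  have hex : ∀ v ∈ W, ∃ l, Acpt G W X Fb pr l v := fun v hv => exists_acpt hv (hbud v hv)
  let f : V → ℕ := fun v => if h : ∃ l, Acpt G W X Fb pr l v then h.choose else 0
  have hf : ∀ v ∈ W, Acpt G W X Fb pr (f v) v := by
    intro v hv
    have h := hex v hv
    have : f v = h.choose := by simp only [f, h, dif_pos]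
    rw [this]
    exact h.choose_spec
  have hlab : ∀ v ∈ W, f v ≤ 9 ∧ (Even (f v) ↔ X v) ∧ f v ∉ Fb v := by
    intro v hv
    obtain ⟨⟨_, h1, h2⟩, _⟩ := (acpt_iff _ _).mp (hf v hv)
    rw [mem_labs] at h1
    exact ⟨h1.1, h1.2, h2⟩
  -- same side
  have hq : ∀ u ∈ W, ∀ v ∈ W, qadj G X u v → f u ≠ f v := by
    intro u hu v hv hquv heq
    have hquv' : qadj G X v u := ⟨hquv.1.symm, hquv.2.symm⟩
    rcases lt_trichotomy (pr u) (pr v) with h | h | h
    · have := ((acpt_iff _ _).mp (hf v hv)).2.2.2 u hu hquv h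
      rw [← heq] at this
      exact this (hf u hu)
    · exact hpr u hu v hv hquv h
    · have := ((acpt_iff _ _).mp (hf u hu)).2.2.2 v hv hquv' h
      rw [heq] at this
      exact this (hf v hv)
  have hn : ∀ u ∈ W, ∀ v ∈ W, near G u v → f u ≠ f v := by
    intro u hu v hv hnear
    by_cases hX : X u ↔ X v
    · exact hq u hu v hv ⟨hX, hnear⟩
    · intro heq
      apply hX
      rw [← (hlab u hu).2.1, ← (hlab v hv).2.1, heq]
  refine ⟨f, hlab, ?_, hn⟩
  intro u hu v hv hadj
  have hne := hn u hu v hv ⟨hadj.ne, Or.inl hadj⟩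
  by_cases hX : X u ↔ X v
  · have h1 : Even (f u) ↔ Even (f v) := by
      rw [(hlab u hu).2.1, (hlab v hv).2.1]; exact hX
    rw [Nat.even_iff, Nat.even_iff] at h1
    omega
  · have h1 : ¬ (Even (f u) ↔ Even (f v)) := by
      rw [(hlab u hu).2.1, (hlab v hv).2.1]; exact hX
    rw [Nat.even_iff, Nat.even_iff] at h1
    have hX' : ¬ (X v ↔ X u) := fun h => hX h.symm
    have h2 : f v + 1 ≠ f u := fun h =>
      ((acpt_iff _ _).mp (hf u hu)).2.2.1 v hv hadj hX' (f v) h (hf v hv)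
    have h3 : f u + 1 ≠ f v := fun h =>
      ((acpt_iff _ _).mp (hf v hv)).2.2.1 u hu hadj.symm hX (f u) h (hf u hu)
    omega

end

end Helper42.L9

namespace Helper42.L9

open Finset

variable {V : Type*}

open Classical in
/-- order from degeneracy -/
theorem exists_order (R : V → V → Prop) (c : V → ℕ) (N : ℕ) : ∀ (n : ℕ) (S : Finset V),
    S.card = n →
    (∀ T, T ⊆ S → T.Nonempty → ∃ v ∈ T, c v + (T.filter fun u => R u v ∧ u ≠ v).card ≤ N) →
    ∃ pr : V → ℕ, (∀ u ∈ S, ∀ v ∈ S, u ≠ v → pr u ≠ pr v) ∧ (∀ v ∈ S, pr v < n) ∧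
      ∀ v ∈ S, c v + (S.filter fun u => R u v ∧ pr u < pr v).card ≤ N := by
  intro n
  induction n with
  | zero =>
    intro S hS _
    rw [Finset.card_eq_zero] at hS
    subst hS
    exact ⟨fun _ => 0, by simp, by simp, by simp⟩
  | succ n ih =>
    intro S hS hT
    have hne : S.Nonempty := by rw [← Finset.card_pos]; omega
    obtain ⟨v, hv, hvc⟩ := hT S (Finset.Subset.refl _) hne
    obtain ⟨pr, h1, h2, h3⟩ := ih (S.erase v) (by rw [Finset.card_erase_of_mem hv]; omega)
      (fun T hTS hTn => hT T (hTS.trans (Finset.erase_subset _ _)) hTn)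
    refine ⟨fun u => if u = v then n else pr u, ?_, ?_, ?_⟩
    · intro u hu w hw huw
      by_cases e1 : u = v
      · by_cases e2 : w = v
        · exact absurd (e1.trans e2.symm) huw
        · have := h2 w (Finset.mem_erase.mpr ⟨e2, hw⟩)
          simp only [e1, e2, if_true, if_false]; omega
      · by_cases e2 : w = v
        · have := h2 u (Finset.mem_erase.mpr ⟨e1, hu⟩)
          simp only [e1, e2, if_true, if_false]; omega
        · simp only [e1, e2, if_false]
          exact h1 u (Finset.mem_erase.mpr ⟨e1, hu⟩) w (Finset.mem_erase.mpr ⟨e2, hw⟩) huw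
    · intro u hu
      by_cases e1 : u = v
      · simp only [e1, if_true]; omega
      · have := h2 u (Finset.mem_erase.mpr ⟨e1, hu⟩)
        simp only [e1, if_false]; omega
    · intro u hu
      by_cases e1 : u = v
      · subst e1
        refine le_trans ?_ hvc
        apply Nat.add_le_add_left
        apply Finset.card_le_card
        intro w hw
        rw [Finset.mem_filter] at hw ⊢
        refine ⟨hw.1, hw.2.1, ?_⟩
        rintro rfl
        exact lt_irrefl _ hw.2.2
      · have hu' := Finset.mem_erase.mpr ⟨e1, hu⟩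
        refine le_trans ?_ (h3 u hu')
        apply Nat.add_le_add_left
        apply Finset.card_le_card
        intro w hw
        rw [Finset.mem_filter] at hw ⊢
        obtain ⟨hw1, hw2, hw3⟩ := hw
        have hpu := h2 u hu'
        simp only [e1, if_false] at hw3
        by_cases e2 : w = v
        · simp only [e2, if_true] at hw3
          omega
        · simp only [e2, if_false] at hw3
          exact ⟨Finset.mem_erase.mpr ⟨e2, hw1⟩, hw2, hw3⟩

open Classical in
/-- **Greedy engine with prelabelled sets**: the vertices of `J` get `0` (side `X`) and `9`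
(side `Y`). -/
theorem greedyJ (G : SimpleGraph V) (W J : Finset V) (hJ : J ⊆ W) (X : V → Prop)
    (Fb : V → Finset ℕ) (pr : V → ℕ)
    (hind : ∀ u ∈ J, ∀ v ∈ J, ¬ qadj G X u v)
    (hJ0 : ∀ v ∈ J, X v → 0 ∉ Fb v) (hJ9 : ∀ v ∈ J, ¬ X v → 9 ∉ Fb v)
    (hpr : ∀ u ∈ W \ J, ∀ v ∈ W \ J, qadj G X u v → pr u ≠ pr v)
    (hbud : ∀ v ∈ W \ J, (labs X v ∩ Fb v).card +
      (W.filter fun b => G.Adj v b ∧ ¬ (X b ↔ X v)).card +
      (if ∃ u ∈ J, qadj G X u v then 1 else 0) +
      ((W \ J).filter fun u => qadj G X u v ∧ pr u < pr v).card ≤ 4) :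
    ∃ f : V → ℕ, (∀ v ∈ W, f v ≤ 9 ∧ (Even (f v) ↔ X v) ∧ f v ∉ Fb v) ∧
      (∀ v ∈ J, X v → f v = 0) ∧ (∀ v ∈ J, ¬ X v → f v = 9) ∧
      (∀ u ∈ W, ∀ v ∈ W, G.Adj u v → f u + 2 ≤ f v ∨ f v + 2 ≤ f u) ∧
      (∀ u ∈ W, ∀ v ∈ W, near G u v → f u ≠ f v) := by
  -- static lists
  let S1 : V → Finset ℕ := fun v => if ∃ u ∈ J, qadj G X u v then (if X v then {0} else {9}) else ∅
  let S2 : V → Finset ℕ := fun v =>
    if ∃ u ∈ J, G.Adj v u ∧ ¬ (X u ↔ X v) then (if X v then {8} else {1}) else ∅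
  let Fb' : V → Finset ℕ := fun v => Fb v ∪ S1 v ∪ S2 v
  have hS1 : ∀ v, (S1 v).card ≤ if ∃ u ∈ J, qadj G X u v then 1 else 0 := by
    intro v
    simp only [S1]
    split_ifs <;> simp
  have hS2 : ∀ v, (S2 v).card ≤ (J.filter fun b => G.Adj v b ∧ ¬ (X b ↔ X v)).card := by
    intro v
    simp only [S2]
    by_cases h : ∃ u ∈ J, G.Adj v u ∧ ¬ (X u ↔ X v)
    · have h1 : 1 ≤ (J.filter fun b => G.Adj v b ∧ ¬ (X b ↔ X v)).card := by
        obtain ⟨u, hu, hh⟩ := h
        exact Finset.card_pos.mpr ⟨u, Finset.mem_filter.mpr ⟨hu, hh⟩⟩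
      rw [if_pos h]
      split_ifs
      · simpa using h1
      · simpa using h1
    · rw [if_neg h]; simp
  obtain ⟨g, hg1, hg2, hg3⟩ := greedy G (W \ J) X Fb' pr hpr (by
    intro v hv
    have h1 := hbud v hv
    have h2 := hS1 v
    have h3 := hS2 v
    have h4 : (labs X v ∩ Fb' v).card ≤ (labs X v ∩ Fb v).card + (S1 v).card + (S2 v).card := by
      have e1 : labs X v ∩ Fb' v ⊆ (labs X v ∩ Fb v) ∪ S1 v ∪ S2 v := by
        intro l hl
        simp only [Fb', Finset.mem_inter, Finset.mem_union] at hl ⊢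
        tauto
      refine (Finset.card_le_card e1).trans ((Finset.card_union_le _ _).trans ?_)
      have := Finset.card_union_le (labs X v ∩ Fb v) (S1 v)
      omega
    have h5 : ((W \ J).filter fun b => G.Adj v b ∧ ¬ (X b ↔ X v)).card +
        (J.filter fun b => G.Adj v b ∧ ¬ (X b ↔ X v)).card =
        (W.filter fun b => G.Adj v b ∧ ¬ (X b ↔ X v)).card := by
      rw [← Finset.card_union_of_disjoint, ← Finset.filter_union, Finset.sdiff_union_of_subset hJ]
      apply Finset.disjoint_filter_filter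
      exact Finset.sdiff_disjoint
    omega)
  have hg1' : ∀ v ∈ W, v ∉ J → g v ≤ 9 ∧ (Even (g v) ↔ X v) ∧ g v ∉ Fb v ∧ g v ∉ S1 v ∧
      g v ∉ S2 v := by
    intro v hv hvJ
    obtain ⟨h1, h2, h3⟩ := hg1 v (Finset.mem_sdiff.mpr ⟨hv, hvJ⟩)
    simp only [Fb', Finset.mem_union, not_or] at h3
    exact ⟨h1, h2, h3.1.1, h3.1.2, h3.2⟩
  let f : V → ℕ := fun v => if v ∈ J then (if X v then 0 else 9) else g v
  have fJX : ∀ v ∈ J, X v → f v = 0 := by
    intro v hv hX; simp only [f, if_pos hv, if_pos hX]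
  have fJY : ∀ v ∈ J, ¬ X v → f v = 9 := by
    intro v hv hX; simp only [f, if_pos hv, if_neg hX]
  have fW : ∀ v, v ∉ J → f v = g v := by
    intro v hv; simp only [f, if_neg hv]
  have hlab : ∀ v ∈ W, f v ≤ 9 ∧ (Even (f v) ↔ X v) ∧ f v ∉ Fb v := by
    intro v hv
    by_cases hvJ : v ∈ J
    · by_cases hX : X v
      · rw [fJX v hvJ hX]
        exact ⟨by norm_num, by simpa using hX, hJ0 v hvJ hX⟩
      · rw [fJY v hvJ hX]
        refine ⟨le_rfl, ?_, hJ9 v hvJ hX⟩
        constructor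
        · intro h; exact absurd h (by decide)
        · intro h; exact absurd h hX
    · rw [fW v hvJ]
      obtain ⟨h1, h2, h3, _⟩ := hg1' v hv hvJ
      exact ⟨h1, h2, h3⟩
  -- one vertex in J, the other one not
  have hmix : ∀ u ∈ J, ∀ v ∈ W, v ∉ J → near G u v → f u ≠ f v := by
    intro u hu v hv hvJ hnear
    by_cases hX : X u ↔ X v
    · have hq : ∃ u ∈ J, qadj G X u v := ⟨u, hu, hX, hnear⟩
      obtain ⟨_, _, _, h4, _⟩ := hg1' v hv hvJ
      simp only [S1, if_pos hq] at h4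
      rw [fW v hvJ]
      by_cases hXv : X v
      · rw [if_pos hXv, Finset.mem_singleton] at h4
        rw [fJX u hu (hX.mpr hXv)]
        exact fun h => h4 h.symm
      · rw [if_neg hXv, Finset.mem_singleton] at h4
        rw [fJY u hu (fun h => hXv (hX.mp h))]
        exact fun h => h4 h.symm
    · intro heq
      apply hX
      rw [← (hlab u (hJ hu)).2.1, ← (hlab v hv).2.1, heq]
  have hmixadj : ∀ u ∈ J, ∀ v ∈ W, v ∉ J → G.Adj u v → f u + 2 ≤ f v ∨ f v + 2 ≤ f u := by
    intro u hu v hv hvJ hadj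
    have hne := hmix u hu v hv hvJ ⟨hadj.ne, Or.inl hadj⟩
    have hu' := hlab u (hJ hu)
    have hv' := hlab v hv
    by_cases hX : X u ↔ X v
    · have h1 : Even (f u) ↔ Even (f v) := by
        rw [hu'.2.1, hv'.2.1]; exact hX
      rw [Nat.even_iff, Nat.even_iff] at h1
      omega
    · have h1 : ¬ (Even (f u) ↔ Even (f v)) := by
        rw [hu'.2.1, hv'.2.1]; exact hX
      rw [Nat.even_iff, Nat.even_iff] at h1
      have hq : ∃ u ∈ J, G.Adj v u ∧ ¬ (X u ↔ X v) := ⟨u, hu, hadj.symm, hX⟩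
      obtain ⟨_, _, _, _, h5⟩ := hg1' v hv hvJ
      simp only [S2, if_pos hq] at h5
      rw [← fW v hvJ] at h5
      by_cases hXv : X v
      · have hXu : ¬ X u := fun h => hX (iff_of_true h hXv)
        rw [if_pos hXv, Finset.mem_singleton] at h5
        rw [fJY u hu hXu] at h1 hne ⊢
        omega
      · have hXu : X u := by
          by_contra h; exact hX (iff_of_false h hXv)
        rw [if_neg hXv, Finset.mem_singleton] at h5
        rw [fJX u hu hXu] at h1 hne ⊢
        omega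
  refine ⟨f, hlab, fJX, fJY, ?_, ?_⟩
  · intro u hu v hv hadj
    by_cases huJ : u ∈ J
    · by_cases hvJ : v ∈ J
      · by_cases hXu : X u
        · by_cases hXv : X v
          · exact absurd ⟨iff_of_true hXu hXv, hadj.ne, Or.inl hadj⟩ (hind u huJ v hvJ)
          · rw [fJX u huJ hXu, fJY v hvJ hXv]; omega
        · by_cases hXv : X v
          · rw [fJY u huJ hXu, fJX v hvJ hXv]; omega
          · exact absurd ⟨iff_of_false hXu hXv, hadj.ne, Or.inl hadj⟩ (hind u huJ v hvJ)
      · exact hmixadj u huJ v hv hvJ hadj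
    · by_cases hvJ : v ∈ J
      · exact (hmixadj v hvJ u hu huJ hadj.symm).symm
      · rw [fW u huJ, fW v hvJ]
        exact hg2 u (Finset.mem_sdiff.mpr ⟨hu, huJ⟩) v (Finset.mem_sdiff.mpr ⟨hv, hvJ⟩) hadj
  · intro u hu v hv hnear
    by_cases huJ : u ∈ J
    · by_cases hvJ : v ∈ J
      · by_cases hXu : X u
        · by_cases hXv : X v
          · exact absurd ⟨iff_of_true hXu hXv, hnear⟩ (hind u huJ v hvJ)
          · rw [fJX u huJ hXu, fJY v hvJ hXv]; omega
        · by_cases hXv : X v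
          · rw [fJY u huJ hXu, fJX v hvJ hXv]; omega
          · exact absurd ⟨iff_of_false hXu hXv, hnear⟩ (hind u huJ v hvJ)
      · exact hmix u huJ v hv hvJ hnear
    · by_cases hvJ : v ∈ J
      · exact (hmix v hvJ u hu huJ hnear.symm).symm
      · rw [fW u huJ, fW v hvJ]
        exact hg3 u (Finset.mem_sdiff.mpr ⟨hu, huJ⟩) v (Finset.mem_sdiff.mpr ⟨hv, hvJ⟩) hnear

open Classical in
/-- **Greedy engine, degeneracy form.**  Every non-empty set `T` of vertices outside `J` has a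
vertex `v` with `|static list| + #(neighbours on the other side) + [v has a Q-neighbour in J] +
#(Q-neighbours in T) ≤ 4`. -/
theorem greedyJ_degenerate (G : SimpleGraph V) (W J : Finset V) (hJ : J ⊆ W) (X : V → Prop)
    (Fb : V → Finset ℕ)
    (hind : ∀ u ∈ J, ∀ v ∈ J, ¬ qadj G X u v)
    (hJ0 : ∀ v ∈ J, X v → 0 ∉ Fb v) (hJ9 : ∀ v ∈ J, ¬ X v → 9 ∉ Fb v)
    (hdeg : ∀ T, T ⊆ W \ J → T.Nonempty → ∃ v ∈ T, (labs X v ∩ Fb v).card +
      (W.filter fun b => G.Adj v b ∧ ¬ (X b ↔ X v)).card +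
      (if ∃ u ∈ J, qadj G X u v then 1 else 0) +
      (T.filter fun u => qadj G X u v).card ≤ 4) :
    ∃ f : V → ℕ, (∀ v ∈ W, f v ≤ 9 ∧ (Even (f v) ↔ X v) ∧ f v ∉ Fb v) ∧
      (∀ v ∈ J, X v → f v = 0) ∧ (∀ v ∈ J, ¬ X v → f v = 9) ∧
      (∀ u ∈ W, ∀ v ∈ W, G.Adj u v → f u + 2 ≤ f v ∨ f v + 2 ≤ f u) ∧
      (∀ u ∈ W, ∀ v ∈ W, near G u v → f u ≠ f v) := by
  obtain ⟨pr, h1, _, h3⟩ := exists_order (qadj G X)
    (fun v => (labs X v ∩ Fb v).card + (W.filter fun b => G.Adj v b ∧ ¬ (X b ↔ X v)).card +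
      (if ∃ u ∈ J, qadj G X u v then 1 else 0)) 4 _ (W \ J) rfl (by
    intro T hT hTn
    obtain ⟨v, hv, hc⟩ := hdeg T hT hTn
    refine ⟨v, hv, le_trans ?_ hc⟩
    apply Nat.add_le_add_left
    apply Finset.card_le_card
    intro u hu
    rw [Finset.mem_filter] at hu ⊢
    exact ⟨hu.1, hu.2.1⟩)
  exact greedyJ G W J hJ X Fb pr hind hJ0 hJ9
    (fun u hu v hv hq => h1 u hu v hv hq.2.1) h3

end Helper42.L9
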