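import Pool.Agent.helper42.L9.World
import Pool.Agent.helper19.L9.Seymour
import Mathlib.Combinatorics.SimpleGraph.Connectivity.Connected

/-!
# Connected graphs of maximum degree three with a vertex of degree at most two have a good cut
-/

set_option linter.unusedSimpArgs false

namespace Helper42.L9

open Finset Classical

variable {V : Type*} [Fintype V]

theorem exists_noMono_of_low (G : SimpleGraph V) (hconn : G.Connected)
    (hdeg : ∀ v, (univ.filter fun b => G.Adj v b).card ≤ 3) (d : V)
    (hd : (univ.filter fun b => G.Adj d b).card ≤ 2) : ∃ X, NoMono G X := by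
  set N : V → Finset V := fun v => univ.filter fun b => G.Adj v b with hNdef
  set F : Finset V := univ.filter fun v => (N v).card = 3 with hF
  have hN : ∀ v ∈ F, (N v).Nonempty := by
    intro v hv
    rw [hF, Finset.mem_filter] at hv
    rw [← Finset.card_pos]; omega
  obtain ⟨c, hc⟩ := Helper19.L9.two_colour N F hN _ univ le_rfl (by
    intro Z _ hZ
    by_contra hcon
    push Not at hcon
    set F' := F.filter (fun v => N v ⊆ Z) with hF'
    have h1 : ∑ v ∈ F', (Z.filter (fun u => G.Adj v u)).card = ∑ v ∈ F', 3 := by
      refine Finset.sum_congr rfl fun v hv => ?_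
      rw [hF', Finset.mem_filter, hF, Finset.mem_filter] at hv
      rw [← hv.1.2]
      congr 1
      ext u
      rw [Finset.mem_filter]
      constructor
      · rintro ⟨_, h⟩; exact Finset.mem_filter.mpr ⟨Finset.mem_univ _, h⟩
      · intro h; exact ⟨hv.2 h, (Finset.mem_filter.mp h).2⟩
    have h2 : ∑ v ∈ F', (Z.filter (fun u => G.Adj v u)).card =
        ∑ u ∈ Z, (F'.filter (fun v => G.Adj v u)).card :=
      Finset.sum_card_bipartiteAbove_eq_sum_card_bipartiteBelow (r := fun v u => G.Adj v u)
    have h3a : ∀ u ∈ Z, F'.filter (fun v => G.Adj v u) ⊆ N u := by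
      intro u _ v hv
      exact Finset.mem_filter.mpr ⟨Finset.mem_univ _, (Finset.mem_filter.mp hv).2.symm⟩
    have h3 : ∀ u ∈ Z, (F'.filter (fun v => G.Adj v u)).card ≤ 3 := fun u hu =>
      (Finset.card_le_card (h3a u hu)).trans (hdeg u)
    have h4 : ∀ u ∈ Z, (F'.filter (fun v => G.Adj v u)).card = 3 := by
      have hle : ∑ u ∈ Z, (F'.filter (fun v => G.Adj v u)).card ≤ ∑ u ∈ Z, 3 :=
        Finset.sum_le_sum h3
      have hge : ∑ u ∈ Z, 3 ≤ ∑ u ∈ Z, (F'.filter (fun v => G.Adj v u)).card := by
        rw [← h2, h1]
        simp only [Finset.sum_const, smul_eq_mul]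
        omega
      exact (Finset.sum_eq_sum_iff_of_le h3).mp (le_antisymm hle hge)
    have h5 : ∀ u ∈ Z, F'.filter (fun v => G.Adj v u) = N u ∧ (N u).card = 3 := by
      intro u hu
      have h6 := Finset.card_le_card (h3a u hu)
      have h7 := h4 u hu
      have h8 := hdeg u
      have h9 : (N u).card ≤ 3 := h8
      refine ⟨Finset.eq_of_subset_of_card_le (h3a u hu) (by omega), by omega⟩
    have hadj : ∀ u ∈ Z ∪ F', ∀ v, G.Adj u v → v ∈ Z ∪ F' := by
      intro u hu v huv
      rw [Finset.mem_union] at hu ⊢
      rcases hu with hu | hu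
      · right
        have : v ∈ N u := Finset.mem_filter.mpr ⟨Finset.mem_univ _, huv⟩
        rw [← (h5 u hu).1] at this
        exact (Finset.mem_filter.mp this).1
      · left
        rw [hF', Finset.mem_filter] at hu
        exact hu.2 (Finset.mem_filter.mpr ⟨Finset.mem_univ _, huv⟩)
    have hall : ∀ u v, G.Walk u v → u ∈ Z ∪ F' → v ∈ Z ∪ F' := by
      intro u v p
      induction p with
      | nil => exact id
      | cons h _ ih => exact fun hu => ih (hadj _ hu _ h)
    obtain ⟨u, hu⟩ := hZ
    obtain ⟨p⟩ := hconn.preconnected u d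
    have hdm := hall u d p (Finset.mem_union_left _ hu)
    have hd3 : (N d).card = 3 := by
      rw [Finset.mem_union] at hdm
      rcases hdm with h | h
      · exact (h5 d h).2
      · rw [hF', Finset.mem_filter, hF, Finset.mem_filter] at h
        exact h.1.2
    have : (N d).card ≤ 2 := hd
    omega)
  refine ⟨fun v => c v = true, ?_⟩
  intro w a b e ha hb he hab hae hbe ⟨h1, h2⟩
  have hsub : ({a, b, e} : Finset V) ⊆ N w := by
    intro x hx
    simp only [Finset.mem_insert, Finset.mem_singleton] at hx
    rw [hNdef, Finset.mem_filter]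
    rcases hx with rfl | rfl | rfl <;> exact ⟨Finset.mem_univ _, by assumption⟩
  have hcard : ({a, b, e} : Finset V).card = 3 := by
    rw [Finset.card_insert_of_notMem, Finset.card_insert_of_notMem, Finset.card_singleton]
    · simpa using hbe
    · simp only [Finset.mem_insert, Finset.mem_singleton, not_or]; exact ⟨hab, hae⟩
  have hle := Finset.card_le_card hsub
  have hw : (N w).card = 3 := by
    have := hdeg w
    have h3 : (N w).card ≤ 3 := this
    omega
  have heq : ({a, b, e} : Finset V) = N w :=
    Finset.eq_of_subset_of_card_le hsub (by omega)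
  obtain ⟨x, hx, y, hy, hxy⟩ := hc w (Finset.mem_filter.mpr ⟨Finset.mem_univ _, hw⟩)
    (Finset.subset_univ _)
  rw [← heq] at hx hy
  simp only [Finset.mem_insert, Finset.mem_singleton] at hx hy
  have e1 : c a = c b := by
    cases hca : c a <;> cases hcb : c b <;> simp_all
  have e2 : c a = c e := by
    cases hca : c a <;> cases hcb : c e <;> simp_all
  apply hxy
  rcases hx with rfl | rfl | rfl <;> rcases hy with rfl | rfl | rfl <;> simp_all

end Helper42.L9
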