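import Pool.Agent.helper33.L9.NetSpec
import Pool.Agent.helper33.L9.OwnTab
import Pool.Agent.helper19.L9.TwinKill

/-!
# The first link of a wire of a `U_5` is no leg

If it is a leg, then the two paths `v1 ... v5` and `p0 u0 v0 q0` have two common link vertices and
form a killer block.
-/

set_option linter.unusedSimpArgs false
set_option linter.unusedSectionVars false
set_option linter.unusedVariables false

namespace Helper42.NL

open Finset Classical Helper42.L9 Helper33.L9 Helper97.L9 Helper33.Joint Helper33.Off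
open Helper19.Twin
open Helper19.DN (EZ img mem_img)

variable {V : Type*} [Fintype V] {G : SimpleGraph V} {X D N : V → Prop} {Z S S' : Finset V}

/-- the reversed `U_5` -/
def rev5 (t : U5T V) : U5T V where
  v1 := t.v5
  v2 := t.v4
  v3 := t.v3
  v4 := t.v2
  v5 := t.v1
  z1 := t.z5
  z3 := t.z3
  z5 := t.z1
  l1 := t.l5
  l5 := t.l1
  kA := t.kB
  kB := t.kA
  pA := t.pB
  uA := t.uB
  vA := t.vB
  qA := t.qB
  yA := t.yB
  pB := t.pA
  uB := t.uA
  vB := t.vA
  qB := t.qA
  yB := t.yA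

theorem mem5 {a b c d e x : V} (h : x ∈ [e, d, c, b, a]) : x ∈ [a, b, c, d, e] := by
  simp only [List.mem_cons, List.not_mem_nil, or_false] at h ⊢
  tauto

theorem is_rev {t : U5T V} (h : t.Is G X Z S) : (rev5 t).Is G X Z S := by
  have hh : U5 G X Z S t.v5 t.v4 t.v3 t.v2 t.v1 t.z5 t.z3 t.z1 t.l5 t.l1 t.kB t.kA t.pB t.uB t.vB
      t.qB t.yB t.pA t.uA t.vA t.qA t.yA := {
    o12 := ownR_symm h.o45
    o23 := ownR_symm h.o34
    o34 := ownR_symm h.o23
    o45 := ownR_symm h.o12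
    c1 := h.c5
    c2 := h.c4
    c3 := h.c3
    c4 := h.c2
    c5 := h.c1
    nd := by
      have := List.nodup_reverse.mpr h.nd
      simpa using this
    mem := ⟨h.mem.2.2.2.2, h.mem.2.2.2.1, h.mem.2.2.1, h.mem.2.1, h.mem.1⟩
    A := h.B
    B := h.A
    cr1 := h.cr5
    cr2 := h.cr4
    cr3 := h.cr3
    cr4 := h.cr2
    cr5 := h.cr1
    cz1 := h.cz5
    cz3 := h.cz3
    cz5 := h.cz1
    e1 := h.e5
    e3 := h.e3
    e5 := h.e1
    z1y := h.z5y'
    z1y' := h.z5y
    z5y := h.z1y'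
    z5y' := h.z1y
    dAB := fun i hi j hj => by
      obtain ⟨h1, h2, h3, h4⟩ := h.dAB j hj i hi
      exact ⟨h1.symm, h3.symm, h2.symm, h4.symm⟩
    dy := fun i hi j hj e => h.dy j hj i hi e.symm
    noA := fun i hi => ⟨fun hh => (h.noB i hi).1 (mem5 hh), fun hh => (h.noB i hi).2 (mem5 hh)⟩
    noB := fun i hi => ⟨fun hh => (h.noA i hi).1 (mem5 hh), fun hh => (h.noA i hi).2 (mem5 hh)⟩ }
  exact hh

/-- two own neighbours -/
theorem own2_of {u a b z : V} (hu : NM G X u) (ha : ownR G X u a) (hb : ownR G X u b)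
    (hab : a ≠ b) (hz : ownR G X u z) : z = a ∨ z = b := by
  rcases own_two hu ha hb hz with h1 | h1 | h1
  · exact absurd h1 hab
  · exact Or.inl h1.symm
  · exact Or.inr h1.symm

/-- the contradiction from a killer block -/
theorem kill_contra {c : V → ℕ} (h : MinN G X c S') {K : Multiset (Sym2 V)} {A : Finset V} {x : V}
    (hx : x ∈ S') (hxA : x ∈ A)
    (hK : AT (outt A (LK G X S' K)) c → AT (K + LK G X S' K) c) : False := by
  refine h.1 ((hK ?_).of_le (QE_le_LK _))
  refine AT.of_le ?_ (outt_mono' LK_le)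
  rw [outt_QE]
  exact h.2 _ ((Finset.ssubset_iff_of_subset Finset.sdiff_subset).mpr ⟨x, hx, by simp [hxA]⟩)

/-! ### the units of a wire -/

section

variable (hcub : ∀ v, (univ.filter fun b => G.Adj v b).card = 3)
  {k : ℕ} {p u v q y : ℕ → V} {σ τ : V}

/-- the vertices of a unit -/
def un (p u v q : ℕ → V) (i : ℕ) : Fin 4 → V := ![p i, u i, v i, q i]

theorem un_cc (h : Wire G X Z S k p u v q y σ τ) {i : ℕ} (hi : i < k) (s : Fin 4) :
    cc G X (un p u v q i s) = ![2, 3, 3, 2] s := by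
  have h1 := h.unit i hi
  fin_cases s
  exacts [h1.cp, h1.cu, h1.cv, h1.cq]

include hcub in
theorem un_inj (h : Wire G X Z S k p u v q y σ τ) {i j : ℕ} (hi : i < k) (hj : j < k)
    {s r : Fin 4} (he : un p u v q i s = un p u v q j r) : i = j ∧ s = r := by
  have hc : (![2, 3, 3, 2] : Fin 4 → ℕ) s = ![2, 3, 3, 2] r := by
    rw [← un_cc h hi s, ← un_cc h hj r, he]
  have h1 := h.unit i hi
  have h2 := h.unit j hj
  have a1 : p i = p j → i = j := fun e =>
    h.nuu i hi j hj (own_one hcub h1.cp h1.pu (by rw [e]; exact h2.pu))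
  have a2 : q i = q j → i = j := fun e =>
    h.nvv i hi j hj (own_one hcub h1.cq (ownR_symm h1.vq) (by rw [e]; exact ownR_symm h2.vq))
  have a3 : p i ≠ q j := fun e =>
    h.nuv i hi j hj (own_one hcub h1.cp h1.pu (by rw [e]; exact ownR_symm h2.vq))
  have a4 : q i ≠ p j := fun e =>
    h.nuv j hj i hi (own_one hcub h2.cp h2.pu (by rw [← e]; exact ownR_symm h1.vq))
  have a5 := h.nuu i hi j hj
  have a6 := h.nvv i hi j hj
  have a7 := h.nuv i hi j hj
  have a8 := h.nuv j hj i hi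
  fin_cases s <;> fin_cases r <;> simp [un] at he hc ⊢
  · exact a1 he
  · exact a3 he
  · exact a5 he
  · exact a7 he
  · exact a8 he.symm
  · exact a6 he
  · exact a4 he
  · exact a2 he

/-- the own adjacency table of a unit -/
def A4 : Fin 4 → List (Fin 4) := ![[1], [0, 2], [1, 3], [2]]

include hcub in
theorem un_tab (h : Wire G X Z S k p u v q y σ τ) (hN : UN N k p u v q)
    (hF : ∀ v, N v → Fr G X v) {i : ℕ} (hi : i < k) : OwnTab G X (un p u v q i) A4 := by
  have h1 := h.unit i hi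
  obtain ⟨n1, n2, n3, n4⟩ := hN i hi
  intro s z hz
  fin_cases s
  · exact ⟨1, by simp [A4], own_one hcub h1.cp hz h1.pu⟩
  · rcases own2_of (hF _ n2).self (ownR_symm h1.pu) h1.uv h1.pv hz with e | e
    · exact ⟨0, by simp [A4], e⟩
    · exact ⟨2, by simp [A4], e⟩
  · rcases own2_of (hF _ n3).self (ownR_symm h1.uv) h1.vq h1.uq hz with e | e
    · exact ⟨1, by simp [A4], e⟩
    · exact ⟨3, by simp [A4], e⟩
  · exact ⟨2, by simp [A4], own_one hcub h1.cq hz (ownR_symm h1.vq)⟩

theorem cov4 : covT A4 EZ := by decide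

theorem fin4_cases : ∀ s : Fin 4, s = 0 ∨ s = 3 ∨ s = 1 ∨ s = 2 := by decide

theorem a4_0 : ∀ j, j ∈ A4 0 → j = 1 := by decide
theorem a4_1 : ∀ j, j ∈ A4 1 → j = 0 ∨ j = 2 := by decide
theorem a4_2 : ∀ j, j ∈ A4 2 → j = 1 ∨ j = 3 := by decide
theorem a4_3 : ∀ j, j ∈ A4 3 → j = 2 := by decide

end

/-! ### slots -/

/-- the slots of a block vertex: `T` are the cross neighbours with conflicts outside of `K` -/
theorem slot_le {n : ℕ} {b : Fin n → V} {A : Fin n → List (Fin n)} {E : List (Fin n × Fin n)}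
    {K : Multiset (Sym2 V)} (h : OwnTab G X b A) (hE : covT A E) (hK : ∀ e ∈ emb b E, e ∈ K)
    (i : Fin n) (hF : Fr G X (b i)) (T : Finset V) (hTs : T ⊆ cr G X (b i))
    (hT : ∀ y ∈ cr G X (b i), y ∉ T → ∀ z, z ≠ b i → y ∈ cr G X z → s(b i, z) ∈ K) {m : ℕ}
    (hm : T.card ≤ m) : dg (LK G X S K) (b i) ≤ m := by
  refine (h.dg_le hE hK i T (fun y hy => hF.nb y (mem_cr.mp (hTs hy)).1) ?_).trans hm
  intro y hy hyT z _ hz hyz
  exact hT y hy hyT z hz hyz

theorem used {y a a' z : V} {K : Multiset (Sym2 V)} (hy : cr G X y = {a, a'})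
    (hz : y ∈ cr G X z) (hza : z ≠ a) (hK : s(a, a') ∈ K) : s(a, z) ∈ K := by
  have h1 := mem_crs.mp hz
  rw [hy, Finset.mem_insert, Finset.mem_singleton] at h1
  rcases h1 with e | e
  · exact absurd e hza
  · rw [e]; exact hK

theorem used' {y a a' z : V} {K : Multiset (Sym2 V)} (hy : cr G X y = {a', a})
    (hz : y ∈ cr G X z) (hza : z ≠ a) (hK : s(a', a) ∈ K) : s(a, z) ∈ K := by
  rw [Finset.pair_comm] at hy
  exact used hy hz hza (by rw [Sym2.eq_swap]; exact hK)

/-! ### the twin block -/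

/-- the facts on the twin block -/
structure Tw (G : SimpleGraph V) (X N : V → Prop) (Z S : Finset V) (t : U5T V) : Prop where
  is : t.Is G X Z S
  n1 : N t.v1
  n2 : N t.v2
  n3 : N t.v3
  n4 : N t.v4
  n5 : N t.v5
  nA : UN N t.kA t.pA t.uA t.vA t.qA
  hk : 0 < t.kA
  cz5 : cr G X t.z5 = {t.v5, t.pA 0}
  hp : t.z5 ∈ cr G X (t.pA 0)
  ne : t.v5 ≠ t.pA 0

/-- the vertices of the twin block -/
def bT (t : U5T V) : Fin 9 → V :=
  ![t.v1, t.v2, t.v3, t.v4, t.v5, t.pA 0, t.uA 0, t.vA 0, t.qA 0]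

theorem bT_un (t : U5T V) (s : Fin 4) :
    bT t (![5, 6, 7, 8] s) = un t.pA t.uA t.vA t.qA 0 s := by
  fin_cases s <;> rfl

section

variable (hcub : ∀ v, (univ.filter fun b => G.Adj v b).card = 3)

include hcub in
/-- the units are disjoint from the path of five vertices -/
theorem un_five {t : U5T V} (h : t.Is G X Z S) {i : ℕ} (hi : i < t.kA)
    (h5 : i = 0 → t.v5 ≠ t.pA 0) (s : Fin 4) :
    un t.pA t.uA t.vA t.qA i s ∉ [t.v1, t.v2, t.v3, t.v4, t.v5] := by
  have h1 := h.A.unit i hi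
  obtain ⟨g1, g2⟩ := h.noA i hi
  simp only [List.mem_cons, List.not_mem_nil, or_false, not_or] at g1 g2 ⊢
  have hc := un_cc h.A hi s
  have c1 := h.c1
  have c2 := h.c2
  have c3 := h.c3
  have c4 := h.c4
  have c5 := h.c5
  have hp := h1.cp
  have hq := h1.cq
  fin_cases s
  · refine ⟨fun e => g1.2.1 ?_, fun e => ?_, fun e => ?_, fun e => ?_, fun e => g1.2.2.2.1 ?_⟩
    · exact own_one hcub hp h1.pu (by
        have e' : t.pA i = t.v1 := e
        rw [e']; exact h.o12)
    · have e' : t.pA i = t.v2 := e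
      rw [e'] at hp; omega
    · have e' : t.pA i = t.v3 := e
      rw [e'] at hp; omega
    · have e' : t.pA i = t.v4 := e
      rw [e'] at hp; omega
    · exact own_one hcub hp h1.pu (by
        have e' : t.pA i = t.v5 := e
        rw [e']; exact ownR_symm h.o45)
  · exact g1
  · exact g2
  · refine ⟨fun e => g2.2.1 ?_, fun e => ?_, fun e => ?_, fun e => ?_, fun e => g2.2.2.2.1 ?_⟩
    · exact own_one hcub hq (ownR_symm h1.vq) (by
        have e' : t.qA i = t.v1 := e
        rw [e']; exact h.o12)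
    · have e' : t.qA i = t.v2 := e
      rw [e'] at hq; omega
    · have e' : t.qA i = t.v3 := e
      rw [e'] at hq; omega
    · have e' : t.qA i = t.v4 := e
      rw [e'] at hq; omega
    · exact own_one hcub hq (ownR_symm h1.vq) (by
        have e' : t.qA i = t.v5 := e
        rw [e']; exact ownR_symm h.o45)

include hcub in
theorem bT_inj {t : U5T V} (h : Tw G X N Z S t) : Function.Injective (bT t) := by
  have h0 := un_five hcub h.is h.hk (fun _ => h.ne)
  have f0 := h0 0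
  have f1 := h0 1
  have f2 := h0 2
  have f3 := h0 3
  have g : ∀ s r : Fin 4, s ≠ r → un t.pA t.uA t.vA t.qA 0 s ≠ un t.pA t.uA t.vA t.qA 0 r :=
    fun s r hsr e => hsr (un_inj hcub h.is.A h.hk h.hk e).2
  have g1 := g 0 1 (by decide)
  have g2 := g 0 2 (by decide)
  have g3 := g 0 3 (by decide)
  have g4 := g 1 2 (by decide)
  have g5 := g 1 3 (by decide)
  have g6 := g 2 3 (by decide)
  have hnd := h.is.nd
  have e0 : un t.pA t.uA t.vA t.qA 0 0 = t.pA 0 := rfl
  have e1 : un t.pA t.uA t.vA t.qA 0 1 = t.uA 0 := rfl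
  have e2 : un t.pA t.uA t.vA t.qA 0 2 = t.vA 0 := rfl
  have e3 : un t.pA t.uA t.vA t.qA 0 3 = t.qA 0 := rfl
  rw [e0] at f0 g1 g2 g3
  rw [e1] at f1 g1 g4 g5
  rw [e2] at f2 g2 g4 g6
  rw [e3] at f3 g3 g5 g6
  rw [← List.nodup_ofFn]
  have e : List.ofFn (bT t) =
      [t.v1, t.v2, t.v3, t.v4, t.v5] ++ [t.pA 0, t.uA 0, t.vA 0, t.qA 0] := by
    simp [bT, List.ofFn_succ]
  rw [e, List.nodup_append]
  refine ⟨hnd, ?_, ?_⟩
  · simp only [List.nodup_cons, List.mem_cons, List.not_mem_nil, or_false, not_or,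
      List.nodup_nil, and_true, not_false_eq_true]
    exact ⟨⟨g1, g2, g3⟩, ⟨g4, g5⟩, g6⟩
  · intro a ha b hb hab
    subst hab
    simp only [List.mem_cons, List.not_mem_nil, or_false] at hb
    rcases hb with e | e | e | e
    · exact f0 (e ▸ ha)
    · exact f1 (e ▸ ha)
    · exact f2 (e ▸ ha)
    · exact f3 (e ▸ ha)

/-- own adjacency table of the twin block -/
def A9 : Fin 9 → List (Fin 9) := ![[1], [0, 2], [1, 3], [2, 4], [3], [6], [5, 7], [6, 8], [7]]

theorem cov9 : covT A9 TW := by decide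

include hcub in
theorem bT_tab {t : U5T V} (h : Tw G X N Z S t) (hF : ∀ v, N v → Fr G X v) :
    OwnTab G X (bT t) A9 := by
  have i := h.is
  obtain ⟨⟨n12, n13, n14, n15⟩, ⟨n23, n24, n25⟩, ⟨n34, n35⟩, n45⟩ :
      (t.v1 ≠ t.v2 ∧ t.v1 ≠ t.v3 ∧ t.v1 ≠ t.v4 ∧ t.v1 ≠ t.v5) ∧
      (t.v2 ≠ t.v3 ∧ t.v2 ≠ t.v4 ∧ t.v2 ≠ t.v5) ∧ (t.v3 ≠ t.v4 ∧ t.v3 ≠ t.v5) ∧ t.v4 ≠ t.v5 := by
    have := i.nd
    simpa only [List.nodup_cons, List.mem_cons, List.not_mem_nil, or_false, not_or,
      List.nodup_nil, and_true, not_false_eq_true] using this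
  have hu := un_tab hcub i.A h.nA hF h.hk
  intro s z hz
  fin_cases s
  · exact ⟨1, by simp [A9], own_one hcub i.c1 hz i.o12⟩
  · rcases own2_of (hF _ h.n2).self (ownR_symm i.o12) i.o23 n13 hz with e | e
    · exact ⟨0, by simp [A9], e⟩
    · exact ⟨2, by simp [A9], e⟩
  · rcases own2_of (hF _ h.n3).self (ownR_symm i.o23) i.o34 n24 hz with e | e
    · exact ⟨1, by simp [A9], e⟩
    · exact ⟨3, by simp [A9], e⟩
  · rcases own2_of (hF _ h.n4).self (ownR_symm i.o34) i.o45 n35 hz with e | e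
    · exact ⟨2, by simp [A9], e⟩
    · exact ⟨4, by simp [A9], e⟩
  · exact ⟨3, by simp [A9], own_one hcub i.c5 hz (ownR_symm i.o45)⟩
  · obtain ⟨j, hj, e⟩ := hu 0 z hz
    obtain rfl := a4_0 j hj
    exact ⟨6, by simp [A9], e⟩
  · obtain ⟨j, hj, e⟩ := hu 1 z hz
    rcases a4_1 j hj with rfl | rfl
    · exact ⟨5, by simp [A9], e⟩
    · exact ⟨7, by simp [A9], e⟩
  · obtain ⟨j, hj, e⟩ := hu 2 z hz
    rcases a4_2 j hj with rfl | rfl
    · exact ⟨6, by simp [A9], e⟩
    · exact ⟨8, by simp [A9], e⟩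
  · obtain ⟨j, hj, e⟩ := hu 3 z hz
    obtain rfl := a4_3 j hj
    exact ⟨7, by simp [A9], e⟩

theorem bT_N {t : U5T V} (h : Tw G X N Z S t) (i : Fin 9) : N (bT t i) := by
  obtain ⟨a, b, c, d⟩ := h.nA 0 h.hk
  fin_cases i
  exacts [h.n1, h.n2, h.n3, h.n4, h.n5, a, b, c, d]

theorem bT_cc {t : U5T V} (h : Tw G X N Z S t) (i : Fin 9) : cc G X (bT t i) = cT i := by
  have hu := h.is.A.unit 0 h.hk
  fin_cases i
  exacts [h.is.c1, h.is.c2, h.is.c3, h.is.c4, h.is.c5, hu.cp, hu.cu, hu.cv, hu.cq]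

variable {K : Multiset (Sym2 V)}

include hcub in
/-- the slots which do not depend on the wires -/
theorem slots1 {t : U5T V} (h : Tw G X N Z S t) (hF : ∀ v, N v → Fr G X v)
    (hK : ∀ e ∈ emb (bT t) TW, e ∈ K) :
    dg (LK G X S' K) t.v3 ≤ 0 ∧ dg (LK G X S' K) t.v4 ≤ 0 ∧ dg (LK G X S' K) (t.pA 0) ≤ 1 ∧
      dg (LK G X S' K) (t.uA 0) ≤ 0 ∧ dg (LK G X S' K) (t.qA 0) ≤ 2 := by
  have ht := bT_tab hcub h hF
  have hf : ∀ i, Fr G X (bT t i) := fun i => hF _ (bT_N h i)
  have hl := h.is.A.link 0 (Nat.zero_le _)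
  rw [if_pos rfl, if_neg (by have := h.hk; omega)] at hl
  have k1 : s(t.v4, t.uA 0) ∈ K := hK _ (mem_emb.mpr ⟨(3, 6), by decide, rfl⟩)
  have k2 : s(t.v5, t.pA 0) ∈ K := hK _ (mem_emb.mpr ⟨(4, 5), by decide, rfl⟩)
  have hu := h.is.A.unit 0 h.hk
  refine ⟨?_, ?_, ?_, ?_, ?_⟩
  · refine slot_le ht cov9 hK 2 (hf 2) ∅ (Finset.empty_subset _) ?_ (by simp)
    intro y hy _ z hz hyz
    have h1 : y = t.z3 := by
      have h2 : y ∈ cr G X t.v3 := hy
      rwa [h.is.cr3, Finset.mem_singleton] at h2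
    have h2 := mem_crs.mp hyz
    rw [h1, h.is.cz3, Finset.mem_singleton] at h2
    exact absurd h2 hz
  · refine slot_le ht cov9 hK 3 (hf 3) ∅ (Finset.empty_subset _) ?_ (by simp)
    intro y hy _ z hz hyz
    have h1 : y = t.yA 0 := by
      have h2 : y ∈ cr G X t.v4 := hy
      rwa [h.is.cr4, Finset.mem_singleton] at h2
    subst h1
    exact used hl hyz hz k1
  · refine slot_le ht cov9 hK 5 (hf 5) ((cr G X (bT t 5)).erase t.z5) (Finset.erase_subset _ _)
      ?_ ?_
    · intro y hy hyT z hz hyz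
      have h1 : y = t.z5 := by
        by_contra hne
        exact hyT (Finset.mem_erase.mpr ⟨hne, hy⟩)
      subst h1
      exact used' h.cz5 hyz hz k2
    · have h1 : (cr G X (bT t 5)).card = 2 := cc_two.mp hu.cp
      have h2 : t.z5 ∈ cr G X (bT t 5) := h.hp
      rw [Finset.card_erase_of_mem h2, h1]
  · refine slot_le ht cov9 hK 6 (hf 6) ∅ (Finset.empty_subset _) ?_ (by simp)
    intro y hy _ z hz hyz
    have h1 : y = t.yA 0 := by
      have h2 : y ∈ cr G X (t.uA 0) := hy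
      rwa [h.is.A.cu 0 h.hk, Finset.mem_singleton] at h2
    subst h1
    exact used' hl hyz hz k1
  · refine slot_le ht cov9 hK 8 (hf 8) (cr G X (bT t 8)) (Finset.Subset.refl _) ?_ ?_
    · intro y hy hyT
      exact absurd hy hyT
    · exact (cc_two.mp hu.cq).le

include hcub in
/-- **(a)** the wire `B` has units: contradiction -/
theorem twin_no_a {c : V → ℕ} (hmin : MinN G X c S') {t : U5T V} (h : Tw G X N Z S t)
    (hF : ∀ v, N v → Fr G X v) (hc : ∀ v, N v → cc G X v ≤ c v) (h1 : t.v1 ∈ S')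
    (hB : 0 < t.kB) : False := by
  have ht := bT_tab hcub h hF
  have hf : ∀ i, Fr G X (bT t i) := fun i => hF _ (bT_N h i)
  have hK : ∀ e ∈ emb (bT t) TW, e ∈ emb (bT t) TW := fun e he => he
  obtain ⟨s2, s3, s5, s6, s8⟩ := slots1 (S' := S') hcub h hF hK
  have k2 : s(t.v5, t.pA 0) ∈ emb (bT t) TW := hK _ (mem_emb.mpr ⟨(4, 5), by decide, rfl⟩)
  refine kill_contra hmin h1 (K := emb (bT t) TW) (A := img (bT t)) (mem_img.mpr ⟨0, rfl⟩) ?_
  refine twin_a (bT_inj hcub h) (fun i => by rw [← bT_cc h i]; exact hc _ (bT_N h i))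
    LK_loopless ?_ ?_
  · intro i
    fin_cases i
    · exact slot_le ht cov9 hK 0 (hf 0) (cr G X (bT t 0)) (Finset.Subset.refl _)
        (fun y hy hyT => absurd hy hyT) (cc_two.mp h.is.c1).le
    · refine slot_le ht cov9 hK 1 (hf 1) (cr G X (bT t 1)) (Finset.Subset.refl _)
        (fun y hy hyT => absurd hy hyT) ?_
      have e : cr G X (bT t 1) = {t.yB 0} := h.is.cr2
      rw [e]; simp [slT]
    · exact s2
    · exact s3
    · refine slot_le ht cov9 hK 4 (hf 4) {t.yB t.kB} ?_ ?_ (by simp [slT])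
      · intro y hy
        rw [Finset.mem_singleton] at hy
        have e : cr G X (bT t 4) = {t.yB t.kB, t.z5} := h.is.cr5
        rw [e, hy]; simp
      · intro y hy hyT z hz hyz
        have e : cr G X (bT t 4) = {t.yB t.kB, t.z5} := h.is.cr5
        rw [e, Finset.mem_insert, Finset.mem_singleton] at hy
        rw [Finset.mem_singleton] at hyT
        obtain rfl := hy.resolve_left hyT
        exact used h.cz5 hyz hz k2
    · exact s5
    · exact s6
    · refine slot_le ht cov9 hK 7 (hf 7) (cr G X (bT t 7)) (Finset.Subset.refl _)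
        (fun y hy hyT => absurd hy hyT) ?_
      have e : cr G X (bT t 7) = {t.yA 1} := h.is.A.cv 0 h.hk
      rw [e]; simp [slT]
    · exact s8
  · intro hm
    have h2 := (mem_LK.mp hm).1
    have h3 := (mem_QE.mp h2).2.2
    rcases ht.conf cov9 (i := 4) (z := bT t 1) h3 with h4 | ⟨y, h4, h5⟩
    · refine (mem_LK.mp hm).2 ?_
      rw [Sym2.eq_swap]
      exact h4
    · have e1 : cr G X (bT t 4) = {t.yB t.kB, t.z5} := h.is.cr5
      have e2 : cr G X (bT t 1) = {t.yB 0} := h.is.cr2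
      rw [e1, Finset.mem_insert, Finset.mem_singleton] at h4
      rw [e2, Finset.mem_singleton] at h5
      rcases h4 with h4 | h4
      · have := h.is.B.nyy 0 (Nat.zero_le _) t.kB le_rfl (h5.symm.trans h4)
        omega
      · exact h.is.z5y' 0 (Nat.zero_le _) (h4.symm.trans h5)

/-! ### the wire `B` is a port -/

/-- the units after the first one -/
def U1 (t : U5T V) (i : ℕ) : Fin 4 → V := un t.pA t.uA t.vA t.qA (i + 1)

theorem lst_eq (t : U5T V) (i : ℕ) : lst (bT t 7) (U1 t) i = t.vA i := by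
  cases i with
  | zero => rfl
  | succ i => rfl

theorem link_mem {x : V} {U : ℕ → Fin 4 → V} {k i : ℕ} (hi : i < k) :
    s(lst x U i, U i 1) ∈ chn x U k := by
  induction k with
  | zero => omega
  | succ k ih =>
    rw [chn, Multiset.mem_add, Multiset.mem_add]
    by_cases h : i < k
    · exact Or.inl (ih h)
    · obtain rfl : i = k := by omega
      exact Or.inr (Or.inr (by simp))

theorem emb_mem {x : V} {U : ℕ → Fin 4 → V} {k i : ℕ} (hi : i < k) :
    ∀ e ∈ emb (U i) EZ, e ∈ chn x U k := by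
  intro e he
  induction k with
  | zero => omega
  | succ k ih =>
    rw [chn, Multiset.mem_add, Multiset.mem_add]
    by_cases h : i < k
    · exact Or.inl (ih h)
    · obtain rfl : i = k := by omega
      exact Or.inr (Or.inl he)

/-- all the edges -/
noncomputable def KC (t : U5T V) : Multiset (Sym2 V) :=
  emb (bT t) ((1, 4) :: TW) + (chn (bT t 7) (U1 t) (t.kA - 1) +
    {s(lst (bT t 7) (U1 t) (t.kA - 1), bT t 0)})

theorem KC_TW (t : U5T V) : ∀ e ∈ emb (bT t) TW, e ∈ KC t := by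
  intro e he
  rw [KC, Multiset.mem_add]
  left
  obtain ⟨p, hp, rfl⟩ := mem_emb.mp he
  exact mem_emb.mpr ⟨p, List.mem_cons_of_mem _ hp, rfl⟩

theorem KC_14 (t : U5T V) : s(t.v2, t.v5) ∈ KC t := by
  rw [KC, Multiset.mem_add]
  left
  exact mem_emb.mpr ⟨(1, 4), List.mem_cons_self, rfl⟩

theorem KC_un (t : U5T V) {i : ℕ} (hi : i < t.kA - 1) : ∀ e ∈ emb (U1 t i) EZ, e ∈ KC t := by
  intro e he
  rw [KC, Multiset.mem_add, Multiset.mem_add]
  exact Or.inr (Or.inl (emb_mem hi e he))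

/-- the link edges -/
theorem KC_link (t : U5T V) (hk : 0 < t.kA) {j : ℕ} (hj : j < t.kA) :
    s(t.vA j, if j + 1 = t.kA then t.v1 else t.uA (j + 1)) ∈ KC t := by
  rw [KC, Multiset.mem_add, Multiset.mem_add]
  right
  split_ifs with h
  · right
    rw [Multiset.mem_singleton, lst_eq]
    have : t.kA - 1 = j := by omega
    rw [this]
    rfl
  · left
    have := link_mem (x := bT t 7) (U := U1 t) (k := t.kA - 1) (i := j) (by omega)
    rw [lst_eq] at this
    exact this

include hcub in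
/-- **(c)** the wire `B` is a port: contradiction -/
theorem twin_no_c {c : V → ℕ} (hmin : MinN G X c S') {t : U5T V} (h : Tw G X N Z S t)
    (hF : ∀ v, N v → Fr G X v) (hc : ∀ v, N v → cc G X v ≤ c v) (h1 : t.v1 ∈ S')
    (hB : t.kB = 0) : False := by
  have ht := bT_tab hcub h hF
  have hf : ∀ i, Fr G X (bT t i) := fun i => hF _ (bT_N h i)
  have hK := KC_TW t
  have hk := h.hk
  obtain ⟨s2, s3, s5, s6, s8⟩ := slots1 (S' := S') hcub h hF hK
  have k2 : s(t.v5, t.pA 0) ∈ KC t := hK _ (mem_emb.mpr ⟨(4, 5), by decide, rfl⟩)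
  have hlB := h.is.B.link 0 (Nat.zero_le _)
  rw [if_pos rfl, if_pos hB.symm] at hlB
  -- the links of the wire `A`
  have hlA : ∀ j < t.kA, cr G X (t.yA (j + 1)) =
      {t.vA j, if j + 1 = t.kA then t.v1 else t.uA (j + 1)} := by
    intro j hj
    have := h.is.A.link (j + 1) (by omega)
    rw [if_neg (by omega)] at this
    simpa using this
  have hne : ∀ i < t.kA - 1, ∀ r s, bT t r ≠ U1 t i s := by
    intro i hi r s e
    have h5 := un_five hcub h.is (i := i + 1) (by omega) (fun h0 => absurd h0 (by omega)) s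
    have h6 : ∀ r', un t.pA t.uA t.vA t.qA 0 r' ≠ U1 t i s := by
      intro r' e'
      have := (un_inj hcub h.is.A hk (by omega) e').1
      omega
    have e2 : U1 t i s ∉ [t.v1, t.v2, t.v3, t.v4, t.v5] := h5
    rw [← e] at e2
    have h60 := h6 0
    have h61 := h6 1
    have h62 := h6 2
    have h63 := h6 3
    rw [← e] at h60 h61 h62 h63
    simp only [List.mem_cons, List.not_mem_nil, or_false, not_or] at e2
    fin_cases r
    exacts [e2.1 rfl, e2.2.1 rfl, e2.2.2.1 rfl, e2.2.2.2.1 rfl, e2.2.2.2.2 rfl, h60 rfl, h61 rfl,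
      h62 rfl, h63 rfl]
  have hUN : ∀ i < t.kA - 1, ∀ s, N (U1 t i s) := by
    intro i hi s
    obtain ⟨a, b, c, d⟩ := h.nA (i + 1) (by omega)
    fin_cases s
    exacts [a, b, c, d]
  have htab : ∀ i < t.kA - 1, OwnTab G X (U1 t i) A4 := fun i hi =>
    un_tab hcub h.is.A h.nA hF (by omega)
  have hcard : ∀ i < t.kA - 1, ∀ s, (s = 0 ∨ s = 3) → (cr G X (U1 t i s)).card = 2 := by
    intro i hi s hs
    have hu := h.is.A.unit (i + 1) (by omega)
    rcases hs with rfl | rfl
    · exact cc_two.mp hu.cp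
    · exact cc_two.mp hu.cq
  have hd0 : ∀ i < t.kA - 1, dg (LK G X S' (KC t)) (U1 t i 1) = 0 ∧
      dg (LK G X S' (KC t)) (U1 t i 2) = 0 := by
    intro i hi
    constructor
    · refine Nat.le_zero.mp (slot_le (htab i hi) cov4 (KC_un t hi) 1 (hF _ (hUN i hi 1)) ∅
        (Finset.empty_subset _) ?_ (by simp))
      intro y hy _ z hz hyz
      have e1 : cr G X (U1 t i 1) = {t.yA (i + 1)} := h.is.A.cu (i + 1) (by omega)
      rw [e1, Finset.mem_singleton] at hy
      subst hy
      have e2 := hlA i (by omega)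
      have e3 := KC_link t hk (j := i) (by omega)
      rw [if_neg (by omega)] at e2 e3
      exact used' e2 hyz hz e3
    · refine Nat.le_zero.mp (slot_le (htab i hi) cov4 (KC_un t hi) 2 (hF _ (hUN i hi 2)) ∅
        (Finset.empty_subset _) ?_ (by simp))
      intro y hy _ z hz hyz
      have e1 : cr G X (U1 t i 2) = {t.yA (i + 1 + 1)} := h.is.A.cv (i + 1) (by omega)
      rw [e1, Finset.mem_singleton] at hy
      subst hy
      exact used (hlA (i + 1) (by omega)) hyz hz (KC_link t hk (j := i + 1) (by omega))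
  have hd2 : ∀ i < t.kA - 1, ∀ s, (s = 0 ∨ s = 3) →
      dg (LK G X S' (KC t)) (U1 t i s) ≤ 2 := by
    intro i hi s hs
    exact slot_le (htab i hi) cov4 (KC_un t hi) s (hF _ (hUN i hi s)) (cr G X (U1 t i s))
      (Finset.Subset.refl _) (fun y hy hyT => absurd hy hyT) (hcard i hi s hs).le
  refine kill_contra hmin h1 (K := KC t)
    (A := img (bT t) ∪ (Finset.range (t.kA - 1)).biUnion fun i => img (U1 t i))
    (Finset.mem_union_left _ (mem_img.mpr ⟨0, rfl⟩)) ?_
  refine twin_c (bT_inj hcub h) (fun i => by rw [← bT_cc h i]; exact hc _ (bT_N h i))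
    (t.kA - 1) ?_ hne ?_ LK_loopless ?_ hd0 _ (fun i => Finset.mem_union_left _
      (mem_img.mpr ⟨i, rfl⟩)) ?_
  · intro i hi j hj s r e
    obtain ⟨e1, e2⟩ := un_inj hcub h.is.A (i := i + 1) (j := j + 1) (by omega) (by omega) e
    exact ⟨by omega, e2⟩
  · intro i hi
    have hu := h.is.A.unit (i + 1) (by omega)
    have e1 := hc _ (hUN i hi 1)
    have e2 := hc _ (hUN i hi 2)
    have e3 : cc G X (U1 t i 1) = 3 := hu.cu
    have e4 : cc G X (U1 t i 2) = 3 := hu.cv
    omega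
  · intro i
    fin_cases i
    · refine slot_le ht cov9 hK 0 (hf 0) {t.z1} ?_ ?_ (by simp [slX])
      · intro y hy
        rw [Finset.mem_singleton] at hy
        have e : cr G X (bT t 0) = {t.yA t.kA, t.z1} := h.is.cr1
        rw [e, hy]; simp
      · intro y hy hyT z hz hyz
        have e : cr G X (bT t 0) = {t.yA t.kA, t.z1} := h.is.cr1
        rw [e, Finset.mem_insert, Finset.mem_singleton] at hy
        rw [Finset.mem_singleton] at hyT
        obtain rfl := hy.resolve_right hyT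
        have e2 := hlA (t.kA - 1) (by omega)
        have e3 := KC_link t hk (j := t.kA - 1) (by omega)
        rw [if_pos (by omega)] at e2 e3
        have e4 : t.kA - 1 + 1 = t.kA := by omega
        rw [e4] at e2
        exact used' e2 hyz hz e3
    · refine slot_le ht cov9 hK 1 (hf 1) ∅ (Finset.empty_subset _) ?_ (by simp)
      intro y hy _ z hz hyz
      have e : cr G X (bT t 1) = {t.yB 0} := h.is.cr2
      rw [e, Finset.mem_singleton] at hy
      subst hy
      exact used hlB hyz hz (KC_14 t)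
    · exact s2
    · exact s3
    · refine slot_le ht cov9 hK 4 (hf 4) ∅ (Finset.empty_subset _) ?_ (by simp)
      intro y hy _ z hz hyz
      have e : cr G X (bT t 4) = {t.yB t.kB, t.z5} := h.is.cr5
      rw [e, Finset.mem_insert, Finset.mem_singleton] at hy
      rcases hy with rfl | rfl
      · rw [hB] at hyz
        exact used' hlB hyz hz (KC_14 t)
      · exact used h.cz5 hyz hz k2
    · exact s5
    · exact s6
    · refine slot_le ht cov9 hK 7 (hf 7) ∅ (Finset.empty_subset _) ?_ (by simp)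
      intro y hy _ z hz hyz
      have e : cr G X (bT t 7) = {t.yA 1} := h.is.A.cv 0 hk
      rw [e, Finset.mem_singleton] at hy
      subst hy
      exact used (hlA 0 hk) hyz hz (KC_link t hk hk)
    · exact s8
  · intro v hv hvb
    rw [Finset.mem_union, Finset.mem_biUnion] at hv
    rcases hv with hv | ⟨i, hi, hv⟩
    · obtain ⟨j, hj⟩ := mem_img.mp hv
      exact absurd hj (hvb j)
    · rw [Finset.mem_range] at hi
      obtain ⟨s, rfl⟩ := mem_img.mp hv
      have e2 : 2 ≤ c (U1 t i s) := by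
        have := hc _ (hUN i hi s)
        have h8 := cc_cap (G := G) (X := X) (U1 t i s)
        omega
      have d0 := hd0 i hi
      have dd := hd2 i hi s
      have hs := fin4_cases s
      rcases hs with rfl | rfl | rfl | rfl
      · exact (dd (Or.inl rfl)).trans e2
      · exact (dd (Or.inr rfl)).trans e2
      · rw [d0.1]; exact Nat.zero_le _
      · rw [d0.2]; exact Nat.zero_le _

end

/-! ### the theorem -/

theorem cc_le_c3 (v : V) : cc G X v ≤ c3 G X D v := by
  unfold c3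
  split_ifs
  · have := cc_cap (G := G) (X := X) v
    omega
  · exact le_rfl

theorem noLegU_A (hcub : ∀ v, (univ.filter fun b => G.Adj v b).card = 3) (h : StA G X D)
    (hmin : MinN G X (c3 G X D) S') (hFar : ∀ v, N v → Far G D v)
    (hfull : FullN G X N) {t : U5T V} (hT : t.Is G X Z S) (n1 : N t.v1) (n2 : N t.v2)
    (n3 : N t.v3) (n4 : N t.v4) (n5 : N t.v5) (nA : UN N t.kA t.pA t.uA t.vA t.qA)
    (m1 : t.v1 ∈ S') (d5 : 4 ≤ Dq G X S' t.v5) (hk : 0 < t.kA) : Far G D (t.yA 0) := by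
  by_contra hnf
  have hu := hT.A.unit 0 hk
  obtain ⟨np, nu, nv, nq⟩ := nA 0 hk
  have hlink := hT.A.link 0 (Nat.zero_le _)
  have hne := hT.A.lne 0 (Nat.zero_le _)
  rw [if_pos rfl, if_neg (by omega)] at hlink hne
  have hc : ¬ D (t.yA 0) := h.not_root (y := t.v4) (by rw [hlink]; simp)
  obtain ⟨d, hd, hdc⟩ : ∃ d, D d ∧ G.Adj d (t.yA 0) := by
    by_contra hcon
    push Not at hcon
    exact hnf ⟨hc, hcon⟩
  have f5 : Far G D t.v5 := hFar _ n5
  obtain ⟨r, hpp, hr2, hcr, hr5, hr0⟩ := h.link_port_port hcub hd hc hdc hlink hne hT.o45 hT.c5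
    (fun w hw _ => full_pt hcub (h.fr_of_far f5) hT.c5 d5 w hw) (ownR_symm hu.pu) hu.cp
    (hfull _ _ _ hu.cp ⟨hu.pu, np, nu⟩ (wire_midN hT.A nA hk))
  have hrz : r = t.z5 := by
    rw [hT.cr5, Finset.mem_insert, Finset.mem_singleton] at hr5
    rcases hr5 with hr5 | hr5
    · exfalso
      have h1 := hT.B.link t.kB le_rfl
      rw [if_pos rfl] at h1
      rw [← hr5, hcr] at h1
      have h2 : t.pA 0 ∈ ({t.v5, t.pA 0} : Finset V) := by simp
      rw [h1, Finset.mem_insert, Finset.mem_singleton] at h2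
      have hp2 := hu.cp
      rcases h2 with h2 | h2
      · split_ifs at h2 with h0
        · rw [h2, hT.c2] at hp2
          omega
        · rw [h2, (hT.B.unit (t.kB - 1) (by omega)).cv] at hp2
          omega
      · exact hpp h2.symm
    · exact hr5
  subst hrz
  have hTw : Tw G X N Z S t := ⟨hT, n1, n2, n3, n4, n5, nA, hk, hcr, hr0, hpp⟩
  have hF : ∀ v, N v → Fr G X v := fun v hv => h.fr_of_far (hFar v hv)
  rcases Nat.eq_zero_or_pos t.kB with hB | hB
  · exact twin_no_c hcub hmin hTw hF (fun v _ => cc_le_c3 v) m1 hB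
  · exact twin_no_a hcub hmin hTw hF (fun v _ => cc_le_c3 v) m1 hB

/-- **the first links of the wires of a `U_5` are no legs** -/
theorem noLegU_minus (hcub : ∀ v, (univ.filter fun b => G.Adj v b).card = 3) (h : StA G X D)
    (hI : InvZ G X Z) (hS : StuckZ G X Z S) (hSS : S' ⊆ S)
    (hmin : MinN G X (c3 G X D) S') (hFar : ∀ v, N v → Far G D v)
    (hcl : ∀ u v, ownR G X u v → N u → N v) (hfull : FullN G X N) : NoLegU G X D N Z S S' := by
  intro t hT n1 n2 n3 n4 n5 nA nB m1 m5 d1 d5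
  refine ⟨fun hk => ?_, fun hk => ?_⟩
  · exact noLegU_A hcub h hmin hFar hfull hT n1 n2 n3 n4 n5 nA m1 d5 hk
  · exact noLegU_A (t := rev5 t) hcub h hmin hFar hfull (is_rev hT) n5 n4 n3 n2 n1 nB m5 d1 hk

end Helper42.NL
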